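import Pool.Agent.Lib.Tw5.KitI

set_option linter.unusedSectionVars false
set_option linter.unusedVariables false

namespace Pool.Agent.Lib.Tw5

open Finset Pool.Agent.Lib.MP_aa6b05_co C

open scoped Classical

theorem ADD_two {V E : Type} [Fintype V] [Fintype E] {G : MG V E} {A B X : Set E}
    (h : Disjoint A B) (hA : A ⊆ X) (hB : B ⊆ X) (v : V) : hd G A v + hd G B v ≤ hd G X v := by
  rw [← hd_union h]
  exact hd_mono (Set.union_subset hA hB) v

theorem st_ADD (h1 : St_ADD1) (hS : St_SS) (hT : St_TF) : St_ADD := by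
  intro V E _ _ G md k σ C D st H A u hx ⟨ι, hi⟩ hp hA hAH
  obtain ⟨ι', e1, e2, e3⟩ := h1 hx hi hp hAH
  obtain ⟨hok, hT15, τ, ⟨hE, hcap⟩, hτ, -⟩ := hp
  have tk := tok hT15
  unfold okU at hok
  simp only [sel_and, Nat.beq_eq] at hok
  obtain ⟨o1, o2, o3⟩ := hok
  have hdeg : ∀ j < (tm (uT u)).1, hd G A (σ (dg (uP u) j)) = deg (tm (uT u)).3 j := fun j hj => by
    rw [← (hτ j hj).2]
    exact hE.hd_eq hx.cr fun a ha e => hE.inj a j ha (tch_of_deg (tk.d1 j hj)) e
  have a1 : ∀ t, tb (u1 u) t = true → t < k ∧ 1 ≤ hd G A (σ t) := fun t ht => by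
    rw [o1, tb_plm] at ht
    obtain ⟨j, hj, -, rfl⟩ := ht
    exact ⟨(hτ j hj).1, hdeg j hj ▸ tk.d1 j hj⟩
  have a2 : ∀ t, tb (u2 u) t = true → t < k ∧ 2 ≤ hd G A (σ t) := fun t ht => by
    rw [o2, tb_plm] at ht
    obtain ⟨j, hj, hb, rfl⟩ := ht
    exact ⟨(hτ j hj).1, hdeg j hj ▸ tk.d2 j hj hb⟩
  have a3 : ∀ t, tb (uC u) t = true → t < k ∧ hd G Aᶜ (σ t) ≤ 1 := fun t ht => by
    rw [o3, tb_plm] at ht
    obtain ⟨j, hj, hb, rfl⟩ := ht
    exact ⟨(hτ j hj).1, (hτ j hj).2 ▸ hcap j hj hb⟩
  have dX : Disjoint A (H ∪ HE G D) := Set.disjoint_union_right.2 ⟨hAH, hx.dj.mono_left hA⟩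
  have sX : H ∪ HE G D ⊆ H ∪ A ∪ HE G D := Set.union_subset_union_left _ Set.subset_union_left
  have sA : A ⊆ H ∪ A ∪ HE G D := Set.subset_union_right.trans Set.subset_union_left
  have sH : H ⊆ H ∪ A ∪ HE G D := Set.subset_union_left.trans Set.subset_union_left
  refine ⟨⟨ι', ?_⟩, eq_zero_of_tb fun t ht => ?_⟩
  · rw [addS_eq]
    refine ⟨e1, e2, e3, Set.union_subset hi.sub hA, fun t ht hb => ?_, fun t ht hb => ?_,
      fun t ht hb => ?_, fun t ht hb => ?_, fun y hy => ?_⟩
    · rcases tb_lor.1 hb with h | h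
      · exact (hi.t1 t ht h).trans (hd_mono sX _)
      · exact (a1 t h).2.trans (hd_mono sA _)
    · rcases tb_lor.1 hb with h | h
      · rcases tb_lor.1 h with h | h
        · exact (hi.t2 t ht h).trans (hd_mono sX _)
        · exact (a2 t h).2.trans (hd_mono sA _)
      · have b1 := hi.t1 t ht (tb_land.1 h).1
        have b2 := (a1 t (tb_land.1 h).2).2
        have b3 := ADD_two (G := G) dX sA sX (σ t)
        omega
    · rcases tb_lor.1 hb with h | h
      · exact (hd_mono (Set.compl_subset_compl.2 Set.subset_union_left) _).trans (hi.c t ht h)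
      · exact (hd_mono (Set.compl_subset_compl.2 Set.subset_union_right) _).trans (a3 t h).2
    · rcases tb_lor.1 hb with h | h
      · have b1 := hi.s t ht h
        have b2 := hd_mono (G := G) (Set.compl_subset_compl.2 sX) (σ t)
        omega
      · rcases tb_lor.1 h with h | h
        · have b1 := hi.c t ht (tb_land.1 h).1
          have b2 := (a1 t (tb_land.1 h).2).2
          have b3 := ADD_two (G := G) (disjoint_compl_right.mono_left sA)
            hAH.subset_compl_right (Set.compl_subset_compl.2 sH) (σ t)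
          omega
        · have b1 := hi.t1 t ht (tb_land.1 h).1
          have b2 := (a3 t (tb_land.1 h).2).2
          have b3 := ADD_two (G := G) (disjoint_compl_right.mono_left sX)
            dX.subset_compl_left (Set.compl_subset_compl.2 sA) (σ t)
          omega
    · have hy' : tb (ss (uP u) (tm (uT u)).1 st.7 (tm (uT u)).6) y = true := by
        have hy2 : tb (addF st u) y = true := hy
        rwa [addF, frc_eq] at hy2
      obtain ⟨c, z, hc, hz, hd'⟩ := hS _ _ _ _ y
        (fun j hj => lt_of_lt_of_le (hτ j hj).1 hx.le) (le_trans (by omega) tk.k2) hy'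
      obtain ⟨z1, z2⟩ := hi.F z hz
      refine ⟨lt_of_dec fun t ht => ?_, ?_⟩
      · rw [hd', dec_of_lt z1 ht, zero_add]
        exact sum_eq_zero fun j hj => if_neg (by have := (hτ j (mem_range.1 hj)).1; omega)
      · have hb := bf_add hAH.symm z2 (hT hx.cr hT15 hE hc)
        refine (funext fun v => ?_ : vec σ y = _) ▸ hb
        unfold vec
        have : ∀ t, (if σ t = v then dec y t else 0) = (if σ t = v then dec z t else 0) +
            ∑ j ∈ range (tm (uT u)).1,
              if dg (uP u) j = t then (if σ t = v then dec c j else 0) else 0 := fun t => by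
          rw [hd']
          split_ifs <;> simp
        simp only [this, sum_add_distrib]
        congr 1
        rw [sum_comm]
        refine sum_congr rfl fun j hj => ?_
        rw [sum_ite_eq, if_pos (mem_range.2 (lt_of_lt_of_le (hτ j (mem_range.1 hj)).1 hx.le)),
          (hτ j (mem_range.1 hj)).2]
  · rcases tb_lor.1 ht with h | h
    · obtain ⟨b0, b2⟩ := a3 t (tb_land.1 h).2
      have b1 := hi.t2 t b0 (tb_land.1 h).1
      have b3 := hd_mono (G := G) dX.subset_compl_left (σ t)
      omega
    · rcases tb_lor.1 h with h | h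
      · obtain ⟨b0, b2⟩ := a2 t (tb_land.1 h).2
        have b1 := hi.c t b0 (tb_land.1 h).1
        have b3 := hd_mono (G := G) hAH.subset_compl_right (σ t)
        omega
      · obtain ⟨b0, b2⟩ := a1 t (tb_land.1 h).2
        have b1 := hi.s t b0 (tb_land.1 h).1
        have b3 := hd_mono (G := G) dX.subset_compl_right (σ t)
        omega

end Pool.Agent.Lib.Tw5
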