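import Pool.Agent.Lib.Tw5.KitI

set_option linter.unusedSectionVars false
set_option linter.unusedVariables false

namespace Pool.Agent.Lib.Tw5

open Finset Pool.Agent.Lib.MP_aa6b05_co C

open scoped Classical

theorem ADD1_mem {st : St} {u : ℕ} {q : ℕ × ℕ} : q ∈ addL st u ↔
    (∃ p ∈ (tm (uT u)).3, (pv (uP u) st.1 p.1, pv (uP u) st.1 p.2) = q) ∨ q ∈ st.2 := by
  rw [addL_eq, List.mem_append, List.mem_reverse, List.mem_map]

theorem ADD1_tch {st : St} {u c : ℕ} (h : tch (addL st u) c) :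
    (∃ a, tch (tm (uT u)).3 a ∧ pv (uP u) st.1 a = c) ∨ tch st.2 c := by
  obtain ⟨q, h1, h2⟩ := h
  rcases ADD1_mem.mp h1 with ⟨p, hp, rfl⟩ | h3
  · rcases h2 with h2 | h2
    · exact Or.inl ⟨p.1, tch1 hp, h2⟩
    · exact Or.inl ⟨p.2, tch2 hp, h2⟩
  · exact Or.inr ⟨q, h3, h2⟩

theorem ADD1_edge {V E : Type} [Fintype V] [Fintype E] {G : MG V E} {ι : ℕ → V} {es : Es}
    {H : Set E} (h : Emb G ι es H) {c : ℕ} (hc : tch es c) : ∃ e ∈ G.cut {ι c}, e ∈ H := by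
  obtain ⟨p, hp, h1⟩ := hc
  obtain ⟨n, e, j⟩ := h.adj p hp
  refine ⟨e, mem_cut1.mpr ?_, (h.mem e).mpr ⟨p, hp, j⟩⟩
  rcases h1 with rfl | rfl
  · exact ⟨_, j, n⟩
  · exact ⟨_, j.symm, n.symm⟩

theorem st_ADD1 : St_ADD1 := by
  intro V E _ _ G md k σ ι C D st H A u hx hI hP hd
  obtain ⟨-, hT, τ, ⟨hE, -⟩, h1, h2⟩ := hP
  have hk := hx.le
  have ok := tok hT
  let ι' : ℕ → V := fun a => if a < 6 + st.1 then ι a else τ (a - st.1)
  have f0 : ∀ a, tch st.2 a → ι' a = ι a := fun a ha => by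
    have := hI.rng a ha
    exact if_pos (by omega)
  have lo : ∀ a, tch (tm (uT u)).3 a → ¬ 6 ≤ a → pv (uP u) st.1 a < k ∧
      τ a = σ (pv (uP u) st.1 a) := fun a ha h6 => by
    rw [pv_eq, if_neg h6]
    exact h1 a (by have := ok.rng a ha; omega)
  have hi : ∀ a, 6 ≤ a → pv (uP u) st.1 a = a + st.1 := fun a h6 => by rw [pv_eq, if_pos h6]
  have f1 : ∀ a, tch (tm (uT u)).3 a → ι' (pv (uP u) st.1 a) = τ a := fun a ha => by
    by_cases h6 : 6 ≤ a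
    · rw [hi a h6]
      exact (if_neg (by omega)).trans (by rw [Nat.add_sub_cancel])
    · obtain ⟨h3, h4⟩ := lo a ha h6
      exact (if_pos (by omega)).trans ((hI.slot _ (by omega)).trans h4.symm)
  have f3 : ∀ c a, tch st.2 c → tch (tm (uT u)).3 a → ι c = τ a → c = pv (uP u) st.1 a := by
    intro c a hc ha e
    by_cases h6 : 6 ≤ a
    · obtain ⟨x, h3, h4⟩ := ADD1_edge hI.emb hc
      rw [e] at h3
      exact absurd h4 (Set.disjoint_left.mp hd (not_not.mp (hE.cl a ha h6 x h3)))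
    · obtain ⟨h3, h4⟩ := lo a ha h6
      exact hI.slot_eq hx hc h3 (e.trans h4)
  have f4 : ∀ a b, tch (tm (uT u)).3 a → tch (tm (uT u)).3 b →
      pv (uP u) st.1 a = pv (uP u) st.1 b → a = b := fun a b ha hb e =>
    hE.inj a b ha hb (by rw [← f1 a ha, ← f1 b hb, e])
  refine ⟨ι', ⟨fun a b ha hb e => ?_, fun q hq => ?_, fun e => ?_, ?_, fun c hc h6 => ?_⟩,
    fun t ht => (if_pos (by omega)).trans (hI.slot t ht), fun c hc => ?_⟩
  · rcases ADD1_tch ha with ⟨a', ha', rfl⟩ | ha' <;> rcases ADD1_tch hb with ⟨b', hb', rfl⟩ | hb'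
    · rw [f1 _ ha', f1 _ hb'] at e
      rw [hE.inj _ _ ha' hb' e]
    · rw [f1 _ ha', f0 _ hb'] at e
      exact (f3 _ _ hb' ha' e.symm).symm
    · rw [f0 _ ha', f1 _ hb'] at e
      exact f3 _ _ ha' hb' e
    · rw [f0 _ ha', f0 _ hb'] at e
      exact hI.emb.inj _ _ ha' hb' e
  · rcases ADD1_mem.mp hq with ⟨p, hp, rfl⟩ | hq'
    · rw [f1 _ (tch1 hp), f1 _ (tch2 hp)]
      exact hE.adj p hp
    · rw [f0 _ (tch1 hq'), f0 _ (tch2 hq')]
      exact hI.emb.adj q hq'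
  · rw [Set.mem_union, hI.emb.mem, hE.mem]
    constructor
    · rintro (⟨p, hp, j⟩ | ⟨p, hp, j⟩)
      · exact ⟨p, ADD1_mem.mpr (Or.inr hp), by rwa [f0 _ (tch1 hp), f0 _ (tch2 hp)]⟩
      · exact ⟨_, ADD1_mem.mpr (Or.inl ⟨p, hp, rfl⟩), by rwa [f1 _ (tch1 hp), f1 _ (tch2 hp)]⟩
    · rintro ⟨q, hq, j⟩
      rcases ADD1_mem.mp hq with ⟨p, hp, rfl⟩ | hq'
      · rw [f1 _ (tch1 hp), f1 _ (tch2 hp)] at j
        exact Or.inr ⟨p, hp, j⟩
      · rw [f0 _ (tch1 hq'), f0 _ (tch2 hq')] at j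
        exact Or.inl ⟨q, hq', j⟩
  · rw [addL_eq, List.pairwise_append, List.pairwise_reverse, List.pairwise_map]
    refine ⟨?_, hI.emb.pw, fun p' hp' q hq s => ?_⟩
    · refine hE.pw.imp_of_mem fun {p q} hp hq n s => n ?_
      unfold same at s ⊢
      rcases s with ⟨a, b⟩ | ⟨a, b⟩
      · exact Or.inl ⟨(f4 _ _ (tch1 hq) (tch1 hp) a).symm, (f4 _ _ (tch2 hq) (tch2 hp) b).symm⟩
      · exact Or.inr ⟨(f4 _ _ (tch2 hq) (tch1 hp) b).symm, (f4 _ _ (tch1 hq) (tch2 hp) a).symm⟩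
    · obtain ⟨p, hp, rfl⟩ := List.mem_map.mp (List.mem_reverse.mp hp')
      obtain ⟨-, e, j⟩ := hE.adj p hp
      refine Set.disjoint_left.mp hd ((hE.mem e).mpr ⟨p, hp, j⟩) ((hI.emb.mem e).mpr ⟨q, hq, ?_⟩)
      rw [← f1 _ (tch1 hp), ← f1 _ (tch2 hp)] at j
      rw [← f0 _ (tch1 hq), ← f0 _ (tch2 hq)]
      rcases s with ⟨a, b⟩ | ⟨a, b⟩
      · rw [← a, ← b]
        exact j
      · rw [← a, ← b]
        exact j.symm
  · rcases ADD1_tch hc with ⟨a, ha, rfl⟩ | ha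
    · rw [f1 _ ha]
      refine (hE.cl a ha ?_).mono (Set.compl_subset_compl.mpr Set.subset_union_right)
      by_contra h7
      have := (lo a ha h7).1
      omega
    · rw [f0 _ ha]
      exact (hI.emb.cl c ha h6).mono (Set.compl_subset_compl.mpr Set.subset_union_left)
  · rcases ADD1_tch hc with ⟨a, ha, rfl⟩ | ha
    · by_cases h6 : 6 ≤ a
      · rw [f1 _ ha, hi a h6]
        have h3 := ok.rng a ha
        have h4 := ok.k5
        exact Or.inr ⟨by omega, by omega, h2 a ha h6⟩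
      · exact Or.inl (lo a ha h6).1
    · rw [f0 _ ha]
      exact (hI.rng c ha).imp_right fun h3 => ⟨h3.1, by omega, h3.2.2⟩

end Pool.Agent.Lib.Tw5
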