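import Pool.Agent.Lib.Tw5.KitI

set_option linter.unusedSectionVars false
set_option linter.unusedVariables false

namespace Pool.Agent.Lib.Tw5

open Finset Pool.Agent.Lib.MP_aa6b05_co C

theorem bit_c1 : allN (fun j => frc (msk j) fun m => allN (fun i =>
    sel (tb m i) (sel (tb i j) false true) (tb i j)) 4096) 12 = true := by decide +kernel

theorem bit_c2 : allN (fun j => frc (bit j) fun p => allN (fun i => sel (tb i j)
    (sel (Nat.ble p i) (sel (Nat.beq (Nat.xor i p) (Nat.sub i p))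
      (sel (tb (Nat.sub i p) j) false true) false) false)
    (sel (Nat.ble (Nat.add p i) 4095) (sel (Nat.beq (Nat.xor i p) (Nat.add p i))
      (Nat.beq (Nat.xor (Nat.add p i) p) i) false) false)) 4096) 12 = true := by decide +kernel

theorem bit_msk {j i : ℕ} (hj : j < 12) : tb (msk j) i = true ↔ i < 4096 ∧ tb i j = false := by
  by_cases hi : i < 4096
  · have := allN_iff.1 bit_c1 j hj
    rw [frc_eq] at this
    have := allN_iff.1 this i hi
    revert this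
    cases tb (msk j) i <;> cases tb i j <;> simp [hi]
  · simp only [hi, false_and, iff_false]
    exact fun h => hi (tb_ONES.1 (tb_land.1 h).2)

theorem bit_ar {j i : ℕ} (hj : j < 12) (hi : i < 4096) :
    (tb i j = false → 2 ^ j + i < 4096 ∧ i ^^^ 2 ^ j = 2 ^ j + i ∧ (2 ^ j + i) ^^^ 2 ^ j = i) ∧
    (tb i j = true → 2 ^ j ≤ i ∧ i ^^^ 2 ^ j = i - 2 ^ j ∧ tb (i - 2 ^ j) j = false) := by
  have := allN_iff.1 bit_c2 j hj
  rw [frc_eq, bit_eq] at this
  have := allN_iff.1 this i hi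
  constructor <;> intro h <;>
    simp only [h, sel_true, sel_false, sel_and, sel_not, Nat.ble_eq, Nat.beq_eq] at this
  · exact ⟨Nat.lt_succ_of_le this.1, this.2⟩
  · exact ⟨this.1, this.2.1, by simpa using this.2.2.1⟩

theorem bit_dec (c t : ℕ) :
    dec c t = kof ((tb c (2 * t)).toNat + 2 * (tb c (2 * t + 1)).toNat) := by
  unfold dec
  congr 1
  simp only [tb_eq, Nat.testBit_eq_decide_div_mod_eq]
  rw [pow_succ, ← Nat.div_div_eq_div_mul, pow_mul, show 2 ^ 2 = 4 from rfl]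
  generalize c / 4 ^ t = q
  by_cases h1 : q % 2 = 1 <;> by_cases h2 : q / 2 % 2 = 1 <;> simp [h1, h2] <;> omega

theorem bit_shl {x n i : ℕ} :
    tb (Nat.shiftLeft x n) i = true ↔ n ≤ i ∧ tb x (i - n) = true := by
  simp only [tb_eq]
  rw [Nat.shiftLeft_eq', Nat.testBit_shiftLeft]
  simp

theorem bit_shr {x n i : ℕ} : tb (Nat.shiftRight x n) i = tb x (n + i) := by
  simp only [tb_eq]
  rw [Nat.shiftRight_eq, Nat.testBit_shiftRight]

theorem bit_fl1 (S j i : ℕ) (hj : j < 12) :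
    tb (fl1 S j) i = true ↔ i < 4096 ∧ tb S (i ^^^ 2 ^ j) = true := by
  unfold fl1
  rw [tb_lor, bit_shl, tb_land, tb_land, bit_shr, bit_msk hj, bit_msk hj, bit_eq]
  constructor
  · rintro (⟨h1, h2, h3, h4⟩ | ⟨h1, h2, h3⟩)
    · obtain ⟨e1, -, e3⟩ := (bit_ar hj h3).1 h4
      rw [Nat.add_sub_cancel' h1] at e1 e3
      exact ⟨e1, by rwa [e3]⟩
    · exact ⟨h2, by rwa [((bit_ar hj h2).1 h3).2.1]⟩
  · rintro ⟨h1, h2⟩
    cases h : tb i j
    · exact Or.inr ⟨by rwa [((bit_ar hj h1).1 h).2.1] at h2, h1, rfl⟩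
    · obtain ⟨e1, e2, e3⟩ := (bit_ar hj h1).2 h
      exact Or.inl ⟨e1, by rwa [e2] at h2, (Nat.sub_le _ _).trans_lt h1, e3⟩

theorem bit_pw : ∀ t < 6, 2 ^ (2 * t) = 1 * 4 ^ t ∧ 2 ^ (2 * t + 1) = 2 * 4 ^ t ∧
    2 ^ (2 * t + 1) ^^^ 2 ^ (2 * t) = 3 * 4 ^ t ∧ 2 ^ (2 * t + 1) < 2 ^ 12 := by decide

theorem bit_fd (d S t i : ℕ) (h1 : 1 ≤ d) (h3 : d ≤ 3) (ht : t < 6) :
    tb (fd d S t) i = true ↔ i < 4096 ∧ tb S (i ^^^ d * 4 ^ t) = true := by
  obtain ⟨e1, e2, e3, e4⟩ := bit_pw t ht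
  have a1 : 2 * t < 12 := by omega
  have a2 : 2 * t + 1 < 12 := by omega
  unfold fd
  rw [frc_eq]
  obtain rfl | rfl | rfl : d = 1 ∨ d = 2 ∨ d = 3 := by omega
  · exact e1 ▸ bit_fl1 S (2 * t) i a1
  · exact e2 ▸ bit_fl1 S (2 * t + 1) i a2
  · show tb (fl2 S (2 * t)) i = true ↔ _
    unfold fl2
    rw [frc_eq, bit_fl1 _ _ _ a2, bit_fl1 _ _ _ a1, Nat.xor_assoc, e3]
    exact ⟨fun h => ⟨h.1, h.2.2⟩, fun h => ⟨h.1, Nat.xor_lt_two_pow (n := 12) h.1 e4, h.2⟩⟩

theorem bit_em (d t i : ℕ) (h1 : 1 ≤ d) (h3 : d ≤ 3) (ht : t < 6) (hi : i < 4096) :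
    tb (em d t) i = true ↔ (dec i t = 0 ∨ dec i t = kof d) := by
  have a1 : 2 * t < 12 := by omega
  have a2 : 2 * t + 1 < 12 := by omega
  rw [bit_dec]
  unfold C.em
  simp only [sel_beq]
  obtain rfl | rfl | rfl : d = 1 ∨ d = 2 ∨ d = 3 := by omega
  · rw [if_pos rfl, Nat.mul_eq, Nat.succ_eq_add_one, bit_msk a2, and_iff_right hi]
    cases tb i (2 * t) <;> cases tb i (2 * t + 1) <;> decide
  · rw [if_neg (by decide), if_pos rfl, Nat.mul_eq, bit_msk a1, and_iff_right hi]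
    cases tb i (2 * t) <;> cases tb i (2 * t + 1) <;> decide
  · rw [if_neg (by decide), if_neg (by decide), Nat.mul_eq, Nat.succ_eq_add_one, tb_xor, tb_xor,
      tb_ONES, bit_msk a1, bit_msk a2, and_iff_right hi, and_iff_right hi, iff_true_intro hi]
    cases tb i (2 * t) <;> cases tb i (2 * t + 1) <;> decide

theorem bit_nz1 {t c : ℕ} (ht : t < 5) (hc : c < 4096) : dec c t ≠ 0 → tb (nz1 t) c = true := by
  show _ → tb (Nat.xor ONES (Nat.land (msk (2 * t)) (msk (2 * t + 1)))) c = true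
  rw [bit_dec, tb_xor, tb_land, tb_ONES, bit_msk (by omega), bit_msk (by omega), and_iff_right hc,
    and_iff_right hc, iff_true_intro hc]
  cases tb c (2 * t) <;> cases tb c (2 * t + 1) <;> decide

theorem bit_nzm (M S c : ℕ) (hc : c < 4096) (hS : tb S c = true)
    (h : ∀ t < 5, tb M t = true → dec c t ≠ 0) : tb (nzm M S) c = true := by
  have (n : ℕ) (hn : n ≤ 5) : tb (Nat.rec (motive := fun _ => ℕ) S
      (fun t ih => sel (tb M t) (Nat.land ih (nz1 t)) ih) n) c = true := by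
    induction n with
    | zero => exact hS
    | succ n ih =>
      show tb (sel (tb M n) (Nat.land _ (nz1 n)) _) c = true
      rw [sel_eq]
      split_ifs with e
      · exact tb_land.2 ⟨ih (by omega), bit_nz1 hn hc (h n hn e)⟩
      · exact ih (by omega)
  exact this 5 le_rfl

theorem bit_neq (a b c : ℕ) (ha : a < 6) (hb : b < 6) (hc : c < 4096) (h : dec c a ≠ dec c b) :
    tb (neq a b) c = true := by
  show tb (Nat.lor (Nat.xor (msk (2 * a)) (msk (2 * b)))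
    (Nat.xor (msk (2 * a + 1)) (msk (2 * b + 1)))) c = true
  rw [bit_dec, bit_dec] at h
  rw [tb_lor, tb_xor, tb_xor, bit_msk (by omega), bit_msk (by omega), bit_msk (by omega),
    bit_msk (by omega)]
  revert h
  cases tb c (2 * a) <;> cases tb c (2 * b) <;> cases tb c (2 * a + 1) <;>
    cases tb c (2 * b + 1) <;> simp [hc]

theorem st_BIT : St_BIT := by
  refine ⟨bit_fl1, bit_fd, fun d t i h1 h3 ht hi => ⟨bit_em d t i h1 h3 ht hi, ?_⟩, bit_nzm,
    bit_neq⟩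
  unfold om
  rw [tb_xor, tb_ONES, bit_em d t i h1 h3 ht hi]
  simp only [hi, true_iff]

end Pool.Agent.Lib.Tw5
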