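import Pool.Agent.Lib.Tw5.Blue

set_option linter.unusedSectionVars false
set_option linter.unusedVariables false

namespace Pool.Agent.Lib.Tw5

open Finset Pool.Agent.Lib.MP_aa6b05_co C

open scoped Classical

/-- all bits of the mask have the same truth value -/
def CLO_good (Q : ℕ → Prop) (m : ℕ) : Prop :=
  ∀ a b, tb m a = true → tb m b = true → Q a → Q b

theorem CLO_pass (Q : ℕ → Prop) : ∀ (ms : List ℕ), (∀ m ∈ ms, CLO_good Q m) →
    ∀ r, (∀ a, tb r a = true → Q a) → ∀ a, tb (pass ms r) a = true → Q a := by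
  intro ms
  induction ms with
  | nil => intro _ r hr a ha; exact hr a ha
  | cons m tl ih =>
    intro hm r hr a ha
    rw [show pass (m :: tl) r =
      frc (sel (Nat.beq (Nat.land r m) 0) r (Nat.lor r m)) (pass tl) from rfl, frc_eq,
      sel_beq] at ha
    refine ih (fun x hx => hm x (List.mem_cons_of_mem _ hx)) _ ?_ a ha
    intro b hb
    split_ifs at hb with h0
    · exact hr b hb
    · obtain ⟨i, hi⟩ := tb_of_ne h0
      rw [tb_land] at hi
      rcases tb_lor.1 hb with h1 | h1
      · exact hr b h1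
      · exact hm m List.mem_cons_self i b hi.2 h1 (hr i hi.1)

theorem CLO_clo (Q : ℕ → Prop) (ms : List ℕ) (hm : ∀ m ∈ ms, CLO_good Q m) (r : ℕ)
    (hr : ∀ a, tb r a = true → Q a) : ∀ p a, tb (clo ms p r) a = true → Q a := by
  intro p
  induction p with
  | zero => intro a ha; exact hr a ha
  | succ p ih =>
    intro a ha
    rw [show clo ms (p + 1) r = frc (clo ms p r) (pass ms) from rfl, frc_eq] at ha
    exact CLO_pass Q ms hm _ ih a ha

theorem CLO_mks (ne : Es) : mks ne = ne.map fun p => Nat.lor (bit p.1) (bit p.2) := by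
  induction ne with
  | nil => rfl
  | cons p tl ih =>
    rw [show mks (p :: tl) = Nat.lor (bit p.1) (bit p.2) :: mks tl from rfl, ih, List.map_cons]

theorem CLO_good_of (Q : ℕ → Prop) (r : ℕ × ℕ) (h : Q r.1 ↔ Q r.2) :
    CLO_good Q (Nat.lor (bit r.1) (bit r.2)) := by
  intro a b ha hb hq
  rcases tb_lor.1 ha with h1 | h1 <;> rcases tb_lor.1 hb with h2 | h2 <;>
    rw [tb_bit] at h1 h2 <;> subst h1 <;> rw [← h2]
  · exact hq
  · exact h.1 hq
  · exact h.2 hq
  · exact hq

theorem CLO_nbr (Q : ℕ → Prop) (p : ℕ) (h5 : ∀ t < 5, Q t) : ∀ (ms pre : List ℕ),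
    nbr p ms pre = true → ∀ a m b, ms = a ++ m :: b →
      (∀ x, x ∈ pre ∨ x ∈ a ∨ x ∈ b → CLO_good Q x) → ∀ i, tb m i = true → Q i := by
  intro ms
  induction ms with
  | nil => intro pre _ a m b h; exact absurd h (by simp)
  | cons m0 tl ih =>
    intro pre hn a m b h hg i hi
    rw [show nbr p (m0 :: tl) pre =
      sel (Nat.beq (Nat.land m0 (clo (List.append pre tl) p 31)) m0) (nbr p tl (m0 :: pre)) false
      from rfl, sel_and] at hn
    cases a with
    | nil =>
      rw [List.nil_append, List.cons.injEq] at h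
      obtain ⟨rfl, rfl⟩ := h
      refine CLO_clo Q (List.append pre tl) ?_ 31 (fun t ht => h5 t (tb_31.1 ht)) p i
        (tb_of_land_eq (Nat.eq_of_beq_eq_true hn.1) hi)
      intro x hx
      rcases List.mem_append.1 hx with h1 | h1
      · exact hg x (Or.inl h1)
      · exact hg x (Or.inr (Or.inr h1))
    | cons a0 a' =>
      rw [List.cons_append, List.cons.injEq] at h
      obtain ⟨rfl, h⟩ := h
      refine ih (m0 :: pre) hn.2 a' m b h ?_ i hi
      intro x hx
      rcases hx with h1 | h1 | h1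
      · rcases List.mem_cons.1 h1 with h2 | h2
        · exact hg x (Or.inr (Or.inl (h2 ▸ List.mem_cons_self)))
        · exact hg x (Or.inl h2)
      · exact hg x (Or.inr (Or.inl (List.mem_cons_of_mem _ h1)))
      · exact hg x (Or.inr (Or.inr h1))

theorem CLO_pick (μ : ℕ) : ∀ (es : Es) (A : ℕ) (ne : Es) (c : ℕ), ∃ kp rs : Es,
    (kp ++ rs).Perm es ∧ ∀ k : Es → ℕ → ℕ, pick μ k es A ne c =
      k ((kp.map fun p => (lab μ p.1, lab μ p.2)) ++ ne) (rs.length + c) := by
  intro es
  induction es with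
  | nil =>
    intro A ne c
    refine ⟨[], [], List.Perm.refl _, fun k => ?_⟩
    rw [show pick μ k [] A ne c = k ne c from rfl]
    simp
  | cons p tl ih =>
    intro A ne c
    have hu : ∀ k : Es → ℕ → ℕ, pick μ k (p :: tl) A ne c =
        if Nat.mod A 2 = 1 then
          pick μ k tl (Nat.shiftRight A 1) ((lab μ p.1, lab μ p.2) :: ne) c
        else pick μ k tl (Nat.shiftRight A 1) ne (c + 1) := by
      intro k
      rw [show pick μ k (p :: tl) A ne c = frc (Nat.shiftRight A 1) fun A' =>
        sel (Nat.beq (Nat.mod A 2) 1)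
          (frc (lab μ p.1) fun x => frc (lab μ p.2) fun y => pick μ k tl A' ((x, y) :: ne) c)
          (pick μ k tl A' ne (Nat.succ c)) from rfl, frc_eq, sel_beq, frc_eq, frc_eq]
    by_cases hA : Nat.mod A 2 = 1
    · obtain ⟨kp, rs, hp, hk⟩ := ih (Nat.shiftRight A 1) ((lab μ p.1, lab μ p.2) :: ne) c
      refine ⟨kp ++ [p], rs, ?_, fun k => ?_⟩
      · rw [List.append_assoc, List.singleton_append]
        exact List.perm_middle.trans (hp.cons p)
      · rw [hu, if_pos hA, hk]
        simp
    · obtain ⟨kp, rs, hp, hk⟩ := ih (Nat.shiftRight A 1) ne (c + 1)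
      refine ⟨kp, p :: rs, List.perm_middle.trans (hp.cons p), fun k => ?_⟩
      rw [hu, if_neg hA, hk, List.length_cons]
      congr 1
      omega

theorem st_CLO : St_CLO := by
  refine ⟨?_, ?_, ?_⟩
  · intro ne p A Q h hA a ha
    refine CLO_clo Q (mks ne) ?_ A hA p a ha
    intro m hm
    rw [CLO_mks, List.mem_map] at hm
    obtain ⟨r, hr, rfl⟩ := hm
    exact CLO_good_of Q r (h r hr)
  · intro ne p Q hn h5 pre q suf hne h
    have key := CLO_nbr Q p h5 (mks ne) [] hn (mks pre) (Nat.lor (bit q.1) (bit q.2)) (mks suf)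
      (by rw [hne, CLO_mks, CLO_mks, CLO_mks, List.map_append, List.map_cons]) (by
        intro x hx
        rcases hx with h1 | h1 | h1
        · exact absurd h1 (by simp)
        · rw [CLO_mks, List.mem_map] at h1
          obtain ⟨r, hr, rfl⟩ := h1
          exact CLO_good_of Q r (h r (List.mem_append_left _ hr))
        · rw [CLO_mks, List.mem_map] at h1
          obtain ⟨r, hr, rfl⟩ := h1
          exact CLO_good_of Q r (h r (List.mem_append_right _ hr)))
    exact ⟨key _ (tb_lor.2 (Or.inl (tb_bit.2 rfl))), key _ (tb_lor.2 (Or.inr (tb_bit.2 rfl)))⟩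
  · intro μ A es
    obtain ⟨kp, rs, hp, hk⟩ := CLO_pick μ es A [] 0
    exact ⟨kp, rs, hp, fun k => by rw [hk]; simp⟩

end Pool.Agent.Lib.Tw5
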