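import Pool.Agent.Lib.Tw5.KitI

set_option linter.unusedSectionVars false
set_option linter.unusedVariables false

/-! A minimal counterexample. -/

namespace Pool.Agent.Lib.Tw5

open Finset Pool.Agent.Lib.MP_aa6b05_co C

open scoped Classical

theorem crit_pi {V E : Type} [Fintype V] [Fintype E] (G : MG V E) (A : Set E) :
    ∃ π : V → V, (∀ u w, π u = π w → Cn G {x | π x = π u} u w) ∧
      (∀ e ∈ A, π (G.s e) = π (G.t e)) ∧
      ∀ Y, Sat G A Y → ∀ u w, π u = π w → u ∈ Y → w ∈ Y := by
  let r : V → V → Prop := Relation.ReflTransGen fun x y => ∃ e ∈ A, G.Joins e x y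
  have hs : ∀ {x y}, r x y → r y x := fun h => by
    induction h with
    | refl => exact Relation.ReflTransGen.refl
    | tail _ h2 ih =>
      obtain ⟨e, he, j⟩ := h2
      exact Relation.ReflTransGen.head ⟨e, he, j.symm⟩ ih
  let S : Setoid V := ⟨r, ⟨fun _ => Relation.ReflTransGen.refl, hs, Relation.ReflTransGen.trans⟩⟩
  have hπ : ∀ u w, (Quotient.mk S u).out = (Quotient.mk S w).out ↔ r u w := fun u w =>
    Quotient.out_inj.trans Quotient.eq
  refine ⟨fun v => (Quotient.mk S v).out, fun u w h => ?_,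
    fun e he => (hπ _ _).2 (Relation.ReflTransGen.single ⟨e, he, MG.joins_self e⟩),
    fun Y hY u w h hu => ?_⟩
  · have h1 := (hπ u w).1 h
    clear h
    induction h1 with
    | refl => exact Cn.refl _ _
    | @tail b c h1 h2 ih =>
      by_cases hbc : b = c
      · exact hbc ▸ ih
      · obtain ⟨e, he, j⟩ := h2
        exact ih.trans (Cn.single ((hπ _ _).2 (hs h1))
          ((hπ _ _).2 (hs (h1.tail ⟨e, he, j⟩))) ⟨hbc, e, j⟩)
  · have h1 := (hπ u w).1 h
    clear h
    induction h1 with
    | refl => exact hu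
    | tail _ h2 ih =>
      obtain ⟨e, he, j⟩ := h2
      exact (hY.iff j he).1 ih

theorem st_CRIT (hMEO : St_MEO) (hMP : St_MP) : St_CRIT := by
  intro V E _ _ hC G
  induction h : G.m using Nat.strong_induction_on generalizing G with
  | _ n ih =>
    intro h1 h2 h3
    by_contra h4
    refine hC G ⟨h3, h4, h2, h1, fun A D hAD hY => ?_⟩
    obtain ⟨π, p1, p2, p3⟩ := crit_pi G A
    let G' : MG V E := ⟨fun e => π (G.s e), fun e => if e ∈ D then π (G.s e) else π (G.t e)⟩
    have hM : Mnr G G' π := ⟨p1, fun e => by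
      by_cases he : e ∈ D
      · exact Or.inl (by simp [G', he])
      · exact Or.inr ⟨rfl, by simp [G', he]⟩⟩
    have hcut : ∀ X, G'.cut X = cutn G (π ⁻¹' X) Dᶜ := fun X => by
      ext e
      rw [mem_cutn, MG.mem_cut, MG.mem_cut]
      by_cases he : e ∈ D <;> simp [G', he]
    have hsat : ∀ X, Sat G A (π ⁻¹' X) := fun X e he hA => by
      rw [MG.mem_cut] at he
      exact he (by simp [p2 e hA])
    have hm : G'.m < n := by
      rw [← h]
      obtain ⟨e, e1, e2⟩ := hAD
      refine card_lt_card ((ssubset_iff_of_subset fun f hf => ?_).2 ⟨e, by simpa using e1, ?_⟩)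
      · simp only [mem_filter, mem_univ, true_and] at hf ⊢
        intro hf'
        apply hf
        simp [G', hf']
      · simp only [mem_filter, mem_univ, true_and, not_not]
        by_cases he : e ∈ D
        · simp [G', he]
        · simpa [G', he] using p2 e (e2.resolve_right he)
    obtain ⟨φ, hφ⟩ := ih _ hm G' rfl (hMEO G G' π hM h1) (fun h => h2 (hMP G G' π hM h))
      fun X => by
        rw [MG.d, hcut]
        exact hY _ (hsat X)
    refine ⟨φ, hφ.1, fun Y hY' => ?_⟩
    have h5 : π ⁻¹' (π '' Y) = Y :=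
      Set.Subset.antisymm (fun w ⟨u, hu, h⟩ => p3 Y hY' u w h hu) (Set.subset_preimage_image π Y)
    rw [← h5, ← hcut]
    exact hφ.sum_cut (Set.subset_univ _)

end Pool.Agent.Lib.Tw5
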