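import Pool.Agent.Lib.Tw5.U

set_option autoImplicit false
set_option maxRecDepth 100000

namespace Pool.Agent.Lib.Tw5.C

noncomputable section

theorem tchk_all : allN tchk 15 = true := by decide +kernel

theorem achk_all : allN achk 15 = true := by decide +kernel

theorem fchk_0 : fchk 0 = true := by decide +kernel

theorem fchk_1 : fchk 1 = true := by decide +kernel

theorem fchk_2 : fchk 2 = true := by decide +kernel

theorem fchk_3 : fchk 3 = true := by decide +kernel

theorem fchk_4 : fchk 4 = true := by decide +kernel

theorem fchk_5 : fchk 5 = true := by decide +kernel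

theorem fchk_6 : fchk 6 = true := by decide +kernel

theorem fchk_7 : fchk 7 = true := by decide +kernel

theorem fchk_8 : fchk 8 = true := by decide +kernel

theorem fchk_9 : fchk 9 = true := by decide +kernel

theorem fchk_10 : fchk 10 = true := by decide +kernel

theorem fchk_11 : fchk 11 = true := by decide +kernel

theorem fchk_12 : fchk 12 = true := by decide +kernel

theorem fchk_13 : fchk 13 = true := by decide +kernel

theorem fchk_14 : fchk 14 = true := by decide +kernel

theorem nchk_0 : allN (fun T => (nchk 0 T (nthL (UU 0) T))) 15 = true := by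
  decide +kernel

theorem rchk_0 : allN (fun T => (rchk 0 T (nthL (RR 0) T))) 15 = true := by
  decide +kernel

theorem nchk_1 : allN (fun T => (nchk 1 T (nthL (UU 1) T))) 15 = true := by
  decide +kernel

theorem rchk_1 : allN (fun T => (rchk 1 T (nthL (RR 1) T))) 15 = true := by
  decide +kernel

theorem nchk_2 : allN (fun T => sel (Nat.ble (tm T).1 4) (nchk 2 T (nthL (UU 2) T)) true) 15 = true := by
  decide +kernel

theorem rchk_2 : allN (fun T => sel (Nat.ble (tm T).1 4) (rchk 2 T (nthL (RR 2) T)) true) 15 = true := by
  decide +kernel


end

end Pool.Agent.Lib.Tw5.C
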