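import Pool.Agent.Lib.Tw5.Blue

set_option linter.unusedSectionVars false
set_option linter.unusedVariables false

namespace Pool.Agent.Lib.Tw5

open Finset Pool.Agent.Lib.MP_aa6b05_co C

open scoped Classical

variable {V E : Type} [Fintype V] [Fintype E] {G : MG V E} {md k : ℕ} {σ ι : ℕ → V} {C D : Set V}
  {st : St} {H : Set E}

theorem InvI.slot_eq (hx : Cx G md k σ C D) (h : InvI G k σ C D st H ι) {a t : ℕ}
    (ha : tch st.2 a) (ht : t < k) (e : ι a = σ t) : a = t := by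
  rcases h.rng a ha with h1 | h1
  · exact hx.inj a h1 t ht ((h.slot a (lt_of_lt_of_le h1 hx.le)).symm.trans e)
  · exact absurd e (h1.2.2 t ht)

theorem InvI.hd_slot (hx : Cx G md k σ C D) (h : InvI G k σ C D st H ι) {t : ℕ} (ht : t < k) :
    hd G H (σ t) = deg st.2 t := by
  have e := h.slot t (lt_of_lt_of_le ht hx.le)
  rw [← e]
  exact h.emb.hd_eq hx.cr fun a ha h' => h.slot_eq hx ha ht (h'.trans e)

theorem Mn.mem (h : Mn G σ C D) {t : ℕ} (ht : t < 5) : σ t ∈ σ '' {t | t < 5} := ⟨t, ht, rfl⟩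

theorem Mn.sep (h : Mn G σ C D) : Sep G (HE G C) (σ '' {t | t < 5}) := sep_HE h.fc.nb

theorem Mn.ni (h : Mn G σ C D) {t : ℕ} (ht : t < 6) : Ni G (σ t) := by
  by_cases h5 : t < 5
  · obtain ⟨-, x, -, hx⟩ := h.fc.all _ (h.mem h5)
    exact hx.ni'
  · obtain rfl : t = 5 := by omega
    obtain ⟨-, x, h1, hx⟩ := h.fc.all _ (h.mem (t := 0) (by omega))
    exact (h.fc.con x h1 _ h.v).ni hx.ni

theorem Mn.ex (h : Mn G σ C D) : ∃ e, G.s e ≠ G.t e ∧ e ∈ HE G C := by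
  obtain ⟨w, n, e, j⟩ := h.ni (t := 5) (by omega)
  exact ⟨e, j.ne n, (mem_HE j).mpr ⟨n, Or.inl h.v⟩⟩

theorem Cx.card (hx : Cx G 0 k σ C D) : (σ '' {t | t < 5}).ncard = 5 := by
  have := (hx.mn rfl).1
  rw [Set.InjOn.ncard_image fun a ha b hb e => hx.inj a (by simp at ha; omega) b
    (by simp at hb; omega) e, show {t : ℕ | t < 5} = ↑(range 5) by ext; simp,
    Set.ncard_coe_finset, card_range]

/-- a code in both boundary sets is impossible -/
theorem InvI.not_F (hx : Cx G md k σ C D) (h : InvI G k σ C D st H ι) {c j : ℕ}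
    (hc : c ∈ FS G σ j Hᶜ) : ¬ tb st.7 c = true :=
  fun hb => hx.cr.nc (bf_col (h.F c hb).2 hc.2)

theorem fs_hd1 {j c t : ℕ} (hσ : ∀ a < j, ∀ b < j, σ a = σ b → a = b) (hj : j ≤ 6)
    (hc : c ∈ FS G σ j H) (ht : t < j) (h1 : hd G H (σ t) = 1) : dec c t ≠ 0 := by
  rw [← vec_apply hσ hj hc.1 ht]
  exact bf_hd1 hc.2 h1

end Pool.Agent.Lib.Tw5
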