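import Pool.Agent.Lib.Tw5.D0
import Pool.Agent.Lib.Tw5.D1
import Pool.Agent.Lib.Tw5.D2
import Pool.Agent.Lib.Tw5.D3
import Pool.Agent.Lib.Tw5.D4
import Pool.Agent.Lib.Tw5.D5
import Pool.Agent.Lib.Tw5.D6
import Pool.Agent.Lib.Tw5.D7
import Pool.Agent.Lib.Tw5.DT
import Pool.Agent.Lib.Tw5.KitI

set_option linter.unusedVariables false
set_option maxRecDepth 100000

namespace Pool.Agent.Lib.Tw5

open C

theorem data_app {P : ℕ → Prop} {a b c : ℕ} (h1 : ∀ i, a ≤ i → i < b → P i)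
    (h2 : ∀ i, b ≤ i → i < c → P i) : ∀ i, a ≤ i → i < c → P i := fun i ha hc =>
  if h : i < b then h1 i ha h else h2 i (not_lt.mp h) hc

theorem st_FCHK : St_FCHK := by
  intro T hT
  interval_cases T
  exacts [fchk_0, fchk_1, fchk_2, fchk_3, fchk_4, fchk_5, fchk_6, fchk_7, fchk_8, fchk_9, fchk_10, fchk_11, fchk_12, fchk_13, fchk_14]

theorem data_0_0 (h : St_DFS) : Lead 0 24855632 (catL (UU 0) 0) :=
  h.2 _ _ _ _ _ tp0_0 fun i hi =>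
    (data_app (h.1 _ _ _ _ _ sb0_0_0 : ∀ i, 0 ≤ i → i < 63 → SubOk 0 24855632 A0_0 i)
    (h.1 _ _ _ _ _ sb0_0_63 : ∀ i, 63 ≤ i → i < 144 → SubOk 0 24855632 A0_0 i)) i (Nat.zero_le i) hi

theorem data_0_1 (h : St_DFS) : Lead 0 24856192 (catL (UU 0) 0) :=
  h.2 _ _ _ _ _ tp0_1 fun i hi =>
    (data_app (h.1 _ _ _ _ _ sb0_1_0 : ∀ i, 0 ≤ i → i < 80 → SubOk 0 24856192 A0_1 i)
    (h.1 _ _ _ _ _ sb0_1_80 : ∀ i, 80 ≤ i → i < 143 → SubOk 0 24856192 A0_1 i)) i (Nat.zero_le i) hi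

theorem data_0_2 (h : St_DFS) : Lead 0 69818074193 (catL (UU 0) 1) :=
  h.2 _ _ _ _ _ tp0_2 fun i hi =>
    (h.1 _ _ _ _ _ sb0_2_0 : ∀ i, 0 ≤ i → i < 77 → SubOk 0 69818074193 A0_2 i) i (Nat.zero_le i) hi

theorem data_0_3 (h : St_DFS) : Lead 0 2205894273 (catL (UU 0) 1) :=
  h.2 _ _ _ _ _ tp0_3 fun i hi =>
    (h.1 _ _ _ _ _ sb0_3_0 : ∀ i, 0 ≤ i → i < 44 → SubOk 0 2205894273 A0_3 i) i (Nat.zero_le i) hi

theorem data_0_4 (h : St_DFS) : Lead 0 2205897857 (catL (UU 0) 1) :=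
  h.2 _ _ _ _ _ tp0_4 fun i hi =>
    (h.1 _ _ _ _ _ sb0_4_0 : ∀ i, 0 ≤ i → i < 17 → SubOk 0 2205897857 A0_4 i) i (Nat.zero_le i) hi

theorem data_0_5 (h : St_DFS) : Lead 0 2205919361 (catL (UU 0) 1) :=
  h.2 _ _ _ _ _ tp0_5 fun i hi =>
    (h.1 _ _ _ _ _ sb0_5_0 : ∀ i, 0 ≤ i → i < 16 → SubOk 0 2205919361 A0_5 i) i (Nat.zero_le i) hi

theorem data_0_6 (h : St_DFS) : Lead 0 2206034049 (catL (UU 0) 1) :=
  h.2 _ _ _ _ _ tp0_6 fun i hi =>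
    (h.1 _ _ _ _ _ sb0_6_0 : ∀ i, 0 ≤ i → i < 65 → SubOk 0 2206034049 A0_6 i) i (Nat.zero_le i) hi

theorem data_0_7 (h : St_DFS) : Lead 0 69818074194 (catL (UU 0) 2) :=
  h.2 _ _ _ _ _ tp0_7 fun i hi =>
    (h.1 _ _ _ _ _ sb0_7_0 : ∀ i, 0 ≤ i → i < 132 → SubOk 0 69818074194 A0_7 i) i (Nat.zero_le i) hi

theorem data_0_8 (h : St_DFS) : Lead 0 2205894274 (catL (UU 0) 2) :=
  h.2 _ _ _ _ _ tp0_8 fun i hi =>
    (h.1 _ _ _ _ _ sb0_8_0 : ∀ i, 0 ≤ i → i < 55 → SubOk 0 2205894274 A0_8 i) i (Nat.zero_le i) hi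

theorem data_0_9 (h : St_DFS) : Lead 0 87266378835 (catL (UU 0) 3) :=
  h.2 _ _ _ _ _ tp0_9 fun i hi =>
    (h.1 _ _ _ _ _ sb0_9_0 : ∀ i, 0 ≤ i → i < 29 → SubOk 0 87266378835 A0_9 i) i (Nat.zero_le i) hi

theorem data_0_10 (h : St_DFS) : Lead 0 19654198915 (catL (UU 0) 3) :=
  h.2 _ _ _ _ _ tp0_10 fun i hi =>
    (h.1 _ _ _ _ _ sb0_10_0 : ∀ i, 0 ≤ i → i < 10 → SubOk 0 19654198915 A0_10 i) i (Nat.zero_le i) hi

theorem data_0_11 (h : St_DFS) : Lead 0 19654202499 (catL (UU 0) 3) :=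
  h.2 _ _ _ _ _ tp0_11 fun i hi =>
    (h.1 _ _ _ _ _ sb0_11_0 : ∀ i, 0 ≤ i → i < 9 → SubOk 0 19654202499 A0_11 i) i (Nat.zero_le i) hi

theorem data_0_12 (h : St_DFS) : Lead 0 19654224003 (catL (UU 0) 3) :=
  h.2 _ _ _ _ _ tp0_12 fun i hi =>
    (h.1 _ _ _ _ _ sb0_12_0 : ∀ i, 0 ≤ i → i < 9 → SubOk 0 19654224003 A0_12 i) i (Nat.zero_le i) hi

theorem data_0_13 (h : St_DFS) : Lead 0 71999252611 (catL (UU 0) 3) :=
  h.2 _ _ _ _ _ tp0_13 fun i hi =>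
    (h.1 _ _ _ _ _ sb0_13_0 : ∀ i, 0 ≤ i → i < 39 → SubOk 0 71999252611 A0_13 i) i (Nat.zero_le i) hi

theorem data_0_14 (h : St_DFS) : Lead 0 74180150356 (catL (UU 0) 4) :=
  h.2 _ _ _ _ _ tp0_14 fun i hi =>
    (h.1 _ _ _ _ _ sb0_14_0 : ∀ i, 0 ≤ i → i < 34 → SubOk 0 74180150356 A0_14 i) i (Nat.zero_le i) hi

theorem data_0_15 (h : St_DFS) : Lead 0 6567970436 (catL (UU 0) 4) :=
  h.2 _ _ _ _ _ tp0_15 fun i hi =>
    (h.1 _ _ _ _ _ sb0_15_0 : ∀ i, 0 ≤ i → i < 5 → SubOk 0 6567970436 A0_15 i) i (Nat.zero_le i) hi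

theorem data_0_16 (h : St_DFS) : Lead 0 10930071684 (catL (UU 0) 4) :=
  h.2 _ _ _ _ _ tp0_16 fun i hi =>
    (h.1 _ _ _ _ _ sb0_16_0 : ∀ i, 0 ≤ i → i < 9 → SubOk 0 10930071684 A0_16 i) i (Nat.zero_le i) hi

theorem data_0_17 (h : St_DFS) : Lead 0 71999112277 (catL (UU 0) 5) :=
  h.2 _ _ _ _ _ tp0_17 fun i hi =>
    (h.1 _ _ _ _ _ sb0_17_0 : ∀ i, 0 ≤ i → i < 8 → SubOk 0 71999112277 A0_17 i) i (Nat.zero_le i) hi

theorem data_0_18 (h : St_DFS) : Lead 0 6567974021 (catL (UU 0) 5) :=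
  h.2 _ _ _ _ _ tp0_18 fun i hi =>
    (h.1 _ _ _ _ _ sb0_18_0 : ∀ i, 0 ≤ i → i < 10 → SubOk 0 6567974021 A0_18 i) i (Nat.zero_le i) hi

theorem data_0_19 (h : St_DFS) : Lead 0 6567995525 (catL (UU 0) 5) :=
  h.2 _ _ _ _ _ tp0_19 fun i hi =>
    (h.1 _ _ _ _ _ sb0_19_0 : ∀ i, 0 ≤ i → i < 10 → SubOk 0 6567995525 A0_19 i) i (Nat.zero_le i) hi

theorem data_0_20 (h : St_DFS) : Lead 0 24855638 (catL (UU 0) 6) :=
  h.2 _ _ _ _ _ tp0_20 fun i hi =>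
    (data_app (data_app (data_app (data_app (h.1 _ _ _ _ _ sb0_20_0 : ∀ i, 0 ≤ i → i < 20 → SubOk 0 24855638 A0_20 i)
    (h.1 _ _ _ _ _ sb0_20_20 : ∀ i, 20 ≤ i → i < 84 → SubOk 0 24855638 A0_20 i))
    (h.1 _ _ _ _ _ sb0_20_84 : ∀ i, 84 ≤ i → i < 121 → SubOk 0 24855638 A0_20 i))
    (h.1 _ _ _ _ _ sb0_20_121 : ∀ i, 121 ≤ i → i < 187 → SubOk 0 24855638 A0_20 i))
    (h.1 _ _ _ _ _ sb0_20_187 : ∀ i, 187 ≤ i → i < 226 → SubOk 0 24855638 A0_20 i)) i (Nat.zero_le i) hi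

theorem data_0_21 (h : St_DFS) : Lead 0 69818074199 (catL (UU 0) 7) :=
  h.2 _ _ _ _ _ tp0_21 fun i hi =>
    (h.1 _ _ _ _ _ sb0_21_0 : ∀ i, 0 ≤ i → i < 92 → SubOk 0 69818074199 A0_21 i) i (Nat.zero_le i) hi

theorem data_0_22 (h : St_DFS) : Lead 0 2205894279 (catL (UU 0) 7) :=
  h.2 _ _ _ _ _ tp0_22 fun i hi =>
    (h.1 _ _ _ _ _ sb0_22_0 : ∀ i, 0 ≤ i → i < 47 → SubOk 0 2205894279 A0_22 i) i (Nat.zero_le i) hi

theorem data_0_23 (h : St_DFS) : Lead 0 2205919367 (catL (UU 0) 7) :=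
  h.2 _ _ _ _ _ tp0_23 fun i hi =>
    (h.1 _ _ _ _ _ sb0_23_0 : ∀ i, 0 ≤ i → i < 57 → SubOk 0 2205919367 A0_23 i) i (Nat.zero_le i) hi

theorem data_0_24 (h : St_DFS) : Lead 0 24855640 (catL (UU 0) 8) :=
  h.2 _ _ _ _ _ tp0_24 fun i hi =>
    (data_app (h.1 _ _ _ _ _ sb0_24_0 : ∀ i, 0 ≤ i → i < 45 → SubOk 0 24855640 A0_24 i)
    (h.1 _ _ _ _ _ sb0_24_45 : ∀ i, 45 ≤ i → i < 112 → SubOk 0 24855640 A0_24 i)) i (Nat.zero_le i) hi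

theorem data_0_25 (h : St_DFS) : Lead 0 24859784 (catL (UU 0) 8) :=
  h.2 _ _ _ _ _ tp0_25 fun i hi =>
    (data_app (data_app (h.1 _ _ _ _ _ sb0_25_0 : ∀ i, 0 ≤ i → i < 35 → SubOk 0 24859784 A0_25 i)
    (h.1 _ _ _ _ _ sb0_25_35 : ∀ i, 35 ≤ i → i < 87 → SubOk 0 24859784 A0_25 i))
    (h.1 _ _ _ _ _ sb0_25_87 : ∀ i, 87 ≤ i → i < 123 → SubOk 0 24859784 A0_25 i)) i (Nat.zero_le i) hi

theorem data_0_26 (h : St_DFS) : Lead 0 24855641 (catL (UU 0) 9) :=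
  h.2 _ _ _ _ _ tp0_26 fun i hi =>
    (h.1 _ _ _ _ _ sb0_26_0 : ∀ i, 0 ≤ i → i < 25 → SubOk 0 24855641 A0_26 i) i (Nat.zero_le i) hi

theorem data_0_27 (h : St_DFS) : Lead 0 24881289 (catL (UU 0) 9) :=
  h.2 _ _ _ _ _ tp0_27 fun i hi =>
    (h.1 _ _ _ _ _ sb0_27_0 : ∀ i, 0 ≤ i → i < 34 → SubOk 0 24881289 A0_27 i) i (Nat.zero_le i) hi

theorem data_0_28 (h : St_DFS) : Lead 0 24855642 (catL (UU 0) 10) :=
  h.2 _ _ _ _ _ tp0_28 fun i hi =>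
    (h.1 _ _ _ _ _ sb0_28_0 : ∀ i, 0 ≤ i → i < 1 → SubOk 0 24855642 A0_28 i) i (Nat.zero_le i) hi

theorem data_0_29 (h : St_DFS) : Lead 0 20464731 (catL (UU 0) 11) :=
  h.2 _ _ _ _ _ tp0_29 fun i hi =>
    (data_app (h.1 _ _ _ _ _ sb0_29_0 : ∀ i, 0 ≤ i → i < 4 → SubOk 0 20464731 A0_29 i)
    (h.1 _ _ _ _ _ sb0_29_4 : ∀ i, 4 ≤ i → i < 31 → SubOk 0 20464731 A0_29 i)) i (Nat.zero_le i) hi

theorem data_0_30 (h : St_DFS) : Lead 0 20464732 (catL (UU 0) 12) :=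
  h.2 _ _ _ _ _ tp0_30 fun i hi =>
    (h.1 _ _ _ _ _ sb0_30_0 : ∀ i, 0 ≤ i → i < 3 → SubOk 0 20464732 A0_30 i) i (Nat.zero_le i) hi

theorem data_0_31 (h : St_DFS) : Lead 0 18351197 (catL (UU 0) 13) :=
  h.2 _ _ _ _ _ tp0_31 fun i hi =>
    (h.1 _ _ _ _ _ sb0_31_0 : ∀ i, 0 ≤ i → i < 6 → SubOk 0 18351197 A0_31 i) i (Nat.zero_le i) hi

theorem data_0_32 (h : St_DFS) : Lead 0 17301598 (catL (UU 0) 14) :=
  h.2 _ _ _ _ _ tp0_32 fun i hi =>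
    (h.1 _ _ _ _ _ sb0_32_0 : ∀ i, 0 ≤ i → i < 4 → SubOk 0 17301598 A0_32 i) i (Nat.zero_le i) hi

theorem data_1_0 (h : St_DFS) : Lead 1 16541824 (catL (UU 1) 0) :=
  h.2 _ _ _ _ _ tp1_0 fun i hi =>
    (h.1 _ _ _ _ _ sb1_0_0 : ∀ i, 0 ≤ i → i < 38 → SubOk 1 16541824 A1_0 i) i (Nat.zero_le i) hi

theorem data_1_1 (h : St_DFS) : Lead 1 2197579905 (catL (UU 1) 1) :=
  h.2 _ _ _ _ _ tp1_1 fun i hi =>
    (h.1 _ _ _ _ _ sb1_1_0 : ∀ i, 0 ≤ i → i < 24 → SubOk 1 2197579905 A1_1 i) i (Nat.zero_le i) hi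

theorem data_1_2 (h : St_DFS) : Lead 1 2197579906 (catL (UU 1) 2) :=
  h.2 _ _ _ _ _ tp1_2 fun i hi =>
    (h.1 _ _ _ _ _ sb1_2_0 : ∀ i, 0 ≤ i → i < 30 → SubOk 1 2197579906 A1_2 i) i (Nat.zero_le i) hi

theorem data_1_3 (h : St_DFS) : Lead 1 37094189187 (catL (UU 1) 3) :=
  h.2 _ _ _ _ _ tp1_3 fun i hi =>
    (h.1 _ _ _ _ _ sb1_3_0 : ∀ i, 0 ≤ i → i < 12 → SubOk 1 37094189187 A1_3 i) i (Nat.zero_le i) hi

theorem data_1_4 (h : St_DFS) : Lead 1 10921732228 (catL (UU 1) 4) :=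
  h.2 _ _ _ _ _ tp1_4 fun i hi =>
    (h.1 _ _ _ _ _ sb1_4_0 : ∀ i, 0 ≤ i → i < 13 → SubOk 1 10921732228 A1_4 i) i (Nat.zero_le i) hi

theorem data_1_5 (h : St_DFS) : Lead 1 6559656069 (catL (UU 1) 5) :=
  h.2 _ _ _ _ _ tp1_5 fun i hi =>
    (h.1 _ _ _ _ _ sb1_5_0 : ∀ i, 0 ≤ i → i < 13 → SubOk 1 6559656069 A1_5 i) i (Nat.zero_le i) hi

theorem data_1_6 (h : St_DFS) : Lead 1 16541830 (catL (UU 1) 6) :=
  h.2 _ _ _ _ _ tp1_6 fun i hi =>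
    (h.1 _ _ _ _ _ sb1_6_0 : ∀ i, 0 ≤ i → i < 40 → SubOk 1 16541830 A1_6 i) i (Nat.zero_le i) hi

theorem data_1_7 (h : St_DFS) : Lead 1 2197579911 (catL (UU 1) 7) :=
  h.2 _ _ _ _ _ tp1_7 fun i hi =>
    (h.1 _ _ _ _ _ sb1_7_0 : ∀ i, 0 ≤ i → i < 18 → SubOk 1 2197579911 A1_7 i) i (Nat.zero_le i) hi

theorem data_1_8 (h : St_DFS) : Lead 1 16541832 (catL (UU 1) 8) :=
  h.2 _ _ _ _ _ tp1_8 fun i hi =>
    (h.1 _ _ _ _ _ sb1_8_0 : ∀ i, 0 ≤ i → i < 20 → SubOk 1 16541832 A1_8 i) i (Nat.zero_le i) hi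

theorem data_1_9 (h : St_DFS) : Lead 1 16541833 (catL (UU 1) 9) :=
  h.2 _ _ _ _ _ tp1_9 fun i hi =>
    (h.1 _ _ _ _ _ sb1_9_0 : ∀ i, 0 ≤ i → i < 6 → SubOk 1 16541833 A1_9 i) i (Nat.zero_le i) hi

theorem data_1_10 (h : St_DFS) : Lead 1 16541834 (catL (UU 1) 10) :=
  h.2 _ _ _ _ _ tp1_10 fun i hi => absurd hi (Nat.not_lt_zero i)

theorem data_1_11 (h : St_DFS) : Lead 1 7891083 (catL (UU 1) 11) :=
  h.2 _ _ _ _ _ tp1_11 fun i hi =>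
    (h.1 _ _ _ _ _ sb1_11_0 : ∀ i, 0 ≤ i → i < 18 → SubOk 1 7891083 A1_11 i) i (Nat.zero_le i) hi

theorem data_1_12 (h : St_DFS) : Lead 1 7891084 (catL (UU 1) 12) :=
  h.2 _ _ _ _ _ tp1_12 fun i hi =>
    (h.1 _ _ _ _ _ sb1_12_0 : ∀ i, 0 ≤ i → i < 4 → SubOk 1 7891084 A1_12 i) i (Nat.zero_le i) hi

theorem data_1_13 (h : St_DFS) : Lead 1 3672205 (catL (UU 1) 13) :=
  h.2 _ _ _ _ _ tp1_13 fun i hi =>
    (h.1 _ _ _ _ _ sb1_13_0 : ∀ i, 0 ≤ i → i < 10 → SubOk 1 3672205 A1_13 i) i (Nat.zero_le i) hi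

theorem data_1_14 (h : St_DFS) : Lead 1 1573006 (catL (UU 1) 14) :=
  h.2 _ _ _ _ _ tp1_14 fun i hi =>
    (h.1 _ _ _ _ _ sb1_14_0 : ∀ i, 0 ≤ i → i < 9 → SubOk 1 1573006 A1_14 i) i (Nat.zero_le i) hi

theorem data_2_0 (h : St_DFS) : Lead 2 7891083 (catL (UU 2) 11) :=
  h.2 _ _ _ _ _ tp2_0 fun i hi =>
    (data_app (data_app (data_app (data_app (data_app (data_app (data_app (data_app (data_app (data_app (data_app (data_app (data_app (data_app (data_app (data_app (h.1 _ _ _ _ _ sb2_0_0 : ∀ i, 0 ≤ i → i < 1 → SubOk 2 7891083 A2_0 i)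
    (h.1 _ _ _ _ _ sb2_0_1 : ∀ i, 1 ≤ i → i < 2 → SubOk 2 7891083 A2_0 i))
    (h.1 _ _ _ _ _ sb2_0_2 : ∀ i, 2 ≤ i → i < 3 → SubOk 2 7891083 A2_0 i))
    (h.1 _ _ _ _ _ sb2_0_3 : ∀ i, 3 ≤ i → i < 4 → SubOk 2 7891083 A2_0 i))
    (h.1 _ _ _ _ _ sb2_0_4 : ∀ i, 4 ≤ i → i < 5 → SubOk 2 7891083 A2_0 i))
    (h.1 _ _ _ _ _ sb2_0_5 : ∀ i, 5 ≤ i → i < 7 → SubOk 2 7891083 A2_0 i))
    (h.1 _ _ _ _ _ sb2_0_7 : ∀ i, 7 ≤ i → i < 8 → SubOk 2 7891083 A2_0 i))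
    (h.1 _ _ _ _ _ sb2_0_8 : ∀ i, 8 ≤ i → i < 9 → SubOk 2 7891083 A2_0 i))
    (h.1 _ _ _ _ _ sb2_0_9 : ∀ i, 9 ≤ i → i < 10 → SubOk 2 7891083 A2_0 i))
    (h.1 _ _ _ _ _ sb2_0_10 : ∀ i, 10 ≤ i → i < 11 → SubOk 2 7891083 A2_0 i))
    (h.1 _ _ _ _ _ sb2_0_11 : ∀ i, 11 ≤ i → i < 13 → SubOk 2 7891083 A2_0 i))
    (h.1 _ _ _ _ _ sb2_0_13 : ∀ i, 13 ≤ i → i < 16 → SubOk 2 7891083 A2_0 i))
    (h.1 _ _ _ _ _ sb2_0_16 : ∀ i, 16 ≤ i → i < 19 → SubOk 2 7891083 A2_0 i))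
    (h.1 _ _ _ _ _ sb2_0_19 : ∀ i, 19 ≤ i → i < 24 → SubOk 2 7891083 A2_0 i))
    (h.1 _ _ _ _ _ sb2_0_24 : ∀ i, 24 ≤ i → i < 29 → SubOk 2 7891083 A2_0 i))
    (h.1 _ _ _ _ _ sb2_0_29 : ∀ i, 29 ≤ i → i < 42 → SubOk 2 7891083 A2_0 i))
    (h.1 _ _ _ _ _ sb2_0_42 : ∀ i, 42 ≤ i → i < 59 → SubOk 2 7891083 A2_0 i)) i (Nat.zero_le i) hi

theorem data_2_1 (h : St_DFS) : Lead 2 7891084 (catL (UU 2) 12) :=
  h.2 _ _ _ _ _ tp2_1 fun i hi =>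
    (h.1 _ _ _ _ _ sb2_1_0 : ∀ i, 0 ≤ i → i < 13 → SubOk 2 7891084 A2_1 i) i (Nat.zero_le i) hi

theorem data_2_2 (h : St_DFS) : Lead 2 3672205 (catL (UU 2) 13) :=
  h.2 _ _ _ _ _ tp2_2 fun i hi =>
    (data_app (h.1 _ _ _ _ _ sb2_2_0 : ∀ i, 0 ≤ i → i < 12 → SubOk 2 3672205 A2_2 i)
    (h.1 _ _ _ _ _ sb2_2_12 : ∀ i, 12 ≤ i → i < 22 → SubOk 2 3672205 A2_2 i)) i (Nat.zero_le i) hi

theorem data_2_3 (h : St_DFS) : Lead 2 1573006 (catL (UU 2) 14) :=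
  h.2 _ _ _ _ _ tp2_3 fun i hi =>
    (h.1 _ _ _ _ _ sb2_3_0 : ∀ i, 0 ≤ i → i < 14 → SubOk 2 1573006 A2_3 i) i (Nat.zero_le i) hi

theorem data_md0 (h : St_DFS) : ∀ T < 15, ∀ r ∈ nthL (RR 0) T, Lead 0 r (catL (UU 0) T) := by
  intro T hT
  interval_cases T
  · exact (show ∀ r ∈ R0_0, Lead 0 r (catL (UU 0) 0) from
      List.forall_mem_cons.mpr ⟨data_0_0 h, List.forall_mem_cons.mpr ⟨data_0_1 h, fun _ h => absurd h List.not_mem_nil⟩⟩)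
  · exact (show ∀ r ∈ R0_1, Lead 0 r (catL (UU 0) 1) from
      List.forall_mem_cons.mpr ⟨data_0_2 h, List.forall_mem_cons.mpr ⟨data_0_3 h, List.forall_mem_cons.mpr ⟨data_0_4 h, List.forall_mem_cons.mpr ⟨data_0_5 h, List.forall_mem_cons.mpr ⟨data_0_6 h, fun _ h => absurd h List.not_mem_nil⟩⟩⟩⟩⟩)
  · exact (show ∀ r ∈ R0_2, Lead 0 r (catL (UU 0) 2) from
      List.forall_mem_cons.mpr ⟨data_0_7 h, List.forall_mem_cons.mpr ⟨data_0_8 h, fun _ h => absurd h List.not_mem_nil⟩⟩)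
  · exact (show ∀ r ∈ R0_3, Lead 0 r (catL (UU 0) 3) from
      List.forall_mem_cons.mpr ⟨data_0_9 h, List.forall_mem_cons.mpr ⟨data_0_10 h, List.forall_mem_cons.mpr ⟨data_0_11 h, List.forall_mem_cons.mpr ⟨data_0_12 h, List.forall_mem_cons.mpr ⟨data_0_13 h, fun _ h => absurd h List.not_mem_nil⟩⟩⟩⟩⟩)
  · exact (show ∀ r ∈ R0_4, Lead 0 r (catL (UU 0) 4) from
      List.forall_mem_cons.mpr ⟨data_0_14 h, List.forall_mem_cons.mpr ⟨data_0_15 h, List.forall_mem_cons.mpr ⟨data_0_16 h, fun _ h => absurd h List.not_mem_nil⟩⟩⟩)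
  · exact (show ∀ r ∈ R0_5, Lead 0 r (catL (UU 0) 5) from
      List.forall_mem_cons.mpr ⟨data_0_17 h, List.forall_mem_cons.mpr ⟨data_0_18 h, List.forall_mem_cons.mpr ⟨data_0_19 h, fun _ h => absurd h List.not_mem_nil⟩⟩⟩)
  · exact (show ∀ r ∈ R0_6, Lead 0 r (catL (UU 0) 6) from
      List.forall_mem_cons.mpr ⟨data_0_20 h, fun _ h => absurd h List.not_mem_nil⟩)
  · exact (show ∀ r ∈ R0_7, Lead 0 r (catL (UU 0) 7) from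
      List.forall_mem_cons.mpr ⟨data_0_21 h, List.forall_mem_cons.mpr ⟨data_0_22 h, List.forall_mem_cons.mpr ⟨data_0_23 h, fun _ h => absurd h List.not_mem_nil⟩⟩⟩)
  · exact (show ∀ r ∈ R0_8, Lead 0 r (catL (UU 0) 8) from
      List.forall_mem_cons.mpr ⟨data_0_24 h, List.forall_mem_cons.mpr ⟨data_0_25 h, fun _ h => absurd h List.not_mem_nil⟩⟩)
  · exact (show ∀ r ∈ R0_9, Lead 0 r (catL (UU 0) 9) from
      List.forall_mem_cons.mpr ⟨data_0_26 h, List.forall_mem_cons.mpr ⟨data_0_27 h, fun _ h => absurd h List.not_mem_nil⟩⟩)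
  · exact (show ∀ r ∈ R0_10, Lead 0 r (catL (UU 0) 10) from
      List.forall_mem_cons.mpr ⟨data_0_28 h, fun _ h => absurd h List.not_mem_nil⟩)
  · exact (show ∀ r ∈ R0_11, Lead 0 r (catL (UU 0) 11) from
      List.forall_mem_cons.mpr ⟨data_0_29 h, fun _ h => absurd h List.not_mem_nil⟩)
  · exact (show ∀ r ∈ R0_12, Lead 0 r (catL (UU 0) 12) from
      List.forall_mem_cons.mpr ⟨data_0_30 h, fun _ h => absurd h List.not_mem_nil⟩)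
  · exact (show ∀ r ∈ R0_13, Lead 0 r (catL (UU 0) 13) from
      List.forall_mem_cons.mpr ⟨data_0_31 h, fun _ h => absurd h List.not_mem_nil⟩)
  · exact (show ∀ r ∈ R0_14, Lead 0 r (catL (UU 0) 14) from
      List.forall_mem_cons.mpr ⟨data_0_32 h, fun _ h => absurd h List.not_mem_nil⟩)

theorem data_md1 (h : St_DFS) : ∀ T < 15, ∀ r ∈ nthL (RR 1) T, Lead 1 r (catL (UU 1) T) := by
  intro T hT
  interval_cases T
  · exact (show ∀ r ∈ R1_0, Lead 1 r (catL (UU 1) 0) from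
      List.forall_mem_cons.mpr ⟨data_1_0 h, fun _ h => absurd h List.not_mem_nil⟩)
  · exact (show ∀ r ∈ R1_1, Lead 1 r (catL (UU 1) 1) from
      List.forall_mem_cons.mpr ⟨data_1_1 h, fun _ h => absurd h List.not_mem_nil⟩)
  · exact (show ∀ r ∈ R1_2, Lead 1 r (catL (UU 1) 2) from
      List.forall_mem_cons.mpr ⟨data_1_2 h, fun _ h => absurd h List.not_mem_nil⟩)
  · exact (show ∀ r ∈ R1_3, Lead 1 r (catL (UU 1) 3) from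
      List.forall_mem_cons.mpr ⟨data_1_3 h, fun _ h => absurd h List.not_mem_nil⟩)
  · exact (show ∀ r ∈ R1_4, Lead 1 r (catL (UU 1) 4) from
      List.forall_mem_cons.mpr ⟨data_1_4 h, fun _ h => absurd h List.not_mem_nil⟩)
  · exact (show ∀ r ∈ R1_5, Lead 1 r (catL (UU 1) 5) from
      List.forall_mem_cons.mpr ⟨data_1_5 h, fun _ h => absurd h List.not_mem_nil⟩)
  · exact (show ∀ r ∈ R1_6, Lead 1 r (catL (UU 1) 6) from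
      List.forall_mem_cons.mpr ⟨data_1_6 h, fun _ h => absurd h List.not_mem_nil⟩)
  · exact (show ∀ r ∈ R1_7, Lead 1 r (catL (UU 1) 7) from
      List.forall_mem_cons.mpr ⟨data_1_7 h, fun _ h => absurd h List.not_mem_nil⟩)
  · exact (show ∀ r ∈ R1_8, Lead 1 r (catL (UU 1) 8) from
      List.forall_mem_cons.mpr ⟨data_1_8 h, fun _ h => absurd h List.not_mem_nil⟩)
  · exact (show ∀ r ∈ R1_9, Lead 1 r (catL (UU 1) 9) from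
      List.forall_mem_cons.mpr ⟨data_1_9 h, fun _ h => absurd h List.not_mem_nil⟩)
  · exact (show ∀ r ∈ R1_10, Lead 1 r (catL (UU 1) 10) from
      List.forall_mem_cons.mpr ⟨data_1_10 h, fun _ h => absurd h List.not_mem_nil⟩)
  · exact (show ∀ r ∈ R1_11, Lead 1 r (catL (UU 1) 11) from
      List.forall_mem_cons.mpr ⟨data_1_11 h, fun _ h => absurd h List.not_mem_nil⟩)
  · exact (show ∀ r ∈ R1_12, Lead 1 r (catL (UU 1) 12) from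
      List.forall_mem_cons.mpr ⟨data_1_12 h, fun _ h => absurd h List.not_mem_nil⟩)
  · exact (show ∀ r ∈ R1_13, Lead 1 r (catL (UU 1) 13) from
      List.forall_mem_cons.mpr ⟨data_1_13 h, fun _ h => absurd h List.not_mem_nil⟩)
  · exact (show ∀ r ∈ R1_14, Lead 1 r (catL (UU 1) 14) from
      List.forall_mem_cons.mpr ⟨data_1_14 h, fun _ h => absurd h List.not_mem_nil⟩)

theorem data_md2 (h : St_DFS) : ∀ T < 15, ∀ r ∈ nthL (RR 2) T, Lead 2 r (catL (UU 2) T) := by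
  intro T hT
  interval_cases T
  · exact (show ∀ r ∈ R2_0, Lead 2 r (catL (UU 2) 0) from
      fun _ h => absurd h List.not_mem_nil)
  · exact (show ∀ r ∈ R2_1, Lead 2 r (catL (UU 2) 1) from
      fun _ h => absurd h List.not_mem_nil)
  · exact (show ∀ r ∈ R2_2, Lead 2 r (catL (UU 2) 2) from
      fun _ h => absurd h List.not_mem_nil)
  · exact (show ∀ r ∈ R2_3, Lead 2 r (catL (UU 2) 3) from
      fun _ h => absurd h List.not_mem_nil)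
  · exact (show ∀ r ∈ R2_4, Lead 2 r (catL (UU 2) 4) from
      fun _ h => absurd h List.not_mem_nil)
  · exact (show ∀ r ∈ R2_5, Lead 2 r (catL (UU 2) 5) from
      fun _ h => absurd h List.not_mem_nil)
  · exact (show ∀ r ∈ R2_6, Lead 2 r (catL (UU 2) 6) from
      fun _ h => absurd h List.not_mem_nil)
  · exact (show ∀ r ∈ R2_7, Lead 2 r (catL (UU 2) 7) from
      fun _ h => absurd h List.not_mem_nil)
  · exact (show ∀ r ∈ R2_8, Lead 2 r (catL (UU 2) 8) from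
      fun _ h => absurd h List.not_mem_nil)
  · exact (show ∀ r ∈ R2_9, Lead 2 r (catL (UU 2) 9) from
      fun _ h => absurd h List.not_mem_nil)
  · exact (show ∀ r ∈ R2_10, Lead 2 r (catL (UU 2) 10) from
      fun _ h => absurd h List.not_mem_nil)
  · exact (show ∀ r ∈ R2_11, Lead 2 r (catL (UU 2) 11) from
      List.forall_mem_cons.mpr ⟨data_2_0 h, fun _ h => absurd h List.not_mem_nil⟩)
  · exact (show ∀ r ∈ R2_12, Lead 2 r (catL (UU 2) 12) from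
      List.forall_mem_cons.mpr ⟨data_2_1 h, fun _ h => absurd h List.not_mem_nil⟩)
  · exact (show ∀ r ∈ R2_13, Lead 2 r (catL (UU 2) 13) from
      List.forall_mem_cons.mpr ⟨data_2_2 h, fun _ h => absurd h List.not_mem_nil⟩)
  · exact (show ∀ r ∈ R2_14, Lead 2 r (catL (UU 2) 14) from
      List.forall_mem_cons.mpr ⟨data_2_3 h, fun _ h => absurd h List.not_mem_nil⟩)

theorem st_DATA (h : St_DFS) : St_DATA := by
  intro md hmd T hT h4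
  refine ⟨allN_iff.mp achk_all T hT, ?_⟩
  interval_cases md
  · exact ⟨allN_iff.mp nchk_0 T hT, allN_iff.mp rchk_0 T hT, data_md0 h T hT⟩
  · exact ⟨allN_iff.mp nchk_1 T hT, allN_iff.mp rchk_1 T hT, data_md1 h T hT⟩
  · have k := Nat.ble_eq.mpr (h4 rfl)
    exact ⟨sel_imp.mp (allN_iff.mp nchk_2 T hT) k, sel_imp.mp (allN_iff.mp rchk_2 T hT) k,
      data_md2 h T hT⟩

end Pool.Agent.Lib.Tw5
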