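import Pool.Agent.Lib.Tw5.KitI

set_option linter.unusedSectionVars false
set_option linter.unusedVariables false

/-! Soundness of the search over sets of placed pieces. -/

namespace Pool.Agent.Lib.Tw5

open Finset Pool.Agent.Lib.MP_aa6b05_co C

open scoped Classical

theorem DFS_filt (md : ℕ) (st : St) (cand : List ℕ) : ∀ (w : ℕ) (kk : List ℕ → ℕ → ℕ),
    filt md st cand w kk ≠ 0 → ∃ l w', kk l w' ≠ 0 ∧
      ∀ u ∈ cand, capK st u = 0 → (∀ w, kill md st u w = 0) → u ∈ l := by
  induction cand with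
  | nil => exact fun w kk h => ⟨[], w, h, by simp⟩
  | cons u tl ih =>
    intro w kk h
    rw [show filt md st (u :: tl) w kk = sel (Nat.beq (capK st u) 0)
      (sel (Nat.beq (Nat.mod w 4) 0)
        (frz (Nat.shiftRight w 2) fun w' => filt md st tl w' fun l w'' => kk (u :: l) w'')
        (frz (kill md st u w) fun w' => filt md st tl w' kk))
      (filt md st tl w kk) from rfl, sel_beq, sel_beq] at h
    split_ifs at h with h1 h2
    · obtain ⟨l, w', h3, h4⟩ := ih _ _ (frz_ne h).2
      refine ⟨u :: l, w', h3, fun v hv a b => ?_⟩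
      rcases List.mem_cons.mp hv with rfl | hv
      · exact List.mem_cons_self
      · exact List.mem_cons_of_mem _ (h4 v hv a b)
    · obtain ⟨l, w', h3, h4⟩ := ih _ _ (frz_ne h).2
      refine ⟨l, w', h3, fun v hv a b => ?_⟩
      rcases List.mem_cons.mp hv with rfl | hv
      · exact absurd (b w) (frz_ne h).1
      · exact h4 v hv a b
    · obtain ⟨l, w', h3, h4⟩ := ih _ _ h
      refine ⟨l, w', h3, fun v hv a b => ?_⟩
      rcases List.mem_cons.mp hv with rfl | hv
      · exact absurd a h1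
      · exact h4 v hv a b

theorem DFS_loop (st : St) (g : St → List ℕ → ℕ → ℕ) (al : List ℕ) : ∀ w : ℕ,
    List.rec (motive := fun _ => ℕ → ℕ) (fun w => w)
      (fun x tl nx w => frz (add st x fun st' => g st' (x :: tl) w) nx) al w ≠ 0 →
    ∀ x tl, x :: tl <:+ al → ∃ w', g (addS st x) (x :: tl) w' ≠ 0 := by
  induction al with
  | nil => exact fun _ _ x tl h => absurd h (by simp)
  | cons y l ih =>
    intro w h x tl hs
    obtain ⟨h1, h2⟩ := frz_ne h
    rcases List.suffix_cons_iff.mp hs with e | hs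
    · obtain ⟨rfl, rfl⟩ := List.cons.inj e
      exact ⟨w, by rwa [add_eq] at h1⟩
    · exact ih _ h2 x tl hs

theorem DFS_leq (a : List ℕ) : ∀ b, leq a b = true → a = b := by
  induction a with
  | nil =>
    intro b h
    cases b with
    | nil => rfl
    | cons y l => exact absurd h Bool.false_ne_true
  | cons x a ih =>
    intro b h
    cases b with
    | nil => exact absurd h Bool.false_ne_true
    | cons y l =>
      rw [show leq (x :: a) (y :: l) = sel (Nat.beq x y) (leq a l) false from rfl, sel_and,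
        Nat.beq_eq] at h
      rw [h.1, ih l h.2]

theorem DFS_drp (l : List ℕ) (n : ℕ) : drp l n = l.drop n := by
  induction n with
  | zero => rfl
  | succ n ih =>
    rw [show drp l (n + 1) = List.rec (motive := fun _ => List ℕ) [] (fun _ tl _ => tl) (drp l n)
      from rfl, ih, ← List.tail_drop]
    cases l.drop n <;> rfl

theorem DFS_subs (md : ℕ) (st : St) (ws : List ℕ) : ∀ al, subs md st ws al = true →
    ∀ j < ws.length, ∀ x tl, al.drop j = x :: tl → ∃ w, node md 9 (addS st x) (x :: tl) w ≠ 0 := by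
  induction ws with
  | nil => exact fun _ _ j hj => absurd hj (Nat.not_lt_zero _)
  | cons w ws ih =>
    intro al h j hj x tl e
    cases al with
    | nil => simp at e
    | cons y l =>
      rw [show subs md st (w :: ws) (y :: l) =
        sel (Nat.ble 1 (add st y fun st' => node md 9 st' (y :: l) w)) (subs md st ws l) false
        from rfl, sel_and, Nat.ble_eq, add_eq] at h
      cases j with
      | zero =>
        obtain ⟨rfl, rfl⟩ := List.cons.inj e
        exact ⟨w, Nat.ne_of_gt h.1⟩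
      | succ j => exact ih l h.2 j (Nat.lt_of_succ_lt_succ hj) x tl e

section
variable {V E : Type} [Fintype V] [Fintype E] {G : MG V E} {md k : ℕ} {σ : ℕ → V} {C D : Set V}

theorem DFS_first (hA : St_ADD) (hx : Cx G md k σ C D) {st : St} {H : Set E} {P : Set (Set E)}
    (hi : Inv G k σ C D st H) (hP : P.Nonempty) (l : List ℕ) :
    (∀ x tl, x :: tl <:+ l → Ok G md k σ C D (addS st x) (x :: tl)) → Rest G k σ C l H P →
      Goal G md C := by
  induction l with
  | nil =>
    intro _ hr
    obtain ⟨A, hA⟩ := hP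
    obtain ⟨u, hu, -⟩ := hr.pc A hA
    exact absurd hu List.not_mem_nil
  | cons x tl ih =>
    intro h hr
    by_cases hc : ∃ A ∈ P, Pc G σ k x A
    · obtain ⟨A, h1, h2⟩ := hc
      refine h x tl List.suffix_rfl (H ∪ A) (P \ {A}) (hA hx hi h2 (hr.sub A h1) (hr.dj A h1)).1
        ⟨fun B hB => hr.pc B hB.1, fun B hB => hr.sub B hB.1,
          fun B hB => Set.disjoint_union_right.mpr ⟨hr.dj B hB.1, hr.pw B hB.1 A h1 hB.2⟩,
          fun B hB B' hB' => hr.pw B hB.1 B' hB'.1, fun e he => ?_⟩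
      rcases hr.cov e he with h3 | ⟨B, h3, h4⟩
      · exact Or.inl (Or.inl h3)
      · by_cases h5 : B = A
        · exact Or.inl (Or.inr (h5 ▸ h4))
        · exact Or.inr ⟨B, ⟨h3, h5⟩, h4⟩
    · refine ih (fun y l hs => h y l (hs.trans (List.suffix_cons _ _)))
        ⟨fun B hB => ?_, hr.sub, hr.dj, hr.pw, hr.cov⟩
      obtain ⟨u, hu, h1⟩ := hr.pc B hB
      rcases List.mem_cons.mp hu with rfl | hu
      · exact absurd ⟨B, hB, h1⟩ hc
      · exact ⟨u, hu, h1⟩

theorem DFS_step (hA : St_ADD) (hK : St_KILL) (hL : St_LEAF) (hx : Cx G md k σ C D) {st : St}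
    {cand l : List ℕ} {w : ℕ} (h1 : leaf md st w ≠ 0)
    (h2 : ∀ u ∈ cand, capK st u = 0 → (∀ w, kill md st u w = 0) → u ∈ l)
    (h3 : ∀ x tl, x :: tl <:+ l → Ok G md k σ C D (addS st x) (x :: tl)) :
    Ok G md k σ C D st cand := by
  intro H P hi hr
  rcases P.eq_empty_or_nonempty with rfl | hP
  · obtain rfl : H = HE G C := by
      obtain ⟨ι, hι⟩ := hi
      exact Set.Subset.antisymm hι.sub fun e he => (hr.cov e he).resolve_right (by simp)
    exact hL hx hi h1
  · refine DFS_first hA hx hi hP l h3 ⟨fun A hA' => ?_, hr.sub, hr.dj, hr.pw, hr.cov⟩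
    obtain ⟨u, hu, h4⟩ := hr.pc A hA'
    obtain ⟨h5, h6⟩ := hA hx hi h4 (hr.sub A hA') (hr.dj A hA')
    exact ⟨u, h2 u hu h6 fun w => hK hx h5 h4.2.1, h4⟩

theorem DFS_node (hA : St_ADD) (hK : St_KILL) (hL : St_LEAF) (hx : Cx G md k σ C D) (f : ℕ) :
    ∀ st cand w, node md f st cand w ≠ 0 → Ok G md k σ C D st cand := by
  induction f with
  | zero => exact fun _ _ _ h => absurd rfl h
  | succ f ih =>
    intro st cand w h
    rw [show node md (f + 1) st cand w = frz (leaf md st w) fun w1 =>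
      filt md st cand w1 fun al w2 => List.rec (motive := fun _ => ℕ → ℕ) (fun w => w)
        (fun x tl nx w => frz (add st x fun st' => node md f st' (x :: tl) w) nx) al w2
      from rfl] at h
    obtain ⟨h1, h2⟩ := frz_ne h
    obtain ⟨l, w', h3, h4⟩ := DFS_filt _ _ _ _ _ h2
    refine DFS_step hA hK hL hx h1 h4 fun x tl hs => ?_
    obtain ⟨w'', h5⟩ := DFS_loop st (node md f) l w' h3 x tl hs
    exact ih _ _ _ h5

end

theorem st_DFS (hADD : St_ADD) (hKILL : St_KILL) (hLEAF : St_LEAF) : St_DFS := by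
  refine ⟨fun md r al lo ws h i h1 h2 V E _ _ G k σ C D hx x tl e => ?_,
    fun md r cand al w h hs V E _ _ G k σ C D hx => ?_⟩
  · rw [sub, add_eq, DFS_drp] at h
    obtain ⟨j, rfl⟩ := Nat.exists_eq_add_of_le h1
    rw [DFS_drp, ← List.drop_drop] at e
    obtain ⟨w, hw⟩ := DFS_subs _ _ _ _ h j (by omega) x tl e
    exact DFS_node hADD hKILL hLEAF hx _ _ _ _ hw
  · rw [top, Nat.ble_eq, add_eq] at h
    obtain ⟨h1, h2⟩ := frz_ne (Nat.ne_of_gt h)
    obtain ⟨l, w', h3, h4⟩ := DFS_filt _ _ _ _ _ h2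
    obtain rfl := DFS_leq _ _ (sel_ne h3).1
    refine DFS_step hADD hKILL hLEAF hx h1 h4 fun x tl ⟨pre, e⟩ => ?_
    refine hs pre.length (by simp [← e]) G k σ C D hx x tl ?_
    rw [DFS_drp, ← e, List.drop_left]

end Pool.Agent.Lib.Tw5
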