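import Pool.Agent.Lib.Tw5.Blue

set_option linter.unusedSectionVars false
set_option linter.unusedVariables false

/-! The enumeration of boundary codes. -/

namespace Pool.Agent.Lib.Tw5

open Finset Pool.Agent.Lib.MP_aa6b05_co C

open scoped Classical

theorem en_xor {x i : ℕ} (h : x < 2 ^ i) (y : ℕ) : x ^^^ 2 ^ i * y = 2 ^ i * y + x := by
  refine Nat.eq_of_testBit_eq fun j => ?_
  rw [Nat.testBit_xor, Nat.testBit_two_pow_mul_add _ h, Nat.testBit_two_pow_mul]
  by_cases hj : j < i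
  · simp [hj, Nat.not_le.2 hj]
  · rw [Nat.testBit_lt_two_pow (h.trans_le (Nat.pow_le_pow_right (by decide) (not_lt.1 hj)))]
    simp [hj, not_lt.1 hj]

theorem en_lt {d a b : ℕ} (hd : d < 4) (h : a < b) :
    d * 4 ^ a ^^^ d * 4 ^ b = d * 4 ^ b + d * 4 ^ a := by
  have h1 : d * 4 ^ a < 2 ^ (2 * b) := by
    rw [pow_mul]
    refine lt_of_lt_of_le ?_ (Nat.pow_le_pow_right (by decide) h)
    rw [pow_succ (2 ^ 2), mul_comm]
    exact Nat.mul_lt_mul_of_pos_left hd (by positivity)
  have h2 := en_xor h1 d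
  rwa [pow_mul, mul_comm _ d] at h2

theorem en_mul {d : ℕ} (hd : d < 4) (a b : ℕ) :
    d * (4 ^ a ^^^ 4 ^ b) = d * 4 ^ a ^^^ d * 4 ^ b := by
  have key : ∀ a b, a < b → d * (4 ^ a ^^^ 4 ^ b) = d * 4 ^ a ^^^ d * 4 ^ b := fun a b h => by
    have h1 := en_lt (d := 1) (by decide) h
    rw [one_mul, one_mul] at h1
    rw [en_lt hd h, h1, mul_add]
  rcases lt_trichotomy a b with h | rfl | h
  · exact key a b h
  · simp
  · rw [Nat.xor_comm, key b a h, Nat.xor_comm]

theorem en_dec {d : ℕ} (hd : d < 4) (c a b t : ℕ) : dec (c ^^^ d * (4 ^ a ^^^ 4 ^ b)) t =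
    dec c t + ((if a = t then kof d else 0) + if b = t then kof d else 0) := by
  rw [dec_xor, en_mul hd, dec_xor, dec_single hd, dec_single hd]

theorem en_nil {c y : ℕ} : tb (en [] c) y = true ↔ c < 1024 ∧ c = y := by
  change tb (sel (Nat.ble c 1023) (bit c) 0) y = true ↔ _
  rw [sel_ble]
  split_ifs with h
  · rw [tb_bit]
    exact ⟨fun h' => ⟨by omega, h'⟩, fun h' => h'.2⟩
  · exact ⟨fun h' => absurd h' (tb_zero y), fun h' => by omega⟩

theorem en_cons {p : ℕ × ℕ} {l : Es} {c y : ℕ} : tb (en (p :: l) c) y = true ↔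
    ∃ d, 0 < d ∧ d < 4 ∧ tb (en l (c ^^^ d * (4 ^ p.1 ^^^ 4 ^ p.2))) y = true := by
  have h : en (p :: l) c = frc (Nat.xor (bit (Nat.mul 2 p.1)) (bit (Nat.mul 2 p.2))) fun z =>
      Nat.lor (Nat.lor (frc (Nat.xor c z) (en l)) (frc (Nat.xor c (Nat.mul 2 z)) (en l)))
        (frc (Nat.xor c (Nat.mul 3 z)) (en l)) := rfl
  have h4 : ∀ a, bit (Nat.mul 2 a) = 4 ^ a := fun a => by
    rw [bit_eq]
    exact pow_mul 2 2 a
  rw [h, frc_eq, frc_eq, frc_eq, frc_eq, tb_lor, tb_lor, h4, h4]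
  constructor
  · rintro ((h1 | h1) | h1)
    · exact ⟨1, by decide, by decide, by rw [one_mul]; exact h1⟩
    · exact ⟨2, by decide, by decide, h1⟩
    · exact ⟨3, by decide, by decide, h1⟩
  · rintro ⟨d, h1, h2, h3⟩
    interval_cases d
    · rw [one_mul] at h3
      exact Or.inl (Or.inl h3)
    · exact Or.inl (Or.inr h3)
    · exact Or.inr h3

theorem en_inj {c y : ℕ} (h : ∀ a, dec y a = dec c a) : c = y := by
  have h1 : c ^^^ y < 4 ^ 0 := lt_of_dec fun t _ => by rw [dec_xor, h, K.add_self]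
  exact Nat.xor_eq_zero_iff.1 (by simpa using h1)

theorem st_EN : St_EN := by
  refine ⟨fun f l ψ c y hψ hy => ?_, fun es => ?_⟩
  · induction l generalizing c with
    | nil =>
      intro h
      have h1 : c = y := en_inj fun a => by simpa [bdl] using h a
      exact en_nil.2 ⟨h1 ▸ hy, h1⟩
    | cons p l ih =>
      intro h
      obtain ⟨d, h1, h2⟩ := exists_kof (ψ p)
      refine en_cons.2 ⟨d, Nat.pos_of_ne_zero fun h0 => hψ p (h2 ▸ kof_eq_zero.2 h0), h1,
        ih _ fun a => ?_⟩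
      rw [en_dec h1, h2, h, add_assoc]
      rfl
  · induction es with
    | nil =>
      intro c y _ h
      obtain ⟨h1, rfl⟩ := en_nil.1 h
      exact ⟨fun _ => .k1, fun _ => (by decide : K.k1 ≠ 0), h1, fun a => by simp [bdl]⟩
    | cons p l ih =>
      intro c y hn h
      obtain ⟨d, h1, h2, h3⟩ := en_cons.1 h
      obtain ⟨h4, h5⟩ := List.nodup_cons.1 hn
      obtain ⟨ψ, h6, h7, h8⟩ := ih _ y h5 h3
      refine ⟨Function.update ψ p (kof d), fun q => ?_, h7, fun a => ?_⟩
      · by_cases hq : q = p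
        · rw [hq, Function.update_self]
          exact fun h0 => h1.ne' (kof_eq_zero.1 h0)
        · rw [Function.update_of_ne hq]
          exact h6 q
      · rw [h8, en_dec h2, add_assoc]
        congr 1
        unfold bdl
        rw [List.map_cons, List.sum_cons, Function.update_self]
        congr 2
        exact List.map_congr_left fun q hq => by
          rw [Function.update_of_ne fun e : q = p => h4 (e ▸ hq)]

end Pool.Agent.Lib.Tw5
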