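import Pool.Agent.Lib.Tw5.KitI

set_option linter.unusedSectionVars false
set_option linter.unusedVariables false
set_option linter.unusedSimpArgs false

namespace Pool.Agent.Lib.Tw5

open Finset Pool.Agent.Lib.MP_aa6b05_co Pool.Agent.Lib.MP_aa6b05_co.MG

open scoped Classical

noncomputable section

namespace FLB

def lo (x : K) : ZMod 2 := lam .k2 x

def hi (x : K) : ZMod 2 := lam .k1 x

theorem lo_hi (x : K) (h : x ≠ 0) : lo x = 1 ∨ hi x = 1 := by revert x; decide

variable {V E : Type} [Fintype V] [Fintype E] {G : MG V E}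

def bd (G : MG V E) (g : E → ℤ) (v : V) : ℤ :=
  ∑ e, ((if G.s e = v then g e else 0) - (if G.t e = v then g e else 0))

theorem circ (J : E → ZMod 2) (n : ℕ) : ∀ G : MG V E,
    (univ.filter (fun e => G.s e ≠ G.t e)).card ≤ n → (∀ v, G.df J v = 0) →
    ∃ g : E → ℤ, (∀ e, (J e = 0 → g e = 0) ∧ (J e = 1 → g e = 1 ∨ g e = -1)) ∧
      ∀ v, bd G g v = 0 := by
  induction n using Nat.strong_induction_on with
  | _ n ih =>
  intro G hn hJ
  by_cases h0 : ∃ e, G.s e ≠ G.t e ∧ J e = 1
  swap
  · push Not at h0
    refine ⟨fun e => if J e = 1 then 1 else 0, fun e => ⟨fun h => by simp [h], fun h => by simp [h]⟩,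
      fun v => sum_eq_zero fun e _ => ?_⟩
    by_cases h : G.s e = G.t e
    · simp [h]
    · simp [h0 e h]
  obtain ⟨c1, n1, hc1⟩ := h0
  set v := G.s c1 with hv
  set x := G.t c1 with hx
  have j1 : G.Joins c1 v x := joins_self c1
  have m1 : c1 ∈ G.cut {v} := by rw [j1.mem_cut]; simp [n1.symm]
  obtain ⟨c2, m2, hc2⟩ : ∃ c2 ∈ (G.cut {v}).erase c1, J c2 = 1 := by
    by_contra hcon
    push Not at hcon
    have := hJ v
    unfold df at this
    rw [← add_sum_erase _ _ m1, sum_eq_zero (fun e he => (zmod2_cases _).resolve_right (hcon e he)),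
      hc1] at this
    exact absurd this (by decide)
  obtain ⟨h21, m2⟩ := mem_erase.mp m2
  obtain ⟨y, j2, n2⟩ := exists_other m2
  have h12 : c1 ≠ c2 := h21.symm
  have j1' : (G.split c1 c2 v x y).Joins c1 x y := Or.inl ⟨by simp [split], by simp [split]⟩
  have j2' : (G.split c1 c2 v x y).Joins c2 v v := Or.inl ⟨by simp [split, h21], by simp [split, h21]⟩
  have dec : J = fun e => ((if e = c1 ∨ e = c2 then 0 else J e) + if e = c1 then 1 else 0) +
      if e = c2 then 1 else 0 := by
    funext e
    by_cases a : e = c1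
    · simp [a, h12, hc1]
    · by_cases b : e = c2
      · simp [b, h21, hc2]
      · simp [a, b]
  obtain ⟨g, g1, g2⟩ := ih _ (lt_of_lt_of_le (m_split h12 j1 n1 j2 n2) hn) (G.split c1 c2 v x y)
    le_rfl (by
      intro u
      have := hJ u
      rw [dec, df_add, df_add, df_single zmod2_add_self j1, df_single zmod2_add_self j2] at this
      rw [dec, df_add, df_add, df_single zmod2_add_self j1', df_single zmod2_add_self j2']
      have e1 : (G.split c1 c2 v x y).df (fun e => if e = c1 ∨ e = c2 then 0 else J e) u =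
          G.df (fun e => if e = c1 ∨ e = c2 then 0 else J e) u := by
        unfold df cut
        rw [sum_filter, sum_filter]
        apply sum_congr rfl
        intro e _
        by_cases a : e = c1
        · simp [a]
        · by_cases b : e = c2
          · simp [b]
          · simp [split, a, b]
      rw [e1]
      linear_combination this)
  have ha := (g1 c1).2 hc1
  refine ⟨fun e => if e = c1 then - g c1 else if e = c2 then (if G.s c2 = v then g c1 else - g c1)
    else g e, fun e => ?_, fun u => ?_⟩
  · by_cases a : e = c1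
    · subst a
      simp only [if_true, hc1]
      exact ⟨by simp, fun _ => by omega⟩
    · by_cases b : e = c2
      · subst b
        simp only [a, if_false, if_true, hc2]
        refine ⟨by simp, fun _ => ?_⟩
        split_ifs <;> omega
      · simp only [a, b, if_false]
        exact g1 e
  · rw [← g2 u]
    unfold bd
    rw [← add_sum_erase _ _ (mem_univ c1), ← add_sum_erase _ _ (mem_erase.mpr ⟨h21, mem_univ c2⟩),
      ← add_sum_erase _ _ (mem_univ c1), ← add_sum_erase _ _ (mem_erase.mpr ⟨h21, mem_univ c2⟩),
      ← add_assoc, ← add_assoc]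
    congr 1
    · simp only [split, if_true, h21, if_false, ← hv, ← hx]
      rcases j2 with ⟨a, b⟩ | ⟨a, b⟩
      · simp only [a, b, if_true]
        split_ifs <;> omega
      · simp only [a, b, n2.symm, if_false]
        split_ifs <;> omega
    · apply sum_congr rfl
      intro e he
      simp only [mem_erase, mem_univ, and_true] at he
      simp [split, he.1, he.2]

theorem colflow [inst : DecidableEq V] (h : G.Col) : MP_aa6b05_co.D.HasNZ4Flow G.s G.t := by
  obtain ⟨φ, h1, h2⟩ := h
  have key : ∀ x : K, x ≠ 0 → ∀ v, G.df (fun e => lam x (φ e)) v = 0 := by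
    intro x hx v
    rw [df_hom _ (lam_add x hx), h2 v trivial]
    simp [lam]
  obtain ⟨f, f1, f2⟩ := circ (fun e => lo (φ e)) _ G le_rfl (key _ (by decide))
  obtain ⟨g, g1, g2⟩ := circ (fun e => hi (φ e)) _ G le_rfl (key _ (by decide))
  refine ⟨fun e => f e + 2 * g e, fun e => ?_, fun v => ?_⟩
  · have := lo_hi _ (h1 e)
    obtain ⟨a1, a2⟩ := f1 e
    obtain ⟨b1, b2⟩ := g1 e
    beta_reduce at a1 a2 b1 b2 ⊢
    rw [abs_pos, abs_lt]
    rcases zmod2_cases (lo (φ e)) with a | a <;> rcases zmod2_cases (hi (φ e)) with b | b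
    · rw [a, b] at this
      exact absurd this (by decide)
    · have := a1 a
      have := b2 b
      omega
    · have := a2 a
      have := b1 b
      omega
    · have := a2 a
      have := b2 b
      omega
  · rw [sum_filter, sum_filter, ← sub_eq_zero, ← sum_sub_distrib]
    have : ∑ e, ((if G.s e = v then f e + 2 * g e else 0) - if G.t e = v then f e + 2 * g e else 0) =
        bd G f v + 2 * bd G g v := by
      unfold bd
      rw [mul_sum, ← sum_add_distrib]
      apply sum_congr rfl
      intro e _
      split_ifs <;> ring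
    rw [this, f2, g2]
    rfl

theorem conn_side {A : Set V} {F : Set E} {X : Set V} (hF : ∀ e ∈ F, e ∉ G.cut X) {a b : V}
    (h : MP_aa6b05_co.D.Conn G.s G.t A F a b) : (a ∈ X ↔ b ∈ X) := by
  induction h with
  | refl => rfl
  | tail _ h2 ih =>
    obtain ⟨-, -, e, he, hj⟩ := h2
    have := hF e he
    rw [Joins.mem_cut (G := G) hj, not_not] at this
    exact ih.trans this

theorem bl_of (h : MP_aa6b05_co.D.Bridgeless G.s G.t) : G.Bl := by
  intro X hX
  obtain ⟨e, he⟩ := card_eq_one.mp hX
  have := conn_side (X := X) (by intro f hf; rw [he]; simpa using hf) (h e)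
  have h2 : e ∈ G.cut X := by rw [he]; simp
  exact MG.mem_cut.mp h2 this

end FLB

theorem st_FL : St_FL := fun G => ⟨fun h => FLB.colflow h, fun h => FLB.bl_of h⟩

end

end Pool.Agent.Lib.Tw5
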