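import Pool.Agent.Lib.Tw5.Blue

set_option linter.unusedSectionVars false
set_option linter.unusedVariables false

/-! The girth check is sound. -/

namespace Pool.Agent.Lib.Tw5

open Finset Pool.Agent.Lib.MP_aa6b05_co C

namespace GCH

theorem nth_nil (i : ℕ) : nth [] i = (0, 0) := rfl

theorem nth_zero (p : ℕ × ℕ) (es : Es) : nth (p :: es) 0 = p := rfl

theorem nth_succ (p : ℕ × ℕ) (es : Es) (i : ℕ) : nth (p :: es) (i + 1) = nth es i := rfl

theorem mem_of_jn {es : Es} {i a b : ℕ} (h : jn (nth es i) a b = true) : nth es i ∈ es := by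
  induction es generalizing i with
  | nil =>
    rw [nth_nil, jn_iff] at h
    unfold same at h
    omega
  | cons p es ih =>
    cases i with
    | zero => exact List.mem_cons_self
    | succ i => exact List.mem_cons_of_mem _ (ih h)

theorem same_of {p q : ℕ × ℕ} {a b : ℕ} (h : jn p a b = true) (h' : jn q a b = true) :
    same p q := by
  rw [jn_iff] at h h'
  unfold same at h h' ⊢
  omega

theorem eq_of_jn {es : Es} (hp : es.Pairwise fun p q => ¬ same p q) {i j a b : ℕ}
    (h : jn (nth es i) a b = true) (h' : jn (nth es j) a b = true) : i = j := by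
  induction es generalizing i j with
  | nil => exact absurd (mem_of_jn h) List.not_mem_nil
  | cons p es ih =>
    rw [List.pairwise_cons] at hp
    cases i with
    | zero =>
      cases j with
      | zero => rfl
      | succ j => exact absurd (same_of h h') (hp.1 _ (mem_of_jn (es := es) h'))
    | succ i =>
      cases j with
      | zero => exact absurd (same_of h' h) (hp.1 _ (mem_of_jn (es := es) h))
      | succ j => rw [ih hp.2 h h']

variable {V E : Type} [Fintype V] [Fintype E] {G : MG V E} {ι : ℕ → V} {es : Es} {H : Set E}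

theorem ad_of (h : Emb G ι es H) {i a b : ℕ} (j : jn (nth es i) a b = true) :
    Ad G (ι a) (ι b) ∧ tch es a ∧ tch es b := by
  have h1 := mem_of_jn j
  have h2 := h.adj _ h1
  rcases (jn_iff.1 j).2 with ⟨e1, e2⟩ | ⟨e1, e2⟩
  · exact ⟨(show (nth es i).1 = a from e1) ▸ (show (nth es i).2 = b from e2) ▸ h2,
      ⟨_, h1, Or.inl e1⟩, ⟨_, h1, Or.inr e2⟩⟩
  · exact ⟨(show (nth es i).1 = b from e1) ▸ (show (nth es i).2 = a from e2) ▸ h2.symm,
      ⟨_, h1, Or.inr e2⟩, ⟨_, h1, Or.inl e1⟩⟩

end GCH

open GCH in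
theorem st_GCH : St_GCH := by
  intro V E _ _ G hG ι es H w h hc
  unfold gchk at hc
  simp only [frc_eq, sel_and] at hc
  obtain ⟨h1, h2⟩ := hc
  rw [sel_beq] at h2
  split_ifs at h2 with k0
  · rw [sel_not, Nat.beq_eq] at h2
    exact h2.1 (eq_of_jn h.pw h1 h2.2)
  · rw [sel_and, sel_beq] at h2
    obtain ⟨h3, h4⟩ := h2
    split_ifs at h4 with k1
    · exact hG.no3 (ad_of h h1).1 (ad_of h h3).1 (ad_of h h4).1
    · simp only [sel_and, sel_not, Nat.beq_eq] at h4
      obtain ⟨h5, h6, h7, h8, -⟩ := h4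
      exact hG.no4 (ad_of h h1).1 (ad_of h h3).1 (ad_of h h5).1 (ad_of h h6).1
        (fun e => h7 (h.inj _ _ (ad_of h h1).2.1 (ad_of h h5).2.1 e))
        fun e => h8 (h.inj _ _ (ad_of h h1).2.2 (ad_of h h5).2.2 e)

end Pool.Agent.Lib.Tw5
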