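import Pool.Agent.Lib.Tw5.KitI

set_option linter.unusedSectionVars false
set_option linter.unusedVariables false

namespace Pool.Agent.Lib.Tw5

open Finset Pool.Agent.Lib.MP_aa6b05_co C

open scoped Classical

theorem GO_rec (f : ℕ → ℕ) {t t' i : ℕ} (h : t' < t) (hi : tb (f t') i = true) :
    tb (Nat.rec (motive := fun _ => ℕ) 0 (fun a acc => Nat.lor acc (f a)) t) i = true := by
  induction t with
  | zero => omega
  | succ t ih =>
    refine tb_lor.2 ?_
    rcases Nat.lt_succ_iff_lt_or_eq.1 h with h | h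
    · exact Or.inl (ih h)
    · exact Or.inr (h ▸ hi)

theorem GO_frz {e i j : ℕ} {k : ℕ → ℕ} (h : tb e j = true) (hk : tb (k e) i = true) :
    tb (frz e k) i = true := by
  rw [frz_eq, if_neg]
  · exact hk
  · rintro rfl
    exact tb_zero j h

theorem GO_succ (d t u S : ℕ) : go d (t + 1) u S = frz S fun S => sel (tb u t) (go d t u S)
    (Nat.lor (go d t u (Nat.land S (em d t)))
      (frz (Nat.land S (om d t)) fun So => frc (fd d So t) fun Sf =>
        Nat.rec (motive := fun _ => Nat) 0 (fun t' acc => Nat.lor acc (sel (tb u t') 0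
          (frz (Nat.land So (om d t')) fun S1 => frc (Nat.lor u (bit t')) fun u' =>
            go d t u' (Nat.land S1 (fd d Sf t'))))) t)) := rfl

/-- the indicator of two slots -/
def GO_e (t t' : ℕ) : ℕ → ZMod 2 := fun s => (if t = s then 1 else 0) + (if t' = s then 1 else 0)

theorem GO_lam0 (D x : K) : lam D x = 0 ↔ (x = 0 ∨ x = D) := by
  unfold lam
  split_ifs with h <;> simp [h]

theorem GO_abs (hB : St_BIT) {d : ℕ} (h1 : 1 ≤ d) (h3 : d ≤ 3) (O : Set ℕ) (par : ℕ → ZMod 2)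
    (R : (ℕ → ZMod 2) → Prop) (hO : ∀ c ∈ O, c < 4096)
    (hp : ∀ c ∈ O, ∀ t < 6, lam (kof d) (dec c t) = par t)
    (hR : ∀ z, R z → ∀ t < 6, z t ≠ 0 → ∃ t' < 6, t' ≠ t ∧ z t' ≠ 0 ∧
      (∀ c ∈ O, (c ^^^ d * 4 ^ t') ^^^ d * 4 ^ t ∈ O) ∧ R fun s => z s + GO_e t t' s) :
    ∀ t ≤ 6, ∀ (u S : ℕ) (z : ℕ → ZMod 2), R z →
      (∀ s < 6, z s = if s < t ∧ ¬ tb u s = true then par s else 0) →
      (∀ c ∈ O, tb S c = true) → ∀ c ∈ O, tb (go d t u S) c = true := by
  intro t
  induction t with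
  | zero => exact fun _ u S z _ _ hS c hc => hS c hc
  | succ t ih =>
    intro ht u S z hz hi hS c hc
    have ht6 : t < 6 := ht
    have hem : ∀ s < 6, par s = 0 → ∀ c ∈ O, tb (em d s) c = true := fun s hs h c hc =>
      (hB.2.2.1 d s c h1 h3 hs (hO c hc)).1.2 ((GO_lam0 _ _).1 ((hp c hc s hs).trans h))
    have hom : ∀ s < 6, par s ≠ 0 → ∀ c ∈ O, tb (om d s) c = true := fun s hs h c hc =>
      (hB.2.2.1 d s c h1 h3 hs (hO c hc)).2.2 fun h' =>
        h ((hp c hc s hs).symm.trans ((GO_lam0 _ _).2 h'))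
    rw [GO_succ]
    refine GO_frz (hS c hc) ?_
    rw [sel_eq]
    split_ifs with hu
    · refine ih ht6.le u S z hz (fun s hs => ?_) hS c hc
      rw [hi s hs]
      refine if_congr ⟨fun h => ⟨?_, h.2⟩, fun h => ⟨by omega, h.2⟩⟩ rfl rfl
      rcases Nat.lt_succ_iff_lt_or_eq.1 h.1 with h' | h'
      · exact h'
      · exact absurd (h' ▸ hu) h.2
    refine tb_lor.2 ?_
    by_cases hpt : par t = 0
    · refine Or.inl (ih ht6.le u _ z hz (fun s hs => ?_)
        (fun c hc => tb_land.2 ⟨hS c hc, hem t ht6 hpt c hc⟩) c hc)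
      rw [hi s hs]
      by_cases hst : s = t
      · subst hst
        simp [hpt]
      · exact if_congr ⟨fun h => ⟨by omega, h.2⟩, fun h => ⟨by omega, h.2⟩⟩ rfl rfl
    · have hzt : z t = par t := by rw [hi t ht6, if_pos ⟨Nat.lt_succ_self t, hu⟩]
      obtain ⟨t', ht', hne, hzt', hfl, hR'⟩ := hR z hz t ht6 (hzt ▸ hpt)
      have hc' : t' < t + 1 ∧ ¬ tb u t' = true := by
        by_contra h
        exact hzt' (by rw [hi t' ht', if_neg h])
      have hzp : z t' = par t' := by rw [hi t' ht', if_pos hc']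
      have hSo : ∀ c ∈ O, tb (Nat.land S (om d t)) c = true := fun c hc =>
        tb_land.2 ⟨hS c hc, hom t ht6 hpt c hc⟩
      have hS1 : ∀ c ∈ O, tb (Nat.land (Nat.land S (om d t)) (om d t')) c = true := fun c hc =>
        tb_land.2 ⟨hSo c hc, hom t' ht' (hzp ▸ hzt') c hc⟩
      refine Or.inr (GO_frz (hSo c hc) ?_)
      rw [frc_eq]
      refine GO_rec _ (t' := t') (by omega) ?_
      rw [sel_eq, if_neg hc'.2]
      refine GO_frz (hS1 c hc) ?_
      rw [frc_eq]
      refine ih ht6.le _ _ _ hR' (fun s hs => ?_) (fun c hc => tb_land.2 ⟨hS1 c hc, ?_⟩) c hc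
      · have h11 : ∀ x : ZMod 2, x ≠ 0 → x + 1 = 0 := by decide
        unfold GO_e
        by_cases hst : t = s
        · subst hst
          rw [if_pos rfl, if_neg hne, add_zero, h11 _ (hzt ▸ hpt), if_neg (by omega)]
        by_cases hst' : t' = s
        · subst hst'
          rw [if_neg hst, if_pos rfl, zero_add, h11 _ hzt', if_neg]
          exact fun h => h.2 (tb_lor.2 (Or.inr (tb_bit.2 rfl)))
        · rw [if_neg hst, if_neg hst', add_zero, add_zero, hi s hs]
          refine if_congr ⟨fun h => ⟨by omega, fun h' => ?_⟩,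
            fun h => ⟨by omega, fun h' => h.2 (tb_lor.2 (Or.inl h'))⟩⟩ rfl rfl
          exact (tb_lor.1 h').elim h.2 fun h'' => hst' (tb_bit.1 h'')
      · refine (hB.2.1 d _ t' c h1 h3 ht').2 ⟨hO c hc, (hB.2.1 d _ t _ h1 h3 ht6).2
          ⟨?_, hSo _ (hfl c hc)⟩⟩
        refine Nat.xor_lt_two_pow (n := 12) (hO c hc) ?_
        calc d * 4 ^ t' ≤ 3 * 4 ^ 5 :=
              Nat.mul_le_mul h3 (Nat.pow_le_pow_right (by decide) (by omega))
          _ < 2 ^ 12 := by decide

section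
variable {V E : Type} [Fintype V] [Fintype E] {G : MG V E}

/-- the boundary of a function on the slots -/
noncomputable def GO_bd (σ : ℕ → V) (z : ℕ → ZMod 2) : V → ZMod 2 :=
  fun v => ∑ t ∈ range 6, if σ t = v then z t else 0

theorem GO_bd_add (σ : ℕ → V) (z z' : ℕ → ZMod 2) :
    GO_bd σ (fun s => z s + z' s) = fun v => GO_bd σ z v + GO_bd σ z' v := by
  funext v
  unfold GO_bd
  rw [← sum_add_distrib]
  refine sum_congr rfl fun t _ => ?_
  split_ifs <;> simp

theorem GO_bd_e (σ : ℕ → V) {t t' : ℕ} (ht : t < 6) (ht' : t' < 6) :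
    GO_bd σ (GO_e t t') = fun v => (if v = σ t then 1 else 0) + (if v = σ t' then 1 else 0) := by
  have h : ∀ a < 6, ∀ v, GO_bd σ (fun s => if a = s then 1 else 0) v =
      if v = σ a then 1 else 0 := fun a ha v => by
    unfold GO_bd
    rw [sum_eq_single a (fun b _ hb => by simp [Ne.symm hb]) (fun h => absurd (mem_range.2 ha) h)]
    simp [eq_comm]
  unfold GO_e
  rw [GO_bd_add]
  funext v
  rw [h t ht, h t' ht']

theorem GO_one (hB : St_BIT) (σ : ℕ → V) (H : Set E) {k n d S : ℕ} (h1 : 1 ≤ d) (h3 : d ≤ 3)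
    (hk : k ≤ n) (hn : n ≤ 6) (hS : ∀ c ∈ FS G σ k H, tb S c = true) :
    ∀ c ∈ FS G σ k H, tb (go d n 0 S) c = true := by
  rintro c0 ⟨hc0, φ, h0, hφ⟩
  have hD : kof d ≠ 0 := fun h => by have := kof_eq_zero.1 h; omega
  let R : (ℕ → ZMod 2) → Prop := fun z =>
    (∀ s, k ≤ s → z s = 0) ∧ GO_bd σ z ∈ KR G H φ (kof d)
  have hadd : ∀ z z', R z → R z' → R fun s => z s + z' s := fun z z' h h' =>
    ⟨fun s hs => by simp only [h.1 s hs, h'.1 s hs, add_zero],
      by rw [GO_bd_add]; exact kr_add h.2 h'.2⟩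
  let O : Set ℕ := {c | c < 4 ^ k ∧ ∃ z, R z ∧ ∀ t, dec c t = dec c0 t + sm (z t) (kof d)}
  have hsm0 : sm 0 (kof d) = 0 := rfl
  refine GO_abs hB h1 h3 O (fun t => lam (kof d) (dec c0 t)) R (fun c hc => ?_)
    (fun c hc t _ => ?_) (fun z hz t ht hzt => ?_) n hn 0 S (fun t => lam (kof d) (dec c0 t))
    ⟨fun s hs => ?_, ?_⟩ (fun s hs => ?_) (fun c hc => hS c ⟨hc.1, ?_⟩) c0
    ⟨hc0, fun _ => 0, ⟨fun _ _ => rfl, ?_⟩, fun t => by rw [hsm0, add_zero]⟩
  · exact hc.1.trans_le (Nat.pow_le_pow_right (n := 4) (by decide) (hk.trans hn))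
  · obtain ⟨-, z, -, h⟩ := hc
    have : ∀ (D x : K) (j : ZMod 2), D ≠ 0 → lam D (x + sm j D) = lam D x := by decide
    rw [h, this _ _ _ hD]
  · have key : ∃ t' < 6, t' ≠ t ∧ z t' ≠ 0 ∧ GO_bd σ (GO_e t t') ∈ KR G H φ (kof d) := by
      by_cases h : ∃ t' < 6, t' ≠ t ∧ z t' ≠ 0 ∧ σ t' = σ t
      · obtain ⟨t', a1, a2, a3, a4⟩ := h
        refine ⟨t', a1, a2, a3, ?_⟩
        rw [GO_bd_e σ ht a1, a4]
        simp only [zmod2_add_self]
        exact kr_zero _ _ _
      · have h2 : GO_bd σ z (σ t) ≠ 0 := by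
          unfold GO_bd
          rw [sum_eq_single t (fun b hb hbt => ?_) (fun h => absurd (mem_range.2 ht) h), if_pos rfl]
          · exact hzt
          · split_ifs with h'
            · by_contra h''
              exact h ⟨b, mem_range.1 hb, hbt, h'', h'⟩
            · rfl
        obtain ⟨w, a1, a2, a3⟩ := kr_split hz.2 h2
        obtain ⟨t', b1, b2⟩ := exists_ne_zero_of_sum_ne_zero a2
        have b3 : σ t' = w := by
          by_contra h'
          exact b2 (if_neg h')
        rw [if_pos b3] at b2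
        refine ⟨t', mem_range.1 b1, fun h' => a1 (by rw [← b3, h']), b2, ?_⟩
        rw [GO_bd_e σ ht (mem_range.1 b1), b3]
        exact a3
    obtain ⟨t', a1, a2, a3, a4⟩ := key
    have htk : t < k := not_le.1 fun h => hzt (hz.1 t h)
    have htk' : t' < k := not_le.1 fun h => a3 (hz.1 t' h)
    have he : R (GO_e t t') := ⟨fun s hs => by
      unfold GO_e
      rw [if_neg (by omega), if_neg (by omega), add_zero], a4⟩
    refine ⟨t', a1, a2, a3, ?_, hadd _ _ hz he⟩
    rintro c ⟨b1, y, b2, b3⟩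
    refine ⟨lt_of_dec fun s hs => ?_, _, hadd _ _ b2 he, fun s => ?_⟩
    · rw [dec_xor, dec_xor, dec_single (by omega), dec_single (by omega), dec_of_lt b1 hs,
        if_neg (by omega), if_neg (by omega), add_zero, add_zero]
    · have hs : ∀ p : Prop, ∀ [Decidable p],
          sm (if p then 1 else 0) (kof d) = if p then kof d else 0 := fun p _ => by
        split_ifs <;> rfl
      rw [dec_xor, dec_xor, dec_single (by omega), dec_single (by omega), b3, sm_add]
      unfold GO_e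
      rw [sm_add, hs, hs]
      abel
  · exact (GO_lam0 _ _).2 (Or.inl (dec_of_lt hc0 hs))
  · have h := kr_odd hD hφ
    refine (congrArg (· ∈ KR G H φ (kof d)) (funext fun v => ?_)).mp h
    unfold vec GO_bd
    refine (map_sum (AddMonoidHom.mk' (lam (kof d)) (lam_add _ hD)) _ _).trans
      (sum_congr rfl fun t _ => ?_)
    split_ifs
    · rfl
    · exact map_zero _
  · split_ifs with h
    · rfl
    · have : k ≤ s := by
        by_contra h'
        exact h ⟨by omega, tb_zero s⟩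
      rw [dec_of_lt hc0 this]
      exact (GO_lam0 _ _).2 (Or.inl rfl)
  · obtain ⟨-, z, a1, a2⟩ := hc
    have h := kr_bf h0 hφ a1.2
    refine (congrArg (· ∈ BF G H) (funext fun v => ?_)).mp h
    unfold vec GO_bd
    rw [show sm (∑ t ∈ range 6, if σ t = v then z t else 0) (kof d) =
        ∑ t ∈ range 6, sm (if σ t = v then z t else 0) (kof d) from
      map_sum (AddMonoidHom.mk' (fun j => sm j (kof d)) (sm_add _)) _ _, ← sum_add_distrib]
    refine sum_congr rfl fun t _ => ?_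
    split_ifs
    · exact (a2 t).symm
    · rw [hsm0, add_zero]
  · have : GO_bd σ (fun _ => 0) = fun _ => 0 := funext fun v => by simp [GO_bd]
    rw [this]
    exact kr_zero _ _ _

end

theorem st_GO (hB : St_BIT) : St_GO := by
  intro V E _ _ G σ H k n it S hk hn hS
  induction it with
  | zero => exact hS
  | succ i ih =>
    exact GO_one hB σ H (d := (i % 3).succ) (Nat.succ_pos _)
      (Nat.succ_le_of_lt (Nat.mod_lt _ (by decide))) hk hn ih

end Pool.Agent.Lib.Tw5
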