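import Pool.Agent.Lib.Tw5.KitI

set_option linter.unusedSectionVars false
set_option linter.unusedVariables false

/-! Transport of an embedded edge list along a checked isomorphism. -/

namespace Pool.Agent.Lib.Tw5

open Finset Pool.Agent.Lib.MP_aa6b05_co C

open scoped Classical

theorem ISO_split {ν ν' : ℕ} {es es' : Es} (h : iso ν ν' es' es = true) :
    (∀ p ∈ es', (∃ q ∈ es, same q (rt ν p.1, rt ν p.2)) ∧ rt ν' (rt ν p.1) = p.1 ∧
      rt ν' (rt ν p.2) = p.2) ∧ ∀ q ∈ es, ∃ p ∈ es', same q (rt ν p.1, rt ν p.2) := by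
  unfold iso at h
  rw [sel_and, allE_iff, allE_iff] at h
  obtain ⟨h1, h2⟩ := h
  refine ⟨fun p hp => ?_, fun q hq => ?_⟩
  · have := h1 p hp
    rw [sel_and, sel_and, mem2_iff] at this
    exact ⟨this.1.2, Nat.eq_of_beq_eq_true this.2.1, Nat.eq_of_beq_eq_true this.2.2⟩
  · obtain ⟨p, hp, hj⟩ := anyE_iff.1 (h2 q hq)
    exact ⟨p, hp, (jn_iff.1 hj).2⟩

theorem st_ISO : St_ISO := by
  intro V E _ _ G ι es es' H ν ν' hE hi hpw hcl
  obtain ⟨h1, h2⟩ := ISO_split hi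
  have ht : ∀ a, tch es' a → tch es (rt ν a) := by
    rintro a ⟨p, hp, ha⟩
    obtain ⟨⟨q, hq, hs⟩, -⟩ := h1 p hp
    refine ⟨q, hq, ?_⟩
    rcases ha with rfl | rfl <;> rcases hs with ⟨x, y⟩ | ⟨x, y⟩
    · exact Or.inl x
    · exact Or.inr y
    · exact Or.inr y
    · exact Or.inl x
  have hb : ∀ a, tch es' a → rt ν' (rt ν a) = a := by
    rintro a ⟨p, hp, rfl | rfl⟩
    · exact (h1 p hp).2.1
    · exact (h1 p hp).2.2
  have hj : ∀ {q p : ℕ × ℕ} {e : E}, same q (rt ν p.1, rt ν p.2) →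
      (G.Joins e (ι q.1) (ι q.2) ↔ G.Joins e (ι (rt ν p.1)) (ι (rt ν p.2))) := by
    intro q p e hs
    rcases hs with ⟨x, y⟩ | ⟨x, y⟩
    · rw [x, y]
    · rw [x, y]
      exact ⟨fun h => h.symm, fun h => h.symm⟩
  refine ⟨⟨fun a b ha hb' hab => ?_, fun p hp => ?_, fun e => ?_, hpw, fun a ha h6 => ?_⟩, ht, ?_⟩
  · have := hE.inj _ _ (ht a ha) (ht b hb') hab
    rw [← hb a ha, this, hb b hb']
  · obtain ⟨⟨q, hq, hs⟩, -⟩ := h1 p hp
    have := hE.adj q hq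
    rcases hs with ⟨x, y⟩ | ⟨x, y⟩
    · rw [x, y] at this; exact this
    · rw [x, y] at this; exact this.symm
  · rw [hE.mem]
    constructor
    · rintro ⟨q, hq, j⟩
      obtain ⟨p, hp, hs⟩ := h2 q hq
      exact ⟨p, hp, (hj hs).1 j⟩
    · rintro ⟨p, hp, j⟩
      obtain ⟨⟨q, hq, hs⟩, -⟩ := h1 p hp
      exact ⟨q, hq, (hj hs).2 j⟩
  · rcases hcl a ha h6 with h | h
    · exact hE.cl _ (ht a ha) h
    · exact h
  · rintro b ⟨q, hq, hb'⟩
    obtain ⟨p, hp, hs⟩ := h2 q hq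
    rcases hb' with rfl | rfl <;> rcases hs with ⟨x, y⟩ | ⟨x, y⟩
    · exact ⟨p.1, tch1 hp, x.symm⟩
    · exact ⟨p.2, tch2 hp, x.symm⟩
    · exact ⟨p.2, tch2 hp, y.symm⟩
    · exact ⟨p.1, tch1 hp, y.symm⟩

end Pool.Agent.Lib.Tw5
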