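import Pool.Agent.Lib.Tw5.KitI

set_option linter.unusedSectionVars false
set_option linter.unusedVariables false

/-! A killed candidate is not a piece of the decomposition. -/

namespace Pool.Agent.Lib.Tw5

open Finset Pool.Agent.Lib.MP_aa6b05_co C

open scoped Classical

variable {V E : Type} [Fintype V] [Fintype E] {G : MG V E} {md k : ℕ} {σ ι : ℕ → V} {C D : Set V}
  {st : St} {H : Set E}

/-- a touched code lies on a non-loop edge of `H` -/
theorem kill_edge {es : Es} (h : Emb G ι es H) {a : ℕ} (ha : tch es a) :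
    ∃ e, e ∈ G.cut {ι a} ∧ e ∈ H := by
  obtain ⟨p, hp, h'⟩ := ha
  obtain ⟨n, e, j⟩ := h.adj p hp
  refine ⟨e, ?_, (h.mem e).mpr ⟨p, hp, j⟩⟩
  rcases h' with rfl | rfl
  · exact mem_cut1.mpr ⟨_, j, n⟩
  · exact mem_cut1.mpr ⟨_, j.symm, n.symm⟩

theorem kill_model0 {es : Es} (h : Emb G ι es H) : Model G (fun a => {ι a}) es :=
  ⟨fun a _ => con_single _,
    fun a b ha hb n => Set.disjoint_singleton.mpr fun e => n (h.inj a b ha hb e),
    fun p hp => ⟨_, rfl, _, rfl, h.adj p hp⟩⟩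

theorem kill_tch {es : Es} {a : ℕ}
    (h : tch ((0, 31) :: (1, 31) :: (2, 31) :: (3, 31) :: (4, 31) :: es) a) :
    a = 31 ∨ a < 5 ∨ tch es a := by
  obtain ⟨p, hp, h'⟩ := h
  simp only [List.mem_cons] at hp
  rcases hp with rfl | rfl | rfl | rfl | rfl | hp
  any_goals (dsimp only at h'; omega)
  exact Or.inr (Or.inr ⟨p, hp, h'⟩)

theorem kill_model1 (hx : Cx G 0 k σ C D) (h : InvI G k σ C D st H ι) (h25 : st.1 ≤ 25) :
    Model G (fun a => if a = 31 then D else {ι a})
      ((0, 31) :: (1, 31) :: (2, 31) :: (3, 31) :: (4, 31) :: st.2) := by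
  obtain ⟨hk, hm⟩ := hx.mn rfl
  have lt : ∀ a, tch st.2 a → a ≠ 31 := fun a ha => by
    rcases h.rng a ha with h1 | h1 <;> omega
  have out : ∀ b, b < 5 ∨ tch st.2 b → ι b ∉ D := by
    rintro b (hb | hb) hD
    · exact hm.fd.out _ hD (h.slot b (by omega) ▸ hm.mem hb)
    · obtain ⟨e, h1, h2⟩ := kill_edge h.emb hb
      exact hm.fd.side _ hD e h1 (by simpa using h.sub h2)
  have inj : ∀ a b, a < 5 ∨ tch st.2 a → b < 5 ∨ tch st.2 b → ι a = ι b → a = b := by
    rintro a b (ha | ha) (hb | hb) e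
    · exact hx.inj a (by omega) b (by omega)
        ((h.slot a (by omega)).symm.trans (e.trans (h.slot b (by omega))))
    · exact (h.slot_eq hx hb (by omega) (e.symm.trans (h.slot a (by omega)))).symm
    · exact h.slot_eq hx ha (by omega) (e.trans (h.slot b (by omega)))
    · exact h.emb.inj a b ha hb e
  have star : ∀ t < 5, ∃ u ∈ (if t = 31 then D else {ι t}),
      ∃ w ∈ (if 31 = 31 then D else {ι 31}), Ad G u w := fun t ht => by
    obtain ⟨-, x, h1, h2⟩ := hm.fd.all _ (hm.mem ht)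
    rw [if_neg (by omega), if_pos rfl]
    exact ⟨_, rfl, x, h1, h.slot t (by omega) ▸ h2.symm⟩
  refine ⟨fun a _ => ?_, fun a b ha hb n => ?_, fun p hp => ?_⟩
  · split_ifs
    · exact hm.fd.con
    · exact con_single _
  · have ha' := kill_tch ha
    have hb' := kill_tch hb
    split_ifs with h1 h2 h2
    · exact absurd (h1.trans h2.symm) n
    · exact Set.disjoint_singleton_right.mpr (out b (hb'.resolve_left h2))
    · exact Set.disjoint_singleton_left.mpr (out a (ha'.resolve_left h1))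
    · exact Set.disjoint_singleton.mpr fun e =>
        n (inj a b (ha'.resolve_left h1) (hb'.resolve_left h2) e)
  · simp only [List.mem_cons] at hp
    rcases hp with rfl | rfl | rfl | rfl | rfl | hp
    · exact star 0 (by omega)
    · exact star 1 (by omega)
    · exact star 2 (by omega)
    · exact star 3 (by omega)
    · exact star 4 (by omega)
    · rw [if_neg (lt _ (tch1 hp)), if_neg (lt _ (tch2 hp))]
      exact ⟨_, rfl, _, rfl, h.emb.adj p hp⟩

/-- the complement of a non-empty embedded part has a boundary code -/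
theorem kill_fs (hx : Cx G md k σ C D) (h : InvI G k σ C D st H ι) {p : ℕ × ℕ}
    (hp : p ∈ st.2) : ∃ c, c ∈ FS G σ k Hᶜ := by
  obtain ⟨n, e, j⟩ := h.emb.adj p hp
  obtain ⟨g, h1, h2⟩ := hx.cr.bf_ne (H := H) ⟨e, j.ne n, (h.emb.mem e).mpr ⟨p, hp, j⟩⟩
  obtain ⟨c, hc, -⟩ := exists_fs hx.inj hx.le h1 fun v hv => h2 v (by
    by_cases ht : ∃ a, tch st.2 a ∧ ι a = v
    · obtain ⟨a, ha, rfl⟩ := ht
      rcases h.rng a ha with h3 | h3
      · exact absurd (h.slot a (lt_of_lt_of_le h3 hx.le)).symm (hv a h3)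
      · exact Or.inl (h.emb.cl a ha h3.1)
    · refine Or.inr fun f hf hH => ht ?_
      obtain ⟨q, hq, j1⟩ := (h.emb.mem f).mp hH
      obtain ⟨x, j2, -⟩ := mem_cut1.mp hf
      rcases joins_cases j1 j2 with h3 | h3
      · exact ⟨_, tch1 hq, h3.1⟩
      · exact ⟨_, tch2 hq, h3.2⟩)
  exact ⟨c, hc⟩

theorem kill_ne {u : ℕ} (hu : uT u < 15) : ∃ p, p ∈ (addS st u).2 := by
  obtain ⟨p, hp, -⟩ := tch_of_deg ((tok hu).d1 0 (by have := (tok hu).k2; omega))
  rw [addS_eq]
  refine ⟨(pv (uP u) st.1 p.1, pv (uP u) st.1 p.2), ?_⟩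
  show _ ∈ addL st u
  rw [addL_eq]
  exact List.mem_append_left _ (List.mem_reverse.mpr (List.mem_map.mpr ⟨p, hp, rfl⟩))

theorem kill_ones (hx : Cx G md k σ C D) (h : InvI G k σ C D st H ι) {c : ℕ}
    (hc : c ∈ FS G σ k Hᶜ) : c < 4096 ∧ tb (Nat.xor ONES st.7) c = true := by
  have h1 : c < 4096 := lt_of_lt_of_le hc.1 (Nat.pow_le_pow_right (by decide) hx.le)
  exact ⟨h1, tb_xor.mpr fun e => h.not_F hx hc (e.mp (tb_ONES.mpr h1))⟩

theorem kill_d (hGO : St_GO) (hBIT : St_BIT) {u it : ℕ} (hx : Cx G md k σ C D)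
    (h : InvI G k σ C D (addS st u) H ι) (hu : uT u < 15) : dchk md st u it ≠ 0 := by
  obtain ⟨p, hp⟩ := kill_ne (st := st) hu
  obtain ⟨c, hc⟩ := kill_fs hx h hp
  have e7 : addF st u = (addS st u).7 := by rw [addS_eq]
  have e5 : Nat.lor st.5 (uC u) = (addS st u).5 := by rw [addS_eq]
  have key : tb (dchk md st u it) c = true := by
    unfold dchk
    rw [sel_beq, sel_beq, e7, e5]
    split_ifs with h0 h1
    · subst h0
      obtain ⟨hk, hm⟩ := hx.mn rfl
      refine hGO G σ Hᶜ k 6 it _ hx.le le_rfl (fun y hy => ?_) c hc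
      obtain ⟨a1, a2⟩ := kill_ones hx h hy
      refine hBIT.2.2.2.1 _ _ y a1 a2 fun t ht hb => ?_
      refine fs_hd1 hx.inj hx.le hy (by omega) (le_antisymm (h.c t (by omega) hb) ?_)
      exact (hm.fd.hd_pos (hm.mem ht)).trans (hd_mono (Set.compl_subset_compl.mpr h.sub) _)
    · refine hGO G σ Hᶜ k 5 it _ (hx.m1 h1) (by omega) (fun y hy => ?_) c hc
      have a1 : y < 1024 :=
        lt_of_lt_of_le hy.1 (Nat.pow_le_pow_right (by decide) (hx.m1 h1))
      exact tb_xor.mpr fun e => h.not_F hx hy (tb_land.mp (e.mp (tb_ON5.mpr a1))).2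
    · exact hGO G σ Hᶜ k 6 it _ hx.le le_rfl (fun y hy => (kill_ones hx h hy).2) c hc
  intro h0
  rw [h0] at key
  exact tb_zero c key

theorem st_KILL (hGCH : St_GCH) (hPCH : St_PCH) (hGO : St_GO) (hBIT : St_BIT) : St_KILL := by
  intro V E _ _ G md k σ C D st H u w hx ⟨ι, h⟩ hu
  have e2 : addL st u = (addS st u).2 := by rw [addS_eq]
  have e1 : Nat.add st.1 (tm (uT u)).2 = (addS st u).1 := by rw [addS_eq]; rfl
  by_contra hk
  unfold kill at hk
  rw [sel_beq, sel_beq] at hk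
  split_ifs at hk with h1 h2
  · have a := (sel_ne hk).1
    rw [addU_eq, e2] at a
    exact hGCH hx.cr h.emb a
  · have a := (sel_ne hk).1
    rw [sel_and, frc_eq, frc_eq, addU_eq, e2, e1, Nat.ble_eq] at a
    obtain ⟨a1, a2⟩ := a
    unfold Pool.Agent.Lib.Tw5.C.star at a2
    rw [sel_beq] at a2
    split_ifs at a2 with h0
    · subst h0
      exact hx.cr.np (hPCH (kill_model1 hx h a1) a2)
    · exact hx.cr.np (hPCH (kill_model0 h.emb) a2)
  · have a := (sel_ne hk).1
    rw [Nat.beq_eq] at a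
    exact kill_d hGO hBIT hx h hu a

end Pool.Agent.Lib.Tw5
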