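import Pool.Agent.Lib.Tw5.Blue

set_option linter.unusedSectionVars false
set_option linter.unusedVariables false

namespace Pool.Agent.Lib.Tw5

open Finset Pool.Agent.Lib.MP_aa6b05_co C

open scoped Classical

namespace L4

variable {V E : Type} [Fintype V] [Fintype E] {G : MG V E}

/-- last exit from `a` -/
theorem exit {X : Set E} {R : Set V} {a b : V} (n : a ≠ b) (hb : b ∈ R)
    (h : Relation.ReflTransGen (fun x y => x ∈ R ∧ y ∈ R ∧ ∃ e ∈ X, G.Joins e x y) a b) :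
    ∃ (R1 : Set V) (e : E) (w : V), R1 ⊆ R ∧ a ∉ R1 ∧ b ∈ R1 ∧ w ∈ R1 ∧ e ∈ X ∧ G.Joins e a w ∧
      ∀ (A : Set E) (Y : Set V), (∀ f ∈ X, G.s f ∈ R1 → G.t f ∈ R1 → f ∈ A) → Sat G A Y →
        (w ∈ Y ↔ b ∈ Y) := by
  set R1 : Set V := {v | Relation.ReflTransGen
    (fun x y => (x ∈ R ∧ x ≠ a) ∧ (y ∈ R ∧ y ≠ a) ∧ ∃ e ∈ X, G.Joins e x y) b v} with hR
  have h1 : ∀ v ∈ R1, v ∈ R ∧ v ≠ a := by
    intro v hv
    induction hv with
    | refl => exact ⟨hb, n.symm⟩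
    | tail _ h2 _ => exact h2.2.1
  have h2 : ∀ (A : Set E) (Y : Set V), (∀ f ∈ X, G.s f ∈ R1 → G.t f ∈ R1 → f ∈ A) → Sat G A Y →
      ∀ w ∈ R1, (w ∈ Y ↔ b ∈ Y) := by
    intro A Y hA hY w hw
    induction hw with
    | refl => rfl
    | @tail x y k1 k2 ih =>
      obtain ⟨e, he, j⟩ := k2.2.2
      have hx : x ∈ R1 := k1
      have hy : y ∈ R1 := Relation.ReflTransGen.tail k1 k2
      refine (hY.iff j (hA e he ?_ ?_)).symm.trans ih <;>
        rcases j with ⟨j1, j2⟩ | ⟨j1, j2⟩ <;> simp only [j1, j2, hx, hy]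
  by_contra hc
  refine (h1 a ?_).2 rfl
  have : ∀ v, Relation.ReflTransGen (fun x y => x ∈ R ∧ y ∈ R ∧ ∃ e ∈ X, G.Joins e x y) v b →
      v ∈ R1 := by
    intro v hv
    induction hv using Relation.ReflTransGen.head_induction_on with
    | refl => exact Relation.ReflTransGen.refl
    | @head x y k1 _ ih =>
      obtain ⟨hx, hy, e, he, j⟩ := k1
      by_cases hxa : x = a
      · subst hxa
        exact absurd ⟨R1, e, y, fun v hv => (h1 v hv).1, fun h => (h1 _ h).2 rfl,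
          Relation.ReflTransGen.refl, ih, he, j, fun A Y hA hY => h2 A Y hA hY y ih⟩ hc
      · exact Relation.ReflTransGen.tail ih ⟨h1 y ih, ⟨hx, hxa⟩, e, he, j.symm⟩
  exact this a h

theorem sum_del {M : Type} [AddCommMonoid M] (ψ : E → M) {X : Set E} {e1 e2 : E} (h1 : e1 ∈ X)
    (h2 : e2 ∈ X) (n : e1 ≠ e2) (Y : Set V) :
    ∑ e ∈ cutn G Y (X \ {e1, e2})ᶜ, ψ e = ∑ e ∈ cutn G Y Xᶜ, ψ e +
      ((if e1 ∈ G.cut Y then ψ e1 else 0) + (if e2 ∈ G.cut Y then ψ e2 else 0)) := by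
  have a : (X \ {e1, e2})ᶜ = Xᶜ ∪ {e1, e2} := by
    ext e
    simp only [Set.mem_compl_iff, Set.mem_sdiff, Set.mem_union, not_and_or, not_not]
  have b : cutn G Y {e1, e2} = ({e1, e2} : Finset E).filter (fun e => e ∈ G.cut Y) := by
    ext e
    simp only [mem_cutn, mem_filter, mem_insert, mem_singleton, Set.mem_insert_iff,
      Set.mem_singleton_iff]
    exact and_comm
  rw [a, sum_cutn_union, b, sum_filter, sum_pair n]
  rw [Set.disjoint_right]
  rintro e (rfl | rfl) h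
  exacts [h h1, h h2]

/-- a one-edge cut with trace `{a, b}` -/
theorem two (h6 : St_S6) (hG : Crit G) {X : Set E} {S C D Y : Set V} {a b c d : V}
    (sp : Sep G X S) (fc : Full G X S C) (fd : Full G Xᶜ S D) (h4 : S.ncard = 4)
    (hS : ∀ v, v ∈ S ↔ v = a ∨ v = b ∨ v = c ∨ v = d) (ab : a ≠ b) (cd : c ≠ d)
    (ha : a ∈ Y) (hb : b ∈ Y) (hc : c ∉ Y) (hd : d ∉ Y) (h1 : (cutn G Y Xᶜ).card = 1) :
    Small G D := by
  have sa : a ∈ S := (hS a).mpr (by simp)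
  have sb : b ∈ S := (hS b).mpr (by simp)
  have sc : c ∈ S := (hS c).mpr (by simp)
  have sd : d ∈ S := (hS d).mpr (by simp)
  obtain ⟨y, z, e, y1, y2, z2, he, j, y3, y4⟩ := (h6 hG sp fc fd h4.ge h1 sa sb fun v hv =>
    ⟨fun h => by
      rcases (hS v).mp hv with rfl | rfl | rfl | rfl
      exacts [Or.inl rfl, Or.inr rfl, absurd h hc, absurd h hd], by
      rintro (rfl | rfl)
      exacts [ha, hb]⟩).2.2 ab
  obtain ⟨y', z', e', z1, y2', z2', he', j', z3, z4⟩ := (h6 hG (Y := Yᶜ) sp fc fd h4.ge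
    (by rwa [cutn_compl]) sc sd fun v hv => ⟨fun h => by
      rcases (hS v).mp hv with rfl | rfl | rfl | rfl
      exacts [absurd ha h, absurd hb h, Or.inl rfl, Or.inr rfl], by
      rintro (rfl | rfl)
      exacts [hc, hd]⟩).2.2 cd
  rw [cutn_compl] at he'
  obtain rfl : e = e' := card_le_one.mp h1.le _ he _ he'
  obtain ⟨rfl, rfl⟩ := (joins_cases j j').resolve_left fun h => y2' (h.1 ▸ y2)
  refine Or.inr ⟨y, z, Set.Subset.antisymm (fun v hv => ?_) ?_,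
    ⟨fun h => z2 (h ▸ y2), e, j⟩, y3, z3⟩
  · refine (fd.con y y1 v hv).side (Y := {y, z}) ?_ (Or.inl rfl)
    rintro p q - hq hpq (rfl | rfl)
    · rcases y4 q hpq with rfl | rfl | rfl
      exacts [absurd sa (fd.out _ hq), absurd sb (fd.out _ hq), Or.inr rfl]
    · rcases z4 q hpq with rfl | rfl | rfl
      exacts [absurd sc (fd.out _ hq), absurd sd (fd.out _ hq), Or.inl rfl]
  · rintro v (rfl | rfl)
    exacts [y1, z1]

theorem core (h6 : St_S6) (hG : Crit G) {X : Set E} {S C D R R' : Set V} {a b c d u w : V}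
    (sp : Sep G X S) (fc : Full G X S C) (fd : Full G Xᶜ S D) (h4 : S.ncard = 4)
    (hu : u ∈ C) (hw : w ∈ C) (uw : u ≠ w) (eS : S = {a, b, c, d}) (dj : Disjoint R R')
    (hR : ∀ v ∈ S, v ∈ R ↔ v = a ∨ v = b) (hR' : ∀ v ∈ S, v ∈ R' ↔ v = c ∨ v = d)
    (p1 : Relation.ReflTransGen (fun x y => x ∈ R ∧ y ∈ R ∧ ∃ e ∈ X, G.Joins e x y) a b)
    (p2 : Relation.ReflTransGen (fun x y => x ∈ R' ∧ y ∈ R' ∧ ∃ e ∈ X, G.Joins e x y) c d)
    (hf : ∀ f ∈ BF G Xᶜ, (∀ v, f v ≠ 0 ↔ v ∈ S) → f a ≠ f b) : Small G D := by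
  have hS : ∀ v, v ∈ S ↔ v = a ∨ v = b ∨ v = c ∨ v = d := fun v => by
    rw [eS]
    simp
  have sa : a ∈ S := (hS a).mpr (by simp)
  have sb : b ∈ S := (hS b).mpr (by simp)
  have sc : c ∈ S := (hS c).mpr (by simp)
  have sd : d ∈ S := (hS d).mpr (by simp)
  have k3 : ∀ x y z : V, ({x, y, z} : Set V).ncard ≤ 3 := fun x y z => by
    have := Set.ncard_insert_le x ({y, z} : Set V)
    have := Set.ncard_insert_le y ({z} : Set V)
    have := Set.ncard_singleton z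
    omega
  have ab : a ≠ b := by
    rintro rfl
    have := k3 a c d
    rw [eS, Set.insert_eq_of_mem (by simp)] at h4
    omega
  have cd : c ≠ d := by
    rintro rfl
    have := k3 a b c
    rw [eS, Set.pair_eq_singleton] at h4
    omega
  have ra : a ∈ R := (hR a sa).mpr (Or.inl rfl)
  have rc : c ∈ R' := (hR' c sc).mpr (Or.inl rfl)
  obtain ⟨R1, e1, w1, s1, a1, b1, m1, x1, j1, c1⟩ := exit ab ((hR b sb).mpr (Or.inr rfl)) p1
  obtain ⟨R2, e2, w2, s2, a2, b2, m2, x2, j2, c2⟩ := exit cd ((hR' d sd).mpr (Or.inr rfl)) p2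
  have d1 := Set.disjoint_left.mp dj
  have d2 := Set.disjoint_right.mp dj
  have n12 : e1 ≠ e2 := by
    rintro rfl
    rcases joins_cases j1 j2 with h | h
    · exact d1 ra (h.1 ▸ rc)
    · exact d1 ra (h.1 ▸ s2 m2)
  set A : Set E := {f | f ∈ X ∧ ((G.s f ∈ R1 ∧ G.t f ∈ R1) ∨ (G.s f ∈ R2 ∧ G.t f ∈ R2))} with hA
  have sat : ∀ Y : Set V, (R1 ⊆ Y ∨ ∀ v ∈ R1, v ∉ Y) → (R2 ⊆ Y ∨ ∀ v ∈ R2, v ∉ Y) →
      Sat G A Y := by
    intro Y k1 k2 f hf hfA
    apply MG.mem_cut.mp hf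
    rcases hfA.2 with h | h
    · rcases k1 with k | k
      exacts [iff_of_true (k h.1) (k h.2), iff_of_false (k _ h.1) (k _ h.2)]
    · rcases k2 with k | k
      exacts [iff_of_true (k h.1) (k h.2), iff_of_false (k _ h.1) (k _ h.2)]
  by_cases hY : ∀ Y, Sat G A Y → (cutn G Y (X \ {e1, e2})ᶜ).card ≠ 1
  · exfalso
    obtain ⟨φ, h0, hφ⟩ := hG.red A (X \ {e1, e2}) (by
      obtain ⟨x, y, hx, hy, ⟨n, e, j⟩, -, -⟩ := (fc.con u hu w hw).cross (Y := {u}) rfl uw.symm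
      refine ⟨e, j.ne n, Or.inr ⟨fc.edge hx j n, ?_⟩⟩
      rintro (rfl | rfl)
      · rcases joins_cases j j1 with h | h
        exacts [fc.out x hx (h.1 ▸ sa), fc.out y hy (h.2 ▸ sa)]
      · rcases joins_cases j j2 with h | h
        exacts [fc.out x hx (h.1 ▸ sc), fc.out y hy (h.2 ▸ sc)]) hY
    simp only [sum_del φ x1 x2 n12] at hφ
    set f : V → K := fun v => ∑ e ∈ cutn G {v} Xᶜ, φ e with hfd
    have f0 : ∀ v, v ∉ S → f v = 0 := by
      intro v hv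
      rcases sp v hv with h | h
      · simp only [hfd, h.cutn_eq, sum_empty]
      · have := hφ {v} (h.mono fun e he => he.1)
        rwa [if_neg (fun k => h _ k x1), if_neg (fun k => h _ k x2), add_zero, add_zero] at this
    have fs : ∀ (Y : Set V) (x : V), x ∈ Y → (∀ v ∈ S, v ∈ Y → v = x) →
        ∑ e ∈ cutn G Y Xᶜ, φ e = f x := by
      intro Y x hx h
      rw [sum_cutn K.add_self]
      exact sum_eq_single x (fun v hv n => f0 v fun hs => n (h v hs (mem_filter.mp hv).2))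
        (fun h => absurd (mem_filter.mpr ⟨mem_univ _, hx⟩) h)
    have fa : f a = φ e1 := by
      have := hφ {a} (sat _ (Or.inr fun v hv h => a1 (h ▸ hv))
        (Or.inr fun v hv h => d1 ra (h ▸ s2 hv)))
      rw [if_pos (mem_cut1.mpr ⟨_, j1, fun h => a1 (h ▸ m1)⟩), if_neg (by
        rw [j2.mem_cut, not_not]
        exact iff_of_false (fun h => d1 ra (h ▸ rc)) fun h => d1 ra (h ▸ s2 m2)), add_zero] at this
      exact K.eq_of_add_eq_zero this
    have fb : f b = φ e1 := by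
      have := hφ R1 (sat _ (Or.inl le_rfl) (Or.inr fun v hv h => d1 (s1 h) (s2 hv)))
      rw [if_pos (j1.mem_cut.mpr fun h => a1 (h.mpr m1)), if_neg (by
        rw [j2.mem_cut, not_not]
        exact iff_of_false (fun h => d1 (s1 h) rc) fun h => d1 (s1 h) (s2 m2)), add_zero,
        fs R1 b b1 fun v hv h => ((hR v hv).mp (s1 h)).resolve_left fun k => a1 (k ▸ h)] at this
      exact K.eq_of_add_eq_zero this
    have fc' : f c = φ e2 := by
      have := hφ {c} (sat _ (Or.inr fun v hv h => d2 rc (h ▸ s1 hv))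
        (Or.inr fun v hv h => a2 (h ▸ hv)))
      rw [if_pos (mem_cut1.mpr ⟨_, j2, fun h => a2 (h ▸ m2)⟩), if_neg (by
        rw [j1.mem_cut, not_not]
        exact iff_of_false (fun h => d2 rc (h ▸ ra)) fun h => d2 rc (h ▸ s1 m1)), zero_add] at this
      exact K.eq_of_add_eq_zero this
    have fd' : f d = φ e2 := by
      have := hφ R2 (sat _ (Or.inr fun v hv h => d1 (s1 hv) (s2 h)) (Or.inl le_rfl))
      rw [if_pos (j2.mem_cut.mpr fun h => a2 (h.mpr m2)), if_neg (by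
        rw [j1.mem_cut, not_not]
        exact iff_of_false (fun h => d1 ra (s2 h)) fun h => d1 (s1 m1) (s2 h)), zero_add,
        fs R2 d b2 fun v hv h => ((hR' v hv).mp (s2 h)).resolve_left fun k => a2 (k ▸ h)] at this
      exact K.eq_of_add_eq_zero this
    refine hf f ⟨φ, h0, fun _ => rfl⟩ (fun v => ⟨fun h => by_contra fun k => h (f0 v k),
      fun hv => ?_⟩) (fa.trans fb.symm)
    rcases (hS v).mp hv with rfl | rfl | rfl | rfl
    exacts [fa ▸ h0 _, fb ▸ h0 _, fc' ▸ h0 _, fd' ▸ h0 _]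
  push Not at hY
  obtain ⟨Y, hs, h1⟩ := hY
  have t1 := c1 A Y (fun f hf k1 k2 => ⟨hf, Or.inl ⟨k1, k2⟩⟩) hs
  have t2 := c2 A Y (fun f hf k1 k2 => ⟨hf, Or.inr ⟨k1, k2⟩⟩) hs
  rw [card_eq_sum_ones, sum_del _ x1 x2 n12, ← card_eq_sum_ones] at h1
  have i1 : e1 ∈ G.cut Y ↔ ¬ (a ∈ Y ↔ b ∈ Y) := by rw [j1.mem_cut, t1]
  have i2 : e2 ∈ G.cut Y ↔ ¬ (c ∈ Y ↔ d ∈ Y) := by rw [j2.mem_cut, t2]
  have cr : ∀ x ∈ S, ∀ y ∈ S, ¬ (x ∈ Y ↔ y ∈ Y) → 1 ≤ (cutn G Y Xᶜ).card := by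
    intro x hx y hy h
    by_cases k : x ∈ Y
    · exact fd.cross hx hy k fun k' => h (iff_of_true k k')
    · exact fd.cross hy hx (by_contra fun k' => h (iff_of_false k k')) k
  have q1 : a ∈ Y ↔ b ∈ Y := by
    by_contra h
    have := cr a sa b sb h
    rw [if_pos (i1.mpr h)] at h1
    omega
  have q2 : c ∈ Y ↔ d ∈ Y := by
    by_contra h
    have := cr c sc d sd h
    rw [if_pos (i2.mpr h)] at h1
    omega
  rw [if_neg fun h => i1.mp h q1, if_neg fun h => i2.mp h q2, add_zero, add_zero] at h1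
  by_cases ya : a ∈ Y <;> by_cases yc : c ∈ Y
  · refine absurd (cutn_compl Y Xᶜ ▸ h1) (hG.no_br (Y := Yᶜ) sp fun v hv h => h ?_)
    rcases (hS v).mp hv with rfl | rfl | rfl | rfl
    exacts [ya, q1.mp ya, yc, q2.mp yc]
  · exact two h6 hG sp fc fd h4 hS ab cd ya (q1.mp ya) yc (mt q2.mpr yc) h1
  · exact two h6 hG (Y := Yᶜ) sp fc fd h4 hS ab cd ya (mt q1.mpr ya) (fun h => h yc)
      (fun h => h (q2.mp yc)) (by rwa [cutn_compl])
  · refine absurd h1 (hG.no_br sp fun v hv => ?_)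
    rcases (hS v).mp hv with rfl | rfl | rfl | rfl
    exacts [ya, mt q1.mpr ya, yc, mt q2.mpr yc]

theorem one (hG : Crit G) {X : Set E} {S C : Set V} (fc : Full G X S C) (h4 : S.ncard = 4) :
    Small G C ∨ ∃ u ∈ C, ∃ w ∈ C, u ≠ w := by
  by_contra hc
  push Not at hc
  obtain ⟨a, ha⟩ := Set.nonempty_of_ncard_ne_zero (s := S) (by omega)
  obtain ⟨-, y, hy, -⟩ := fc.all a ha
  have e : C = {y} := Set.eq_singleton_iff_unique_mem.mpr ⟨hy, fun x hx => hc.2 x hx y hy⟩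
  refine hc.1 (Or.inl ⟨y, e, Or.inr ?_⟩)
  rw [d_eq_nb hG.par, ← e, ← h4]
  exact congrArg _ (Set.Subset.antisymm fc.nb fc.all)

end L4

open L4 in
theorem st_L4 (hS : St_STAR) (h6 : St_S6) (hA : St_L4A) : St_L4 := by
  intro V E _ _ G hG H S C D sp fc fd h4
  rcases one hG fc h4 with h | ⟨u, hu, w, hw, n⟩
  · exact Or.inl h
  rcases one hG fd h4 with h | ⟨u', hu', w', hw', n'⟩
  · exact Or.inr h
  have fc' : Full G Hᶜᶜ S C := by rwa [compl_compl]
  obtain ⟨g', g1, g2, g3⟩ := hS hG sp fc fd (by omega) hu hw n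
  obtain ⟨g, g4, g5, g6⟩ := hS hG sp.compl fd fc' (by omega) hu' hw' n'
  rw [compl_compl] at g4
  obtain ⟨X, a, b, c, d, R, R', rfl | rfl, k1, k2, k3, k4, k5, k6, k7⟩ := hA hG sp h4 g4 g1
    (fun v => ⟨fun h => by_contra fun k => h (g6 v k), g5 v⟩)
    (fun v => ⟨fun h => by_contra fun k => h (g3 v k), g2 v⟩)
  · exact Or.inr (core h6 hG sp fc fd h4 hu hw n k1 k2 k3 k4 k5 k6 k7)
  · exact Or.inl (core h6 hG sp.compl fd fc' h4 hu' hw' n' k1 k2 k3 k4 k5 k6 k7)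

end Pool.Agent.Lib.Tw5
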