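import Pool.Agent.Lib.Tw5.Blue

set_option linter.unusedSectionVars false
set_option linter.unusedVariables false

namespace Pool.Agent.Lib.Tw5

open Finset Pool.Agent.Lib.MP_aa6b05_co C

open scoped Classical

namespace L4A

variable {V E : Type} [Fintype V] [Fintype E] {G : MG V E}

/-- boundaries that are non-zero exactly on `S` -/
def NS (G : MG V E) (X : Set E) (S : Set V) (f : V → K) : Prop :=
  f ∈ BF G X ∧ ∀ v, f v ≠ 0 ↔ v ∈ S

def PA (G : MG V E) (X : Set E) (S : Set V) (a : V) : Prop :=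
  ∃ f, NS G X S f ∧ ∀ v ∈ S, f v = f a

def PB (G : MG V E) (X : Set E) (S : Set V) (a b : V) : Prop :=
  ∃ f, NS G X S f ∧ f a = f b ∧ ∃ v ∈ S, f v ≠ f a

structure Q4 (S : Set V) (a b c d : V) : Prop where
  eq : S = {a, b, c, d}
  ab : a ≠ b
  ac : a ≠ c
  ad : a ≠ d
  bc : b ≠ c
  bd : b ≠ d
  cd : c ≠ d

theorem Q4.mem {S : Set V} {a b c d : V} (q : Q4 S a b c d) {v : V} :
    v ∈ S ↔ v = a ∨ v = b ∨ v = c ∨ v = d := by
  rw [q.eq]
  simp

theorem Q4.s23 {S : Set V} {a b c d : V} (q : Q4 S a b c d) : Q4 S a c b d :=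
  ⟨Set.ext fun v => by rw [q.mem]; simp; tauto, q.ac, q.ab, q.ad, q.bc.symm, q.cd, q.bd⟩

theorem Q4.s24 {S : Set V} {a b c d : V} (q : Q4 S a b c d) : Q4 S a d b c :=
  ⟨Set.ext fun v => by rw [q.mem]; simp; tauto, q.ad, q.ab, q.ac, q.bd.symm, q.cd.symm, q.bc⟩

theorem NS.zero {X : Set E} {S : Set V} {f : V → K} (h : NS G X S f) {v : V} (hv : v ∉ S) :
    f v = 0 := by_contra fun h0 => hv ((h.2 v).mp h0)

theorem NS.sum {X : Set E} {S : Set V} {f : V → K} {a b c d : V} (h : NS G X S f)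
    (q : Q4 S a b c d) : f a + (f b + (f c + f d)) = 0 := by
  have h1 := bf_tot h.1
  rw [← sum_subset (s₁ := {a, b, c, d}) (subset_univ _)
    (fun v _ hv => h.zero fun hs => hv (by simpa using q.mem.mp hs)),
    sum_insert (by simp [q.ab, q.ac, q.ad]), sum_insert (by simp [q.bc, q.bd]),
    sum_pair q.cd] at h1
  exact h1

theorem NS.ne {X : Set E} {S : Set V} {f : V → K} {a b c d : V} (h : NS G X S f)
    (q : Q4 S a b c d) : f a ≠ 0 ∧ f b ≠ 0 ∧ f c ≠ 0 ∧ f d ≠ 0 :=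
  ⟨(h.2 a).mpr (q.mem.mpr (by simp)), (h.2 b).mpr (q.mem.mpr (by simp)),
    (h.2 c).mpr (q.mem.mpr (by simp)), (h.2 d).mpr (q.mem.mpr (by simp))⟩

theorem clash (hG : Crit G) {X : Set E} {S : Set V} {f f' : V → K} (h : NS G X S f)
    (h' : NS G Xᶜ S f') {α : K → K} (hα : GoodAut α) (e : ∀ v ∈ S, α (f v) = f' v) : False := by
  have h0 : α 0 = 0 := by
    have := hα.1 0 0
    rwa [add_zero, K.add_self] at this
  have : (fun v => α (f v)) = f' := funext fun v => by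
    by_cases hv : v ∈ S
    · exact e v hv
    · rw [h.zero hv, h'.zero hv, h0]
  exact hG.nc (bf_col (this ▸ bf_aut h.1 hα) h'.1)

theorem djA (hG : Crit G) {X : Set E} {S : Set V} {a : V} (ha : a ∈ S) (h : PA G X S a)
    (h' : PA G Xᶜ S a) : False := by
  obtain ⟨f, h1, h2⟩ := h
  obtain ⟨f', h3, h4⟩ := h'
  obtain ⟨α, hα, e⟩ := exists_aut_one (f a) (f' a) ((h1.2 a).mpr ha) ((h3.2 a).mpr ha)
  exact clash hG h1 h3 hα fun v hv => by rw [h2 v hv, h4 v hv, e]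

theorem PB.spec {X : Set E} {S : Set V} {a b c d : V} (q : Q4 S a b c d) (h : PB G X S a b) :
    ∃ f, NS G X S f ∧ f b = f a ∧ f d = f c ∧ f a ≠ f c := by
  obtain ⟨f, h1, h2, v, hv, h3⟩ := h
  have k : ∀ x y z : K, x + (x + (y + z)) = 0 → z = y := by decide
  have h4 := k _ _ _ (h2 ▸ h1.sum q)
  refine ⟨f, h1, h2.symm, h4, fun h5 => h3 ?_⟩
  rcases q.mem.mp hv with rfl | rfl | rfl | rfl
  exacts [rfl, h2.symm, h5.symm, h4.trans h5.symm]

theorem djB (hG : Crit G) {X : Set E} {S : Set V} {a b c d : V} (q : Q4 S a b c d)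
    (h : PB G X S a b) (h' : PB G Xᶜ S a b) : False := by
  obtain ⟨f, h1, h2, h3, h4⟩ := h.spec q
  obtain ⟨f', h5, h6, h7, h8⟩ := h'.spec q
  obtain ⟨α, hα, e, e'⟩ := exists_aut_two (f a) (f c) (f' a) (f' c) (h1.ne q).1 (h1.ne q).2.2.1 h4
    (h5.ne q).1 (h5.ne q).2.2.1 h8
  refine clash hG h1 h5 hα fun v hv => ?_
  rcases q.mem.mp hv with rfl | rfl | rfl | rfl
  · exact e
  · rw [h2, h6, e]
  · exact e'
  · rw [h3, h7, e']

theorem cls {X : Set E} {S : Set V} {a b c d : V} (q : Q4 S a b c d) {f : V → K}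
    (h : NS G X S f) : PA G X S a ∨ PB G X S a b ∨ PB G X S a c ∨ PB G X S a d := by
  by_cases h0 : ∀ v ∈ S, f v = f a
  · exact Or.inl ⟨f, h, h0⟩
  push Not at h0
  have k : ∀ x y z w : K, x ≠ 0 → y ≠ 0 → z ≠ 0 → w ≠ 0 → x + (y + (z + w)) = 0 →
      x = y ∨ x = z ∨ x = w := by decide
  obtain ⟨n1, n2, n3, n4⟩ := h.ne q
  rcases k _ _ _ _ n1 n2 n3 n4 (h.sum q) with e | e | e
  exacts [Or.inr (Or.inl ⟨f, h, e, h0⟩), Or.inr (Or.inr (Or.inl ⟨f, h, e, h0⟩)),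
    Or.inr (Or.inr (Or.inr ⟨f, h, e, h0⟩))]

/-- a Kempe change along a path from `u` to `w` -/
theorem sw {X : Set E} {S : Set V} {φ : E → K} {f : V → K} {k : K} (h0 : ∀ e, φ e ≠ 0)
    (hg : ∀ v, ∑ e ∈ cutn G {v} X, φ e = f v) (hf : ∀ v, f v ≠ 0 ↔ v ∈ S) {u w : V} (n : u ≠ w)
    (hu : u ∈ S) (hw : w ∈ S) (hu' : f u + k ≠ 0) (hw' : f w + k ≠ 0)
    (hz : (fun v => (if v = u then 1 else 0) + (if v = w then 1 else 0)) ∈ KR G X φ k) :
    ∃ f', NS G X S f' ∧ f' u = f u + k ∧ f' w = f w + k ∧ ∀ v, v ≠ u → v ≠ w → f' v = f v := by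
  have a1 : f u + sm ((if u = u then 1 else 0) + (if u = w then 1 else 0)) k = f u + k := by
    simp [n, sm]
  have a2 : f w + sm ((if w = u then 1 else 0) + (if w = w then 1 else 0)) k = f w + k := by
    simp [n.symm, sm]
  have a3 : ∀ v, v ≠ u → v ≠ w →
      f v + sm ((if v = u then 1 else 0) + (if v = w then 1 else 0)) k = f v := by
    intro v h1 h2
    simp [h1, h2, sm]
  refine ⟨_, ⟨kr_bf h0 hg hz, fun v => ?_⟩, a1, a2, a3⟩
  by_cases h1 : v = u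
  · subst h1
    rw [a1]
    exact iff_of_true hu' hu
  by_cases h2 : v = w
  · subst h2
    rw [a2]
    exact iff_of_true hw' hw
  rw [a3 v h1 h2, hf]

theorem step {X : Set E} {S : Set V} {f : V → K} {k : K} (h : NS G X S f) (hk : k ≠ 0)
    (hS : ∀ v ∈ S, f v ≠ k) {u : V} (hu : u ∈ S) : ∃ w ∈ S, w ≠ u ∧
      ∃ f', NS G X S f' ∧ f' u = f u + k ∧ f' w = f w + k ∧ ∀ v, v ≠ u → v ≠ w → f' v = f v := by
  obtain ⟨⟨φ, h0, hg⟩, hf⟩ := h
  obtain ⟨w, n, h1, h2⟩ := kr_split (kr_odd hk hg) (u := u) (by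
    simp [lam, (hf u).mpr hu, hS u hu])
  have hw : w ∈ S := (hf w).mp fun e => h1 (by simp [lam, e])
  exact ⟨w, hw, n, sw h0 hg hf n.symm hu hw (fun e => hS u hu (K.eq_of_add_eq_zero e))
    (fun e => hS w hw (K.eq_of_add_eq_zero e)) h2⟩

theorem k1 {X : Set E} {S : Set V} {a b c d : V} (q : Q4 S a b c d) (h : PA G X S a) :
    PB G X S a b ∨ PB G X S a c ∨ PB G X S a d := by
  obtain ⟨f, h1, h2⟩ := h
  have k0 : ∀ x : K, ∃ k : K, k ≠ 0 ∧ x ≠ k ∧ x ≠ x + k := by decide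
  obtain ⟨k, e1, e2, e3⟩ := k0 (f a)
  have ha : a ∈ S := q.mem.mpr (by simp)
  obtain ⟨w, hw, n, f', g1, g2, g3, g4⟩ := step h1 e1 (fun v hv => (h2 v hv).symm ▸ e2) ha
  have key : ∀ v ∈ S, v ≠ a → v ≠ w → PB G X S a w := fun v hv n1 n2 =>
    ⟨f', g1, by rw [g2, g3, h2 w hw], v, hv, by rw [g4 v n1 n2, g2, h2 v hv]; exact e3⟩
  rcases q.mem.mp hw with rfl | rfl | rfl | rfl
  · exact absurd rfl n
  · exact Or.inl (key c (q.mem.mpr (by simp)) q.ac.symm q.bc.symm)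
  · exact Or.inr (Or.inl (key b (q.mem.mpr (by simp)) q.ab.symm q.bc))
  · exact Or.inr (Or.inr (key b (q.mem.mpr (by simp)) q.ab.symm q.bd))

theorem kx : ∀ x y : K, x ≠ 0 → y ≠ 0 → x ≠ y → x + y ≠ 0 ∧ x ≠ x + y ∧ y ≠ x + y ∧
    x + (x + y) = y ∧ y + (x + y) = x := by decide

theorem k2 {X : Set E} {S : Set V} {a b c d : V} (q : Q4 S a b c d) (h : PB G X S a b) :
    PA G X S a ∨ PB G X S a c ∨ PB G X S a d := by
  obtain ⟨f, h1, h2, h3, h4⟩ := h.spec q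
  obtain ⟨e1, e2, e3, e4, e5⟩ := kx _ _ (h1.ne q).1 (h1.ne q).2.2.1 h4
  have ha : a ∈ S := q.mem.mpr (by simp)
  obtain ⟨w, hw, n, f', g1, g2, g3, g4⟩ := step h1 e1 (fun v hv => by
    rcases q.mem.mp hv with rfl | rfl | rfl | rfl
    exacts [e2, h2.symm ▸ e2, e3, h3.symm ▸ e3]) ha
  rw [e4] at g2
  rcases q.mem.mp hw with rfl | rfl | rfl | rfl
  · exact absurd rfl n
  · refine Or.inl ⟨f', g1, fun v hv => ?_⟩
    rcases q.mem.mp hv with rfl | rfl | rfl | rfl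
    · rfl
    · rw [g3, g2, h2, e4]
    · rw [g4 _ q.ac.symm q.bc.symm, g2]
    · rw [g4 _ q.ad.symm q.bd.symm, g2, h3]
  · refine Or.inr (Or.inr ⟨f', g1, by rw [g4 _ q.ad.symm q.cd.symm, g2, h3], b,
      q.mem.mpr (by simp), ?_⟩)
    rw [g4 _ q.ab.symm q.bc, g2, h2]
    exact h4
  · refine Or.inr (Or.inl ⟨f', g1, by rw [g4 _ q.ac.symm q.cd, g2], b,
      q.mem.mpr (by simp), ?_⟩)
    rw [g4 _ q.ab.symm q.bd, g2, h2]
    exact h4

/-- the vertices reached from `u` inside the Kempe subgraph -/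
def Rch (G : MG V E) (X : Set E) (φ : E → K) (k : K) (u : V) : Set V :=
  {w | Relation.ReflTransGen (fun x y => ∃ e ∈ X, lam k (φ e) ≠ 0 ∧ G.Joins e x y) u w}

theorem rch_kr {X : Set E} {φ : E → K} {k : K} {u w : V} (h : w ∈ Rch G X φ k u) :
    (fun v => (if v = u then 1 else 0) + (if v = w then 1 else 0)) ∈ KR G X φ k := by
  induction h with
  | refl => simpa only [zmod2_add_self] using kr_zero (G := G) X φ k
  | @tail x y _ h2 ih =>
    obtain ⟨e, he, hl, j⟩ := h2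
    have := kr_add ih (kr_edge j he hl)
    rw [show (fun v => (if v = u then (1 : ZMod 2) else 0) + (if v = y then 1 else 0)) = fun v =>
      ((if v = u then 1 else 0) + (if v = x then 1 else 0)) +
        ((if v = x then 1 else 0) + (if v = y then 1 else 0)) from funext fun v => ?_]
    · exact this
    · have := zmod2_add_self (if v = x then (1 : ZMod 2) else 0)
      linear_combination -this

theorem rch_symm {X : Set E} {φ : E → K} {k : K} {u w : V} (h : w ∈ Rch G X φ k u) :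
    u ∈ Rch G X φ k w := by
  induction h with
  | refl => exact Relation.ReflTransGen.refl
  | tail _ h2 ih =>
    obtain ⟨e, he, hl, j⟩ := h2
    exact Relation.ReflTransGen.head ⟨e, he, hl, j.symm⟩ ih

theorem rch_in {X : Set E} {φ : E → K} {k : K} {u w : V} (h : w ∈ Rch G X φ k u) :
    Relation.ReflTransGen (fun x y => x ∈ Rch G X φ k u ∧ y ∈ Rch G X φ k u ∧
      ∃ e ∈ X, G.Joins e x y) u w := by
  induction h with
  | refl => exact Relation.ReflTransGen.refl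
  | tail h1 h2 ih =>
    exact ih.tail ⟨h1, Relation.ReflTransGen.tail h1 h2, h2.imp fun e he => ⟨he.1, he.2.2⟩⟩

theorem rch_par {X : Set E} {φ : E → K} {f : V → K} {k : K} (hk : k ≠ 0)
    (hg : ∀ v, ∑ e ∈ cutn G {v} X, φ e = f v) {u : V} (hu : lam k (f u) ≠ 0) :
    ∃ w ∈ Rch G X φ k u, w ≠ u ∧ f w ≠ 0 := by
  by_contra hc
  push Not at hc
  have h1 := sum_cutn (G := G) K.add_self φ (Rch G X φ k u) X
  rw [sum_congr rfl fun v _ => hg v, sum_eq_single u (fun v hv n => hc v (mem_filter.mp hv).2 n)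
    (fun h => absurd (mem_filter.mpr ⟨mem_univ _, Relation.ReflTransGen.refl⟩) h)] at h1
  apply hu
  rw [← h1]
  refine (map_sum (AddMonoidHom.mk' (lam k) (lam_add k hk)) φ _).trans (sum_eq_zero fun e he => ?_)
  obtain ⟨a, b, j, ha, hb⟩ := MG.exists_joins_of_mem_cut (mem_cutn.mp he).1
  by_contra h0
  exact hb (Relation.ReflTransGen.tail ha ⟨e, (mem_cutn.mp he).2, h0, j⟩)

theorem core (hG : Crit G) {X : Set E} {S : Set V} {a b c d : V} (q : Q4 S a b c d)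
    (hA : PA G X S a) (hB : PB G X S a b) (hC : ¬ PB G X S a c) (hD : ¬ PB G X S a d) :
    ∃ R R' : Set V, S = {a, b, c, d} ∧ Disjoint R R' ∧
      (∀ v ∈ S, v ∈ R ↔ v = a ∨ v = b) ∧ (∀ v ∈ S, v ∈ R' ↔ v = c ∨ v = d) ∧
      Relation.ReflTransGen (fun x y => x ∈ R ∧ y ∈ R ∧ ∃ e ∈ X, G.Joins e x y) a b ∧
      Relation.ReflTransGen (fun x y => x ∈ R' ∧ y ∈ R' ∧ ∃ e ∈ X, G.Joins e x y) c d ∧
      ∀ f ∈ BF G Xᶜ, (∀ v, f v ≠ 0 ↔ v ∈ S) → f a ≠ f b := by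
  obtain ⟨f, h1, h2, h3, h4⟩ := hB.spec q
  obtain ⟨n1, -, n3, -⟩ := h1.ne q
  obtain ⟨e1, e2, e3, e4, e5⟩ := kx _ _ n1 n3 h4
  obtain ⟨⟨φ, h0, hg⟩, hf⟩ := h1
  have ha : a ∈ S := q.mem.mpr (by simp)
  have hb : b ∈ S := q.mem.mpr (by simp)
  have hc : c ∈ S := q.mem.mpr (by simp)
  have hd : d ∈ S := q.mem.mpr (by simp)
  have nc : c ∉ Rch G X φ (f a + f c) a := fun h => by
    obtain ⟨f', g1, g2, g3, g4⟩ := sw h0 hg hf q.ac ha hc (by rwa [e4]) (by rwa [e5]) (rch_kr h)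
    refine hD ⟨f', g1, by rw [g4 _ q.ad.symm q.cd.symm, g2, h3, e4], b, hb, ?_⟩
    rw [g4 _ q.ab.symm q.bc, g2, h2, e4]
    exact h4
  have nd : d ∉ Rch G X φ (f a + f c) a := fun h => by
    obtain ⟨f', g1, g2, g3, g4⟩ := sw h0 hg hf q.ad ha hd (by rwa [e4]) (by rwa [h3, e5])
      (rch_kr h)
    refine hC ⟨f', g1, by rw [g4 _ q.ac.symm q.cd, g2, e4], b, hb, ?_⟩
    rw [g4 _ q.ab.symm q.bd, g2, h2, e4]
    exact h4
  have mb : b ∈ Rch G X φ (f a + f c) a := by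
    obtain ⟨w, w1, w2, w3⟩ := rch_par e1 hg (u := a) (by simp [lam, n1, e2])
    rcases q.mem.mp ((hf w).mp w3) with rfl | rfl | rfl | rfl
    exacts [absurd rfl w2, w1, absurd w1 nc, absurd w1 nd]
  have dj : Disjoint (Rch G X φ (f a + f c) a) (Rch G X φ (f a + f c) c) :=
    Set.disjoint_left.mpr fun w w1 w2 => nc (Relation.ReflTransGen.trans w1 (rch_symm w2))
  have ma : a ∈ Rch G X φ (f a + f c) a := Relation.ReflTransGen.refl
  have mc : c ∈ Rch G X φ (f a + f c) c := Relation.ReflTransGen.refl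
  have md : d ∈ Rch G X φ (f a + f c) c := by
    obtain ⟨w, w1, w2, w3⟩ := rch_par e1 hg (u := c) (by simp [lam, n3, e3])
    rcases q.mem.mp ((hf w).mp w3) with rfl | rfl | rfl | rfl
    exacts [absurd w1 (Set.disjoint_left.mp dj ma), absurd w1 (Set.disjoint_left.mp dj mb),
      absurd rfl w2, w1]
  refine ⟨_, _, q.eq, dj, fun v hv => ⟨fun h => ?_, ?_⟩, fun v hv => ⟨fun h => ?_, ?_⟩,
    rch_in mb, rch_in md, fun f' g1 g2 e => ?_⟩
  · rcases q.mem.mp hv with rfl | rfl | rfl | rfl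
    exacts [Or.inl rfl, Or.inr rfl, absurd h nc, absurd h nd]
  · rintro (rfl | rfl)
    exacts [ma, mb]
  · rcases q.mem.mp hv with rfl | rfl | rfl | rfl
    exacts [absurd h (Set.disjoint_left.mp dj ma), absurd h (Set.disjoint_left.mp dj mb),
      Or.inl rfl, Or.inr rfl]
  · rintro (rfl | rfl)
    exacts [mc, md]
  · by_cases h5 : ∀ v ∈ S, f' v = f' a
    · exact djA hG ha hA ⟨f', ⟨g1, g2⟩, h5⟩
    · push Not at h5
      exact djB hG q hB ⟨f', ⟨g1, g2⟩, e, h5⟩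

theorem pr1 {A B C D : Prop} (t0 : A ∨ B ∨ C ∨ D) (t1 : B → A ∨ C ∨ D) (t2 : C → A ∨ B ∨ D)
    (t3 : D → A ∨ B ∨ C) (u : ¬ A) : (B ∧ C) ∨ (B ∧ D) ∨ (C ∧ D) := by tauto

theorem side (hG : Crit G) {X : Set E} {S : Set V} {a b c d : V} (q : Q4 S a b c d)
    (hA : PA G X S a) {g : V → K} (hg : NS G Xᶜ S g) :
    ∃ b c d, Q4 S a b c d ∧ PB G X S a b ∧ ¬ PB G X S a c ∧ ¬ PB G X S a d := by
  have t := pr1 (cls q hg) (k2 q) (k2 q.s23) (k2 q.s24) (djA hG (q.mem.mpr (Or.inl rfl)) hA)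
  have u1 := djB hG (X := X) q
  have u2 := djB hG (X := X) q.s23
  have u3 := djB hG (X := X) q.s24
  rcases k1 q hA with h | h | h <;> rcases t with t | t | t
  · exact (u1 h t.1).elim
  · exact (u1 h t.1).elim
  · exact ⟨b, c, d, q, h, fun k => u2 k t.1, fun k => u3 k t.2⟩
  · exact (u2 h t.2).elim
  · exact ⟨c, b, d, q.s23, h, fun k => u1 k t.1, fun k => u3 k t.2⟩
  · exact (u2 h t.1).elim
  · exact ⟨d, b, c, q.s24, h, fun k => u1 k t.1, fun k => u2 k t.2⟩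
  · exact (u3 h t.2).elim
  · exact (u3 h t.2).elim

end L4A

open L4A in
theorem st_L4A : St_L4A := by
  intro V E _ _ G hG H S g g' _ h4 hg hg' e e'
  obtain ⟨a, b, c, d, ab, ac, ad, bc, bd, cd, hS⟩ := Set.ncard_eq_four.mp h4
  have q : Q4 S a b c d := ⟨hS, ab, ac, ad, bc, bd, cd⟩
  have hA : PA G H S a ∨ PA G Hᶜ S a := by
    by_contra hc
    rw [not_or] at hc
    have s := pr1 (cls q ⟨hg, e⟩) (k2 q) (k2 q.s23) (k2 q.s24) hc.1
    have t := pr1 (cls q ⟨hg', e'⟩) (k2 q) (k2 q.s23) (k2 q.s24) hc.2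
    have u1 := djB hG (X := H) q
    have u2 := djB hG (X := H) q.s23
    have u3 := djB hG (X := H) q.s24
    rcases s with s | s | s <;> rcases t with t | t | t
    exacts [u1 s.1 t.1, u1 s.1 t.1, u2 s.2 t.1, u1 s.1 t.1, u1 s.1 t.1, u3 s.2 t.2, u2 s.1 t.2,
      u3 s.2 t.2, u2 s.1 t.1]
  rcases hA with hA | hA
  · obtain ⟨b, c, d, q, h1, h2, h3⟩ := side hG q hA ⟨hg', e'⟩
    obtain ⟨R, R', h⟩ := core hG q hA h1 h2 h3
    exact ⟨H, a, b, c, d, R, R', Or.inl rfl, h⟩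
  · obtain ⟨b, c, d, q, h1, h2, h3⟩ := side hG q hA (g := g) ⟨by rwa [compl_compl], e⟩
    obtain ⟨R, R', h⟩ := core hG q hA h1 h2 h3
    exact ⟨Hᶜ, a, b, c, d, R, R', Or.inr rfl, h⟩

end Pool.Agent.Lib.Tw5
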