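import Pool.Agent.Lib.Tw5.KitI

set_option linter.unusedVariables false

namespace Pool.Agent.Lib.Tw5

open Finset Pool.Agent.Lib.MP_aa6b05_co C

open scoped Classical

theorem lead_ext {V : Type} [Fintype V] {Ω : Set V} {k n : ℕ} (hk : Ω.ncard = k) {f : ℕ → ℕ}
    {g : ℕ → V} (hf : ∀ a < n, ∀ b < n, f a = f b → a = b) (hf' : ∀ a < n, f a < k)
    (hg : ∀ a < n, ∀ b < n, g a = g b → a = b) (hg' : ∀ a < n, g a ∈ Ω) :
    ∃ σ : ℕ → V, (∀ a < k, ∀ b < k, σ a = σ b → a = b) ∧ Ω = σ '' {t | t < k} ∧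
      ∀ a < n, σ (f a) = g a := by
  have e : Ω ≃ Fin k := Fintype.equivFinOfCardEq (by rw [← hk, Set.ncard_eq_toFinset_card', Set.toFinset_card])
  obtain ⟨π, hπ⟩ := Equiv.Perm.exists_extending_pair (f := fun a : Fin n => (⟨f a, hf' a a.2⟩ : Fin k))
    (g := fun a : Fin n => e ⟨g a, hg' a a.2⟩)
    (fun a b h => Fin.ext (hf a a.2 b b.2 (congrArg Fin.val h)))
    (fun a b h => Fin.ext (hg a a.2 b b.2 (congrArg Subtype.val (e.injective h))))
  refine ⟨fun t => if h : t < k then e.symm (π ⟨t, h⟩) else g 0, fun a ha b hb h => ?_, ?_,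
    fun a ha => ?_⟩
  · simp only [dif_pos ha, dif_pos hb] at h
    exact congrArg Fin.val (π.injective (e.symm.injective (Subtype.ext h)))
  · ext v
    constructor
    · intro hv
      refine ⟨π.symm (e ⟨v, hv⟩), (π.symm _).2, ?_⟩
      simp
    · rintro ⟨t, ht, rfl⟩
      simp only [dif_pos (show t < k from ht)]
      exact (e.symm _).2
  · simp only [dif_pos (hf' a ha), hπ ⟨a, ha⟩, Equiv.symm_apply_apply]

theorem st_LEAD (hI : St_ISO) : St_LEAD := by
  rintro V E _ _ G md k T Ω W A l hk h6 h0 ha hr ⟨hT, τ, ⟨he, hc⟩, h1, ⟨j0, hj0, hW⟩, h2⟩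
  have ok := tok hT
  unfold rchk at hr
  simp only [sel_and, allL_iff, allN_iff, anyL_iff, sel_not, Nat.beq_eq, Nat.ble_eq] at hr
  obtain ⟨β, hβ, r, hr', h3, -⟩ := hr.2 j0 hj0
  obtain ⟨r1, r2, r3⟩ := hr.1 r hr'
  have hb := allL_iff.mp ha β hβ
  simp only [sel_and, allN_iff, sel_imp, Nat.ble_eq] at hb
  obtain ⟨b1, b2, b3, b4⟩ := hb
  have k6 : ∀ a, tch (tm T).3 a → 6 ≤ a → 6 ≤ rt β a := fun a ha h => by
    have := ok.rng a ha
    have := ok.n7
    have := ok.k5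
    have := b3 (a - 6) (by omega)
    rwa [show Nat.add 6 (a - 6) = a by simp only [Nat.add_eq]; omega] at this
  obtain ⟨e1, e2, -⟩ := hI he b1 ok.pw fun a ha h => Or.inl (k6 a ha h)
  have tc : ∀ j < (tm T).1, tch (tm T).3 j := fun j hj => tch_of_deg (ok.d1 j hj)
  have hg : ∀ a < (tm T).1, ∀ b < (tm T).1, τ (rt β a) = τ (rt β b) → a = b :=
    fun a ha b hb => e1.inj a b (tc a ha) (tc b hb)
  have hg' : ∀ a < (tm T).1, τ (rt β a) ∈ Ω := fun a ha => h1 _ (b2 a ha)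
  have hle : (tm T).1 ≤ k := by
    rw [← hk, ← card_range (tm T).1, ← Set.ncard_coe_finset]
    exact Set.ncard_le_ncard_of_injOn (fun a => τ (rt β a)) (fun a ha => hg' a (by simpa using ha))
      fun a ha b hb => hg a (by simpa using ha) b (by simpa using hb)
  have hf' : ∀ a < (tm T).1, dg (uP r) a < k := fun a ha => by
    have := (r3 a ha).1
    rw [sel_beq] at this
    split_ifs at this with h
    · have := (h0 h).1
      omega
    · omega
  obtain ⟨σ, s1, s2, s3⟩ := lead_ext hk (f := dg (uP r)) (fun a ha b hb h => by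
    rcases lt_trichotomy a b with n | n | n
    · exact absurd h ((r3 b hb).2 a n).1
    · exact n
    · exact absurd h.symm ((r3 a ha).2 b n).1) hf' hg hg'
  refine ⟨σ, s1, s2, fun h => ?_, r, hr', r2, r1 ▸ hT, fun a => τ (rt β a), ?_⟩
  · obtain ⟨-, v, rfl⟩ := h0 h
    push Not at h3
    obtain ⟨i, hi, h3⟩ := h3
    simp only [sel_beq, if_pos h] at h3
    split_ifs at h3 with a1 a2
    · rw [← a2, s3 i hi, a1, hW]
    · exact absurd rfl h3
    · exact absurd rfl h3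
  · rw [r1]
    refine ⟨⟨e1, fun j hj h => hc _ (b2 j hj) (b4 j hj h)⟩,
      fun j hj => ⟨hf' j hj, (s3 j hj).symm⟩, fun a ha h t ht e => h2 _ (e2 a ha) (k6 a ha h) ?_⟩
    rw [s2]
    exact ⟨t, ht, e.symm⟩

end Pool.Agent.Lib.Tw5
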