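import Pool.Agent.Lib.Tw5.KitI

set_option linter.unusedSectionVars false
set_option linter.unusedVariables false

namespace Pool.Agent.Lib.Tw5

open Finset Pool.Agent.Lib.MP_aa6b05_co C

open scoped Classical

variable {V E : Type} [Fintype V] [Fintype E] {G : MG V E} {md k : ℕ} {σ ι : ℕ → V} {C D : Set V}
  {st : St} {H : Set E}

theorem leaf_d3 (hx : Cx G md k σ C D) (h : InvI G k σ C D st (HE G C) ι) {t : ℕ} (ht : t < k)
    (hC : σ t ∈ C) (hn : Ni G (σ t)) : 3 ≤ deg st.2 t := by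
  have h1 := hd_add_compl (G := G) (HE G C) (σ t)
  have h2 : hd G (HE G C)ᶜ (σ t) = 0 := by
    unfold hd
    rw [(sat_in hC).cutn_eq, card_empty]
  have h3 := hx.cr.d3 hn
  rw [← h.hd_slot hx ht]
  omega

theorem leaf_ni (h : InvI G k σ C D st H ι) {t : ℕ} (ht : tch st.2 t) : Ni G (ι t) := by
  obtain ⟨p, hp, rfl | rfl⟩ := ht
  exacts [(h.emb.adj p hp).ni, (h.emb.adj p hp).ni']

theorem leaf_rt (hx : Cx G md k σ C D) (h : InvI G k σ C D st (HE G C) ι) (hm : md ≠ 0) :
    ¬ tb st.7 0 = true ∧ ∀ t, 1 ≤ deg st.2 t → deg st.2 t ≤ 2 → ¬ t ≤ 5 := by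
  have hC := (hx.rt hm).1
  refine ⟨h.not_F hx (j := 0) ⟨by simp, fun _ => .k1, fun _ => (by decide : K.k1 ≠ 0),
    fun v => ?_⟩, fun t h1 h2 h5 => ?_⟩
  · rw [(sat_in (Z := C) (hC ▸ Set.mem_univ v)).cutn_eq, sum_empty]
    exact (vec_out (k := 0) (by simp) (by simp)).symm
  · have h3 := tch_of_deg h1
    have h4 : t < k := (h.rng t h3).resolve_right (by omega)
    have := leaf_d3 hx h h4 (hC ▸ Set.mem_univ _) (h.slot t (by omega) ▸ leaf_ni h h3)
    omega

theorem st_LEAF (hLF : St_LF) (hGO : St_GO) (hBIT : St_BIT) : St_LEAF := by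
  intro V E _ _ G md k σ C D st w hx hI hl
  obtain ⟨ι, h⟩ := id hI
  unfold leaf at hl
  rw [frc_eq] at hl
  generalize Nat.mod w 8 = t at hl
  rw [sel_beq] at hl
  split_ifs at hl with hm
  · subst hm
    obtain ⟨rfl, mn⟩ := hx.mn rfl
    have inj : ∀ a < 5, ∀ b < 5, σ a = σ b → a = b :=
      fun a ha b hb => hx.inj a (by omega) b (by omega)
    rw [sel_beq] at hl
    split_ifs at hl with h7
    · rw [frc_eq] at hl
      refine ⟨rfl, hLF hx hI 8 _ st.5 _ ?_ ?_ (fun t ht => h.c t (by omega)) hl⟩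
      · refine hGO G σ _ 5 5 _ _ le_rfl (by omega) fun c hc => ?_
        have hc1 : c < 1024 := hc.1
        refine hBIT.2.2.2.1 _ _ c (by omega) ?_ fun t ht hb => ?_
        · rw [tb_xor, tb_land, tb_ON5]
          exact fun hh => h.not_F hx hc (hh.mp hc1).2
        · exact fs_hd1 inj (by omega) hc ht
            (le_antisymm (h.c t (by omega) hb) (mn.fd.hd_pos (mn.mem ht)))
      · obtain ⟨g, g1, g2⟩ := hx.cr.bf_ne mn.ex
        obtain ⟨c, hc, -⟩ := exists_fs inj (by omega) g1 fun v hv =>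
          g2 v (mn.sep v fun ⟨t, ht, e⟩ => hv t ht e)
        exact ⟨c, hc⟩
    · obtain ⟨h1, h2⟩ := sel_ne hl
      have h5 : t ≤ 5 := Nat.ble_eq.mp (sel_ne h2).1
      rw [Nat.ble_eq, sel_beq] at h1
      split_ifs at h1 with h6
      · subst h6
        have := leaf_d3 hx h (t := 5) (by omega) mn.v (mn.ni (by omega))
        omega
      · have := mn.fc.hd_pos (mn.mem (t := t) (by omega))
        rw [h.hd_slot hx (by omega)] at this
        omega
  · have h1 := (sel_ne hl).1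
    obtain ⟨r1, r2⟩ := leaf_rt hx h hm
    rw [sel_beq, frc_eq] at h1
    split_ifs at h1 with h7
    · exact absurd h1 r1
    · simp only [sel_and, Nat.ble_eq] at h1
      exact absurd h1.2.2 (r2 t h1.1 h1.2.1)

end Pool.Agent.Lib.Tw5
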