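import Pool.Agent.Lib.Tw5.KitI

set_option linter.unusedSectionVars false
set_option linter.unusedVariables false

namespace Pool.Agent.Lib.Tw5

open Finset Pool.Agent.Lib.MP_aa6b05_co C

open scoped Classical

theorem lf_brs {es : Es} {ms : List ℕ} {p S sm : ℕ} {ih : ℕ → ℕ → ℕ → ℕ} {l : Es} {w : ℕ}
    (h : brs es ms p S sm ih l w ≠ 0) {q : ℕ × ℕ} (hq : q ∈ l)
    (h0 : Nat.land (Nat.xor 31 (Nat.lor (bit q.1) (bit q.2)))
      (clo ms p (Nat.lor (bit q.1) (bit q.2))) = 0)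
    (h1 : ¬ deg es q.1 ≤ 1) (h2 : ¬ deg es q.2 ≤ 1) :
    ∃ it w', ih (kem 5 it (nzm (Nat.lor (bit q.1) (bit q.2))
      (sel (Nat.beq q.1 q.2) S (Nat.land S (neq q.1 q.2)))))
      (Nat.lor sm (Nat.lor (bit q.1) (bit q.2))) w' ≠ 0 := by
  induction l generalizing w with
  | nil => simp at hq
  | cons a l ih' =>
    rw [show brs es ms p S sm ih (a :: l) w = frc (Nat.lor (bit a.1) (bit a.2)) fun A =>
      sel (Nat.beq (Nat.land (Nat.xor 31 A) (clo ms p A)) 0)
        (sel (Nat.ble (deg es a.1) 1) (brs es ms p S sm ih l w)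
          (sel (Nat.ble (deg es a.2) 1) (brs es ms p S sm ih l w)
          (frz (frc (kem 5 (Nat.mod w 32) (nzm A (sel (Nat.beq a.1 a.2) S
            (Nat.land S (neq a.1 a.2))))) fun S' => frc (Nat.lor sm A) fun sm' =>
              ih S' sm' (Nat.shiftRight w 5)) (brs es ms p S sm ih l))))
        (brs es ms p S sm ih l w) from rfl, frc_eq, frc_eq, frc_eq, sel_beq, sel_ble, sel_ble] at h
    rcases List.mem_cons.mp hq with rfl | hq
    · rw [if_pos h0, if_neg h1, if_neg h2] at h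
      exact ⟨_, _, (frz_ne h).1⟩
    · split_ifs at h
      exacts [ih' h hq, ih' h hq, ih' (frz_ne h).2 hq, ih' h hq]

theorem lf_prs : ∀ q ∈ prs, q.1 < 5 ∧ q.2 < 5 := by decide

theorem st_LF (hRED : St_RED) (h6 : St_S6) (hSCH : St_SCH) (hM : St_MCHK) (hC : St_CLO)
    (hE : St_EN) (hGO : St_GO) (hB : St_BIT) : St_LF := by
  intro V E _ _ G σ C D st hx hI f
  induction f with
  | zero => exact fun S sm w _ _ _ h => absurd rfl h
  | succ f ih =>
  intro S sm w hS hne hsm h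
  rw [show lf st.2 (f + 1) S sm w = sel (Nat.beq (Nat.mod w 4) 0)
    (sel (Nat.beq S 0) (Nat.shiftRight w 2) 0) (sel (Nat.beq (Nat.mod w 4) 1)
      (sel (schk st.2 sm (fld w 2 16) (fld w 6 0x20000000000000000) (fld w 71 0x20000000000000000))
        (Nat.shiftRight w 136) 0)
      (frc (Nat.add (Nat.mul (fld w 2 0x1000000000000000000000000000) 0x100000) 0x43210) fun μ =>
        frc (Nat.add (Nat.mul (fld w 110 0x80000000000000) 0x2000000) 0x418820) fun R =>
          frc (fld w 165 16) fun p => sel (mchk 16 0 μ R p st.2)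
            (pick μ (fun ne c => sel (Nat.beq c 0) 0 (sel (Nat.beq (Nat.land S (en ne 0)) 0)
              (sel (nbr p (mks ne) [])
                (brs st.2 (mks ne) p S sm (lf st.2 f) prs (Nat.shiftRight w 217)) 0)
              0)) st.2 (fld w 169 0x1000000000000) [] 0) 0)) from rfl,
    frc_eq, frc_eq, frc_eq, sel_beq, sel_beq (Nat.mod w 4)] at h
  split_ifs at h
  · obtain ⟨c, hc⟩ := hne
    have := hS c hc
    rw [Nat.eq_of_beq_eq_true (sel_ne h).1] at this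
    exact absurd this (tb_zero c)
  · exact hSCH hx hI hsm (Nat.mod_lt _ (by decide)) (sel_ne h).1
  have h5 : ∀ t < 5, lab (Nat.add (Nat.mul (fld w 2 0x1000000000000000000000000000) 0x100000)
      0x43210) t = t ∧ rt (Nat.add (Nat.mul (fld w 110 0x80000000000000) 0x2000000) 0x418820) t
        = t := by
    intro t ht
    generalize fld w 2 _ = x
    generalize fld w 110 _ = y
    simp only [lab, rt, fld_eq, Nat.add_eq, Nat.mul_eq]
    interval_cases t <;> constructor <;> omega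
  obtain ⟨μ, R, p, A, w1, h5, h⟩ : ∃ μ R p A w1, (∀ t < 5, lab μ t = t ∧ rt R t = t) ∧
      sel (mchk 16 0 μ R p st.2) (pick μ (fun ne c => sel (Nat.beq c 0) 0
        (sel (Nat.beq (Nat.land S (en ne 0)) 0) (sel (nbr p (mks ne) [])
          (brs st.2 (mks ne) p S sm (lf st.2 f) prs w1) 0) 0)) st.2 A [] 0) 0 ≠ 0 :=
    ⟨_, _, _, _, _, h5, h⟩
  obtain ⟨hm, h⟩ := sel_ne h
  obtain ⟨kp, rs, hp, hk⟩ := hC.2.2 μ A st.2
  rw [hk, sel_beq] at h
  split_ifs at h with hrs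
  · exact absurd rfl h
  obtain ⟨hen, h⟩ := sel_ne h
  obtain ⟨hnb, h⟩ := sel_ne h
  obtain ⟨ι, hI'⟩ := id hI
  have hG := hx.cr
  have hN := (hx.mn rfl).2
  have hσ : ∀ a < 5, ∀ b < 5, σ a = σ b → a = b := fun a ha b hb => hx.inj a (by omega) b (by omega)
  rcases hRED (μ := lab μ) (R := rt R) hx hI' hp (fun e => hrs (by simp [e])) h5
    (fun Y hY a ha => (hM _ _ _ _ _ _ hm).1 (fun a => ι a ∈ Y ↔ ι (rt R (lab μ a)) ∈ Y)
      (fun b _ e => by rw [e]) (fun q hq e => by rw [hY q hq e, e]) a ha (lab_lt _ _))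
    (fun Q hQ pre q suf e hr => hC.2.1 _ p Q hnb hQ
      (pre.map fun p => (lab μ p.1, lab μ p.2)) (lab μ q.1, lab μ q.2)
      (suf.map fun p => (lab μ p.1, lab μ p.2)) (by simp [e]) (by
        rw [← List.map_append]
        intro r hr'
        obtain ⟨r', h1, rfl⟩ := List.mem_map.mp hr'
        exact hr r' h1)) with ⟨c, hc, ψ, h0, hψ⟩ | ⟨Y, hY, hY', q, hq, ht⟩
  · have := tb_land.mpr ⟨hS c hc, hE.1 (lab μ) kp ψ 0 c h0 hc.1 fun a => by
      rw [dec_zero, zero_add, hψ]⟩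
    rw [Nat.eq_of_beq_eq_true hen] at this
    exact absurd this (tb_zero c)
  obtain ⟨q1, q2⟩ := lf_prs q hq
  obtain ⟨d1, d2, -⟩ := h6 hG hN.sep hN.fc hN.fd (by rw [hx.card]; omega) hY (hN.mem q1)
    (hN.mem q2) (by
      rintro v ⟨t, h1, rfl⟩
      rw [ht t h1]
      exact or_congr ⟨congrArg σ, hσ _ h1 _ q1⟩ ⟨congrArg σ, hσ _ h1 _ q2⟩)
  have hA : ∀ t, tb (Nat.lor (bit q.1) (bit q.2)) t = true ↔ t = q.1 ∨ t = q.2 := fun t => by
    rw [tb_lor, tb_bit, tb_bit, eq_comm, @eq_comm _ q.2]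
  have hd1 : ∀ t, t = q.1 ∨ t = q.2 → hd G (HE G C)ᶜ (σ t) = 1 := by
    rintro t (rfl | rfl)
    exacts [d1, d2]
  have dg2 : ∀ t < 5, hd G (HE G C)ᶜ (σ t) = 1 → ¬ deg st.2 t ≤ 1 := by
    intro t h1 h2
    have := hd_add_compl (G := G) (HE G C) (σ t)
    have := hG.d3 (hN.ni (t := t) (by omega))
    have := hI'.hd_slot hx (t := t) (by omega)
    omega
  obtain ⟨it, w', h⟩ := lf_brs h hq (eq_zero_of_tb fun t h => by
    obtain ⟨h1, h2⟩ := tb_land.mp h
    have h3 := hC.1 _ p _ (fun b => ι (rt R b) ∈ Y) (fun r hr => by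
      obtain ⟨r', h1, rfl⟩ := List.mem_map.mp hr
      exact hY' r' h1) (fun a ha => by
      have ha' := (hA a).mp ha
      have h4 : a < 5 := by omega
      rw [(h5 a h4).2, hI'.slot a (by omega)]
      exact (ht a h4).mpr ha') t h2
    rw [tb_xor, tb_31, hA] at h1
    have h4 : t < 5 := by omega
    rw [(h5 t h4).2, hI'.slot t (by omega), ht t h4] at h3
    omega) (dg2 _ q1 d1) (dg2 _ q2 d2)
  refine ih _ _ _ (hGO G σ _ 5 5 it _ le_rfl (by omega) fun c hc => ?_) hne (fun t h1 h2 => ?_) h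
  · have c4 : c < 4096 := lt_trans hc.1 (by decide)
    refine hB.2.2.2.1 _ _ c c4 ?_ fun t h1 h2 =>
      fs_hd1 hσ (by omega) hc h1 (hd1 t ((hA t).mp h2))
    rw [sel_beq]
    split_ifs with e
    · exact hS c hc
    refine tb_land.mpr ⟨hS c hc, hB.2.2.2.2 _ _ c (by omega) (by omega) c4 fun e' => ?_⟩
    refine bf_br hc.2 hY ?_
    have n : σ q.1 ≠ σ q.2 := fun h => e (hσ _ q1 _ q2 h)
    rw [sum_eq_add (σ q.1) (σ q.2) n, vec_apply hσ (by omega) hc.1 q1,
      vec_apply hσ (by omega) hc.1 q2, e', K.add_self]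
    · intro v hv h
      refine vec_out hc.1 fun t h1 h2 => ?_
      rcases (ht t h1).mp (h2 ▸ (mem_filter.mp hv).2) with rfl | rfl
      exacts [h.1 h2.symm, h.2 h2.symm]
    · exact fun h => absurd (mem_filter.mpr ⟨mem_univ _, (ht _ q1).mpr (Or.inl rfl)⟩) h
    · exact fun h => absurd (mem_filter.mpr ⟨mem_univ _, (ht _ q2).mpr (Or.inr rfl)⟩) h
  · rcases tb_lor.mp h2 with h2 | h2
    · exact hsm t h1 h2
    · exact (hd1 t ((hA t).mp h2)).le

end Pool.Agent.Lib.Tw5
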