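import Pool.Agent.Lib.Tw5.KitI

set_option autoImplicit false

namespace Pool.Agent.Lib.Tw5

open Finset Pool.Agent.Lib.MP_aa6b05_co C

open scoped Classical

theorem mchk_pass (Q : ℕ → Prop) (ms : List ℕ)
    (h : ∀ m ∈ ms, ∀ a b, tb m a = true → tb m b = true → Q a → Q b) :
    ∀ r, (∀ a, tb r a = true → Q a) → ∀ a, tb (pass ms r) a = true → Q a := by
  induction ms with
  | nil => intro r hr a ha; exact hr a ha
  | cons m l ih =>
    intro r hr a ha
    rw [show pass (m :: l) r = frc (sel (Nat.beq (Nat.land r m) 0) r (Nat.lor r m)) (pass l)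
      from rfl, frc_eq, sel_beq] at ha
    refine ih (fun m' hm' => h m' (List.mem_cons_of_mem _ hm')) _ ?_ a ha
    intro b hb
    split_ifs at hb with h0
    · exact hr b hb
    · obtain ⟨i, hi⟩ := tb_of_ne h0
      rw [tb_land] at hi
      rcases tb_lor.1 hb with hb | hb
      · exact hr b hb
      · exact h m List.mem_cons_self i b hi.2 hb (hr i hi.1)

theorem mchk_clo (Q : ℕ → Prop) (ms : List ℕ)
    (h : ∀ m ∈ ms, ∀ a b, tb m a = true → tb m b = true → Q a → Q b) (r : ℕ)
    (hr : ∀ a, tb r a = true → Q a) : ∀ p a, tb (clo ms p r) a = true → Q a := by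
  intro p
  induction p with
  | zero => exact hr
  | succ p ih =>
    intro a ha
    rw [show clo ms (p + 1) r = frc (clo ms p r) (pass ms) from rfl, frc_eq] at ha
    exact mchk_pass Q ms h _ ih a ha

theorem mchk_roots (μ R : ℕ) : ∀ lim a, tb (roots lim μ R) a = true →
    ∃ b < lim, lab μ (rt R b) = b ∧ a = rt R b := by
  intro lim
  induction lim with
  | zero => intro a ha; exact absurd ha (tb_zero a)
  | succ n ih =>
    intro a ha
    rw [show roots (n + 1) μ R = frc (rt R n) (fun a => sel (Nat.beq (lab μ a) n)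
      (Nat.lor (roots n μ R) (bit a)) (roots n μ R)) from rfl, frc_eq, sel_beq] at ha
    have k : tb (roots n μ R) a = true → ∃ b < n + 1, lab μ (rt R b) = b ∧ a = rt R b := by
      intro h
      obtain ⟨b, h1, h2⟩ := ih a h
      exact ⟨b, by omega, h2⟩
    split_ifs at ha with h0
    · rcases tb_lor.1 ha with ha | ha
      · exact k ha
      · exact ⟨n, by omega, h0, (tb_bit.1 ha).symm⟩
    · exact k ha

theorem mchk_scan (lim μ : ℕ) (k : List ℕ → ℕ → ℕ → Bool) (es : Es) :
    ∀ ms acc nd, scan lim μ k es ms acc nd = true → ∃ ms' acc' nd', k ms' acc' nd' = true ∧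
      (∀ m ∈ ms', m ∈ ms ∨ ∃ q ∈ es, lab μ q.1 = lab μ q.2 ∧ m = Nat.lor (bit q.1) (bit q.2)) ∧
      (∀ i, tb acc' i = true → tb acc i = true ∨
        ∃ q ∈ es, i = 16 * lab μ q.1 + lab μ q.2 ∨ i = 16 * lab μ q.2 + lab μ q.1) ∧
      ∀ a, (tb nd a = true ∨ (tch es a ∧ lab μ a < lim)) → tb nd' a = true := by
  induction es with
  | nil =>
    intro ms acc nd h
    refine ⟨ms, acc, nd, h, fun m hm => Or.inl hm, fun i hi => Or.inl hi, ?_⟩
    rintro a (ha | ⟨⟨q, hq, -⟩, -⟩)
    · exact ha
    · simp at hq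
  | cons p l ih =>
    intro ms acc nd h
    rw [show scan lim μ k (p :: l) ms acc nd = frc (lab μ p.1) (fun x => frc (lab μ p.2) fun y =>
      frc (Nat.lor nd (Nat.lor (sel (Nat.ble lim x) 0 (bit p.1)) (sel (Nat.ble lim y) 0 (bit p.2))))
        fun nd' => sel (Nat.beq x y)
          (frc (Nat.lor (bit p.1) (bit p.2)) fun m => scan lim μ k l (m :: ms) acc nd')
          (frc (Nat.lor acc (Nat.lor (bit (Nat.add (Nat.mul 16 x) y))
            (bit (Nat.add (Nat.mul 16 y) x)))) fun acc' => scan lim μ k l ms acc' nd')) from rfl]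
      at h
    simp only [frc_eq, sel_beq] at h
    have knd : ∀ nd' : ℕ, (∀ a, (tb (Nat.lor nd (Nat.lor (sel (Nat.ble lim (lab μ p.1)) 0 (bit p.1))
        (sel (Nat.ble lim (lab μ p.2)) 0 (bit p.2)))) a = true ∨ (tch l a ∧ lab μ a < lim)) →
        tb nd' a = true) →
        ∀ a, (tb nd a = true ∨ (tch (p :: l) a ∧ lab μ a < lim)) → tb nd' a = true := by
      intro nd' h4 a ha
      apply h4
      rcases ha with ha | ⟨⟨q, hq, hqa⟩, hl⟩
      · exact Or.inl (tb_lor.2 (Or.inl ha))
      · rcases List.mem_cons.1 hq with rfl | hq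
        · left
          refine tb_lor.2 (Or.inr (tb_lor.2 ?_))
          rcases hqa with rfl | rfl
          · left
            rw [sel_ble, if_neg (by omega)]
            exact tb_bit.2 rfl
          · right
            rw [sel_ble, if_neg (by omega)]
            exact tb_bit.2 rfl
        · exact Or.inr ⟨⟨q, hq, hqa⟩, hl⟩
    split_ifs at h with h0
    · obtain ⟨ms', acc', nd', h1, h2, h3, h4⟩ := ih _ _ _ h
      refine ⟨ms', acc', nd', h1, ?_, ?_, knd nd' h4⟩
      · intro m hm
        rcases h2 m hm with hm | ⟨q, hq, hq'⟩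
        · rcases List.mem_cons.1 hm with rfl | hm
          · exact Or.inr ⟨p, List.mem_cons_self, h0, rfl⟩
          · exact Or.inl hm
        · exact Or.inr ⟨q, List.mem_cons_of_mem _ hq, hq'⟩
      · intro i hi
        rcases h3 i hi with hi | ⟨q, hq, hq'⟩
        · exact Or.inl hi
        · exact Or.inr ⟨q, List.mem_cons_of_mem _ hq, hq'⟩
    · obtain ⟨ms', acc', nd', h1, h2, h3, h4⟩ := ih _ _ _ h
      refine ⟨ms', acc', nd', h1, ?_, ?_, knd nd' h4⟩
      · intro m hm
        rcases h2 m hm with hm | ⟨q, hq, hq'⟩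
        · exact Or.inl hm
        · exact Or.inr ⟨q, List.mem_cons_of_mem _ hq, hq'⟩
      · intro i hi
        rcases h3 i hi with hi | ⟨q, hq, hq'⟩
        · rcases tb_lor.1 hi with hi | hi
          · exact Or.inl hi
          · refine Or.inr ⟨p, List.mem_cons_self, ?_⟩
            rcases tb_lor.1 hi with hi | hi
            · exact Or.inl (tb_bit.1 hi).symm
            · exact Or.inr (tb_bit.1 hi).symm
        · exact Or.inr ⟨q, List.mem_cons_of_mem _ hq, hq'⟩

theorem mchk_lab (μ a : ℕ) : lab μ a < 16 := Nat.mod_lt _ (by norm_num)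

theorem st_MCHK : St_MCHK := by
  intro lim M μ R p es h
  obtain ⟨ms, acc, nd, h1, h2, h3, h4⟩ := mchk_scan lim μ _ es [] 0 0 h
  rw [sel_and] at h1
  obtain ⟨hM, hn⟩ := h1
  have hM := Nat.eq_of_beq_eq_true hM
  have hn := Nat.eq_of_beq_eq_true hn
  refine ⟨fun Q hQ hE a ha hl => ?_, fun x y hy hb => ?_⟩
  · refine mchk_clo Q ms ?_ (roots lim μ R) ?_ p a
      (tb_of_land_eq hn (h4 a (Or.inr ⟨ha, hl⟩)))
    · intro m hm u v hu hv hq
      rcases h2 m hm with hm | ⟨q, hq1, hq2, rfl⟩
      · simp at hm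
      · have e := hE q hq1 hq2
        rcases tb_lor.1 hu with hu | hu <;> rcases tb_lor.1 hv with hv | hv <;>
          rw [tb_bit] at hu hv <;> subst hu <;> subst hv
        · exact hq
        · exact e.1 hq
        · exact e.2 hq
        · exact hq
    · intro u hu
      obtain ⟨b, b1, b2, rfl⟩ := mchk_roots μ R lim u hu
      exact hQ b b1 b2
  · rcases h3 _ (tb_of_land_eq hM hb) with h0 | ⟨q, hq, hq'⟩
    · exact absurd h0 (tb_zero _)
    · have a1 := mchk_lab μ q.1
      have a2 := mchk_lab μ q.2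
      refine ⟨q, hq, ?_⟩
      rcases hq' with e | e
      · left; omega
      · right; omega

end Pool.Agent.Lib.Tw5
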