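import Pool.Agent.Lib.Tw5.Blue

set_option linter.unusedSectionVars false
set_option linter.unusedVariables false

/-! Elimination orders pass to minors. -/

namespace Pool.Agent.Lib.Tw5

open Finset Pool.Agent.Lib.MP_aa6b05_co C

open scoped Classical

namespace MEO

variable {V E : Type} [Fintype V] [Fintype E] {G G' : MG V E} {π : V → V}

theorem lift_ad (h : Mnr G G' π) {a b : V} (hab : Ad G' a b) :
    ∃ u w, Ad G u w ∧ π u = a ∧ π w = b := by
  obtain ⟨hne, e, he⟩ := hab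
  rcases h.2 e with h0 | ⟨h1, h2⟩
  · rcases he with ⟨h3, h4⟩ | ⟨h3, h4⟩
    · exact absurd (h3.symm.trans (h0.trans h4)) hne
    · exact absurd (h4.symm.trans (h0.symm.trans h3)) hne
  · rcases he with ⟨h3, h4⟩ | ⟨h3, h4⟩
    · refine ⟨G.s e, G.t e, ⟨fun h5 => hne ?_, e, Or.inl ⟨rfl, rfl⟩⟩, h1.symm.trans h3,
        h2.symm.trans h4⟩
      rw [← h3, ← h4, h1, h2, h5]
    · refine ⟨G.t e, G.s e, ⟨fun h5 => hne ?_, e, Or.inr ⟨rfl, rfl⟩⟩, h2.symm.trans h4,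
        h1.symm.trans h3⟩
      rw [← h3, ← h4, h1, h2, h5]

theorem exists_top (π : V → V) (ρ : V → ℕ) :
    ∃ m : V → V, ∀ u, π (m (π u)) = π u ∧ ρ u ≤ ρ (m (π u)) := by
  have h : ∀ x : V, ∃ y : V, ∀ u, π u = x → π y = x ∧ ρ u ≤ ρ y := by
    intro x
    by_cases hx : ({u | π u = x} : Set V).Nonempty
    · obtain ⟨y, hy, hm⟩ := Set.exists_max_image _ ρ (Set.toFinite _) hx
      exact ⟨y, fun u hu => ⟨hy, hm u hu⟩⟩
    · exact ⟨x, fun u hu => absurd ⟨u, hu⟩ hx⟩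
  choose m hm using h
  exact ⟨m, fun u => hm _ u rfl⟩

end MEO

open MEO in
theorem st_MEO : St_MEO := by
  intro V E _ _ G G' π h ⟨ρ, hρ, hb⟩
  obtain ⟨m, hm⟩ := exists_top π ρ
  let ρ' : V → ℕ := fun x => if ∃ u, π u = x then 2 * ρ (m x) else 2 * ρ x + 1
  have e1 : ∀ u, ρ' (π u) = 2 * ρ (m (π u)) := fun u => if_pos ⟨u, rfl⟩
  have e2 : ∀ x, (¬ ∃ u, π u = x) → ρ' x = 2 * ρ x + 1 := fun x hx => if_neg hx
  refine ⟨ρ', fun x y hxy => ?_, fun x => ?_⟩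
  · by_cases hx : ∃ u, π u = x <;> by_cases hy : ∃ u, π u = y
    · obtain ⟨u, rfl⟩ := hx
      obtain ⟨w, rfl⟩ := hy
      rw [e1, e1] at hxy
      have : m (π u) = m (π w) := hρ (by omega)
      rw [← (hm u).1, this, (hm w).1]
    · obtain ⟨u, rfl⟩ := hx
      rw [e1, e2 y hy] at hxy
      omega
    · obtain ⟨u, rfl⟩ := hy
      rw [e1, e2 x hx] at hxy
      omega
    · rw [e2 x hx, e2 y hy] at hxy
      exact hρ (by omega)
  by_cases hx : ∃ u, π u = x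
  swap
  · have : Nb G' (cmp G' {y | ρ' x < ρ' y} x) = ∅ := by
      refine Set.eq_empty_of_forall_notMem fun w ⟨hw, y, hy, ha⟩ => ?_
      have hyx : y ∈ ({x} : Set V) := by
        refine Cn.side hy (fun a b _ _ hab ha => ?_) rfl
        obtain ⟨u, -, -, hu, -⟩ := lift_ad h hab
        exact absurd ⟨u, hu.trans ha⟩ hx
      obtain ⟨u, -, -, hu, -⟩ := lift_ad h ha
      exact hx ⟨u, hu.trans hyx⟩
    rw [this]
    simp
  obtain ⟨v₀, rfl⟩ := hx
  set v := m (π v₀) with hv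
  have hvX : v ∉ {y | ρ v < ρ y} := fun h => lt_irrefl _ (show ρ v < ρ v from h)
  have hxX : π v₀ ∉ {y | ρ' (π v₀) < ρ' y} :=
    fun h => lt_irrefl _ (show ρ' (π v₀) < ρ' (π v₀) from h)
  have fib : ∀ u w, π u ∉ {y | ρ' (π v₀) < ρ' y} → π u = π w → Cn G {y | ρ v < ρ y}ᶜ u w := by
    intro u w hu huw
    refine (h.1 u w huw).mono fun a ha hlt => hu ?_
    have h1 : π a = π u := ha
    have h2 := (hm a).2
    have h3 : ρ v < ρ a := hlt
    show ρ' (π v₀) < ρ' (π u)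
    rw [e1, e1, ← h1, ← hv]
    omega
  have pre : ∀ y ∈ cmp G' {y | ρ' (π v₀) < ρ' y} (π v₀), ∀ u, π u = y →
      u ∈ cmp G {y | ρ v < ρ y} v := by
    intro y hy
    induction hy with
    | refl =>
      intro u hu
      exact (fib u v (hu ▸ hxX) (hu.trans (hm v₀).1.symm)).symm
    | tail h1 h2 ih =>
      intro u hu
      obtain ⟨a, b, hab, ha, hb'⟩ := lift_ad h h2.2.2
      have hbo : π b ∉ {y | ρ' (π v₀) < ρ' y} := hb' ▸ h2.2.1
      have hbX : b ∉ {y | ρ v < ρ y} := by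
        intro hlt
        refine hbo ?_
        have h2 := (hm b).2
        have h3 : ρ v < ρ b := hlt
        show ρ' (π v₀) < ρ' (π b)
        rw [e1, e1, ← hv]
        omega
      exact Cn.trans (mem_cmp_of_ad hvX (ih a ha) hab hbX) (fib b u hbo (hb'.trans hu.symm))
  refine le_trans (Set.ncard_le_ncard (t := π '' Nb G (cmp G {y | ρ v < ρ y} v)) (fun w hw => ?_))
    ((Set.ncard_image_le (Set.toFinite _)).trans (hb v))
  have hwX := nb_cmp hxX hw
  obtain ⟨-, y, hy, ha⟩ := hw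
  obtain ⟨a, b, hab, ha', rfl⟩ := lift_ad h ha
  by_cases hbc : b ∈ cmp G {y | ρ v < ρ y} v
  · have ht : m (π b) ∉ cmp G {y | ρ v < ρ y} v := by
      intro hc
      refine cmp_out hvX hc ?_
      have h3 : ρ' (π v₀) < ρ' (π b) := hwX
      rw [e1, e1, ← hv] at h3
      show ρ v < ρ (m (π b))
      omega
    obtain ⟨p, q, -, hq, hpq, hp, hq'⟩ := (h.1 b (m (π b)) (hm b).1.symm).cross hbc ht
    exact ⟨q, ⟨hq', p, hp, hpq⟩, hq⟩
  · exact ⟨b, ⟨hbc, a, pre y hy a ha', hab⟩, rfl⟩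

end Pool.Agent.Lib.Tw5
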