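import Pool.Agent.Lib.Tw5.Blue

set_option linter.unusedSectionVars false
set_option linter.unusedVariables false

namespace Pool.Agent.Lib.Tw5

open Finset Pool.Agent.Lib.MP_aa6b05_co C

open scoped Classical

theorem MP_lift {V E : Type} [Fintype V] [Fintype E] {G G' : MG V E} {π : V → V}
    (h : Mnr G G' π) {x y : V} (hxy : Ad G' x y) : ∃ a b, π a = x ∧ π b = y ∧ Ad G a b := by
  obtain ⟨hne, e, he⟩ := hxy
  rcases h.2 e with h1 | ⟨h1, h2⟩
  · exfalso
    rcases he with ⟨a, b⟩ | ⟨a, b⟩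
    · exact hne (a.symm.trans (h1.trans b))
    · exact hne (b.symm.trans (h1.symm.trans a))
  · rcases he with ⟨a, b⟩ | ⟨a, b⟩
    · refine ⟨G.s e, G.t e, h1.symm.trans a, h2.symm.trans b, ?_, e, Or.inl ⟨rfl, rfl⟩⟩
      intro hh
      exact hne (a.symm.trans (h1.trans ((congrArg π hh).trans (h2.symm.trans b))))
    · refine ⟨G.t e, G.s e, h2.symm.trans b, h1.symm.trans a, ?_, e, Or.inr ⟨rfl, rfl⟩⟩
      intro hh
      exact hne (b.symm.trans (h2.trans ((congrArg π hh).trans (h1.symm.trans a))))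

theorem MP_fib {V E : Type} [Fintype V] [Fintype E] {G G' : MG V E} {π : V → V}
    (h : Mnr G G' π) {A : Set V} {u w : V} (huw : π u = π w) (hu : π u ∈ A) :
    Cn G (π ⁻¹' A) u w := by
  refine (h.1 u w huw).mono ?_
  intro x hx
  have hx' : π x = π u := hx
  show π x ∈ A
  rw [hx']
  exact hu

theorem MP_cn {V E : Type} [Fintype V] [Fintype E] {G G' : MG V E} {π : V → V}
    (h : Mnr G G' π) {A : Set V} {x y : V} (hxy : Cn G' A x y) (hx : x ∈ A) :
    ∀ u w, π u = x → π w = y → Cn G (π ⁻¹' A) u w := by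
  induction hxy with
  | refl =>
    intro u w hu hw
    exact MP_fib h (hu.trans hw.symm) (hu ▸ hx)
  | tail _ h2 ih =>
    intro u w hu hw
    obtain ⟨a, b, ha, hb, hab⟩ := MP_lift h h2.2.2
    have ha' : a ∈ π ⁻¹' A := by
      show π a ∈ A
      rw [ha]
      exact h2.1
    have hb' : π b ∈ A := by
      rw [hb]
      exact h2.2.1
    exact ((ih u a hu ha).trans (Cn.single ha' hb' hab)).trans
      (MP_fib h (hb.trans hw.symm) hb')

theorem st_MP : St_MP := by
  intro V E _ _ G G' π h hP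
  obtain ⟨B, hc, hd, he⟩ := hP
  refine ⟨fun i => π ⁻¹' B i, ?_, ?_, ?_⟩
  · intro i hi u hu w hw
    exact MP_cn h (hc i hi (π u) hu (π w) hw) hu u w rfl rfl
  · intro i hi j hj hij
    exact (hd i hi j hj hij).preimage π
  · intro p hp
    obtain ⟨u, hu, w, hw, huw⟩ := he p hp
    obtain ⟨a, b, ha, hb, hab⟩ := MP_lift h huw
    refine ⟨a, ?_, b, ?_, hab⟩
    · show π a ∈ B p.1
      rw [ha]
      exact hu
    · show π b ∈ B p.2
      rw [hb]
      exact hw

end Pool.Agent.Lib.Tw5
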