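import Pool.Agent.Lib.Tw5.Blue

set_option linter.unusedSectionVars false
set_option linter.unusedVariables false

/-! The neighbourhood of a standard set is the set of its terminals. -/

namespace Pool.Agent.Lib.Tw5

open Finset Pool.Agent.Lib.MP_aa6b05_co C

open scoped Classical

theorem st_NB : St_NB := by
  rintro V E _ _ G T Z ⟨hT, τ, ⟨he, -⟩, h1, h2⟩
  have k := tok hT
  have tj : ∀ j < (tm T).1, tch (tm T).3 j := fun j hj => tch_of_deg (k.d1 j hj)
  have lo : ∀ a, tch (tm T).3 a → τ a ∉ Z → a < (tm T).1 := fun a ha hn =>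
    (k.rng a ha).resolve_right fun h => hn (h2 a ha h.1)
  have e : Nb G Z = τ '' {j | j < (tm T).1} := by
    ext w
    constructor
    · rintro ⟨hw, u, hu, n, e, j⟩
      obtain ⟨p, hp, j'⟩ := (he.mem e).1 ((mem_HE j).2 ⟨n, Or.inl hu⟩)
      rcases joins_cases j j' with ⟨-, rfl⟩ | ⟨-, rfl⟩
      · exact ⟨p.2, lo _ (tch2 hp) hw, rfl⟩
      · exact ⟨p.1, lo _ (tch1 hp) hw, rfl⟩
    · rintro ⟨j, hj, rfl⟩
      obtain ⟨p, hp, hq⟩ := tj j hj
      obtain ⟨n, e, j'⟩ := he.adj p hp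
      have hz := ((mem_HE j').1 ((he.mem e).2 ⟨p, hp, j'⟩)).2
      have hn := h1 j hj
      rcases hq with rfl | rfl
      · exact ⟨hn, τ p.2, hz.resolve_left hn, Ad.symm ⟨n, e, j'⟩⟩
      · exact ⟨hn, τ p.1, hz.resolve_right hn, n, e, j'⟩
  have hi : Set.InjOn τ {j | j < (tm T).1} := fun a ha b hb h =>
    he.inj a b (tj a ha) (tj b hb) h
  rw [e, hi.ncard_image,
    show {t : ℕ | t < (tm T).1} = ↑(range (tm T).1) by ext; simp, Set.ncard_coe_finset, card_range]

end Pool.Agent.Lib.Tw5
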