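import Pool.Agent.Lib.Tw5.KitI

set_option linter.unusedSectionVars false
set_option linter.unusedVariables false

namespace Pool.Agent.Lib.Tw5

open Finset Pool.Agent.Lib.MP_aa6b05_co C

open scoped Classical

theorem NORM_cd_succ (g : ℕ → ℕ) (n : ℕ) : cd g (n + 1) = cd g n + g n * 8 ^ n := by
  rw [show cd g (n + 1) = cd g n + g n * bit (3 * n) from rfl, bit_eq, pow_mul]
  rfl

theorem NORM_dg_eq (c j : ℕ) : dg c j = c / 8 ^ j % 8 := by
  rw [show dg c j = fld c (3 * j) 8 from rfl, fld_eq, pow_mul]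
  rfl

theorem NORM_cd_lt {g : ℕ → ℕ} {n : ℕ} (h : ∀ j < n, g j < 8) : cd g n < 8 ^ n := by
  induction n with
  | zero => exact Nat.one_pos
  | succ n ih =>
    have a := ih fun j hj => h j (by omega)
    have b : g n * 8 ^ n ≤ 7 * 8 ^ n :=
      Nat.mul_le_mul_right _ (Nat.le_of_lt_succ (h n (by omega)))
    rw [NORM_cd_succ, pow_succ]
    omega

theorem NORM_dg_cd {g : ℕ → ℕ} {n : ℕ} (h : ∀ j < n, g j < 8) {i : ℕ} (hi : i < n) :
    dg (cd g n) i = g i := by
  induction n with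
  | zero => omega
  | succ n ih =>
    have h' : ∀ j < n, g j < 8 := fun j hj => h j (by omega)
    rw [NORM_cd_succ, NORM_dg_eq]
    rcases Nat.lt_succ_iff_lt_or_eq.mp hi with h1 | rfl
    · obtain ⟨d, rfl⟩ := Nat.exists_eq_add_of_lt h1
      rw [← ih h' h1, NORM_dg_eq,
        show g (i + d + 1) * 8 ^ (i + d + 1) = (g (i + d + 1) * 8 ^ d * 8) * 8 ^ i by ring,
        Nat.add_mul_div_right _ _ (by positivity), Nat.add_mul_mod_self_right]
    · rw [Nat.add_mul_div_right _ _ (by positivity), Nat.div_eq_of_lt (NORM_cd_lt h'), zero_add,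
        Nat.mod_eq_of_lt (h i hi)]

theorem NORM_allP {bd : ℕ} {f : ℕ → Bool} {g : ℕ → ℕ} {n : ℕ} (h1 : ∀ j < n, g j < bd)
    (h2 : ∀ i < n, ∀ j < n, g i = g j → i = j) {u c : ℕ} (h3 : ∀ j < n, ¬ tb u (g j) = true)
    (h : allP bd f n u c = true) : f (c + cd g n) = true := by
  induction n generalizing u c with
  | zero => exact h
  | succ n ih =>
    rw [show allP bd f (n + 1) u c = allN (fun d => sel (tb u d) true
      (frc (Nat.lor u (bit d)) fun u' => frc (c + d * bit (3 * n)) fun c' => allP bd f n u' c')) bd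
      from rfl, allN_iff] at h
    have a := h (g n) (h1 n (by omega))
    rw [sel_or, frc_eq, frc_eq] at a
    have b := ih (fun j hj => h1 j (by omega)) (fun i hi j hj => h2 i (by omega) j (by omega))
      (fun j hj hb => ?_) (a.resolve_left (h3 n (by omega)))
    · rw [show cd g (n + 1) = cd g n + g n * bit (3 * n) from rfl, add_comm (cd g n), ← add_assoc]
      exact b
    · rcases tb_lor.mp hb with hb | hb
      · exact h3 j (by omega) hb
      · have := h2 n (by omega) j (by omega) (tb_bit.mp hb)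
        omega

theorem NORM_ub {l : List ℕ} {x : ℕ} (h : tb (ub l) x = true) : ∃ u ∈ l, uP u = x := by
  induction l with
  | nil => exact absurd h (tb_zero x)
  | cons a l ih =>
    rw [show ub (a :: l) = Nat.lor (ub l) (bit (uP a)) from rfl, tb_lor, tb_bit] at h
    rcases h with h | h
    · obtain ⟨u, h1, h2⟩ := ih h
      exact ⟨u, List.mem_cons_of_mem _ h1, h2⟩
    · exact ⟨a, List.mem_cons_self, h⟩

theorem st_NORM (hI : St_ISO) : St_NORM := by
  intro V E _ _ G md k T σ W A l hσ hk h1 h0 ha hn hp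
  obtain ⟨hT, τ, ⟨he, hc⟩, ht, ⟨j0, hj0, hW⟩, hin⟩ := hp
  have tk := tok hT
  have ex : ∀ j, ∃ t, j < (tm T).1 → t < k ∧ σ t = τ j := fun j => by
    by_cases hj : j < (tm T).1
    · obtain ⟨t, a, b⟩ := ht j hj
      exact ⟨t, fun _ => ⟨a, b⟩⟩
    · exact ⟨0, fun h => absurd h hj⟩
  choose g hg using ex
  have g8 : ∀ j < (tm T).1, g j < 8 := fun j hj => by have := (hg j hj).1; omega
  unfold nchk at hn
  rw [sel_and, frc_eq, allL_iff] at hn
  have b := NORM_allP (g := g) (fun j hj => ?_) (fun i hi j hj e => ?_) (fun j _ => tb_zero _) hn.2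
  rotate_left
  · have := (hg j hj).1
    rw [sel_beq]
    split_ifs with h
    · have := h1 h
      omega
    · omega
  · refine he.inj i j (tch_of_deg (tk.d1 i hi)) (tch_of_deg (tk.d1 j hj)) ?_
    rw [← (hg i hi).2, ← (hg j hj).2, e]
  rw [zero_add, sel_imp, sel_imp, anyL_iff] at b
  obtain ⟨β, hβ, hb⟩ := b fun hm => by
    obtain ⟨rfl, rfl⟩ := h0 (Nat.eq_of_beq_eq_true hm)
    have := tk.k5
    refine tb_plm.mpr ⟨j0, hj0, tb_31.mpr (by omega), ?_⟩
    rw [NORM_dg_cd g8 hj0]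
    exact hσ _ (hg j0 hj0).1 5 (by omega) ((hg j0 hj0).2.trans hW)
  obtain ⟨u, hu, e⟩ := NORM_ub hb
  have a := allL_iff.mp ha β hβ
  simp only [sel_and, allN_iff, sel_imp, Nat.ble_eq] at a
  obtain ⟨a1, a2, a3, a4⟩ := a
  have a5 : ∀ a, tch (tm T).3 a → 6 ≤ a → 6 ≤ rt β a := fun a h h6 => by
    have := tk.n7
    have := tk.k5
    have := tk.rng a h
    have r := a3 (a - 6) (by omega)
    rwa [show Nat.add 6 (a - 6) = a from Nat.add_sub_cancel' h6] at r
  obtain ⟨i1, i2, -⟩ := hI he a1 tk.pw fun a h h6 => Or.inl (a5 a h h6)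
  obtain ⟨u1, u2⟩ := sel_and.mp (hn.1 u hu)
  have u3 : uT u = T := Nat.eq_of_beq_eq_true u1
  refine ⟨u, hu, u2, u3 ▸ hT, fun a => τ (rt β a), ?_⟩
  rw [u3, e]
  refine ⟨⟨i1, fun j hj h => hc _ (a2 j hj) (a4 j hj h)⟩, fun j hj => ?_,
    fun a h h6 t ht' e' => hin _ (i2 a h) (a5 a h h6) ⟨t, ht', e'.symm⟩⟩
  rw [NORM_dg_cd (fun j _ => dg_lt _ _) hj, NORM_dg_cd g8 (a2 j hj)]
  exact ⟨(hg _ (a2 j hj)).1, (hg _ (a2 j hj)).2.symm⟩

end Pool.Agent.Lib.Tw5
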