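import Pool.Agent.Lib.Tw5.KitI

/-! A labelled model of the Petersen graph is a Petersen minor. -/

namespace Pool.Agent.Lib.Tw5

open Finset Pool.Agent.Lib.MP_aa6b05_co

/-- the labels of the vertices of the Petersen graph -/
def PB_pv : Fin 10 → MP_aa6b05_co.D.PV :=
  ![⟨{0, 1}, by decide⟩, ⟨{2, 3}, by decide⟩, ⟨{0, 4}, by decide⟩, ⟨{1, 2}, by decide⟩,
    ⟨{3, 4}, by decide⟩, ⟨{2, 4}, by decide⟩, ⟨{1, 4}, by decide⟩, ⟨{1, 3}, by decide⟩,
    ⟨{0, 3}, by decide⟩, ⟨{0, 2}, by decide⟩]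

theorem PB_surj : ∀ x : MP_aa6b05_co.D.PV, ∃ a, PB_pv a = x := by decide +kernel

theorem PB_adj : ∀ a b : Fin 10, Disjoint (PB_pv a).1 (PB_pv b).1 →
    (a.1, b.1) ∈ PEs ∨ (b.1, a.1) ∈ PEs := by decide +kernel

theorem PB_end : ∀ a : Fin 10, ∃ p ∈ PEs, p.1 = a.1 := by decide +kernel

theorem st_PB : St_PB := by
  intro V E _ _ G ⟨B, hc, hd, ha⟩
  choose l hl using PB_surj
  refine ⟨fun x => B (l x), fun x => ?_, fun x y hxy => ?_, fun x u hu v hv => ?_,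
    fun x y hxy => ?_⟩
  · obtain ⟨p, hp, e⟩ := PB_end (l x)
    obtain ⟨u, hu, -⟩ := ha p hp
    rw [e] at hu
    exact ⟨u, hu⟩
  · refine hd _ (l x).2 _ (l y).2 fun e => hxy ?_
    rw [← hl x, ← hl y, Fin.ext e]
  · have h := hc _ (l x).2 u hu v hv
    clear hv
    induction h with
    | refl => exact Relation.ReflTransGen.refl
    | tail _ h2 ih =>
      obtain ⟨h1, h2, -, e, he⟩ := h2
      exact ih.tail ⟨h1, h2, e, trivial, he⟩
  · rw [← hl x, ← hl y] at hxy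
    rcases PB_adj _ _ hxy with h | h
    · obtain ⟨u, hu, w, hw, -, e, he⟩ := ha _ h
      exact ⟨e, u, hu, w, hw, he⟩
    · obtain ⟨u, hu, w, hw, -, e, he⟩ := ha _ h
      exact ⟨e, w, hw, u, hu, he.symm⟩

end Pool.Agent.Lib.Tw5
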