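import Pool.Agent.Lib.Tw5.Blue

set_option linter.unusedSectionVars false
set_option linter.unusedVariables false

/-! Row PCH: a checked Petersen labelling of a model gives a Petersen minor. -/

namespace Pool.Agent.Lib.Tw5

open Finset Pool.Agent.Lib.MP_aa6b05_co C

open scoped Classical

theorem st_PCH (hM : St_MCHK) : St_PCH := by
  intro V E _ _ G B es μ R p hB hc
  obtain ⟨h1, h2⟩ := hM _ _ _ _ _ _ hc
  let B' : ℕ → Set V := fun i => {v | ∃ a, tch es a ∧ lab μ a = i ∧ v ∈ B a}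
  have sub : ∀ a i, tch es a → lab μ a = i → B a ⊆ B' i := fun a i ha hi v hv => ⟨a, ha, hi, hv⟩
  have t1 : ∀ q ∈ es, tch es q.1 := fun q hq => ⟨q, hq, Or.inl rfl⟩
  have t2 : ∀ q ∈ es, tch es q.2 := fun q hq => ⟨q, hq, Or.inr rfl⟩
  have ne : ∀ a, tch es a → ∃ v, v ∈ B a := by
    rintro a ⟨q, hq, rfl | rfl⟩
    · obtain ⟨u, hu, -⟩ := hB.adj q hq
      exact ⟨u, hu⟩
    · obtain ⟨-, -, w, hw, -⟩ := hB.adj q hq
      exact ⟨w, hw⟩
  have mono : ∀ a i, tch es a → lab μ a = i → ∀ u ∈ B a, ∀ w ∈ B a, Cn G (B' i) u w :=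
    fun a i ha hi u hu w hw => (hB.con a ha u hu w hw).mono (sub a i ha hi)
  refine ⟨B', fun i hi => ?_, fun i _ j _ hij => ?_, fun q hq => ?_⟩
  · let Q : ℕ → Prop := fun a => tch es a → lab μ a = i →
      tch es (rt R i) ∧ ∀ u ∈ B a, ∀ r ∈ B (rt R i), Cn G (B' i) u r
    have step : ∀ a b, tch es a → lab μ a = lab μ b → ∀ x ∈ B a, ∀ y ∈ B b, Ad G y x → Q a →
        Q b := by
      intro a b ha hab x hx y hy hxy hQ hb hbi
      obtain ⟨k1, k2⟩ := hQ ha (hab.trans hbi)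
      refine ⟨k1, fun u hu r hr => ?_⟩
      exact (mono b i hb hbi u hu y hy).trans (Relation.ReflTransGen.head
        ⟨sub b i hb hbi hy, sub a i ha (hab.trans hbi) hx, hxy⟩ (k2 x hx r hr))
    have all : ∀ a, tch es a → lab μ a < 10 → Q a := by
      refine h1 Q (fun b hb hl ht hi' => ?_) fun q hq hl => ?_
      · obtain rfl : b = i := hl.symm.trans hi'
        exact ⟨ht, mono _ _ ht hl⟩
      · obtain ⟨x, hx, y, hy, hxy⟩ := hB.adj q hq
        exact ⟨step _ _ (t1 q hq) hl x hx y hy hxy.symm,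
          step _ _ (t2 q hq) hl.symm y hy x hx hxy⟩
    rintro u ⟨a, ha, hai, hu⟩ w ⟨b, hb, hbi, hw⟩
    obtain ⟨k1, k2⟩ := all a ha (hai ▸ hi) ha hai
    obtain ⟨-, k3⟩ := all b hb (hbi ▸ hi) hb hbi
    obtain ⟨r, hr⟩ := ne _ k1
    exact (k2 u hu r hr).trans (k3 w hw r hr).symm
  · refine Set.disjoint_left.2 ?_
    rintro v ⟨a, ha, hai, hv⟩ ⟨b, hb, hbj, hv'⟩
    refine Set.disjoint_left.1 (hB.dj a b ha hb ?_) hv hv'
    rintro rfl
    exact hij (hai.symm.trans hbj)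
  · have k : ∀ q ∈ PEs, q.2 < 16 ∧ tb PM (16 * q.1 + q.2) = true := by decide +kernel
    obtain ⟨s, hs, h⟩ := h2 q.1 q.2 (k q hq).1 (k q hq).2
    obtain ⟨x, hx, y, hy, hxy⟩ := hB.adj s hs
    rcases h with ⟨e1, e2⟩ | ⟨e1, e2⟩
    · exact ⟨x, sub _ _ (t1 s hs) e1 hx, y, sub _ _ (t2 s hs) e2 hy, hxy⟩
    · exact ⟨y, sub _ _ (t2 s hs) e2 hy, x, sub _ _ (t1 s hs) e1 hx, hxy.symm⟩

end Pool.Agent.Lib.Tw5
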