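import Pool.Agent.Lib.Tw5.KitI

set_option linter.unusedSectionVars false
set_option linter.unusedVariables false

/-! The pieces: components outside `Ω` and single edges inside `Ω`. -/

namespace Pool.Agent.Lib.Tw5

open Finset Pool.Agent.Lib.MP_aa6b05_co C

open scoped Classical

variable {V E : Type} [Fintype V] [Fintype E] {G : MG V E}

theorem pcs_nb {T : ℕ} {Z : Set V} {τ : ℕ → V} (hT : T < 15) (he : Emb G τ (tm T).3 (HE G Z))
    (h1 : ∀ j < (tm T).1, τ j ∉ Z) (h2 : ∀ a, tch (tm T).3 a → 6 ≤ a → τ a ∈ Z) (w : V) :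
    w ∈ Nb G Z ↔ ∃ j < (tm T).1, τ j = w := by
  have k := tok hT
  have lo : ∀ a, tch (tm T).3 a → τ a ∉ Z → a < (tm T).1 := fun a ha hn =>
    (k.rng a ha).resolve_right fun h => hn (h2 a ha h.1)
  constructor
  · rintro ⟨hw, u, hu, n, e, j⟩
    obtain ⟨p, hp, j'⟩ := (he.mem e).1 ((mem_HE j).2 ⟨n, Or.inl hu⟩)
    rcases joins_cases j j' with ⟨-, rfl⟩ | ⟨-, rfl⟩
    · exact ⟨p.2, lo _ (tch2 hp) hw, rfl⟩
    · exact ⟨p.1, lo _ (tch1 hp) hw, rfl⟩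
  · rintro ⟨j, hj, rfl⟩
    obtain ⟨p, hp, hq⟩ := tch_of_deg (k.d1 j hj)
    obtain ⟨n, e, j'⟩ := he.adj p hp
    have hz := ((mem_HE j').1 ((he.mem e).2 ⟨p, hp, j'⟩)).2
    have hn := h1 j hj
    rcases hq with rfl | rfl
    · exact ⟨hn, τ p.2, hz.resolve_left hn, Ad.symm ⟨n, e, j'⟩⟩
    · exact ⟨hn, τ p.1, hz.resolve_right hn, n, e, j'⟩

theorem pcs_edge (hG : Crit G) {Ω W : Set V} {e : E} {a b : V} (j : G.Joins e a b) (n : a ≠ b)
    (ha : a ∈ Ω) (hb : b ∈ Ω) (hW : a ∈ W) : PcT G Ω W 14 {e} := by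
  have e1 : (tm 14).1 = 2 := rfl
  have e3 : (tm 14).3 = [(0, 1)] := rfl
  have e4 : (tm 14).4 = 0 := rfl
  have t : ∀ x, tch [(0, 1)] x → x = 0 ∨ x = 1 := by
    rintro x ⟨p, hp, h⟩
    rw [List.mem_singleton] at hp
    subst hp
    exact h.imp Eq.symm Eq.symm
  refine ⟨by omega, fun i => if i = 0 then a else b, ⟨⟨?_, ?_, ?_, ?_, ?_⟩, ?_⟩, ?_, ?_, ?_⟩
  · rw [e3]
    intro x y hx hy h
    rcases t x hx with rfl | rfl <;> rcases t y hy with rfl | rfl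
    · rfl
    · exact absurd h (by simpa using n)
    · exact absurd h (by simpa using n.symm)
    · rfl
  · rw [e3]
    intro p hp
    rw [List.mem_singleton] at hp
    subst hp
    exact ⟨n, e, j⟩
  · rw [e3]
    intro f
    simp only [List.mem_singleton, exists_eq_left, Set.mem_singleton_iff]
    exact ⟨fun h => h ▸ j, fun h => by_contra fun m => hG.par f e a b m n h j⟩
  · rw [e3]
    exact List.pairwise_singleton _ _
  · rw [e3]
    intro x hx h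
    rcases t x hx with rfl | rfl <;> omega
  · rw [e4]
    exact fun i _ h => absurd h (tb_zero i)
  · intro i _
    dsimp only
    split_ifs
    exacts [ha, hb]
  · exact ⟨0, by omega, hW⟩
  · rw [e3]
    intro x hx h
    rcases t x hx with rfl | rfl <;> omega

theorem st_PCS : St_PCS := by
  intro V E _ _ G hG Ω W C Q h14 hC hW hS
  have sub : ∀ u ∈ C, u ∉ Ω → cmp G Ω u ⊆ C := fun u hu hΩ w hw =>
    Cn.side hw (fun x y _ hy h hx => (hC x hx y h).resolve_right hy) hu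
  have ein : ∀ {u : V} {e : E}, u ∉ Ω → e ∈ HE G (cmp G Ω u) → ¬ (G.s e ∈ Ω ∧ G.t e ∈ Ω) :=
    fun hu he h => he.2.elim (fun k => cmp_out hu k h.1) fun k => cmp_out hu k h.2
  have same2 : ∀ {u w : V} {e : E}, u ∉ Ω → w ∉ Ω → e ∈ HE G (cmp G Ω u) →
      e ∈ HE G (cmp G Ω w) → cmp G Ω u = cmp G Ω w := by
    intro u w e hu hw h1 h2
    obtain ⟨a, b, j, n, ha⟩ := exists_of_HE h1
    rcases ((mem_HE j).1 h2).2 with h | h
    · exact (cmp_eq ha).symm.trans (cmp_eq h)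
    · exact (cmp_eq (mem_cmp_of_ad hu ha ⟨n, e, j⟩ (cmp_out hw h))).symm.trans (cmp_eq h)
  refine ⟨{A | (∃ u ∈ C, u ∉ Ω ∧ Ni G u ∧ A = HE G (cmp G Ω u)) ∨
    ∃ e ∈ HE G C, G.s e ∈ Ω ∧ G.t e ∈ Ω ∧ A = {e}}, ?_, ?_, ?_⟩
  · rintro A (⟨u, hu, hΩ, hn, rfl⟩ | ⟨e, he, h1, h2, rfl⟩)
    · obtain ⟨T, ⟨hT, τ, ht, t1, t2⟩, hQ⟩ := hS u hu hΩ hn
      have nb := pcs_nb hT ht.1 t1 t2
      refine ⟨fun e he => ⟨he.1, he.2.imp (sub u hu hΩ ·) (sub u hu hΩ ·)⟩, T,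
        ⟨hT, τ, ht, fun j hj => nb_cmp hΩ ((nb _).2 ⟨j, hj, rfl⟩), ?_,
          fun a ha h6 => cmp_out hΩ (t2 a ha h6)⟩, hQ⟩
      rcases hW with rfl | ⟨v, rfl, hv, hvC, hc, hx⟩
      · exact ⟨0, by have := (tok hT).k2; omega, trivial⟩
      · obtain ⟨x, y, -, hy, had, hx1, hy1⟩ := (hc u hu v hvC).cross (Y := cmp G Ω u)
          (self_cmp Ω u) fun h => cmp_out hΩ h hv
        have hyn : y ∈ Nb G (cmp G Ω u) := ⟨hy1, x, hx1, had⟩
        obtain ⟨j, hj, e⟩ := (nb y).1 hyn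
        exact ⟨j, hj, e.trans (hx y (nb_cmp hΩ hyn) hy)⟩
    · refine ⟨Set.singleton_subset_iff.2 he, 14, ?_, h14⟩
      have j := MG.joins_self (G := G) e
      rcases hW with rfl | ⟨v, rfl, hv, hvC, hc, hx⟩
      · exact pcs_edge hG j he.1 h1 h2 trivial
      · rcases he.2 with h | h
        · exact pcs_edge hG j he.1 h1 h2 (hx _ h1 h)
        · exact pcs_edge hG j.symm he.1.symm h2 h1 (hx _ h2 h)
  · rintro A hA B hB n
    rw [Set.disjoint_left]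
    intro e ha hb
    rcases hA with ⟨u, hu, hΩ, -, rfl⟩ | ⟨f, -, h1, h2, rfl⟩ <;>
      rcases hB with ⟨w, hw, hΩ', -, rfl⟩ | ⟨g, -, h3, h4, rfl⟩
    · exact n (by rw [same2 hΩ hΩ' ha hb])
    · obtain rfl : e = g := hb
      exact ein hΩ ha ⟨h3, h4⟩
    · obtain rfl : e = f := ha
      exact ein hΩ' hb ⟨h1, h2⟩
    · exact n (by rw [← show e = f from ha, ← show e = g from hb])
  · intro e he
    obtain ⟨a, b, j, n, ha⟩ := exists_of_HE he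
    have had : Ad G a b := ⟨n, e, j⟩
    by_cases h1 : a ∈ Ω
    · by_cases h2 : b ∈ Ω
      · refine ⟨{e}, Or.inr ⟨e, he, ?_, ?_, rfl⟩, rfl⟩ <;>
          rcases j with ⟨j1, j2⟩ | ⟨j1, j2⟩ <;> simp [j1, j2, h1, h2]
      · exact ⟨_, Or.inl ⟨b, (hC a ha b had).resolve_right h2, h2, had.ni', rfl⟩,
          (mem_HE j).2 ⟨n, Or.inr (self_cmp Ω b)⟩⟩
    · exact ⟨_, Or.inl ⟨a, ha, h1, had.ni, rfl⟩, (mem_HE j).2 ⟨n, Or.inl (self_cmp Ω a)⟩⟩

end Pool.Agent.Lib.Tw5
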