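import Pool.Agent.Lib.Tw5.KitI

set_option linter.unusedSectionVars false
set_option linter.unusedVariables false

namespace Pool.Agent.Lib.Tw5

open Finset Pool.Agent.Lib.MP_aa6b05_co C

open scoped Classical

theorem red_split {P : ℕ × ℕ → Prop} [DecidablePred P] {l : Es}
    (h : (l.map fun p => if P p then 1 else 0).sum = 1) :
    ∃ pre q suf, l = pre ++ q :: suf ∧ P q ∧ ∀ r ∈ pre ++ suf, ¬ P r := by
  induction l with
  | nil => simp at h
  | cons a l ih =>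
    rw [List.map_cons, List.sum_cons] at h
    by_cases ha : P a
    · rw [if_pos ha] at h
      refine ⟨[], a, l, rfl, ha, fun r hr hP => ?_⟩
      have := List.sum_eq_zero_iff.mp (by omega : (l.map fun p => if P p then 1 else 0).sum = 0)
        _ (List.mem_map_of_mem (f := fun p => if P p then 1 else 0) hr)
      simp [hP] at this
    · rw [if_neg ha, zero_add] at h
      obtain ⟨pre, q, suf, rfl, h1, h2⟩ := ih h
      refine ⟨a :: pre, q, suf, rfl, h1, fun r hr => ?_⟩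
      rcases List.mem_cons.mp hr with rfl | hr
      exacts [ha, h2 r hr]

theorem red_prs : ∀ f : Fin 5 → Bool, (∀ t, f t = true) ∨ (∀ t, f t = false) ∨
    ((∃ a b, f a = true ∧ f b = false) ∧ ∃ q ∈ prs, (∀ t, f t = true ↔ t.1 = q.1 ∨ t.1 = q.2) ∨
      ∀ t, f t = false ↔ t.1 = q.1 ∨ t.1 = q.2) := by
  decide +kernel

theorem st_RED : St_RED := by
  intro V E _ _ G σ ι C D st kp rs μ R hx hI hp hrs h5 hcon hbr
  have hG := hx.cr
  have hM := (hx.mn rfl).2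
  have emb := hI.emb.perm hp
  obtain ⟨ε, hj, hH, hn⟩ := emb.eps hG
  rw [List.map_append, List.nodup_append] at hn
  have hm : ∀ {p}, p ∈ kp → p ∈ kp ++ rs := List.mem_append_left _
  have hsub : {e | ∃ p ∈ rs, ε p = e} ⊆ HE G C := by
    rw [hH]
    exact fun e ⟨p, h1, h2⟩ => ⟨p, List.mem_append_right _ h1, h2⟩
  have hsum : ∀ {M : Type} [AddCommMonoid M] (Y : Set V) (f : E → M),
      ∑ e ∈ cutn G Y {e | ∃ p ∈ rs, ε p = e}ᶜ, f e = ∑ e ∈ cutn G Y (HE G C)ᶜ, f e +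
        (kp.map fun p => if ¬ (ι p.1 ∈ Y ↔ ι p.2 ∈ Y) then f (ε p) else 0).sum := by
    intro M _ Y f
    rw [← sum_list hn.1 (fun p h => hj p (hm h)), ← sum_cutn_union]
    · congr 2
      rw [hH]
      ext e
      simp only [Set.mem_compl_iff, Set.mem_ofPred_eq, Set.mem_union, List.mem_append]
      constructor
      · intro h
        by_contra hc
        push Not at hc
        obtain ⟨⟨p, h1 | h1, h2⟩, h3⟩ := hc
        exacts [h3 p h1 h2, h ⟨p, h1, h2⟩]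
      · rintro (h | ⟨p, h1, rfl⟩) ⟨q, h3, h4⟩
        · exact h ⟨q, Or.inr h3, h4⟩
        · exact hn.2.2 _ (List.mem_map_of_mem h1) _ (List.mem_map_of_mem h3) h4.symm
    · rw [hH, Set.disjoint_left]
      exact fun e h ⟨p, h1, h2⟩ => h ⟨p, hm h1, h2⟩
  by_cases hb : ∀ Y, Sat G {e | ∃ p ∈ kp ++ rs, μ p.1 = μ p.2 ∧ ε p = e} Y →
      (cutn G Y {e | ∃ p ∈ rs, ε p = e}ᶜ).card ≠ 1
  · left
    obtain ⟨p0, hp0⟩ := List.exists_mem_of_ne_nil rs hrs
    have hp1 := List.mem_append_right kp hp0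
    obtain ⟨φ, h0, hφ⟩ := hG.red _ {e | ∃ p ∈ rs, ε p = e} ⟨ε p0, (hj p0 hp1).ne (emb.adj p0 hp1).1,
      Or.inr ⟨p0, hp0, rfl⟩⟩ hb
    have hg : ∀ v, (∀ t < 5, σ t ≠ v) → ∑ e ∈ cutn G {v} (HE G C)ᶜ, φ e = 0 := by
      intro v hv
      rcases hM.sep v (fun ⟨t, h1, h2⟩ => hv t h1 h2) with h | h
      · rw [h.cutn_eq, sum_empty]
      · rw [h.cutn_compl, ← (h.mono hsub).cutn_compl]
        refine hφ _ (h.mono ?_)
        rw [hH]
        exact fun e ⟨p, h1, _, h2⟩ => ⟨p, h1, h2⟩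
    obtain ⟨c, hc, hd⟩ := exists_fs (k := 5) (fun a ha b hb => hx.inj a (by omega) b (by omega))
      (by omega) ⟨φ, h0, fun v => rfl⟩ hg
    refine ⟨c, hc, fun p => φ (ε p), fun p => h0 _, fun b => ?_⟩
    set Y : Set V := {v | ∃ a, tch (kp ++ rs) a ∧ μ a = b ∧ ι a = v} with hY
    have hy : ∀ a, tch (kp ++ rs) a → (ι a ∈ Y ↔ μ a = b) := fun a ha =>
      ⟨fun ⟨a', h1, h2, h3⟩ => emb.inj a' a h1 ha h3 ▸ h2, fun h => ⟨a, ha, h, rfl⟩⟩
    have h1 := hφ Y (by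
      rintro e he ⟨p, h1, h2, rfl⟩
      exact (hj p h1).mem_cut.mp he (by rw [hy _ (tch1 h1), hy _ (tch2 h1), h2]))
    rw [hsum, sum_cutn K.add_self] at h1
    have h2 : (kp.map fun p => if ¬ (ι p.1 ∈ Y ↔ ι p.2 ∈ Y) then φ (ε p) else 0).sum =
        bdl μ kp (fun p => φ (ε p)) b := by
      unfold bdl
      congr 1
      refine List.map_congr_left fun p hp => ?_
      simp only [hy _ (tch1 (hm hp)), hy _ (tch2 (hm hp))]
      by_cases a1 : μ p.1 = b <;> by_cases a2 : μ p.2 = b <;> simp [a1, a2, K.add_self]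
    have h3 : ∀ t < 5, σ t ∈ Y ↔ t = b := by
      intro t ht
      have d1 := hM.fc.hd_pos (hM.mem ht)
      rw [hI.hd_slot hx (by omega)] at d1
      obtain ⟨p, p1, p2⟩ := tch_of_deg d1
      rw [← hI.slot t (by omega), hy t ⟨p, hp.symm.subset p1, p2⟩, (h5 t ht).1]
    rw [h2] at h1
    refine Eq.trans ?_ (K.eq_of_add_eq_zero h1)
    by_cases hb5 : b < 5
    · rw [hd b hb5, sum_eq_single (σ b)]
      · intro v hv n
        refine hg v fun t ht e => n ?_
        rw [← e, (h3 t ht).mp (e ▸ (mem_filter.mp hv).2)]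
      · intro h
        exact absurd (mem_filter.mpr ⟨mem_univ _, (h3 b hb5).mpr rfl⟩) h
    · rw [dec_of_lt hc.1 (by omega)]
      refine (sum_eq_zero fun v hv => hg v fun t ht e => ?_).symm
      have := (h3 t ht).mp (e ▸ (mem_filter.mp hv).2)
      omega
  · right
    push Not at hb
    obtain ⟨Y, hY, h1⟩ := hb
    have hc : ∀ Y, Sat G {e | ∃ p ∈ kp ++ rs, μ p.1 = μ p.2 ∧ ε p = e} Y → ∀ r ∈ kp,
        (ι r.1 ∈ Y ↔ ι (R (μ r.1)) ∈ Y) ∧ (ι r.2 ∈ Y ↔ ι (R (μ r.2)) ∈ Y) := by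
      intro Y hY r hr
      have := hcon Y fun p h1 h2 =>
        hY.iff (hj p (hp.symm.subset h1)) ⟨p, hp.symm.subset h1, h2, rfl⟩
      exact ⟨this _ (tch1 (hp.subset (hm hr))), this _ (tch2 (hp.subset (hm hr)))⟩
    have k1 : ∀ Y, Sat G {e | ∃ p ∈ kp ++ rs, μ p.1 = μ p.2 ∧ ε p = e} Y →
        (cutn G Y {e | ∃ p ∈ rs, ε p = e}ᶜ).card = 1 → ¬ ∀ t < 5, σ t ∈ Y := by
      intro Y hY h1 hall
      have h2 := hG.no_br (Y := Yᶜ) hM.sep (by
        rintro v ⟨t, ht, rfl⟩ h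
        exact h (hall t ht))
      rw [cutn_compl] at h2
      rw [card_eq_sum_ones, hsum, ← card_eq_sum_ones] at h1
      obtain ⟨pre, q, suf, e, h3, h4⟩ := red_split (by omega :
        (kp.map fun p => if ¬ (ι p.1 ∈ Y ↔ ι p.2 ∈ Y) then 1 else 0).sum = 1)
      have hq := hc Y hY q (by simp [e])
      have := hbr (fun b => ι (R b) ∈ Y) (fun t ht => by
        rw [(h5 t ht).2, hI.slot t (by omega)]
        exact hall t ht) pre q suf e (fun r hr => by
        have := hc Y hY r (by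
          rw [e]
          simp only [List.mem_append, List.mem_cons] at hr ⊢
          tauto)
        rw [← this.1, ← this.2]
        exact not_not.mp (h4 r hr))
      exact h3 (by rw [hq.1, hq.2]; exact iff_of_true this.1 this.2)
    have k2 : ∀ Y, Sat G {e | ∃ p ∈ kp ++ rs, μ p.1 = μ p.2 ∧ ε p = e} Y →
        (cutn G Y {e | ∃ p ∈ rs, ε p = e}ᶜ).card = 1 → 1 ≤ (cutn G Y (HE G C)ᶜ).card →
        (cutn G Y (HE G C)ᶜ).card = 1 ∧ ∀ r ∈ kp, ι (R (μ r.1)) ∈ Y ↔ ι (R (μ r.2)) ∈ Y := by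
      intro Y hY h1 h2
      rw [card_eq_sum_ones, hsum, ← card_eq_sum_ones] at h1
      refine ⟨by omega, fun r hr => ?_⟩
      have := List.sum_eq_zero_iff.mp (by omega :
        (kp.map fun p => if ¬ (ι p.1 ∈ Y ↔ ι p.2 ∈ Y) then 1 else 0).sum = 0) _
        (List.mem_map_of_mem (f := fun p => if ¬ (ι p.1 ∈ Y ↔ ι p.2 ∈ Y) then 1 else 0) hr)
      rw [← (hc Y hY r hr).1, ← (hc Y hY r hr).2]
      simpa using this
    have h1' := (congrArg card (cutn_compl Y _)).trans h1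
    rcases red_prs (fun t => decide (σ t.1 ∈ Y)) with h | h | ⟨⟨a, b, ha, hb⟩, q, hq, h⟩
    · exact absurd (fun t ht => by simpa using h ⟨t, ht⟩) (k1 Y hY h1)
    · exact absurd (fun t ht => by simpa using h ⟨t, ht⟩) (k1 Yᶜ hY.compl h1')
    · have h2 := hM.fd.cross (Y := Y) (hM.mem a.2) (hM.mem b.2) (by simpa using ha)
        (by simpa using hb)
      rcases h with h | h
      · exact ⟨Y, (k2 Y hY h1 h2).1, (k2 Y hY h1 h2).2, q, hq, fun t ht => by
          simpa using h ⟨t, ht⟩⟩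
      · have := k2 Yᶜ hY.compl h1' (h2.trans_eq (congrArg card (cutn_compl Y _)).symm)
        exact ⟨Yᶜ, this.1, this.2, q, hq, fun t ht => by simpa using h ⟨t, ht⟩⟩

end Pool.Agent.Lib.Tw5
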