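import Pool.Agent.Lib.Tw5.Blue

set_option linter.unusedSectionVars false
set_option linter.unusedVariables false

/-! A minimal counterexample has no separation of order two. -/

namespace Pool.Agent.Lib.Tw5

open Finset Pool.Agent.Lib.MP_aa6b05_co C

open scoped Classical

noncomputable section

variable {V E : Type} [Fintype V] [Fintype E] {G : MG V E}

theorem S3_eq {X : Set E} {a b : V} {g : V → K} (hg : g ∈ BF G X)
    (hs : ∀ v, v ≠ a → v ≠ b → g v = 0) : g a = g b := by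
  by_cases hab : a = b
  · rw [hab]
  · have h := bf_tot hg
    rw [← sum_subset (subset_univ {a, b}) (fun v _ hv => hs v (fun e => hv (by simp [e]))
      (fun e => hv (by simp [e]))), sum_pair hab] at h
    exact K.eq_of_add_eq_zero h

theorem S3_match {X : Set E} {a b : V} {g g' : V → K} (hg : g ∈ BF G X) (hg' : g' ∈ BF G Xᶜ)
    (hs : ∀ v, v ≠ a → v ≠ b → g v = 0) (hs' : ∀ v, v ≠ a → v ≠ b → g' v = 0)
    (h : g a = 0 ↔ g' a = 0) : G.Col := by
  have hα : ∃ α, GoodAut α ∧ α (g a) = g' a := by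
    by_cases h0 : g a = 0
    · exact ⟨id, ⟨fun _ _ => rfl, fun _ h => h⟩, h0.trans (h.mp h0).symm⟩
    · exact exists_aut_one _ _ h0 fun e => h0 (h.mpr e)
  obtain ⟨α, h1, h2⟩ := hα
  have h0 : α 0 = 0 := by
    have := h1.1 0 0
    rw [K.add_self, K.add_self] at this
    exact this
  have e : (fun v => α (g v)) = g' := by
    funext v
    by_cases ha : v = a
    · rw [ha, h2]
    · by_cases hb : v = b
      · rw [hb, ← S3_eq hg hs, ← S3_eq hg' hs', h2]
      · rw [hs v ha hb, hs' v ha hb, h0]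
  exact bf_col (e ▸ bf_aut hg h1) hg'

theorem S3_edge {X : Set E} {w : V} (hw : Ni G w) (hs : Sat G X {w}) :
    ∃ e, G.s e ≠ G.t e ∧ e ∈ Xᶜ := by
  obtain ⟨x, n, e, j⟩ := hw
  exact ⟨e, j.ne n, hs e (mem_cut1.mpr ⟨x, j, n⟩)⟩

theorem S3_bridge (hG : Crit G) {X : Set E} {a b w : V} {Y : Set V} (hS : Sep G X {a, b})
    (hw : Ni G w) (hs : Sat G X {w}) (hY : (cutn G Y Xᶜ).card = 1) (ha : a ∈ Y) (hb : b ∉ Y) :
    ∃ g ∈ BF G X, (∀ v, v ≠ a → v ≠ b → g v = 0) ∧ g a ≠ 0 := by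
  obtain ⟨e, he⟩ := card_eq_one.mp hY
  have hm : ∀ f, f ∈ G.cut Y ∧ f ∈ Xᶜ ↔ f = e := fun f => by
    rw [← mem_cutn, he, mem_singleton]
  have hS' : ∀ v, v ≠ a → v ≠ b → Sat G Xᶜ {v} ∨ Sat G X {v} := fun v h1 h2 =>
    hS v (by simp [h1, h2])
  obtain ⟨f, hf, hfe⟩ : ∃ f ∈ G.cut {w}, f ≠ e :=
    exists_mem_ne (by have := hG.d3 hw; unfold MG.d at this; omega) e
  obtain ⟨φ, h1, h2⟩ := hG.con (A := Xᶜ \ {e})
    ⟨f, (MG.mem_cut_single.mp hf).1, hs f hf, hfe⟩
  refine ⟨fun v => ∑ e ∈ cutn G {v} X, φ e, ⟨φ, h1, fun _ => rfl⟩, fun v va vb => ?_, ?_⟩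
  · rcases hS' v va vb with h | h
    · have := h.cutn_compl
      rw [compl_compl] at this
      show ∑ e ∈ cutn G {v} X, φ e = 0
      rw [this]
      exact h2 _ (h.mono Set.sdiff_subset)
    · show ∑ e ∈ cutn G {v} X, φ e = 0
      rw [h.cutn_eq, sum_empty]
  · set Y1 : Set V := {v | v ∈ Y ∧ (v = a ∨ Sat G X {v})} with hY1
    have hsat : Sat G (Xᶜ \ {e}) Y1 := by
      intro f hf hA
      obtain ⟨p, q, j, hp, hq⟩ := MG.exists_joins_of_mem_cut hf
      have n : q ≠ p := fun h => hq (h ▸ hp)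
      have hqY : q ∈ Y := by
        by_contra hc
        exact hA.2 ((hm f).mp ⟨j.mem_cut.mpr fun h => hc (h.mp hp.1), hA.1⟩)
      have qa : q ≠ a := fun h => hq ⟨hqY, Or.inl h⟩
      have qb : q ≠ b := fun h => hb (h ▸ hqY)
      rcases hS' q qa qb with h | h
      · exact h f (mem_cut1.mpr ⟨p, j.symm, n⟩) hA.1
      · exact hq ⟨hqY, Or.inr h⟩
    have c1 : cutn G Y1 Xᶜ = {e} := by
      ext f
      rw [mem_cutn, mem_singleton]
      constructor
      · rintro ⟨k1, k2⟩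
        by_contra hc
        exact hsat f k1 ⟨k2, hc⟩
      · rintro rfl
        obtain ⟨k1, k2⟩ := (hm f).mpr rfl
        refine ⟨?_, k2⟩
        obtain ⟨p, q, j, hp, hq⟩ := MG.exists_joins_of_mem_cut k1
        have n : p ≠ q := fun h => hq (h ▸ hp)
        have hp1 : p ∈ Y1 := by
          refine ⟨hp, ?_⟩
          by_cases pa : p = a
          · exact Or.inl pa
          · refine Or.inr ((hS' p pa fun h => hb (h ▸ hp)).resolve_left fun h => ?_)
            exact h f (mem_cut1.mpr ⟨q, j, n⟩) k2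
        exact j.mem_cut.mpr fun h => hq (h.mp hp1).1
    have c2 : cutn G Y1 X = cutn G {a} X := by
      ext f
      rw [mem_cutn, mem_cutn]
      refine and_congr_left fun hX => ⟨fun k1 => ?_, fun k1 => ?_⟩
      · obtain ⟨p, q, j, hp, hq⟩ := MG.exists_joins_of_mem_cut k1
        have n : p ≠ q := fun h => hq (h ▸ hp)
        have hc := mem_cut1.mpr ⟨q, j, n⟩
        rcases hp.2 with h | h
        · exact h ▸ hc
        · exact absurd hX (h f hc)
      · obtain ⟨q, j, n⟩ := mem_cut1.mp k1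
        refine j.mem_cut.mpr fun h => ?_
        rcases (h.mp ⟨ha, Or.inl rfl⟩).2 with h | h
        · exact n h.symm
        · exact h f (mem_cut1.mpr ⟨a, j.symm, n.symm⟩) hX
    have h3 := h2 Y1 hsat
    rw [sum_cut_split φ Y1 X, c1, c2, sum_singleton] at h3
    intro h0
    have h0' : ∑ e ∈ cutn G {a} X, φ e = 0 := h0
    rw [h0', zero_add] at h3
    exact h1 e h3

theorem S3_core (hG : Crit G) {X : Set E} {a b u w : V} {g g' : V → K} (hS : Sep G X {a, b})
    (hu : Ni G u) (hsu : Sat G Xᶜ {u}) (hw : Ni G w) (hs : Sat G X {w}) (hg : g ∈ BF G X)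
    (hg' : g' ∈ BF G Xᶜ) (s : ∀ v, v ≠ a → v ≠ b → g v = 0)
    (s' : ∀ v, v ≠ a → v ≠ b → g' v = 0) (h0 : g a = 0) (h1 : g' a ≠ 0) : False := by
  obtain ⟨e, n, he⟩ := S3_edge hu hsu
  rw [compl_compl] at he
  by_cases hc : ∀ Y, Sat G ∅ Y → (cutn G Y Xᶜ).card ≠ 1
  · obtain ⟨φ, k1, k2⟩ := hG.red ∅ X ⟨e, n, Or.inr he⟩ hc
    exact hG.nc (S3_match (g' := fun _ => 0) hg ⟨φ, k1, fun v => k2 _ fun _ _ h => h⟩ s
      (fun _ _ _ => rfl) ⟨fun _ => rfl, fun _ => h0⟩)
  · push Not at hc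
    obtain ⟨Y, -, hY⟩ := hc
    have key : ∀ Y : Set V, (cutn G Y Xᶜ).card = 1 → a ∈ Y → False := by
      intro Y hY ha
      have hb : b ∉ Y := by
        intro hb
        refine hG.no_br (Y := Yᶜ) hS ?_ (by rw [cutn_compl]; exact hY)
        rintro v (rfl | rfl)
        · exact fun h => h ha
        · exact fun h => h hb
      obtain ⟨g1, m1, m2, m3⟩ := S3_bridge hG hS hw hs hY ha hb
      exact hG.nc (S3_match m1 hg' m2 s' ⟨fun h => absurd h m3, fun h => absurd h h1⟩)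
    by_cases ha : a ∈ Y
    · exact key Y hY ha
    · exact key Yᶜ (by rw [cutn_compl]; exact hY) ha

theorem st_S3 : St_S3 := by
  intro V E _ _ G hG Z a b u w hN hu nu hw wa wb nw
  have hS : Sep G (HE G Z) {a, b} := sep_HE fun v hv => by simpa using hN v hv
  have su : Sat G (HE G Z)ᶜ {u} := sat_in hu
  have sw : Sat G (HE G Z) {w} := sat_out hw fun h => (hN w h).elim wa wb
  have hS' : ∀ v, v ≠ a → v ≠ b → Sat G (HE G Z)ᶜ {v} ∨ Sat G (HE G Z) {v} := fun v h1 h2 =>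
    hS v (by simp [h1, h2])
  obtain ⟨g', hg', s'⟩ := hG.bf_ne (H := HE G Z) (by simpa using S3_edge nu su)
  obtain ⟨g, hg, s⟩ := hG.bf_ne (H := (HE G Z)ᶜ) (S3_edge nw sw)
  rw [compl_compl] at hg s
  have t : ∀ v, v ≠ a → v ≠ b → g v = 0 := fun v h1 h2 => s v (hS' v h1 h2).symm
  have t' : ∀ v, v ≠ a → v ≠ b → g' v = 0 := fun v h1 h2 => s' v (hS' v h1 h2)
  by_cases h0 : g a = 0
  · by_cases h1 : g' a = 0
    · exact hG.nc (S3_match hg hg' t t' ⟨fun _ => h1, fun _ => h0⟩)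
    · exact S3_core hG hS nu su nw sw hg hg' t t' h0 h1
  · by_cases h1 : g' a = 0
    · exact S3_core hG hS.compl nw (by rwa [compl_compl]) nu su hg' (by rwa [compl_compl]) t' t h1 h0
    · exact hG.nc (S3_match hg hg' t t' ⟨fun h => absurd h h0, fun h => absurd h h1⟩)

end

end Pool.Agent.Lib.Tw5
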