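import Pool.Agent.Lib.Tw5.Blue

set_option linter.unusedSectionVars false
set_option linter.unusedVariables false

/-! Separations of order three cut off a cubic vertex. -/

namespace Pool.Agent.Lib.Tw5

open Finset Pool.Agent.Lib.MP_aa6b05_co C

open scoped Classical

variable {V E : Type} [Fintype V] [Fintype E] {G : MG V E}

theorem S4_pad {N : Set V} (h : N.ncard ≤ 2) (u : V) :
    ∃ a b, (∀ v ∈ N, v = a ∨ v = b) ∧ (a ∈ N ∨ a = u) ∧ (b ∈ N ∨ b = u) := by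
  have : N.ncard = 0 ∨ N.ncard = 1 ∨ N.ncard = 2 := by omega
  rcases this with h | h | h
  · rw [Set.ncard_eq_zero] at h
    exact ⟨u, u, by simp [h], Or.inr rfl, Or.inr rfl⟩
  · obtain ⟨a, rfl⟩ := Set.ncard_eq_one.mp h
    exact ⟨a, a, fun v hv => Or.inl hv, Or.inl rfl, Or.inl rfl⟩
  · obtain ⟨a, b, -, rfl⟩ := Set.ncard_eq_two.mp h
    exact ⟨a, b, fun v hv => hv, Or.inl (by simp), Or.inl (by simp)⟩

theorem S4_nb (h3 : St_S3) (hG : Crit G) {T Z : Set V} {u w : V} (hT : T.ncard ≤ 3)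
    (hN : Nb G Z ⊆ T) (hu : u ∈ Z) (nu : Ni G u) (hw : w ∉ Z) (hw' : w ∉ T) (nw : Ni G w) :
    Nb G Z = T ∧ T.ncard = 3 := by
  have h1 : 3 ≤ (Nb G Z).ncard := by
    by_contra hc
    obtain ⟨a, b, h1, h2, h4⟩ := S4_pad (N := Nb G Z) (by omega) u
    refine h3 hG h1 hu nu hw ?_ ?_ nw
    · rintro rfl
      exact h2.elim (fun h => hw' (hN h)) fun h => hw (h ▸ hu)
    · rintro rfl
      exact h4.elim (fun h => hw' (hN h)) fun h => hw (h ▸ hu)
  have h2 := Set.ncard_le_ncard hN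
  exact ⟨Set.eq_of_subset_of_ncard_le hN (by omega), by omega⟩

theorem S4_sum {H : Set E} {g : V → K} (h : g ∈ BF G H) {a b c : V} (hab : a ≠ b) (hac : a ≠ c)
    (hbc : b ≠ c) (h0 : ∀ v, v ∉ ({a, b, c} : Set V) → g v = 0) : g a + (g b + g c) = 0 := by
  rw [← bf_tot h, ← sum_subset (subset_univ ({a, b, c} : Finset V)) fun v _ hv =>
    h0 v (by simpa using hv), sum_insert (by simp [hab, hac]), sum_pair hbc]

theorem st_S4 (h3 : St_S3) (hS : St_STAR) : St_S4 := by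
  intro V E _ _ G hG T Z Z' u w hT cZ cZ' nZ nZ' dZ dT dT' hu nu hw nw
  obtain ⟨e1, t3⟩ := S4_nb h3 hG hT nZ hu nu (Set.disjoint_right.mp dZ hw)
    (Set.disjoint_left.mp dT' hw) nw
  obtain ⟨e2, -⟩ := S4_nb h3 hG hT nZ' hw nw (Set.disjoint_left.mp dZ hu)
    (Set.disjoint_left.mp dT hu) nu
  by_cases a1 : Z = {u}
  · exact Or.inl ⟨a1, by rw [d_eq_nb hG.par, ← a1, e1, t3]⟩
  by_cases a2 : Z' = {w}
  · exact Or.inr ⟨a2, by rw [d_eq_nb hG.par, ← a2, e2, t3]⟩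
  exfalso
  obtain ⟨u', hu', n1⟩ : ∃ u' ∈ Z, u ≠ u' := by
    by_contra hc
    push Not at hc
    exact a1 (Set.eq_singleton_iff_unique_mem.mpr ⟨hu, fun x hx => (hc x hx).symm⟩)
  obtain ⟨w', hw', n2⟩ : ∃ w' ∈ Z', w ≠ w' := by
    by_contra hc
    push Not at hc
    exact a2 (Set.eq_singleton_iff_unique_mem.mpr ⟨hw, fun x hx => (hc x hx).symm⟩)
  have sp : Sep G (HE G Z) T := sep_HE nZ
  have f1 := full_HE cZ e1
  have f2 := full_HE' cZ' e2 dZ.symm nZ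
  obtain ⟨g, g1, g2, g3⟩ := hS hG sp f1 f2 (by omega) hu hu' n1
  obtain ⟨g', k1, k2, k3⟩ := hS hG sp.compl f2 (by rwa [compl_compl]) (by omega) hw hw' n2
  rw [compl_compl] at k1
  obtain ⟨a, b, c, hab, hac, hbc, rfl⟩ := Set.ncard_eq_three.mp t3
  obtain ⟨σ, hσ, s1, s2, s3⟩ := K.three _ _ _ _ _ _ (g2 a (by simp)) (g2 b (by simp))
    (g2 c (by simp)) (k2 a (by simp)) (k2 b (by simp)) (k2 c (by simp))
    (S4_sum g1 hab hac hbc g3) (S4_sum k1 hab hac hbc k3)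
  have e : (fun v => σ (g v)) = g' := funext fun v => by
    by_cases hv : v ∈ ({a, b, c} : Set V)
    · rcases hv with rfl | rfl | rfl
      exacts [s1, s2, s3]
    · rw [g3 v hv, k3 v hv]
      exact map_zero (AddMonoidHom.mk' σ hσ.1)
  exact hG.nc (bf_col k1 (e ▸ bf_aut g1 hσ))

end Pool.Agent.Lib.Tw5
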