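import Pool.Agent.Lib.Tw5.KitI

set_option linter.unusedSectionVars false
set_option linter.unusedVariables false

namespace Pool.Agent.Lib.Tw5

open Finset Pool.Agent.Lib.MP_aa6b05_co C

open scoped Classical

theorem st_S6 (h3 : St_S3) (h4 : St_S4) : St_S6 := by
  intro V E _ _ G hG H S C D Y a b hS fc fd hc h1 ha hb hY
  obtain ⟨e, he⟩ := card_eq_one.mp h1
  have he1 : e ∈ cutn G Y Hᶜ := by rw [he]; exact mem_singleton_self e
  obtain ⟨y, z, j, hy, hz⟩ := MG.exists_joins_of_mem_cut (mem_cutn.mp he1).1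
  have eH : e ∈ Hᶜ := (mem_cutn.mp he1).2
  have nyz : y ≠ z := fun h => hz (h ▸ hy)
  have aY : a ∈ Y := (hY a ha).mpr (Or.inl rfl)
  have bY : b ∈ Y := (hY b hb).mpr (Or.inr rfl)
  obtain ⟨Z, hZ⟩ : ∃ Z : Set V, ∀ v, v ∈ Z ↔ v ∈ Y ∧ v ∉ S ∧ Sat G H {v} :=
    ⟨{v | v ∈ Y ∧ v ∉ S ∧ Sat G H {v}}, fun _ => Iff.rfl⟩
  have K1 : ∀ u w f, u ∈ Y → f ∈ Hᶜ → G.Joins f u w → u ≠ w →
      w ∈ Z ∨ w = a ∨ w = b ∨ (f = e ∧ u = y ∧ w = z) := by
    intro u w f hu hf jf n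
    by_cases hw : w ∈ Y
    · by_cases hs : w ∈ S
      · rcases (hY w hs).mp hw with h | h
        exacts [Or.inr (Or.inl h), Or.inr (Or.inr (Or.inl h))]
      · exact Or.inl ((hZ w).mpr ⟨hw, hs, (hS w hs).resolve_left fun h =>
          h f (mem_cut1.mpr ⟨u, jf.symm, n.symm⟩) hf⟩)
    · have h5 : f ∈ cutn G Y Hᶜ := mem_cutn.mpr ⟨jf.mem_cut.mpr fun h => hw (h.mp hu), hf⟩
      rw [he, mem_singleton] at h5
      subst h5
      rcases joins_cases jf j with h | h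
      · exact Or.inr (Or.inr (Or.inr ⟨rfl, h⟩))
      · exact absurd (h.1 ▸ hu) hz
  have K2 : ∀ u ∈ Z, ∀ w, Ad G u w → w ∈ Z ∨ w = a ∨ w = b ∨ (u = y ∧ w = z) := by
    rintro u hu w ⟨n, f, jf⟩
    have := K1 u w f ((hZ u).mp hu).1 (((hZ u).mp hu).2.2 f (mem_cut1.mpr ⟨w, jf, n⟩)) jf n
    tauto
  obtain ⟨-, w0, hw0, aw0⟩ := fc.all a ha
  have Cz : ∀ v ∈ C, v ≠ z := fun v hv h =>
    fc.side v hv e (mem_cut1.mpr ⟨y, h ▸ j.symm, h ▸ nyz.symm⟩) eH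
  have w0Z : w0 ∉ Z := fun h => by
    obtain ⟨n, f, jf⟩ := aw0
    exact ((hZ w0).mp h).2.2 f (mem_cut1.mpr ⟨a, jf, n⟩) (fc.edge hw0 jf n)
  have one : ∀ x ∈ S, (∀ f ∈ cutn G {x} Hᶜ, ∀ g ∈ cutn G {x} Hᶜ, f = g) → hd G Hᶜ x = 1 :=
    fun x hx h => le_antisymm (card_le_one.mpr h) (fd.hd_pos hx)
  by_cases hab : a = b
  · subst hab
    have k : ∀ f ∈ cutn G {a} Hᶜ, f = e := by
      intro f hf
      obtain ⟨w, jf, n⟩ := mem_cut1.mp (mem_cutn.mp hf).1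
      rcases K1 a w f aY (mem_cutn.mp hf).2 jf n with h | h | h | h
      · refine absurd aw0.ni (h3 hG (Z := Z) (a := a) (b := z) (u := w) ?_ h
          ⟨a, n.symm, f, jf.symm⟩ w0Z aw0.1 (Cz w0 hw0))
        rintro v ⟨hv, u, hu, hA⟩
        have := K2 u hu v hA
        tauto
      · exact absurd h.symm n
      · exact absurd h.symm n
      · exact h.1
    have := one a ha fun f hf g hg => (k f hf).trans (k g hg).symm
    exact ⟨this, this, fun h => absurd rfl h⟩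
  obtain ⟨T, hT⟩ : ∃ T : Set V, T = {a, b, z} := ⟨_, rfl⟩
  have mT : ∀ v, v ∈ T ↔ v = a ∨ v = b ∨ v = z := fun v => by rw [hT]; rfl
  have cT : T.ncard ≤ 3 := by
    rw [hT]
    have := Set.ncard_insert_le a ({b, z} : Set V)
    have := Set.ncard_insert_le b ({z} : Set V)
    have := Set.ncard_singleton z
    omega
  have CT : ∀ v ∈ C, v ∉ T := fun v hv h => by
    rcases (mT v).mp h with h | h | h
    exacts [fc.out v hv (h ▸ ha), fc.out v hv (h ▸ hb), Cz v hv h]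
  have K3 : ∀ u ∈ Z, Ni G u → u = y ∧ G.d {u} = 3 ∧ Nb G {u} = T := by
    intro u hu hn
    obtain ⟨uY, uS, -⟩ := (hZ u).mp hu
    have uT : u ∉ T := fun h => by
      rcases (mT u).mp h with h | h | h
      exacts [uS (h ▸ ha), uS (h ▸ hb), hz (h ▸ uY)]
    have sZ : cmp G T u ⊆ Z := fun v hv => Cn.side hv (fun p q _ hq hA hp => by
      have := K2 p hp q hA
      have h' : ¬ (q = a ∨ q = b ∨ q = z) := fun h => hq ((mT q).mpr h)
      tauto) hu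
    rcases h4 hG cT (con_cmp T u) (con_cmp T w0) (fun v hv => nb_cmp uT hv)
      (fun v hv => nb_cmp (CT w0 hw0) hv)
      (Set.disjoint_left.mpr fun v h h' =>
        w0Z (sZ ((cmp_eq h) ▸ (cmp_eq h') ▸ self_cmp T w0)))
      (Set.disjoint_left.mpr fun v h => cmp_out uT h)
      (Set.disjoint_left.mpr fun v h => cmp_out (CT w0 hw0) h)
      (self_cmp T u) hn (self_cmp T w0) aw0.ni with h | h
    · have n1 : Nb G {u} ⊆ T := fun v hv => nb_cmp uT (h.1 ▸ hv)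
      have n2 : Nb G {u} = T := Set.eq_of_subset_of_ncard_le n1 (by
        rw [← d_eq_nb hG.par, h.2]
        exact cT)
      refine ⟨?_, h.2, n2⟩
      obtain ⟨-, x, rfl, hA⟩ : z ∈ Nb G {u} := n2 ▸ (mT z).mpr (Or.inr (Or.inr rfl))
      rcases K2 _ hu z hA with h | h | h | h
      exacts [absurd ((hZ z).mp h).1 hz, absurd (h ▸ aY) hz, absurd (h ▸ bY) hz, h.1]
    · exfalso
      obtain ⟨s, hs, sT⟩ : ∃ s ∈ S, s ∉ T := by
        by_contra hh
        push Not at hh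
        have := Set.ncard_le_ncard (show S ⊆ T from hh)
        omega
      obtain ⟨-, x, hx, hA⟩ := fc.all s hs
      have := mem_cmp_of_ad (CT w0 hw0) (sub_cmp fc.con CT hw0 hx) hA sT
      rw [h.1, Set.mem_singleton_iff] at this
      exact fc.out w0 hw0 (this ▸ hs)
  have K4 : ∀ x ∈ S, x ∈ Y → (∃ u ∈ Z, u ∈ D ∧ Ni G u) ∨ x = y := by
    intro x hx xY
    obtain ⟨-, u, hu, n, f, jf⟩ := fd.all x hx
    rcases K1 x u f xY (fd.edge hu jf n) jf.symm n.symm with h | h | h | h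
    · exact Or.inl ⟨u, h, hu, x, n, f, jf⟩
    · exact absurd (h ▸ ha) (fd.out u hu)
    · exact absurd (h ▸ hb) (fd.out u hu)
    · exact Or.inr h.2.1
  obtain ⟨u, uZ, uD, un⟩ : ∃ u ∈ Z, u ∈ D ∧ Ni G u := by
    rcases K4 a ha aY with h | h
    · exact h
    · exact (K4 b hb bY).resolve_right fun h' => hab (h.trans h'.symm)
  obtain ⟨rfl, d3, nT⟩ := K3 u uZ un
  have ad : ∀ x ∈ T, Ad G u x := fun x hx => by
    obtain ⟨-, x', rfl, hA⟩ : x ∈ Nb G {u} := nT ▸ hx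
    exact hA
  have ua := ad a ((mT a).mpr (Or.inl rfl))
  have ub := ad b ((mT b).mpr (Or.inr (Or.inl rfl)))
  have K5 : ∀ x ∈ S, x ∈ Y → hd G Hᶜ x = 1 := by
    intro x hx xY
    have ux : Ad G u x := by
      rcases (hY x hx).mp xY with h | h
      exacts [h ▸ ua, h ▸ ub]
    have k : ∀ f ∈ cutn G {x} Hᶜ, G.Joins f x u := by
      intro f hf
      obtain ⟨w, jf, n⟩ := mem_cut1.mp (mem_cutn.mp hf).1
      rcases K1 x w f xY (mem_cutn.mp hf).2 jf n with h | h | h | h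
      · exact (K3 w h ⟨x, n.symm, f, jf.symm⟩).1 ▸ jf
      · exact (hG.no3 ux ⟨n, f, jf⟩ (h ▸ ua.symm)).elim
      · exact (hG.no3 ux ⟨n, f, jf⟩ (h ▸ ub.symm)).elim
      · exact absurd h.2.1.symm ux.1
    exact one x hx fun f hf g hg => by_contra fun n =>
      hG.par f g x u n ux.1.symm (k f hf) (k g hg)
  refine ⟨K5 a ha aY, K5 b hb bY, fun _ => ⟨u, z, e, uD, hy, hz, he1, j, d3, fun x hx => ?_⟩⟩
  exact (mT x).mp (nT ▸ ⟨hx.1.symm, u, rfl, hx⟩)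

end Pool.Agent.Lib.Tw5
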