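import Pool.Agent.Lib.Tw5.Blue

set_option linter.unusedSectionVars false
set_option linter.unusedVariables false

/-! From a partition into pieces to the checked search. -/

namespace Pool.Agent.Lib.Tw5

open Finset Pool.Agent.Lib.MP_aa6b05_co C

open scoped Classical

namespace XSET

theorem mem_catL {u : ℕ} (l : List (List ℕ)) : ∀ {i j : ℕ}, i ≤ j → u ∈ nthL l j → u ∈ catL l i := by
  induction l with
  | nil => exact fun _ h => absurd h List.not_mem_nil
  | cons p l ih =>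
    intro i j hij h
    cases j with
    | zero =>
      obtain rfl : i = 0 := by omega
      exact List.mem_append_left (catL l 0) h
    | succ j =>
      cases i with
      | zero => exact List.mem_append_right p (ih (Nat.zero_le j) h)
      | succ i => exact ih (Nat.le_of_succ_le_succ hij) h

variable {V E : Type} [Fintype V] [Fintype E] {G : MG V E}

theorem cutn_empty (Y : Set V) : cutn G Y ∅ = ∅ := by
  ext e
  simp [mem_cutn]

theorem inv_init {md k : ℕ} {σ : ℕ → V} {C D : Set V} (hx : Cx G md k σ C D) :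
    Inv G k σ C D (init md) ∅ := by
  have k0 : ∀ a, ¬ tch [] a := fun a ⟨p, hp, _⟩ => absurd hp List.not_mem_nil
  refine ⟨σ, ⟨fun a b ha => absurd ha (k0 a), fun p hp => absurd hp List.not_mem_nil,
    fun e => ⟨fun h => h.elim, fun ⟨p, hp, _⟩ => absurd hp List.not_mem_nil⟩, List.Pairwise.nil,
    fun a ha => absurd ha (k0 a)⟩, fun _ _ => rfl, fun a ha => absurd ha (k0 a),
    Set.empty_subset _, fun t ht h => ?_, fun t _ h => absurd h (tb_zero t),
    fun t _ h => absurd h (tb_zero t), fun t _ h => absurd h (tb_zero t), fun c h => ?_⟩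
  · change tb (sel (Nat.beq md 0) 31 0) t = true at h
    rw [sel_beq] at h
    split_ifs at h with h0
    · obtain ⟨-, x, hx', n, e, j⟩ := (hx.mn h0).2.fd.all _ ⟨t, tb_31.mp h, rfl⟩
      exact hd_pos j.symm n.symm (Or.inr ((mem_HE j).mpr ⟨n, Or.inl hx'⟩))
    · exact absurd h (tb_zero t)
  · change tb (bit 0) c = true at h
    obtain rfl := tb_bit.mp h
    refine ⟨by positivity, fun _ => K.k1, fun _ => (by decide : K.k1 ≠ 0), fun v => ?_⟩
    rw [cutn_empty, sum_empty, vec]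
    refine (sum_eq_zero fun t _ => ?_).symm
    split_ifs
    · simp only [dec, Nat.zero_div, Nat.zero_mod]
      rfl
    · rfl

theorem slots {σ : ℕ → V} {S : Set V} (hi : ∀ a < 6, ∀ b < 6, σ a = σ b → a = b)
    (h : insert (σ 5) S = σ '' {t | t < 6}) (hv : σ 5 ∉ S) : σ '' {t | t < 5} = S := by
  ext x
  constructor
  · rintro ⟨t, ht, rfl⟩
    have ht' : t < 5 := ht
    have h1 : σ t ∈ insert (σ 5) S := h ▸ ⟨t, show t < 6 by omega, rfl⟩
    rcases h1 with h1 | h1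
    · have := hi t (by omega) 5 (by omega) h1
      omega
    · exact h1
  · intro hx
    obtain ⟨t, ht, rfl⟩ : x ∈ σ '' {t | t < 6} := h ▸ Or.inr hx
    have ht' : t < 6 := ht
    refine ⟨t, ?_, rfl⟩
    by_contra h5
    obtain rfl : t = 5 := by
      have : ¬ t < 5 := h5
      omega
    exact hv hx

end XSET

open XSET in
theorem st_SET (hD : St_DATA) (hN : St_NORM) (hL : St_LEAD) (hA : St_ADD) : St_SET := by
  intro V E _ _ G hG md Ω W C D P hm h6 h5 hr h0 hP hdj hcov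
  have hex : ∃ T, ∃ A ∈ P, PcT G Ω W T A ∧ (md = 2 → (tm T).1 ≤ 4) := by
    have he : ∃ e, e ∈ HE G C := by
      by_cases hz : md = 0
      · obtain ⟨v, S, hS, -, -, -, fc, -⟩ := h0 hz
        obtain ⟨s, hs⟩ : S.Nonempty := Set.nonempty_of_ncard_ne_zero (by omega)
        obtain ⟨-, x, hx, n, e, j⟩ := fc.all s hs
        exact ⟨e, (mem_HE j).mpr ⟨n, Or.inl hx⟩⟩
      · obtain ⟨e, he⟩ := hG.ex
        exact ⟨e, he, Or.inl ((hr hz).1 ▸ trivial)⟩
    obtain ⟨e, he⟩ := he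
    obtain ⟨A, hA, -⟩ := hcov e he
    obtain ⟨T, hT⟩ := (hP A hA).2
    exact ⟨T, A, hA, hT⟩
  obtain ⟨A0, hA0, p0, q0⟩ := Nat.find_spec hex
  have hk : md = 0 → Ω.ncard = 6 := fun hz => by
    obtain ⟨v, S, hS, -, rfl, hv, fc, -⟩ := h0 hz
    rw [Set.ncard_insert_of_notMem (fc.out v hv), hS]
  obtain ⟨a0, -, r0, l0⟩ := hD md hm _ p0.1 q0
  obtain ⟨σ, hi, hΩ, hW, r, hr0, hp⟩ := hL rfl h6
    (fun hz => ⟨hk hz, (h0 hz).imp fun v ⟨_, h⟩ => h.2.1⟩) a0 r0 p0
  have hx : Cx G md Ω.ncard σ C D := by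
    refine ⟨hG, hi, h6, h5, hr, fun hz => ⟨hk hz, ?_⟩⟩
    obtain ⟨v, S, hS, hv, hΩ', hc, fc, fd⟩ := h0 hz
    obtain rfl : v = σ 5 := Set.singleton_injective (hv.symm.trans (hW hz))
    rw [hk hz] at hi hΩ
    have e := slots hi (hΩ'.symm.trans hΩ) (fc.out _ hc)
    exact ⟨e.symm ▸ fc, e.symm ▸ fd, hc⟩
  have hI := (hA hx (inv_init hx) hp (hP A0 hA0).1 (Set.disjoint_empty _)).1
  refine l0 r hr0 G _ σ C D hx _ (P \ {A0}) hI ⟨fun A hA' => ?_, fun A hA' => (hP A hA'.1).1,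
    fun A hA' => ?_, fun A hA' B hB => hdj A hA'.1 B hB.1, fun e he => ?_⟩
  · obtain ⟨T, p1, q1⟩ := (hP A hA'.1).2
    obtain ⟨a1, n1, -, -⟩ := hD md hm T p1.1 q1
    obtain ⟨u, hu, hpu⟩ := hN hi h6 h5 (fun hz => ⟨hk hz, hW hz⟩) a1 n1 (hΩ ▸ p1)
    exact ⟨u, mem_catL _ (Nat.find_min' hex ⟨A, hA'.1, p1, q1⟩) hu, hpu⟩
  · rw [Set.empty_union]
    exact hdj A hA'.1 A0 hA0 hA'.2
  · obtain ⟨A, h1, h2⟩ := hcov e he
    by_cases h : A = A0
    · exact Or.inl (Or.inr (h ▸ h2))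
    · exact Or.inr ⟨A, ⟨h1, h⟩, h2⟩

end Pool.Agent.Lib.Tw5
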