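import Pool.Agent.Lib.Tw5.KitI

set_option linter.unusedSectionVars false
set_option linter.unusedVariables false

namespace Pool.Agent.Lib.Tw5

open Finset Pool.Agent.Lib.MP_aa6b05_co C

open scoped Classical

variable {V E : Type} [Fintype V] [Fintype E] {G : MG V E}

/-- the components below `v` are components of the elimination order -/
theorem SKEL_in {ρ : V → ℕ} (hρ : Function.Injective ρ) {v u : V}
    (hu : u ∈ cmp G {x | ρ v < ρ x} v) (n : u ≠ v) :
    ∃ w, ρ w < ρ v ∧ Ni G w ∧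
      cmp G {x | ρ w < ρ x} w = cmp G (insert v (Nb G (cmp G {x | ρ v < ρ x} v))) u := by
  set C := cmp G {x | ρ v < ρ x} v with hC
  have v0 : v ∉ {x | ρ v < ρ x} := lt_irrefl (ρ v)
  have u0 : u ∉ insert v (Nb G C) := fun h => h.elim n fun h => h.1 hu
  have sub : ∀ x ∈ cmp G (insert v (Nb G C)) u, x ∈ C := fun x hx =>
    Cn.side hx (fun a b _ hb h ha => by_contra fun hc => hb (Or.inr ⟨hc, a, ha, h⟩)) hu
  obtain ⟨w, hw, hmax⟩ := Set.exists_max_image (cmp G (insert v (Nb G C)) u) ρ (Set.toFinite _)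
    ⟨u, self_cmp _ _⟩
  have wv : w ≠ v := fun e => cmp_out u0 hw (Or.inl e)
  have lt : ρ w < ρ v :=
    lt_of_le_of_ne (not_lt.mp (cmp_out (X := {x | ρ v < ρ x}) v0 (sub w hw))) fun e => wv (hρ e)
  refine ⟨w, lt, (con_cmp _ v).ni (sub w hw) (self_cmp _ _) wv,
    eq_cmp (con_cmp _ _) (fun x hx => not_lt.mpr (hmax x hx)) (fun y hy => ?_) hw⟩
  rcases nb_cmp u0 hy with rfl | h
  · exact lt
  · exact lt.trans (nb_cmp (X := {x | ρ v < ρ x}) v0 h)

theorem SKEL_step (hR : St_ROOT) (hM : St_MAIN) (hS : St_SM) (hSm : St_SMALL) (hG : Crit G)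
    {C : Set V} {v : V} (hc : Con G C) (hv : v ∈ C) (nv : Ni G v) (h5 : (Nb G C).ncard ≤ 5)
    (ih : ∀ u ∈ C, u ≠ v → Std G (cmp G (insert v (Nb G C)) u)) : Std G C := by
  by_contra hn
  refine hR hG (Ω := insert v (Nb G C)) ?_ fun u hu nu => ?_
  · have := Set.ncard_insert_le v (Nb G C)
    omega
  by_cases uc : u ∈ C
  · exact ih u uc fun e => hu (Or.inl e)
  have us : u ∉ Nb G C := fun h => hu (Or.inr h)
  have dj : Disjoint (cmp G (Nb G C) u) C := Set.disjoint_left.mpr fun x hx xc => uc (by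
    rw [← eq_cmp hc (fun y hy h => h.1 hy) (fun _ h => h) xc, cmp_eq hx]
    exact self_cmp _ _)
  have nb : Nb G (cmp G (Nb G C) u) ⊆ Nb G C := fun _ h => nb_cmp us h
  rw [eq_cmp (X := insert v (Nb G C)) (con_cmp (Nb G C) u) (fun x hx h => h.elim
    (fun e => Set.disjoint_left.mp dj hx (e ▸ hv)) (cmp_out us hx)) (fun _ h => Or.inr (nb h))
    (self_cmp _ _)]
  by_cases h4 : (Nb G (cmp G (Nb G C) u)).ncard ≤ 4
  · rcases hS hG (con_cmp _ _) h4 (self_cmp _ _) nu hc hv nv dj.symm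
      (Set.disjoint_left.mpr fun x hx h => (nb h).1 hx) with h | h
    · exact (hSm hG h).imp fun _ h => h.1
    · exact absurd ((hSm hG h).imp fun _ h => h.1) hn
  · have le := Set.ncard_le_ncard nb (Set.toFinite _)
    have e : Nb G (cmp G (Nb G C) u) = Nb G C :=
      Set.eq_of_subset_of_ncard_le nb (by omega) (Set.toFinite _)
    exact absurd (hM hG (by omega) (full_HE hc rfl) (full_HE' (con_cmp _ _) e dj subset_rfl) hv ih)
      hn

theorem st_SKEL (hR : St_ROOT) (hM : St_MAIN) (hS : St_SM) (hSm : St_SMALL) (hN : St_NB) :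
    St_SKEL := by
  intro V E _ _ G hG
  obtain ⟨ρ, hρ, h5⟩ := hG.eo
  have key : ∀ n v, ρ v = n → Ni G v → Std G (cmp G {x | ρ v < ρ x} v) := by
    intro n
    induction n using Nat.strong_induction_on with
    | _ n ih =>
      intro v hv nv
      refine SKEL_step hR hM hS hSm hG (con_cmp _ _) (self_cmp _ _) nv (h5 v) fun u hu ne => ?_
      obtain ⟨w, h1, h2, h3⟩ := SKEL_in hρ hu ne
      rw [← h3]
      exact ih _ (hv ▸ h1) w rfl h2
  obtain ⟨e, he⟩ := hG.ex
  obtain ⟨v, hv, hmax⟩ := Set.exists_max_image {v | Ni G v} ρ (Set.toFinite _)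
    ⟨G.s e, G.t e, he, e, MG.joins_self e⟩
  obtain ⟨T, hT⟩ := key _ v rfl hv
  have h0 : Nb G (cmp G {x | ρ v < ρ x} v) = ∅ := Set.eq_empty_of_forall_notMem fun y hy => by
    have h1 : y ∈ {x | ρ v < ρ x} := nb_cmp (X := {x | ρ v < ρ x}) (lt_irrefl (ρ v)) hy
    obtain ⟨-, x, -, h⟩ := hy
    exact absurd h1 (not_lt.mpr (hmax y h.ni'))
  have h1 := hN hT
  have h2 := (tok hT.1).k2
  rw [h0, Set.ncard_empty] at h1
  omega

end Pool.Agent.Lib.Tw5
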