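import Pool.Agent.Lib.Tw5.KitI

set_option linter.unusedSectionVars false
set_option linter.unusedVariables false

namespace Pool.Agent.Lib.Tw5

open Finset Pool.Agent.Lib.MP_aa6b05_co C

open scoped Classical

theorem sm_sub {V E : Type} [Fintype V] [Fintype E] {G : MG V E} {C D : Set V} {w : V}
    (h : Small G D) (hC : C ⊆ D) (hw : w ∈ C) : Small G C := by
  have k : ∀ y, (∀ x ∈ C, x = y) → C = {y} := fun y hy =>
    Set.eq_singleton_iff_unique_mem.2 ⟨hy w hw ▸ hw, hy⟩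
  rcases h with ⟨y, rfl, h⟩ | ⟨y, z, rfl, h1, h2, h3⟩
  · exact Or.inl ⟨y, k y fun x hx => hC hx, h⟩
  · by_cases hy : y ∈ C
    · by_cases hz : z ∈ C
      · refine Or.inr ⟨y, z, Set.Subset.antisymm hC ?_, h1, h2, h3⟩
        rintro x (rfl | rfl)
        exacts [hy, hz]
      · exact Or.inl ⟨y, k y fun x hx => (hC hx).resolve_right fun e => hz (e ▸ hx), Or.inl h2⟩
    · exact Or.inl ⟨z, k z fun x hx => (hC hx).resolve_left fun e => hy (e ▸ hx), Or.inl h3⟩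

theorem st_SM (hS4 : St_S4) (hL4 : St_L4) : St_SM := by
  intro V E _ _ G hG Z C u w hZ h4 hu hnu hC hw hnw hCZ hCN
  have hwT : w ∉ Nb G Z := Set.disjoint_left.1 hCN hw
  have hZT : ∀ v ∈ Z, v ∉ Nb G Z := fun v hv h => h.1 hv
  have hCE : C ⊆ cmp G (Nb G Z) w := sub_cmp hC (fun v hv => Set.disjoint_left.1 hCN hv) hw
  have hNE : Nb G (cmp G (Nb G Z) w) ⊆ Nb G Z := fun v hv => nb_cmp hwT hv
  have hZE : Disjoint Z (cmp G (Nb G Z) w) := Set.disjoint_left.2 fun x hx hx' => by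
    have h1 := eq_cmp hZ hZT (fun v hv => hv) hx
    rw [cmp_eq hx'] at h1
    exact Set.disjoint_left.1 hCZ hw (h1 ▸ self_cmp _ w)
  have hs : cmp G (Nb G Z) w = {w} ∧ G.d {w} = 3 → Small G C := fun h =>
    sm_sub (Or.inl ⟨w, h.1, Or.inl h.2⟩) hCE hw
  by_cases h3 : (Nb G Z).ncard ≤ 3
  · exact (hS4 hG h3 hZ (con_cmp _ w) le_rfl hNE hZE (Set.disjoint_left.2 hZT)
      (Set.disjoint_left.2 fun x hx => cmp_out hwT hx) hu hnu (self_cmp _ w) hnw).imp
      (fun h => Or.inl ⟨u, h.1, Or.inl h.2⟩) hs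
  by_cases he : Nb G (cmp G (Nb G Z) w) = Nb G Z
  · exact (hL4 hG (sep_HE fun v hv => hv) (full_HE hZ rfl)
      (full_HE' (con_cmp _ w) he hZE.symm le_rfl) (by omega)).imp id fun h => sm_sub h hCE hw
  have hlt := Set.ncard_lt_ncard (Set.ssubset_iff_subset_ne.2 ⟨hNE, he⟩) (Set.toFinite _)
  obtain ⟨t, ht, ht'⟩ := Set.exists_of_ssubset (Set.ssubset_iff_subset_ne.2 ⟨hNE, he⟩)
  generalize hD : cmp G (Nb G Z) w = D at *
  have hcD : Con G D := hD ▸ con_cmp _ w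
  have hwD : w ∈ D := hCE hw
  have huT : u ∉ Nb G D := fun h => hZT u hu (hNE h)
  have hZ' : Z ⊆ cmp G (Nb G D) u := sub_cmp hZ (fun v hv h => hZT v hv (hNE h)) hu
  have hdj : Disjoint (cmp G (Nb G D) u) D := Set.disjoint_left.2 fun x hx hx' => by
    have h1 := eq_cmp hcD (fun v hv h => h.1 hv) (fun v hv => hv) hx'
    rw [cmp_eq hx] at h1
    exact Set.disjoint_left.1 hZE hu (h1 ▸ self_cmp _ u)
  refine Or.inr (hs ((hS4 hG (T := Nb G D) (by omega) (con_cmp _ u) hcD (fun v hv => nb_cmp huT hv)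
    le_rfl hdj (Set.disjoint_left.2 fun x hx => cmp_out huT hx)
    (Set.disjoint_left.2 fun v hv h => h.1 hv) (self_cmp _ u) hnu hwD hnw).resolve_left fun h => ?_))
  obtain ⟨h1, x, hx, h2⟩ := ht
  have h5 := mem_cmp_of_ad huT (hZ' hx) h2 ht'
  rw [h.1] at h5
  exact h1 (h5 ▸ hu)

end Pool.Agent.Lib.Tw5
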