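import Pool.Agent.Lib.Tw5.Blue

set_option linter.unusedSectionVars false
set_option linter.unusedVariables false

namespace Pool.Agent.Lib.Tw5

open Finset Pool.Agent.Lib.MP_aa6b05_co C

open scoped Classical

variable {V E : Type} [Fintype V] [Fintype E] {G : MG V E}

theorem SMALL_std {T : ℕ} (hT : T < 15) (h4 : (tm T).4 = 0) (τ : ℕ → V) {Z : Set V}
    (inj : ∀ a b, tch (tm T).3 a → tch (tm T).3 b → τ a = τ b → a = b)
    (adj : ∀ p ∈ (tm T).3, Ad G (τ p.1) (τ p.2) ∧ τ p.2 ∈ Z) (out : ∀ j < (tm T).1, τ j ∉ Z)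
    (inn : ∀ a, tch (tm T).3 a → 6 ≤ a → τ a ∈ Z)
    (cov : ∀ a ∈ Z, ∀ b, Ad G a b →
      ∃ p ∈ (tm T).3, (τ p.1 = a ∧ τ p.2 = b) ∨ (τ p.1 = b ∧ τ p.2 = a)) : StdT G T Z := by
  refine ⟨hT, τ, ⟨⟨inj, fun p hp => (adj p hp).1, fun e => ⟨fun he => ?_, ?_⟩, (tok hT).pw,
    fun a ha h6 => sat_in (inn a ha h6)⟩, fun j _ h => ?_⟩, out, inn⟩
  · obtain ⟨a, b, j, n, ha⟩ := exists_of_HE he
    obtain ⟨p, hp, ⟨h1, h2⟩ | ⟨h1, h2⟩⟩ := cov a ha b ⟨n, e, j⟩
    · exact ⟨p, hp, h1 ▸ h2 ▸ j⟩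
    · exact ⟨p, hp, h1 ▸ h2 ▸ j.symm⟩
  · rintro ⟨p, hp, j⟩
    exact (mem_HE j).mpr ⟨(adj p hp).1.1, Or.inr (adj p hp).2⟩
  · rw [h4] at h
    exact absurd h (tb_zero j)

theorem SMALL_nb {y w : V} : w ∈ Nb G {y} ↔ Ad G y w :=
  ⟨fun ⟨_, u, hu, h⟩ => (show u = y from hu) ▸ h, fun h => ⟨h.1.symm, y, rfl, h⟩⟩

theorem SMALL_two (hG : Crit G) {y z : V} (h : Ad G y z) (h3 : G.d {y} = 3) :
    ∃ a b, a ≠ b ∧ a ≠ z ∧ b ≠ z ∧ ∀ w, Ad G y w ↔ w = z ∨ w = a ∨ w = b := by
  rw [d_eq_nb hG.par] at h3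
  have h2 : (Nb G {y} \ {z}).ncard = 2 := by
    have := Set.ncard_sdiff_singleton_add_one (SMALL_nb.mpr h)
    omega
  obtain ⟨a, b, n, e⟩ := Set.ncard_eq_two.mp h2
  have k : ∀ w, (Ad G y w ∧ w ≠ z) ↔ w = a ∨ w = b := fun w => by
    rw [← SMALL_nb]
    exact Set.ext_iff.mp e w
  refine ⟨a, b, n, ((k a).mpr (Or.inl rfl)).2, ((k b).mpr (Or.inr rfl)).2, fun w => ?_⟩
  rw [← k]
  by_cases hw : w = z
  · simp [hw, h]
  · simp [hw]

theorem SMALL_tch {es : Es} {a : ℕ} (h : tch es a) : a ∈ es.map Prod.fst ++ es.map Prod.snd := by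
  obtain ⟨p, hp, rfl | rfl⟩ := h
  · exact List.mem_append_left _ (List.mem_map_of_mem hp)
  · exact List.mem_append_right _ (List.mem_map_of_mem hp)

theorem st_SMALL : St_SMALL := by
  intro V E _ _ G hG Z hZ
  rcases hZ with ⟨y, rfl, h | h⟩ | ⟨y, z, rfl, hyz, hy, hz⟩
  · rw [d_eq_nb hG.par] at h
    obtain ⟨a, b, c, n1, n2, n3, e⟩ := Set.ncard_eq_three.mp h
    have k : ∀ w, Ad G y w ↔ w = a ∨ w = b ∨ w = c := fun w => by
      rw [← SMALL_nb]
      exact Set.ext_iff.mp e w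
    have ha := (k a).mpr (by simp)
    have hb := (k b).mpr (by simp)
    have hc := (k c).mpr (by simp)
    have e3 : (tm 13).3 = [(0, 6), (1, 6), (2, 6)] := rfl
    have e1 : (tm 13).1 = 3 := rfl
    have tc : ∀ i, tch (tm 13).3 i → i = 0 ∨ i = 1 ∨ i = 2 ∨ i = 6 := fun i hi => by
      have := SMALL_tch hi
      simpa [e3] using this
    refine ⟨13, SMALL_std (by decide) rfl (fun i => [a, b, c].getD i y) ?_ ?_ ?_ ?_ ?_,
      by rw [e1]; decide⟩
    · intro i j hi hj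
      have := ha.1
      have := hb.1
      have := hc.1
      rcases tc i hi with rfl | rfl | rfl | rfl <;> rcases tc j hj with rfl | rfl | rfl | rfl <;>
        simp <;> grind
    · simp [e3, ha.symm, hb.symm, hc.symm]
    · intro j hj
      rw [e1] at hj
      interval_cases j <;> simp [ha.1.symm, hb.1.symm, hc.1.symm]
    · intro i hi h6
      rcases tc i hi with rfl | rfl | rfl | rfl <;> simp at h6 ⊢
    · rintro u rfl w hw
      rcases (k w).mp hw with rfl | rfl | rfl <;> simp [e3]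
  · rw [d_eq_nb hG.par] at h
    obtain ⟨a, b, c, d, n1, n2, n3, n4, n5, n6, e⟩ := Set.ncard_eq_four.mp h
    have k : ∀ w, Ad G y w ↔ w = a ∨ w = b ∨ w = c ∨ w = d := fun w => by
      rw [← SMALL_nb]
      exact Set.ext_iff.mp e w
    have ha := (k a).mpr (by simp)
    have hb := (k b).mpr (by simp)
    have hc := (k c).mpr (by simp)
    have hd := (k d).mpr (by simp)
    have e3 : (tm 12).3 = [(0, 6), (1, 6), (2, 6), (3, 6)] := rfl
    have e1 : (tm 12).1 = 4 := rfl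
    have tc : ∀ i, tch (tm 12).3 i → i = 0 ∨ i = 1 ∨ i = 2 ∨ i = 3 ∨ i = 6 := fun i hi => by
      have := SMALL_tch hi
      simpa [e3] using this
    refine ⟨12, SMALL_std (by decide) rfl (fun i => [a, b, c, d].getD i y) ?_ ?_ ?_ ?_ ?_,
      by rw [e1]⟩
    · intro i j hi hj
      have := ha.1
      have := hb.1
      have := hc.1
      have := hd.1
      rcases tc i hi with rfl | rfl | rfl | rfl | rfl <;>
        rcases tc j hj with rfl | rfl | rfl | rfl | rfl <;> simp <;> grind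
    · simp [e3, ha.symm, hb.symm, hc.symm, hd.symm]
    · intro j hj
      rw [e1] at hj
      interval_cases j <;> simp [ha.1.symm, hb.1.symm, hc.1.symm, hd.1.symm]
    · intro i hi h6
      rcases tc i hi with rfl | rfl | rfl | rfl | rfl <;> simp at h6 ⊢
    · rintro u rfl w hw
      rcases (k w).mp hw with rfl | rfl | rfl | rfl <;> simp [e3]
  · obtain ⟨a, b, n1, n2, n3, k⟩ := SMALL_two hG hyz hy
    obtain ⟨c, d, m1, m2, m3, k'⟩ := SMALL_two hG hyz.symm hz
    have ha := (k a).mpr (by simp)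
    have hb := (k b).mpr (by simp)
    have hc := (k' c).mpr (by simp)
    have hd := (k' d).mpr (by simp)
    have t : ∀ u w, Ad G y u → Ad G z w → u ≠ w := fun u w h1 h2 h =>
      hG.no3 hyz h2 (h ▸ h1.symm)
    have e3 : (tm 11).3 = [(0, 6), (1, 6), (2, 7), (3, 7), (6, 7)] := rfl
    have e1 : (tm 11).1 = 4 := rfl
    have tc : ∀ i, tch (tm 11).3 i → i = 0 ∨ i = 1 ∨ i = 2 ∨ i = 3 ∨ i = 6 ∨ i = 7 :=
      fun i hi => by
        have := SMALL_tch hi
        simpa [e3] using this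
    refine ⟨11, SMALL_std (by decide) rfl (fun i => [a, b, c, d, y, y, y].getD i z) ?_ ?_ ?_ ?_ ?_,
      by rw [e1]⟩
    · intro i j hi hj
      have := ha.1
      have := hb.1
      have := hc.1
      have := hd.1
      have := hyz.1
      have := t a c ha hc
      have := t a d ha hd
      have := t b c hb hc
      have := t b d hb hd
      rcases tc i hi with rfl | rfl | rfl | rfl | rfl | rfl <;>
        rcases tc j hj with rfl | rfl | rfl | rfl | rfl | rfl <;> simp <;> grind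
    · simp [e3, ha.symm, hb.symm, hc.symm, hd.symm, hyz]
    · intro j hj
      rw [e1] at hj
      interval_cases j <;> simp [ha.1.symm, hb.1.symm, hc.1.symm, hd.1.symm, n2, n3, m2, m3]
    · intro i hi h6
      rcases tc i hi with rfl | rfl | rfl | rfl | rfl | rfl <;> simp at h6 ⊢
    · rintro u (rfl | rfl) w hw
      · rcases (k w).mp hw with rfl | rfl | rfl <;> simp [e3]
      · rcases (k' w).mp hw with rfl | rfl | rfl <;> simp [e3]

end Pool.Agent.Lib.Tw5
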