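import Pool.Agent.Lib.Tw5.KitI

set_option linter.unusedVariables false

/-! The sum set. -/

namespace Pool.Agent.Lib.Tw5

open Finset Pool.Agent.Lib.MP_aa6b05_co C

open scoped Classical

theorem SS_lo {c a j i : ℕ} (hi : i < j) : dec (c + a * 4 ^ j) i = dec c i := by
  obtain ⟨e, rfl⟩ := Nat.exists_eq_add_of_lt hi
  unfold dec
  rw [show a * 4 ^ (i + e + 1) = 4 ^ i * (4 * (a * 4 ^ e)) by ring,
    Nat.add_mul_div_left _ _ (by positivity), Nat.add_mul_mod_self_left]

theorem SS_top {c a j : ℕ} (hc : c < 4 ^ j) (ha : a < 4) : dec (c + a * 4 ^ j) j = kof a := by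
  unfold dec
  rw [Nat.add_mul_div_right _ _ (by positivity), Nat.div_eq_of_lt hc, zero_add,
    Nat.mod_eq_of_lt ha]

theorem SS_two : ∀ x y z : K, x + z = x + y + (z + y) := by decide

theorem SS_main (hB : St_BIT) (pl n : ℕ) : ∀ S B y, (∀ j < n, dg pl j < 6) → (n = 0 → B < 2) →
    tb (ss pl n S B) y = true → ∃ c z, c < 4 ^ n ∧ tb B c = true ∧ tb S z = true ∧
      ∀ t, dec y t = dec z t + ∑ j ∈ range n, if dg pl j = t then dec c j else 0 := by
  induction n with
  | zero =>
    intro S B y _ h2 h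
    rw [show ss pl 0 S B = sel (Nat.beq B 0) 0 S from rfl, sel_beq] at h
    split_ifs at h with h0
    · exact absurd h (tb_zero _)
    · obtain rfl : B = 1 := by have := h2 rfl; omega
      exact ⟨0, y, by simp, by decide, h, fun t => by simp⟩
  | succ j ih =>
    intro S B y h1 _ h
    have key : ∀ a < 4, ∀ S', (∀ z, tb S' z = true → tb S (z ^^^ a * 4 ^ dg pl j) = true) →
        tb (ss pl j S' (fld B (a * 4 ^ j) (2 ^ 4 ^ j))) y = true →
        ∃ c z, c < 4 ^ (j + 1) ∧ tb B c = true ∧ tb S z = true ∧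
          ∀ t, dec y t = dec z t + ∑ i ∈ range (j + 1), if dg pl i = t then dec c i else 0 := by
      intro a ha S' hS h'
      obtain ⟨c, z, hc, e1, e2, e3⟩ := ih S' _ y (fun i hi => h1 i (by omega))
        (fun h0 => by subst h0; exact Nat.mod_lt _ (by decide)) h'
      refine ⟨c + a * 4 ^ j, _, ?_, ?_, hS z e2, fun t => ?_⟩
      · have : a * 4 ^ j ≤ 3 * 4 ^ j := Nat.mul_le_mul_right _ (by omega)
        rw [pow_succ]; omega
      · rw [tb_eq, fld_eq, Nat.testBit_mod_two_pow, Bool.and_eq_true, Nat.testBit_div_two_pow] at e1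
        rw [tb_eq]; exact e1.2
      · have e4 : (∑ i ∈ range j, if dg pl i = t then dec (c + a * 4 ^ j) i else 0) =
            ∑ i ∈ range j, if dg pl i = t then dec c i else 0 :=
          sum_congr rfl fun i hi => by rw [SS_lo (mem_range.1 hi)]
        rw [e3 t, sum_range_succ, SS_top hc ha, dec_xor, dec_single ha, e4]
        exact SS_two _ _ _
    have e : ss pl (j + 1) S B = frz B fun B => frc S fun S => frc (bit (Nat.mul 2 j)) fun w =>
      frc (bit w) fun m => frc (Nat.mul 2 (dg pl j)) fun t =>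
        Nat.lor (Nat.lor (ss pl j S (Nat.mod B m)) (ss pl j (fl1 S t) (fld B w m)))
          (Nat.lor (ss pl j (fl1 S (Nat.succ t)) (fld B (Nat.mul 2 w) m))
            (ss pl j (fl2 S t) (fld B (Nat.mul 3 w) m))) := rfl
    have ew : bit (Nat.mul 2 j) = 4 ^ j := by
      rw [bit_eq, Nat.mul_eq, pow_mul]; rfl
    have hd := h1 j (by omega)
    have f : ∀ d, 1 ≤ d → d ≤ 3 → ∀ z, tb (fd d S (dg pl j)) z = true →
        tb S (z ^^^ d * 4 ^ dg pl j) = true := fun d d1 d3 z hz =>
      ((hB.2.1 d S _ z d1 d3 hd).1 hz).2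
    simp only [fd, frc_eq] at f
    rw [e, frz_eq] at h
    split_ifs at h with h0
    · exact absurd h (tb_zero _)
    simp only [frc_eq, ew] at h
    simp only [tb_lor, bit_eq] at h
    rcases h with (h | h) | h | h
    · exact key 0 (by decide) S (fun z hz => by simpa using hz)
        (by rw [fld_eq, zero_mul, pow_zero, Nat.div_one]; exact h)
    · exact key 1 (by decide) _ (f 1 le_rfl (by decide)) (by rw [one_mul]; exact h)
    · exact key 2 (by decide) _ (f 2 (by decide) (by decide)) h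
    · exact key 3 (by decide) _ (f 3 (by decide) le_rfl) h

theorem st_SS (hB : St_BIT) : St_SS := fun pl n S B y h1 h2 h => by
  obtain ⟨c, z, -, h⟩ := SS_main hB pl n S B y h1 (fun h0 => by omega) h
  exact ⟨c, z, h⟩

end Pool.Agent.Lib.Tw5
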