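import Pool.Agent.Lib.Tw5.KitI

set_option linter.unusedSectionVars false
set_option linter.unusedVariables false

namespace Pool.Agent.Lib.Tw5

open Finset Pool.Agent.Lib.MP_aa6b05_co C

open scoped Classical

theorem st_STAR : St_STAR := by
  intro V E _ _ G hG H S Z Z' u w hs hZ hZ' h2 hu hw huw
  have ex : ∀ v, v ∈ S → ∃ e x, x ∈ Z ∧ x ≠ v ∧ G.Joins e x v := fun v hv => by
    obtain ⟨-, x, hx, n, e, j⟩ := hZ.all v hv
    exact ⟨e, x, hx, n, j⟩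
  choose ε x hx hn hj using ex
  set P : Set E := {e | ∃ v, ∃ hv : v ∈ S, e = ε v hv} with hP
  set A : Set E := {e | G.s e ∈ Z ∧ G.t e ∈ Z} with hA
  have hPH : P ⊆ H := by
    rintro _ ⟨v, hv, rfl⟩
    exact hZ.edge (hx v hv) (hj v hv) (hn v hv)
  have hD : (H \ P)ᶜ = Hᶜ ∪ P := by
    ext e
    simp only [Set.mem_compl_iff, Set.mem_sdiff, Set.mem_union]
    tauto
  have hdj : Disjoint Hᶜ P := Set.disjoint_left.2 fun e h1 h3 => h1 (hPH h3)
  have mA : ∀ {e a b}, G.Joins e a b → (e ∈ A ↔ a ∈ Z ∧ b ∈ Z) := by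
    rintro e a b (⟨rfl, rfl⟩ | ⟨rfl, rfl⟩)
    exacts [Iff.rfl, and_comm]
  have mP : ∀ Y : Set V, (∀ z ∈ Z, z ∉ Y) → ∀ e,
      e ∈ cutn G Y P ↔ ∃ v, ∃ hv : v ∈ S, v ∈ Y ∧ e = ε v hv := fun Y hY e => by
    rw [mem_cutn]
    constructor
    · rintro ⟨h1, v, hv, rfl⟩
      refine ⟨v, hv, by_contra fun h => ?_, rfl⟩
      exact (hj v hv).mem_cut.mp h1 (iff_of_false (hY _ (hx v hv)) h)
    · rintro ⟨v, hv, h1, rfl⟩
      exact ⟨(hj v hv).mem_cut.mpr fun h => hY _ (hx v hv) (h.2 h1), v, hv, rfl⟩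
  have key : ∀ Y : Set V, (∀ z ∈ Z, z ∉ Y) → (cutn G Y (H \ P)ᶜ).card ≠ 1 := fun Y hY => by
    rw [hD, card_cutn_union Y hdj]
    by_cases h0 : ∀ v ∈ S, v ∉ Y
    · have : cutn G Y P = ∅ := eq_empty_of_forall_notMem fun e he => by
        obtain ⟨v, hv, h1, -⟩ := (mP Y hY e).mp he
        exact h0 v hv h1
      rw [this, card_empty, add_zero]
      exact hG.no_br hs h0
    push Not at h0
    obtain ⟨a, ha, haY⟩ := h0
    have h1 : ε a ha ∈ cutn G Y P := (mP Y hY _).mpr ⟨a, ha, haY, rfl⟩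
    obtain ⟨b, hb, hba⟩ := Set.exists_ne_of_one_lt_ncard h2 a
    by_cases hbY : b ∈ Y
    · have h3 : 1 < (cutn G Y P).card := by
        refine one_lt_card.mpr ⟨_, h1, _, (mP Y hY _).mpr ⟨b, hb, hbY, rfl⟩, fun h => ?_⟩
        rcases joins_cases (hj a ha) (h ▸ hj b hb) with k | k
        · exact hba k.2.symm
        · exact hZ.out _ (hx a ha) (k.1 ▸ hb)
      omega
    · have h3 := hZ'.cross ha hb haY hbY
      have h4 := card_pos.mpr ⟨_, h1⟩
      omega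
  obtain ⟨φ, h1, h3⟩ := hG.red A (H \ P) (by
      obtain ⟨a, b, ha, hb, ⟨n, e, j⟩, -⟩ := (hZ.con u hu w hw).cross (Y := {u}) rfl huw.symm
      exact ⟨e, j.ne n, Or.inl ((mA j).mpr ⟨ha, hb⟩)⟩) (fun Y hY => by
      have k : ∀ a ∈ Z, ∀ b ∈ Z, a ∈ Y → b ∈ Y := fun a ha b hb =>
        (hZ.con a ha b hb).side fun p q hp hq ⟨_, e, j⟩ => (hY.iff j ((mA j).mpr ⟨hp, hq⟩)).1
      by_cases h : u ∈ Y
      · rw [← cutn_compl]
        exact key _ fun z hz hc => hc (k u hu z hz h)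
      · exact key _ fun z hz hc => h (k z hz u hu hc))
  have h4 : ∀ v, v ∉ Z → ∑ e ∈ cutn G {v} Hᶜ, φ e + ∑ e ∈ cutn G {v} P, φ e = 0 := fun v hv => by
    rw [← sum_cutn_union φ _ hdj, ← hD]
    refine h3 _ fun e he hc => ?_
    obtain ⟨y, j, -⟩ := mem_cut1.mp he
    exact hv ((mA j).mp hc).1
  have h5 : ∀ v, v ∉ Z → ∀ z ∈ Z, z ∉ ({v} : Set V) := fun v hv z hz hc => hv (hc ▸ hz)
  refine ⟨_, ⟨φ, h1, fun v => rfl⟩, fun v hv h0 => ?_, fun v hv => ?_⟩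
  · have hz : v ∉ Z := fun h => hZ.out v h hv
    have h6 : cutn G {v} P = {ε v hv} := by
      ext e
      rw [mP _ (h5 v hz), mem_singleton]
      exact ⟨fun ⟨_, _, a, b⟩ => by cases a; exact b, fun h => ⟨v, hv, rfl, h⟩⟩
    have := h4 v hz
    rw [h6, sum_singleton, h0, zero_add] at this
    exact h1 _ this
  · by_cases hz : v ∈ Z
    · rw [(hZ.side v hz).cutn_eq, sum_empty]
    · have h6 : cutn G {v} P = ∅ := eq_empty_of_forall_notMem fun e he => by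
        obtain ⟨y, hy, a, -⟩ := (mP _ (h5 v hz) e).mp he
        cases a
        exact hv hy
      have := h4 v hz
      rwa [h6, sum_empty, add_zero] at this

end Pool.Agent.Lib.Tw5
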