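import Pool.Agent.Lib.Tw5.KitI

namespace Pool.Agent.Lib.Tw5

open Finset Pool.Agent.Lib.MP_aa6b05_co C

open scoped Classical

theorem TF_one {V : Type} (τ : ℕ → V) (v : V) (x : K) {a N : ℕ} (h : a < N) :
    (∑ j ∈ range N, if τ j = v then (if a = j then x else 0) else 0) =
      if τ a = v then x else 0 := by
  rw [sum_eq_single_of_mem a (mem_range.mpr h) fun b _ hb => by simp [hb.symm], if_pos rfl]

theorem TF_sum {V : Type} (τ : ℕ → V) (v : V) (ψ : ℕ × ℕ → K) {N : ℕ} (l : Es)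
    (hl : ∀ p ∈ l, p.1 < N ∧ p.2 < N) :
    (l.map fun p => if ¬ (τ p.1 = v ↔ τ p.2 = v) then ψ p else 0).sum =
      ∑ j ∈ range N, if τ j = v then bdl id l ψ j else 0 := by
  induction l with
  | nil => simp [bdl]
  | cons a l ih =>
    have e : (if ¬ (τ a.1 = v ↔ τ a.2 = v) then ψ a else 0) =
        (if τ a.1 = v then ψ a else 0) + if τ a.2 = v then ψ a else 0 := by
      by_cases h1 : τ a.1 = v <;> by_cases h2 : τ a.2 = v <;> simp [h1, h2, K.add_self]
    rw [List.map_cons, List.sum_cons, ih fun p hp => hl p (List.mem_cons_of_mem _ hp), e,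
      ← TF_one τ v _ (hl a List.mem_cons_self).1, ← TF_one τ v _ (hl a List.mem_cons_self).2,
      ← sum_add_distrib, ← sum_add_distrib]
    refine sum_congr rfl fun j _ => ?_
    split_ifs with h <;> simp [bdl, *]

theorem st_TF (hE : St_EN) (hF : St_FCHK) : St_TF := by
  intro V E _ _ G hG τ T c H hT h hc
  have ok := tok hT
  rw [← Nat.eq_of_beq_eq_true (hF T hT)] at hc
  obtain ⟨ψ, h1, h2, h3⟩ := hE.2 _ 0 c h.nodup hc
  simp only [dec_zero, zero_add] at h3
  obtain ⟨ε, e1, e2, e3⟩ := h.eps hG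
  refine ⟨fun e => if h : ∃ p ∈ (tm T).3, ε p = e then ψ h.choose else K.k1, fun e => ?_,
    fun v => ?_⟩
  · beta_reduce
    split_ifs
    · exact h1 _
    · decide
  have r : ∀ a, tch (tm T).3 a → a < 13 := fun a ha => by
    have := ok.rng a ha
    have := ok.k5
    have := ok.n7
    omega
  beta_reduce
  rw [e2, sum_list e3 e1, sum_subset (range_subset_range.mpr (ok.k5.trans (by omega : 5 ≤ 13)))]
  · simp only [h3]
    rw [← TF_sum τ v ψ _ fun p hp => ⟨r _ (tch1 hp), r _ (tch2 hp)⟩]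
    refine congrArg _ (List.map_congr_left fun p hp => if_congr Iff.rfl ?_ rfl)
    have hx : ∃ q ∈ (tm T).3, ε q = ε p := ⟨p, hp, rfl⟩
    rw [dif_pos hx, List.inj_on_of_nodup_map e3 hx.choose_spec.1 hp hx.choose_spec.2]
  · intro j _ hj
    rw [mem_range] at hj
    refine ite_eq_right_iff.mpr fun _ => ?_
    by_cases h5 : 5 ≤ j
    · exact dec_of_lt (k := 5) h2 h5
    · rw [h3]
      refine List.sum_eq_zero fun x hx => ?_
      obtain ⟨p, hp, rfl⟩ := List.mem_map.mp hx
      have a := ok.rng _ (tch1 hp)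
      have b := ok.rng _ (tch2 hp)
      simp [show ¬ p.1 = j by omega, show ¬ p.2 = j by omega]

end Pool.Agent.Lib.Tw5
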