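import Pool.Agent.Lib.Tw5.B_TW
import Pool.Agent.Lib.Tw5.B_PB
import Pool.Agent.Lib.Tw5.B_FL
import Pool.Agent.Lib.Tw5.B_MEO
import Pool.Agent.Lib.Tw5.B_MP
import Pool.Agent.Lib.Tw5.B_CRIT
import Pool.Agent.Lib.Tw5.B_S3
import Pool.Agent.Lib.Tw5.B_STAR
import Pool.Agent.Lib.Tw5.B_S4
import Pool.Agent.Lib.Tw5.B_S6
import Pool.Agent.Lib.Tw5.B_L4A
import Pool.Agent.Lib.Tw5.B_L4
import Pool.Agent.Lib.Tw5.B_SM
import Pool.Agent.Lib.Tw5.B_SMALL
import Pool.Agent.Lib.Tw5.B_NB
import Pool.Agent.Lib.Tw5.B_ROOT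
import Pool.Agent.Lib.Tw5.B_SKEL
import Pool.Agent.Lib.Tw5.B_BIT
import Pool.Agent.Lib.Tw5.B_SS
import Pool.Agent.Lib.Tw5.B_GO
import Pool.Agent.Lib.Tw5.B_EN
import Pool.Agent.Lib.Tw5.B_MCHK
import Pool.Agent.Lib.Tw5.B_CLO
import Pool.Agent.Lib.Tw5.B_PCH
import Pool.Agent.Lib.Tw5.B_GCH
import Pool.Agent.Lib.Tw5.B_ISO
import Pool.Agent.Lib.Tw5.B_TF
import Pool.Agent.Lib.Tw5.B_ADD1
import Pool.Agent.Lib.Tw5.B_ADD
import Pool.Agent.Lib.Tw5.B_KILL
import Pool.Agent.Lib.Tw5.B_RED
import Pool.Agent.Lib.Tw5.B_SCH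
import Pool.Agent.Lib.Tw5.B_LF
import Pool.Agent.Lib.Tw5.B_LEAF
import Pool.Agent.Lib.Tw5.B_DFS
import Pool.Agent.Lib.Tw5.B_NORM
import Pool.Agent.Lib.Tw5.B_LEAD0
import Pool.Agent.Lib.Tw5.B_SET
import Pool.Agent.Lib.Tw5.B_PCS
import Pool.Agent.Lib.Tw5.B_DATA

namespace Pool.Agent.Lib.Tw5

theorem main {V E : Type} [Fintype V] [Fintype E] [DecidableEq V] (s t : E → V)
    (hw : D.TreeWidthLE s t 5) (hb : MP_aa6b05_co.D.Bridgeless s t)
    (hp : ¬ D.HasPetersenMinor s t) : MP_aa6b05_co.D.HasNZ4Flow s t := by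
  have hTW : St_TW := by apply @st_TW <;> assumption
  have hPB : St_PB := by apply @st_PB <;> assumption
  have hFL : St_FL := by apply @st_FL <;> assumption
  have hMEO : St_MEO := by apply @st_MEO <;> assumption
  have hMP : St_MP := by apply @st_MP <;> assumption
  have hCRIT : St_CRIT := by apply @st_CRIT <;> assumption
  have hS3 : St_S3 := by apply @st_S3 <;> assumption
  have hSTAR : St_STAR := by apply @st_STAR <;> assumption
  have hS4 : St_S4 := by apply @st_S4 <;> assumption
  have hS6 : St_S6 := by apply @st_S6 <;> assumption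
  have hL4A : St_L4A := by apply @st_L4A <;> assumption
  have hL4 : St_L4 := by apply @st_L4 <;> assumption
  have hSM : St_SM := by apply @st_SM <;> assumption
  have hSMALL : St_SMALL := by apply @st_SMALL <;> assumption
  have hNB : St_NB := by apply @st_NB <;> assumption
  have hBIT : St_BIT := by apply @st_BIT <;> assumption
  have hSS : St_SS := by apply @st_SS <;> assumption
  have hGO : St_GO := by apply @st_GO <;> assumption
  have hEN : St_EN := by apply @st_EN <;> assumption
  have hMCHK : St_MCHK := by apply @st_MCHK <;> assumption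
  have hCLO : St_CLO := by apply @st_CLO <;> assumption
  have hPCH : St_PCH := by apply @st_PCH <;> assumption
  have hGCH : St_GCH := by apply @st_GCH <;> assumption
  have hISO : St_ISO := by apply @st_ISO <;> assumption
  have hFCHK : St_FCHK := by apply @st_FCHK <;> assumption
  have hTF : St_TF := by apply @st_TF <;> assumption
  have hADD1 : St_ADD1 := by apply @st_ADD1 <;> assumption
  have hADD : St_ADD := by apply @st_ADD <;> assumption
  have hKILL : St_KILL := by apply @st_KILL <;> assumption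
  have hRED : St_RED := by apply @st_RED <;> assumption
  have hSCH : St_SCH := by apply @st_SCH <;> assumption
  have hLF : St_LF := by apply @st_LF <;> assumption
  have hLEAF : St_LEAF := by apply @st_LEAF <;> assumption
  have hDFS : St_DFS := by apply @st_DFS <;> assumption
  have hNORM : St_NORM := by apply @st_NORM <;> assumption
  have hLEAD : St_LEAD := by apply @st_LEAD <;> assumption
  have hDATA : St_DATA := by apply @st_DATA <;> assumption
  have hSET : St_SET := by apply @st_SET <;> assumption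
  have hPCS : St_PCS := by apply @st_PCS <;> assumption
  have hMAIN : St_MAIN := by apply @st_MAIN <;> assumption
  have hR5 : St_R5 := by apply @st_R5 <;> assumption
  have hR6 : St_R6 := by apply @st_R6 <;> assumption
  have hROOT : St_ROOT := by apply @st_ROOT <;> assumption
  have hSKEL : St_SKEL := by apply @st_SKEL <;> assumption
  exact final hTW hPB hFL hCRIT hSKEL s t hw hb hp

end Pool.Agent.Lib.Tw5
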