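import Pool.Agent.Lib.Tw5.KitI

/-! Not all components outside a set of at most six vertices are standard. -/

namespace Pool.Agent.Lib.Tw5

open Finset Pool.Agent.Lib.MP_aa6b05_co C

open scoped Classical

theorem st_ROOT (h5 : St_R5) (h6 : St_R6) (hM : St_MAIN) (hSM : St_SM) (hS : St_SMALL)
    (hN : St_NB) : St_ROOT := by
  intro V E _ _ G hG Ω hΩ h
  refine h6 hG hΩ fun u0 hu0 n0 => ?_
  by_contra hno
  obtain ⟨T0, hT0⟩ := h u0 hu0 n0
  have k5 : (Nb G (cmp G Ω u0)).ncard = 5 := by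
    have h1 := (tok hT0.1).1
    have h2 : ¬ (tm T0).1 ≤ 4 := fun h2 => hno ⟨T0, hT0, h2⟩
    rw [hN hT0]
    omega
  obtain ⟨S, hSe⟩ : ∃ S, Nb G (cmp G Ω u0) = S := ⟨_, rfl⟩
  have hs : S ⊆ Ω := fun v hv => nb_cmp hu0 (hSe ▸ hv)
  rw [hSe] at k5
  refine h5 hG k5 fun u hu nu => ?_
  have hn : Nb G (cmp G S u) ⊆ S := fun v hv => nb_cmp hu hv
  by_cases hw : ∀ x ∈ cmp G S u, x ∉ Ω
  · rw [← eq_cmp (con_cmp S u) hw (fun v hv => hs (hn hv)) (self_cmp S u)]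
    exact h u (hw u (self_cmp S u)) nu
  push Not at hw
  obtain ⟨w, hw, hwΩ⟩ := hw
  have e : insert w S = Ω := Set.eq_of_subset_of_ncard_le (Set.insert_subset hwΩ hs) (by
    rw [Set.ncard_insert_of_notMem (cmp_out hu hw), k5]
    exact hΩ)
  have ho : ∀ v ∈ cmp G Ω u0, v ∉ S := fun v hv hv' => cmp_out hu0 hv (hs hv')
  have dj : Disjoint (cmp G Ω u0) (cmp G S u) := Set.disjoint_left.2 fun x hx hx' => by
    have h1 := eq_cmp (con_cmp Ω u0) ho (fun v hv => hSe ▸ hv) hx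
    rw [cmp_eq hx'] at h1
    exact cmp_out hu0 (h1 ▸ hw) hwΩ
  by_cases hf : Nb G (cmp G S u) = S
  · refine hM hG k5 (full_HE (con_cmp S u) hf) (full_HE' (con_cmp Ω u0) hSe dj hn) hw
      fun x hx ne => ?_
    rw [e]
    exact h x (e ▸ fun h1 => h1.elim ne (cmp_out hu hx)) ((con_cmp S u).ni hx hw ne)
  · have h1 := Set.ncard_lt_ncard (hn.ssubset_of_ne hf)
    rcases hSM hG (con_cmp S u) (by omega) (self_cmp S u) nu (con_cmp Ω u0) (self_cmp Ω u0) n0 dj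
      (Set.disjoint_left.2 fun v hv hv' => ho v hv (hn hv')) with h2 | h2
    · exact (hS hG h2).imp fun _ h3 => h3.1
    · exact absurd (hS hG h2) hno

end Pool.Agent.Lib.Tw5
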