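import Pool.Agent.Lib.Tw5.KitI

namespace Pool.Agent.Lib.Tw5

open Finset Pool.Agent.Lib.MP_aa6b05_co C

open scoped Classical

theorem st_SCH (hISO : St_ISO) : St_SCH := by
  intro V E _ _ G σ C D st sm T ν ν' hx ⟨ι, h⟩ hs hT hc
  wlog hT' : T < 15 generalizing T
  · obtain rfl : T = 15 := by omega
    exact this (T := 14) (by omega) hc (by omega)
  have m := (hx.mn rfl).2
  have k := tok hT'
  unfold schk at hc
  simp only [sel_and, allN_iff, Nat.ble_eq, Nat.beq_eq, sel_imp, Nat.add_eq] at hc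
  obtain ⟨c1, c2, c3, c4, c5⟩ := hc
  have a5 : ∀ a, tch (tm T).3 a → 6 ≤ a → 5 ≤ rt ν a := fun a ha h6 => by
    have h1 := k.rng a ha
    have h2 := k.n7
    have := c4 (a - 6) (by omega)
    rwa [Nat.add_sub_cancel' h6] at this
  have v5 : ι 5 ∈ C := h.slot 5 (by omega) ▸ m.v
  obtain ⟨e1, e2, -⟩ := hISO h.emb c1 k.pw fun a ha h6 => (a5 a ha h6).eq_or_lt.symm.imp id
    fun e : 5 = rt ν a => e ▸ sat_in v5
  refine ⟨T, hT', _, ⟨e1, fun j hj hb => ?_⟩, fun j hj hb => ?_, fun a ha h6 => ?_⟩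
  · have := c3 j (c2 ▸ hj)
    rw [h.slot _ (by omega)]
    exact hs _ (by omega) (c5 j (c2 ▸ hj) hb)
  · have := c3 j (c2 ▸ hj)
    exact m.fc.out _ hb (h.slot (rt ν j) (by omega) ▸ m.mem (by omega))
  rcases (a5 a ha h6).eq_or_lt with e | e
  · exact e ▸ v5
  have r := (h.rng _ (e2 a ha)).resolve_left (by omega)
  by_contra n
  have key : ∀ w f, ι (rt ν a) ≠ w → G.Joins f (ι (rt ν a)) w → f ∉ HE G C := fun w f d j hf => by
    obtain ⟨t, ht, e⟩ := m.fc.nb _ ⟨n, w, ((mem_HE j).1 hf).2.resolve_left n, d.symm, f, j.symm⟩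
    exact r.2.2 t (lt_trans ht (by omega)) e.symm
  obtain ⟨p, hp, b⟩ := e2 a ha
  obtain ⟨d, f, j⟩ := h.emb.adj p hp
  have hf := (h.emb.mem f).2 ⟨p, hp, j⟩
  rcases b with b | b <;> rw [b] at d j
  · exact key _ f d j hf
  · exact key _ f d.symm j.symm hf

end Pool.Agent.Lib.Tw5
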