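import Pool.Agent.Lib.Tw5.KitI
import Pool.Agent.Lib.MP_833b9e_co.Rooted

set_option linter.unusedSectionVars false
set_option linter.unusedVariables false

/-! A tree-decomposition of width 5 gives an elimination order of width 5. -/

namespace Pool.Agent.Lib.Tw5

open Finset Pool.Agent.Lib.MP_aa6b05_co C Pool.Agent.Lib.MP_833b9e_co

open scoped Classical

theorem tw_lex {N a b i j : ℕ} (hj : j < N) (h : N * a + i ≤ N * b + j) : a ≤ b := by
  by_contra hc
  have h1 : N * (b + 1) ≤ N * a := Nat.mul_le_mul_left N (by omega)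
  rw [Nat.mul_succ] at h1
  omega

theorem st_TW : St_TW := by
  intro V E _ _ G ⟨ι, _, T, B, hT, hE, hC, hB⟩
  let H : SimpleGraph V :=
    { Adj := Ad G
      symm := ⟨fun _ _ h => h.symm⟩
      loopless := ⟨fun _ h => h.1 rfl⟩ }
  have hD : IsTreeDecomp H T B := by
    refine ⟨hT, ?_, hC⟩
    rintro u v ⟨-, e, ⟨rfl, rfl⟩ | ⟨rfl, rfl⟩⟩
    · exact hE e
    · exact (hE e).imp fun _ h => h.symm
  obtain ⟨r⟩ := hT.connected.nonempty
  obtain ⟨par, dep, top, h⟩ := rtd_of_decomp hD r
  have hd : ∀ x, dep x ≤ univ.sup dep := fun x => le_sup (mem_univ x)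
  generalize univ.sup dep = D at hd
  let ix := Fintype.equivFin V
  let ρ : V → ℕ := fun v => Fintype.card V * (D - dep (top v)) + ix v
  have hle : ∀ x y, ρ x ≤ ρ y → dep (top y) ≤ dep (top x) := fun x y hxy => by
    have h1 := tw_lex (ix y).2 hxy
    have h2 := hd (top x)
    have h3 := hd (top y)
    omega
  refine ⟨ρ, fun x y hxy => ?_, fun v => ?_⟩
  · have h1 := hle x y hxy.le
    have h2 := hle y x hxy.ge
    have h3 : dep (top x) = dep (top y) := by omega
    have h4 : Fintype.card V * (D - dep (top x)) + ix x =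
      Fintype.card V * (D - dep (top y)) + ix y := hxy
    rw [h3] at h4
    exact ix.injective (Fin.ext (by omega))
  · have hv : v ∉ {x | ρ v < ρ x} := fun hx => lt_irrefl (ρ v) hx
    have hdesc : ∀ u ∈ cmp G {x | ρ v < ρ x} v, Desc par dep (top v) (top u) := fun u hu =>
      Cn.side (Y := {u | Desc par dep (top v) (top u)}) hu
        (fun x y _ hy hxy hx => h.desc_of_adj hxy hx (hle y v (not_lt.1 hy))) (RTD.desc_refl _)
    have hsub : Nb G (cmp G {x | ρ v < ρ x} v) ⊆ ((B (top v)).erase v : Finset V) := by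
      intro w hw
      have h1 : ρ v < ρ w := nb_cmp (X := {x | ρ v < ρ x}) hv hw
      obtain ⟨-, u, hu, huw⟩ := hw
      refine mem_coe.2 (mem_erase.2 ⟨?_, h.mem_of_adj huw (hdesc u hu) (hle v w h1.le)⟩)
      rintro rfl
      exact lt_irrefl (ρ w) h1
    have h2 := Set.ncard_le_ncard hsub (Set.toFinite _)
    rw [Set.ncard_coe_finset, card_erase_of_mem (h.top_mem v)] at h2
    have h3 := hB (top v)
    omega

end Pool.Agent.Lib.Tw5
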