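import Pool.Agent.Lib.MP_aa6b05_co.Defs

namespace Pool.Agent.Lib.Tw5.D

open Pool.Agent.Lib.MP_aa6b05_co.D

variable {V E : Type}

/-- The multigraph has a tree-decomposition of width at most `k`: a finite tree `T` with bags of
at most `k + 1` vertices, both ends of every edge lie in a common bag, and the nodes whose bags
contain a given vertex induce a (non-empty) subtree. -/
def TreeWidthLE (s t : E → V) (k : ℕ) : Prop :=
  ∃ (ι : Type) (_ : Fintype ι) (T : SimpleGraph ι) (B : ι → Finset V), T.IsTree ∧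
    (∀ e, ∃ x, s e ∈ B x ∧ t e ∈ B x) ∧ (∀ v, (T.induce {x | v ∈ B x}).Connected) ∧
    ∀ x, (B x).card ≤ k + 1

/-- The Petersen graph is a minor: disjoint non-empty connected branch sets, with an edge between
the branch sets of any two adjacent vertices of the Petersen graph. -/
def HasPetersenMinor (s t : E → V) : Prop :=
  ∃ B : PV → Set V, (∀ a, (B a).Nonempty) ∧ (∀ a b, a ≠ b → Disjoint (B a) (B b)) ∧
    (∀ a, ∀ u ∈ B a, ∀ v ∈ B a, Conn s t (B a) Set.univ u v) ∧
    ∀ a b, Disjoint a.1 b.1 → ∃ e, ∃ u ∈ B a, ∃ v ∈ B b, Link s t e u v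

end Pool.Agent.Lib.Tw5.D
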