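import Pool.Agent.Lib.Tw5.KitE
import Pool.Agent.Lib.Tw5.U
import Pool.Agent.Lib.Tw5.Defs

set_option linter.unusedSectionVars false
set_option linter.unusedVariables false

/-! The statements of the steps. -/

namespace Pool.Agent.Lib.Tw5

open Finset Pool.Agent.Lib.MP_aa6b05_co C

open scoped Classical

def St_TW : Prop := ∀ {V E : Type} [Fintype V] [Fintype E] (G : MG V E),
  D.TreeWidthLE G.s G.t 5 → EO G

def St_PB : Prop := ∀ {V E : Type} [Fintype V] [Fintype E] (G : MG V E),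
  HasP G → D.HasPetersenMinor G.s G.t

def St_FL : Prop := ∀ {V E : Type} [Fintype V] [Fintype E] [DecidableEq V] (G : MG V E),
  (G.Col → MP_aa6b05_co.D.HasNZ4Flow G.s G.t) ∧ (MP_aa6b05_co.D.Bridgeless G.s G.t → G.Bl)

def St_MEO : Prop := ∀ {V E : Type} [Fintype V] [Fintype E] (G G' : MG V E) (π : V → V),
  Mnr G G' π → EO G → EO G'

def St_MP : Prop := ∀ {V E : Type} [Fintype V] [Fintype E] (G G' : MG V E) (π : V → V),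
  Mnr G G' π → HasP G' → HasP G

def St_CRIT : Prop := ∀ {V E : Type} [Fintype V] [Fintype E], (∀ G : MG V E, ¬ Crit G) →
  ∀ G : MG V E, EO G → ¬ HasP G → G.Bl → G.Col

def St_S3 : Prop := ∀ {V E : Type} [Fintype V] [Fintype E] {G : MG V E}, Crit G →
  ∀ {Z : Set V} {a b u w : V}, (∀ v ∈ Nb G Z, v = a ∨ v = b) → u ∈ Z → Ni G u → w ∉ Z → w ≠ a →
    w ≠ b → ¬ Ni G w

def St_STAR : Prop := ∀ {V E : Type} [Fintype V] [Fintype E] {G : MG V E}, Crit G →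
  ∀ {H : Set E} {S Z Z' : Set V} {u w : V}, Sep G H S → Full G H S Z → Full G Hᶜ S Z' →
    2 ≤ S.ncard → u ∈ Z → w ∈ Z → u ≠ w →
    ∃ g ∈ BF G Hᶜ, (∀ v ∈ S, g v ≠ 0) ∧ ∀ v, v ∉ S → g v = 0

def St_S4 : Prop := ∀ {V E : Type} [Fintype V] [Fintype E] {G : MG V E}, Crit G →
  ∀ {T Z Z' : Set V} {u w : V}, T.ncard ≤ 3 → Con G Z → Con G Z' → Nb G Z ⊆ T → Nb G Z' ⊆ T →
    Disjoint Z Z' → Disjoint Z T → Disjoint Z' T → u ∈ Z → Ni G u → w ∈ Z' → Ni G w →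
    (Z = {u} ∧ G.d {u} = 3) ∨ (Z' = {w} ∧ G.d {w} = 3)

def St_S6 : Prop := ∀ {V E : Type} [Fintype V] [Fintype E] {G : MG V E}, Crit G →
  ∀ {H : Set E} {S C D Y : Set V} {a b : V}, Sep G H S → Full G H S C → Full G Hᶜ S D →
    4 ≤ S.ncard → (cutn G Y Hᶜ).card = 1 → a ∈ S → b ∈ S → (∀ v ∈ S, v ∈ Y ↔ v = a ∨ v = b) →
    hd G Hᶜ a = 1 ∧ hd G Hᶜ b = 1 ∧ (a ≠ b → ∃ y z e, y ∈ D ∧ y ∈ Y ∧ z ∉ Y ∧ e ∈ cutn G Y Hᶜ ∧
      G.Joins e y z ∧ G.d {y} = 3 ∧ ∀ x, Ad G y x → x = a ∨ x = b ∨ x = z)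

/-- the Kempe analysis of a 4-separation: a linkage `ab`, `cd` on one side -/
def St_L4A : Prop := ∀ {V E : Type} [Fintype V] [Fintype E] {G : MG V E}, Crit G →
  ∀ {H : Set E} {S : Set V} {g g' : V → K}, Sep G H S → S.ncard = 4 → g ∈ BF G H →
    g' ∈ BF G Hᶜ → (∀ v, g v ≠ 0 ↔ v ∈ S) → (∀ v, g' v ≠ 0 ↔ v ∈ S) →
    ∃ (X : Set E) (a b c d : V) (R R' : Set V), (X = H ∨ X = Hᶜ) ∧ S = {a, b, c, d} ∧ Disjoint R R' ∧
      (∀ v ∈ S, v ∈ R ↔ v = a ∨ v = b) ∧ (∀ v ∈ S, v ∈ R' ↔ v = c ∨ v = d) ∧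
      Relation.ReflTransGen (fun x y => x ∈ R ∧ y ∈ R ∧ ∃ e ∈ X, G.Joins e x y) a b ∧
      Relation.ReflTransGen (fun x y => x ∈ R' ∧ y ∈ R' ∧ ∃ e ∈ X, G.Joins e x y) c d ∧
      ∀ f ∈ BF G Xᶜ, (∀ v, f v ≠ 0 ↔ v ∈ S) → f a ≠ f b

def St_L4 : Prop := ∀ {V E : Type} [Fintype V] [Fintype E] {G : MG V E}, Crit G →
  ∀ {H : Set E} {S C D : Set V}, Sep G H S → Full G H S C → Full G Hᶜ S D → S.ncard = 4 →
    Small G C ∨ Small G D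

def St_SM : Prop := ∀ {V E : Type} [Fintype V] [Fintype E] {G : MG V E}, Crit G →
  ∀ {Z C : Set V} {u w : V}, Con G Z → (Nb G Z).ncard ≤ 4 → u ∈ Z → Ni G u → Con G C → w ∈ C →
    Ni G w → Disjoint C Z → Disjoint C (Nb G Z) → Small G Z ∨ Small G C

def St_SMALL : Prop := ∀ {V E : Type} [Fintype V] [Fintype E] {G : MG V E}, Crit G →
  ∀ {Z : Set V}, Small G Z → ∃ T, StdT G T Z ∧ (tm T).1 ≤ 4

def St_NB : Prop := ∀ {V E : Type} [Fintype V] [Fintype E] {G : MG V E} {T : ℕ} {Z : Set V},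
  StdT G T Z → (Nb G Z).ncard = (tm T).1

def St_MAIN : Prop := ∀ {V E : Type} [Fintype V] [Fintype E] {G : MG V E}, Crit G →
  ∀ {S C D : Set V} {v : V}, S.ncard = 5 → Full G (HE G C) S C → Full G (HE G C)ᶜ S D → v ∈ C →
    (∀ u ∈ C, u ≠ v → Std G (cmp G (insert v S) u)) → Std G C

def St_R5 : Prop := ∀ {V E : Type} [Fintype V] [Fintype E] {G : MG V E}, Crit G →
  ∀ {Ω : Set V}, Ω.ncard = 5 → ¬ ∀ u, u ∉ Ω → Ni G u → Std G (cmp G Ω u)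

def St_R6 : Prop := ∀ {V E : Type} [Fintype V] [Fintype E] {G : MG V E}, Crit G →
  ∀ {Ω : Set V}, Ω.ncard ≤ 6 → ¬ ∀ u, u ∉ Ω → Ni G u → ∃ T, StdT G T (cmp G Ω u) ∧ (tm T).1 ≤ 4

/-- all components of `G - Ω` standard is impossible -/
def St_ROOT : Prop := ∀ {V E : Type} [Fintype V] [Fintype E] {G : MG V E}, Crit G →
  ∀ {Ω : Set V}, Ω.ncard ≤ 6 → ¬ ∀ u, u ∉ Ω → Ni G u → Std G (cmp G Ω u)

def St_SKEL : Prop := ∀ {V E : Type} [Fintype V] [Fintype E] (G : MG V E), ¬ Crit G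

def St_BIT : Prop :=
  (∀ S j i, j < 12 → (tb (fl1 S j) i = true ↔ i < 4096 ∧ tb S (i ^^^ 2 ^ j) = true)) ∧
  (∀ d S t i, 1 ≤ d → d ≤ 3 → t < 6 →
    (tb (fd d S t) i = true ↔ i < 4096 ∧ tb S (i ^^^ d * 4 ^ t) = true)) ∧
  (∀ d t i, 1 ≤ d → d ≤ 3 → t < 6 → i < 4096 →
    (tb (em d t) i = true ↔ (dec i t = 0 ∨ dec i t = kof d)) ∧
    (tb (om d t) i = true ↔ ¬ (dec i t = 0 ∨ dec i t = kof d))) ∧
  (∀ M S c, c < 4096 → tb S c = true → (∀ t < 5, tb M t = true → dec c t ≠ 0) →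
    tb (nzm M S) c = true) ∧
  ∀ a b c, a < 6 → b < 6 → c < 4096 → dec c a ≠ dec c b → tb (neq a b) c = true

def St_SS : Prop := ∀ pl n S B y, (∀ j < n, dg pl j < 6) → 1 ≤ n → tb (ss pl n S B) y = true →
  ∃ c z, tb B c = true ∧ tb S z = true ∧
    ∀ t, dec y t = dec z t + ∑ j ∈ range n, if dg pl j = t then dec c j else 0

def St_GO : Prop := ∀ {V E : Type} [Fintype V] [Fintype E] (G : MG V E) (σ : ℕ → V) (H : Set E)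
  (k n it S : ℕ), k ≤ n → n ≤ 6 → (∀ c ∈ FS G σ k H, tb S c = true) →
    ∀ c ∈ FS G σ k H, tb (kem n it S) c = true

def St_EN : Prop :=
  (∀ (f : ℕ → ℕ) (l : Es) (ψ : ℕ × ℕ → K) (c y : ℕ), (∀ p, ψ p ≠ 0) → y < 1024 →
    (∀ a, dec y a = dec c a + bdl f l ψ a) →
    tb (en (l.map fun p => (f p.1, f p.2)) c) y = true) ∧
  ∀ (es : Es) (c y : ℕ), es.Nodup → tb (en es c) y = true →
    ∃ ψ : ℕ × ℕ → K, (∀ p, ψ p ≠ 0) ∧ y < 1024 ∧ ∀ a, dec y a = dec c a + bdl id es ψ a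

def St_MCHK : Prop := ∀ lim M μ R p (es : Es), mchk lim M μ R p es = true →
  (∀ Q : ℕ → Prop, (∀ b < lim, lab μ (rt R b) = b → Q (rt R b)) →
    (∀ q ∈ es, lab μ q.1 = lab μ q.2 → (Q q.1 ↔ Q q.2)) →
    ∀ a, tch es a → lab μ a < lim → Q a) ∧
  ∀ x y, y < 16 → tb M (16 * x + y) = true →
    ∃ q ∈ es, (lab μ q.1 = x ∧ lab μ q.2 = y) ∨ (lab μ q.1 = y ∧ lab μ q.2 = x)

def St_CLO : Prop :=
  (∀ (ne : Es) (p A : ℕ) (Q : ℕ → Prop), (∀ r ∈ ne, Q r.1 ↔ Q r.2) →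
    (∀ a, tb A a = true → Q a) → ∀ a, tb (clo (mks ne) p A) a = true → Q a) ∧
  (∀ (ne : Es) (p : ℕ) (Q : ℕ → Prop), nbr p (mks ne) [] = true → (∀ t < 5, Q t) →
    ∀ pre q suf, ne = pre ++ q :: suf → (∀ r ∈ pre ++ suf, Q r.1 ↔ Q r.2) → Q q.1 ∧ Q q.2) ∧
  ∀ (μ A : ℕ) (es : Es), ∃ kp rs : Es, (kp ++ rs).Perm es ∧ ∀ k : Es → ℕ → ℕ,
    pick μ k es A [] 0 = k (kp.map fun p => (lab μ p.1, lab μ p.2)) rs.length

def St_PCH : Prop := ∀ {V E : Type} [Fintype V] [Fintype E] {G : MG V E} {B : ℕ → Set V}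
  {es : Es} {μ R p : ℕ}, Model G B es → mchk 10 PM μ R p es = true → HasP G

def St_GCH : Prop := ∀ {V E : Type} [Fintype V] [Fintype E] {G : MG V E}, Crit G →
  ∀ {ι : ℕ → V} {es : Es} {H : Set E} {w : ℕ}, Emb G ι es H → ¬ gchk es w = true

def St_ISO : Prop := ∀ {V E : Type} [Fintype V] [Fintype E] {G : MG V E} {ι : ℕ → V}
  {es es' : Es} {H : Set E} {ν ν' : ℕ}, Emb G ι es H → iso ν ν' es' es = true →
    es'.Pairwise (fun p q => ¬ same p q) →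
    (∀ a, tch es' a → 6 ≤ a → 6 ≤ rt ν a ∨ Sat G Hᶜ {ι (rt ν a)}) →
    Emb G (fun a => ι (rt ν a)) es' H ∧ (∀ a, tch es' a → tch es (rt ν a)) ∧
      ∀ b, tch es b → ∃ a, tch es' a ∧ rt ν a = b

def St_FCHK : Prop := ∀ T < 15, fchk T = true

def St_TF : Prop := ∀ {V E : Type} [Fintype V] [Fintype E] {G : MG V E}, Crit G →
  ∀ {τ : ℕ → V} {T c : ℕ} {H : Set E}, T < 15 → Emb G τ (tm T).3 H → tb (tm T).6 c = true →
    (fun v => ∑ j ∈ range (tm T).1, if τ j = v then dec c j else 0) ∈ BF G H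

def St_ADD1 : Prop := ∀ {V E : Type} [Fintype V] [Fintype E] {G : MG V E} {md k : ℕ}
  {σ ι : ℕ → V} {C D : Set V} {st : St} {H A : Set E} {u : ℕ}, Cx G md k σ C D →
    InvI G k σ C D st H ι → Pc G σ k u A → Disjoint A H →
    ∃ ι', Emb G ι' (addL st u) (H ∪ A) ∧ (∀ t < 6, ι' t = σ t) ∧ ∀ a, tch (addL st u) a →
      a < k ∨ (6 ≤ a ∧ a < 6 + (st.1 + (tm (uT u)).2) ∧ ∀ t < k, ι' a ≠ σ t)

def St_ADD : Prop := ∀ {V E : Type} [Fintype V] [Fintype E] {G : MG V E} {md k : ℕ}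
  {σ : ℕ → V} {C D : Set V} {st : St} {H A : Set E} {u : ℕ}, Cx G md k σ C D →
    Inv G k σ C D st H → Pc G σ k u A → A ⊆ HE G C → Disjoint A H →
    Inv G k σ C D (addS st u) (H ∪ A) ∧ capK st u = 0

def St_KILL : Prop := ∀ {V E : Type} [Fintype V] [Fintype E] {G : MG V E} {md k : ℕ}
  {σ : ℕ → V} {C D : Set V} {st : St} {H : Set E} {u w : ℕ}, Cx G md k σ C D →
    Inv G k σ C D (addS st u) H → uT u < 15 → kill md st u w = 0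

def St_RED : Prop := ∀ {V E : Type} [Fintype V] [Fintype E] {G : MG V E} {σ ι : ℕ → V}
  {C D : Set V} {st : St} {kp rs : Es} {μ R : ℕ → ℕ}, Cx G 0 6 σ C D →
    InvI G 6 σ C D st (HE G C) ι → (kp ++ rs).Perm st.2 → rs ≠ [] → (∀ t < 5, μ t = t ∧ R t = t) →
    (∀ Y : Set V, (∀ p ∈ st.2, μ p.1 = μ p.2 → (ι p.1 ∈ Y ↔ ι p.2 ∈ Y)) →
      ∀ a, tch st.2 a → (ι a ∈ Y ↔ ι (R (μ a)) ∈ Y)) →
    (∀ Q : ℕ → Prop, (∀ t < 5, Q t) → ∀ pre q suf, kp = pre ++ q :: suf →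
      (∀ r ∈ pre ++ suf, Q (μ r.1) ↔ Q (μ r.2)) → Q (μ q.1) ∧ Q (μ q.2)) →
    (∃ c ∈ FS G σ 5 (HE G C)ᶜ, ∃ ψ : ℕ × ℕ → K, (∀ p, ψ p ≠ 0) ∧ ∀ a, dec c a = bdl μ kp ψ a) ∨
    ∃ Y : Set V, (cutn G Y (HE G C)ᶜ).card = 1 ∧
      (∀ r ∈ kp, ι (R (μ r.1)) ∈ Y ↔ ι (R (μ r.2)) ∈ Y) ∧
      ∃ q ∈ prs, ∀ t < 5, σ t ∈ Y ↔ t = q.1 ∨ t = q.2

def St_SCH : Prop := ∀ {V E : Type} [Fintype V] [Fintype E] {G : MG V E} {σ : ℕ → V}
  {C D : Set V} {st : St} {sm T ν ν' : ℕ}, Cx G 0 6 σ C D → Inv G 6 σ C D st (HE G C) →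
    (∀ t < 5, tb sm t = true → hd G (HE G C)ᶜ (σ t) ≤ 1) → T < 16 →
    schk st.2 sm T ν ν' = true → Std G C

def St_LF : Prop := ∀ {V E : Type} [Fintype V] [Fintype E] {G : MG V E} {σ : ℕ → V}
  {C D : Set V} {st : St}, Cx G 0 6 σ C D → Inv G 6 σ C D st (HE G C) → ∀ f S sm w,
    (∀ c ∈ FS G σ 5 (HE G C)ᶜ, tb S c = true) → (FS G σ 5 (HE G C)ᶜ).Nonempty →
    (∀ t < 5, tb sm t = true → hd G (HE G C)ᶜ (σ t) ≤ 1) → lf st.2 f S sm w ≠ 0 → Std G C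

def St_LEAF : Prop := ∀ {V E : Type} [Fintype V] [Fintype E] {G : MG V E} {md k : ℕ}
  {σ : ℕ → V} {C D : Set V} {st : St} {w : ℕ}, Cx G md k σ C D → Inv G k σ C D st (HE G C) →
    leaf md st w ≠ 0 → Goal G md C

def St_DFS : Prop :=
  (∀ md r al lo ws, sub md r al lo ws = true → ∀ i, lo ≤ i → i < lo + ws.length →
    SubOk md r al i) ∧
  ∀ md r cand al w, top md r cand al w = true → (∀ i < al.length, SubOk md r al i) →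
    Lead md r cand

def St_NORM : Prop := ∀ {V E : Type} [Fintype V] [Fintype E] {G : MG V E} {md k T : ℕ}
  {σ : ℕ → V} {W : Set V} {A : Set E} {l : List ℕ}, (∀ a < k, ∀ b < k, σ a = σ b → a = b) →
    k ≤ 6 → (md = 1 → k ≤ 5) → (md = 0 → k = 6 ∧ W = {σ 5}) → achk T = true →
    nchk md T l = true → PcT G (σ '' {t | t < k}) W T A → ∃ u ∈ l, Pc G σ k u A

def St_LEAD : Prop := ∀ {V E : Type} [Fintype V] [Fintype E] {G : MG V E} {md k T : ℕ}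
  {Ω W : Set V} {A : Set E} {l : List ℕ}, Ω.ncard = k → k ≤ 6 → (md = 0 → k = 6 ∧ ∃ v, W = {v}) →
    achk T = true → rchk md T l = true → PcT G Ω W T A →
    ∃ σ : ℕ → V, (∀ a < k, ∀ b < k, σ a = σ b → a = b) ∧ Ω = σ '' {t | t < k} ∧
      (md = 0 → W = {σ 5}) ∧ ∃ r ∈ l, Pc G σ k r A

def St_DATA : Prop := ∀ md < 3, ∀ T < 15, (md = 2 → (tm T).1 ≤ 4) →
  achk T = true ∧ nchk md T (nthL (UU md) T) = true ∧ rchk md T (nthL (RR md) T) = true ∧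
    ∀ r ∈ nthL (RR md) T, Lead md r (catL (UU md) T)

def St_SET : Prop := ∀ {V E : Type} [Fintype V] [Fintype E] {G : MG V E}, Crit G →
  ∀ {md : ℕ} {Ω W C D : Set V} {P : Set (Set E)}, md < 3 → Ω.ncard ≤ 6 → (md = 1 → Ω.ncard ≤ 5) →
    (md ≠ 0 → C = Set.univ ∧ D = ∅) →
    (md = 0 → ∃ v S, S.ncard = 5 ∧ W = {v} ∧ Ω = insert v S ∧ v ∈ C ∧ Full G (HE G C) S C ∧
      Full G (HE G C)ᶜ S D) →
    (∀ A ∈ P, A ⊆ HE G C ∧ ∃ T, PcT G Ω W T A ∧ (md = 2 → (tm T).1 ≤ 4)) →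
    (∀ A ∈ P, ∀ B ∈ P, A ≠ B → Disjoint A B) → (∀ e ∈ HE G C, ∃ A ∈ P, e ∈ A) → Goal G md C

def St_PCS : Prop := ∀ {V E : Type} [Fintype V] [Fintype E] {G : MG V E}, Crit G →
  ∀ {Ω W C : Set V} {Q : ℕ → Prop}, Q 14 → (∀ u ∈ C, ∀ w, Ad G u w → w ∈ C ∨ w ∈ Ω) →
    (W = Set.univ ∨ ∃ v, W = {v} ∧ v ∈ Ω ∧ v ∈ C ∧ Con G C ∧ ∀ x ∈ Ω, x ∈ C → x = v) →
    (∀ u ∈ C, u ∉ Ω → Ni G u → ∃ T, StdT G T (cmp G Ω u) ∧ Q T) →
    ∃ P : Set (Set E), (∀ A ∈ P, A ⊆ HE G C ∧ ∃ T, PcT G Ω W T A ∧ Q T) ∧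
      (∀ A ∈ P, ∀ B ∈ P, A ≠ B → Disjoint A B) ∧ ∀ e ∈ HE G C, ∃ A ∈ P, e ∈ A

theorem st_MAIN (hS : St_SET) (hP : St_PCS) : St_MAIN := by
  intro V E _ _ G hG S C D v h5 fc fd hv h
  obtain ⟨P, p1, p2, p3⟩ := hP hG (Ω := insert v S) (W := {v}) (C := C) (Q := fun _ => True)
    trivial (fun u hu w hw => by
      by_cases hc : w ∈ C
      · exact Or.inl hc
      · exact Or.inr (Or.inr (fc.nb w ⟨hc, u, hu, hw⟩)))
    (Or.inr ⟨v, rfl, Or.inl rfl, hv, fc.con, fun x hx hc =>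
      hx.resolve_right (fc.out x hc)⟩)
    (fun u hu hΩ _ => (h u hu fun e => hΩ (Or.inl e)).imp fun _ h => ⟨h, trivial⟩)
  refine (hS hG (md := 0) (D := D) (by omega) ?_ (by omega) (by omega)
    (fun _ => ⟨v, S, h5, rfl, rfl, hv, fc, fd⟩)
    (fun A hA => ⟨(p1 A hA).1, (p1 A hA).2.imp fun _ h => ⟨h.1, by omega⟩⟩) p2 p3).2
  have := Set.ncard_insert_le v S
  omega

theorem st_R5 (hS : St_SET) (hP : St_PCS) : St_R5 := by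
  intro V E _ _ G hG Ω h5 h
  obtain ⟨P, p1, p2, p3⟩ := hP hG (Ω := Ω) (W := Set.univ) (C := Set.univ) (Q := fun _ => True)
    trivial (fun _ _ _ _ => Or.inl trivial) (Or.inl rfl)
    (fun u _ hΩ hn => (h u hΩ hn).imp fun _ h => ⟨h, trivial⟩)
  exact absurd (hS hG (md := 1) (D := ∅) (by omega) (by omega) (by omega) (fun _ => ⟨rfl, rfl⟩)
    (by omega) (fun A hA => ⟨(p1 A hA).1, (p1 A hA).2.imp fun _ h => ⟨h.1, by omega⟩⟩) p2 p3).1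
    (by omega)

theorem st_R6 (hS : St_SET) (hP : St_PCS) : St_R6 := by
  intro V E _ _ G hG Ω h6 h
  obtain ⟨P, p1, p2, p3⟩ := hP hG (Ω := Ω) (W := Set.univ) (C := Set.univ)
    (Q := fun T => (tm T).1 ≤ 4) (by decide +kernel) (fun _ _ _ _ => Or.inl trivial) (Or.inl rfl)
    (fun u _ hΩ hn => h u hΩ hn)
  exact absurd (hS hG (md := 2) (D := ∅) (by omega) h6 (by omega) (fun _ => ⟨rfl, rfl⟩)
    (by omega) (fun A hA => ⟨(p1 A hA).1, (p1 A hA).2.imp fun _ h => ⟨h.1, fun _ => h.2⟩⟩) p2 p3).1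
    (by omega)

theorem final (hTW : St_TW) (hPB : St_PB) (hFL : St_FL) (hC : St_CRIT) (hS : St_SKEL)
    {V E : Type} [Fintype V] [Fintype E] [DecidableEq V] (s t : E → V)
    (hw : D.TreeWidthLE s t 5) (hb : MP_aa6b05_co.D.Bridgeless s t)
    (hp : ¬ D.HasPetersenMinor s t) : MP_aa6b05_co.D.HasNZ4Flow s t :=
  (hFL ⟨s, t⟩).1 (hC hS ⟨s, t⟩ (hTW ⟨s, t⟩ hw) (fun h => hp (hPB ⟨s, t⟩ h)) ((hFL ⟨s, t⟩).2 hb))

end Pool.Agent.Lib.Tw5
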