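import Pool.Agent.Lib.Tw5.Sem

set_option linter.unusedSectionVars false
set_option linter.unusedVariables false

namespace Pool.Agent.Lib.Tw5

open Finset Pool.Agent.Lib.MP_aa6b05_co C

open scoped Classical

noncomputable section

variable {V E : Type} [Fintype V] [Fintype E] {G : MG V E}

theorem Ad.symm {a b : V} (h : Ad G a b) : Ad G b a := ⟨h.1.symm, h.2.imp fun _ h => h.symm⟩

theorem Ad.ni {a b : V} (h : Ad G a b) : Ni G a := ⟨b, h⟩

theorem Ad.ni' {a b : V} (h : Ad G a b) : Ni G b := ⟨a, h.symm⟩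

theorem mem_cut1 {v : V} {e : E} : e ∈ G.cut {v} ↔ ∃ w, G.Joins e v w ∧ v ≠ w :=
  ⟨MG.exists_other, fun ⟨w, h, n⟩ => by rw [h.mem_cut]; simp [n.symm]⟩

theorem joins_cases {e : E} {a b c d : V} (h : G.Joins e a b) (h' : G.Joins e c d) :
    (a = c ∧ b = d) ∨ (a = d ∧ b = c) := by
  rcases h with ⟨h1, h2⟩ | ⟨h1, h2⟩ <;> rcases h' with ⟨h3, h4⟩ | ⟨h3, h4⟩
  · exact Or.inl ⟨h1.symm.trans h3, h2.symm.trans h4⟩
  · exact Or.inr ⟨h1.symm.trans h3, h2.symm.trans h4⟩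
  · exact Or.inr ⟨h2.symm.trans h4, h1.symm.trans h3⟩
  · exact Or.inl ⟨h2.symm.trans h4, h1.symm.trans h3⟩

theorem Cn.refl (A : Set V) (a : V) : Cn G A a a := Relation.ReflTransGen.refl

theorem Cn.trans {A : Set V} {a b c : V} (h : Cn G A a b) (h' : Cn G A b c) : Cn G A a c :=
  Relation.ReflTransGen.trans h h'

theorem Cn.single {A : Set V} {a b : V} (ha : a ∈ A) (hb : b ∈ A) (h : Ad G a b) : Cn G A a b :=
  Relation.ReflTransGen.single ⟨ha, hb, h⟩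

theorem Cn.symm {A : Set V} {a b : V} (h : Cn G A a b) : Cn G A b a := by
  induction h with
  | refl => exact Cn.refl _ _
  | tail _ h2 ih => exact (Cn.single h2.2.1 h2.1 h2.2.2.symm).trans ih

theorem Cn.mono {A B : Set V} {a b : V} (h : Cn G A a b) (hAB : A ⊆ B) : Cn G B a b := by
  induction h with
  | refl => exact Cn.refl _ _
  | tail _ h2 ih => exact ih.trans (Cn.single (hAB h2.1) (hAB h2.2.1) h2.2.2)

theorem Cn.mem {A : Set V} {a b : V} (h : Cn G A a b) (ha : a ∈ A) : b ∈ A := by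
  induction h with
  | refl => exact ha
  | tail _ h2 _ => exact h2.2.1

theorem Cn.side {A Y : Set V} {a b : V} (h : Cn G A a b)
    (hY : ∀ x y, x ∈ A → y ∈ A → Ad G x y → x ∈ Y → y ∈ Y) (ha : a ∈ Y) : b ∈ Y := by
  induction h with
  | refl => exact ha
  | tail _ h2 ih => exact hY _ _ h2.1 h2.2.1 h2.2.2 ih

/-- a walk from `Y` to its complement crosses -/
theorem Cn.cross {A Y : Set V} {a b : V} (h : Cn G A a b) (ha : a ∈ Y) (hb : b ∉ Y) :
    ∃ x y, x ∈ A ∧ y ∈ A ∧ Ad G x y ∧ x ∈ Y ∧ y ∉ Y := by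
  by_contra hc
  push Not at hc
  exact hb (h.side hc ha)

theorem Cn.ni {A : Set V} {a b : V} (h : Cn G A a b) (ha : Ni G a) : Ni G b :=
  h.side (Y := {v | Ni G v}) (fun _ _ _ _ h _ => h.ni') ha

theorem Con.ni {A : Set V} (h : Con G A) {a b : V} (ha : a ∈ A) (hb : b ∈ A) (n : a ≠ b) :
    Ni G a := by
  obtain ⟨x, y, -, -, h1, h2, -⟩ := (h a ha b hb).cross (Y := {a}) rfl n.symm
  rw [Set.mem_singleton_iff] at h2
  exact h2 ▸ h1.ni

theorem con_single (a : V) : Con G {a} := by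
  rintro u rfl w rfl
  exact Cn.refl _ _

theorem self_cmp (X : Set V) (u : V) : u ∈ cmp G X u := Cn.refl _ _

theorem cmp_out {X : Set V} {u w : V} (hu : u ∉ X) (hw : w ∈ cmp G X u) : w ∉ X := Cn.mem hw hu

theorem cn_cmp {X : Set V} {u w : V} (hw : w ∈ cmp G X u) : Cn G (cmp G X u) u w := by
  induction hw with
  | refl => exact Cn.refl _ _
  | tail h1 h2 ih => exact ih.trans (Cn.single h1 (Relation.ReflTransGen.tail h1 h2) h2.2.2)

theorem con_cmp (X : Set V) (u : V) : Con G (cmp G X u) :=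
  fun _ ha _ hb => (cn_cmp ha).symm.trans (cn_cmp hb)

theorem nb_cmp {X : Set V} {u w : V} (hu : u ∉ X) (hw : w ∈ Nb G (cmp G X u)) : w ∈ X := by
  obtain ⟨h1, x, hx, h2⟩ := hw
  by_contra h
  exact h1 (Cn.trans hx (Cn.single (cmp_out hu hx) h h2))

theorem cmp_eq {X : Set V} {u w : V} (hw : w ∈ cmp G X u) : cmp G X w = cmp G X u :=
  Set.ext fun _ => ⟨fun h => Cn.trans hw h, fun h => Cn.trans (Cn.symm hw) h⟩

theorem sub_cmp {A X : Set V} (hA : Con G A) (hX : ∀ v ∈ A, v ∉ X) {u : V} (hu : u ∈ A) :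
    A ⊆ cmp G X u := fun w hw => (hA u hu w hw).mono hX

theorem mem_cmp_of_ad {X : Set V} {u x w : V} (hu : u ∉ X) (hx : x ∈ cmp G X u) (h : Ad G x w)
    (hw : w ∉ X) : w ∈ cmp G X u := Cn.trans hx (Cn.single (cmp_out hu hx) hw h)

/-- a connected set whose neighbours lie in `X` is a component -/
theorem eq_cmp {A X : Set V} (hA : Con G A) (hX : ∀ v ∈ A, v ∉ X) (hN : ∀ v ∈ Nb G A, v ∈ X)
    {u : V} (hu : u ∈ A) : cmp G X u = A := by
  refine Set.Subset.antisymm (fun w hw => ?_) (sub_cmp hA hX hu)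
  refine Cn.side hw (fun x y _ hy h hx => ?_) hu
  by_contra hc
  exact hy (hN y ⟨hc, x, hx, h⟩)

theorem mem_cutn {Y : Set V} {A : Set E} {e : E} : e ∈ cutn G Y A ↔ e ∈ G.cut Y ∧ e ∈ A := by
  simp [cutn]

theorem cutn_compl (Y : Set V) (A : Set E) : cutn G Yᶜ A = cutn G Y A := by
  unfold cutn
  rw [MG.cut_compl]

theorem Sat.compl {A : Set E} {Y : Set V} (h : Sat G A Y) : Sat G A Yᶜ := by
  unfold Sat
  rw [MG.cut_compl]
  exact h

theorem Sat.mono {A B : Set E} {Y : Set V} (h : Sat G A Y) (hB : B ⊆ A) : Sat G B Y :=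
  fun e he hb => h e he (hB hb)

theorem Sat.iff {A : Set E} {Y : Set V} (h : Sat G A Y) {e : E} {a b : V} (j : G.Joins e a b)
    (he : e ∈ A) : (a ∈ Y ↔ b ∈ Y) := by
  by_contra hc
  exact h e (j.mem_cut.mpr hc) he

theorem cutn_univ (Y : Set V) : cutn G Y Set.univ = G.cut Y := by
  ext e
  simp [mem_cutn]

theorem Sat.cutn_eq {A : Set E} {Y : Set V} (h : Sat G A Y) : cutn G Y A = ∅ := by
  ext e
  simp only [mem_cutn, notMem_empty, iff_false]
  exact fun h' => h e h'.1 h'.2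

theorem Sat.cutn_compl {A : Set E} {Y : Set V} (h : Sat G A Y) : cutn G Y Aᶜ = G.cut Y := by
  ext e
  simp only [mem_cutn]
  exact ⟨fun h' => h'.1, fun h' => ⟨h', h e h'⟩⟩

theorem sum_cutn_union {M : Type} [AddCommMonoid M] (f : E → M) (Y : Set V) {A B : Set E}
    (h : Disjoint A B) :
    ∑ e ∈ cutn G Y (A ∪ B), f e = ∑ e ∈ cutn G Y A, f e + ∑ e ∈ cutn G Y B, f e := by
  rw [← sum_union]
  · congr 1
    ext e
    simp only [mem_cutn, mem_union, Set.mem_union]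
    tauto
  · rw [disjoint_left]
    intro e h1 h2
    exact Set.disjoint_left.mp h (mem_cutn.mp h1).2 (mem_cutn.mp h2).2

theorem sum_cut_split {M : Type} [AddCommMonoid M] (f : E → M) (Y : Set V) (A : Set E) :
    ∑ e ∈ G.cut Y, f e = ∑ e ∈ cutn G Y A, f e + ∑ e ∈ cutn G Y Aᶜ, f e := by
  rw [← sum_cutn_union f Y disjoint_compl_right, Set.union_compl_self, cutn_univ]

theorem card_cutn_union (Y : Set V) {A B : Set E} (h : Disjoint A B) :
    (cutn G Y (A ∪ B)).card = (cutn G Y A).card + (cutn G Y B).card := by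
  simpa using sum_cutn_union (G := G) (fun _ => (1 : ℕ)) Y h

theorem hd_mono {A B : Set E} (h : A ⊆ B) (v : V) : hd G A v ≤ hd G B v :=
  card_le_card fun _ he => mem_cutn.mpr ⟨(mem_cutn.mp he).1, h (mem_cutn.mp he).2⟩

theorem hd_union {A B : Set E} (h : Disjoint A B) (v : V) :
    hd G (A ∪ B) v = hd G A v + hd G B v := card_cutn_union _ h

theorem hd_add_compl (A : Set E) (v : V) : hd G A v + hd G Aᶜ v = G.d {v} := by
  rw [← hd_union disjoint_compl_right, Set.union_compl_self, hd, cutn_univ, MG.d]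

theorem hd_pos {A : Set E} {e : E} {v w : V} (j : G.Joins e v w) (n : v ≠ w) (he : e ∈ A) :
    1 ≤ hd G A v := card_pos.mpr ⟨e, mem_cutn.mpr ⟨mem_cut1.mpr ⟨w, j, n⟩, he⟩⟩

theorem mem_HE {Z : Set V} {e : E} {a b : V} (j : G.Joins e a b) :
    e ∈ HE G Z ↔ a ≠ b ∧ (a ∈ Z ∨ b ∈ Z) := by
  unfold HE
  rcases j with ⟨h1, h2⟩ | ⟨h1, h2⟩
  · simp only [Set.mem_ofPred_eq, h1, h2]
  · simp only [Set.mem_ofPred_eq, h1, h2]
    rw [ne_comm, or_comm]

theorem exists_of_HE {Z : Set V} {e : E} (h : e ∈ HE G Z) :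
    ∃ a b, G.Joins e a b ∧ a ≠ b ∧ a ∈ Z := by
  rcases h.2 with h2 | h2
  · exact ⟨_, _, MG.joins_self e, h.1, h2⟩
  · exact ⟨_, _, (MG.joins_self e).symm, h.1.symm, h2⟩

theorem sat_in {Z : Set V} {v : V} (hv : v ∈ Z) : Sat G (HE G Z)ᶜ {v} := by
  intro e he h
  obtain ⟨w, j, n⟩ := mem_cut1.mp he
  exact h ((mem_HE j).mpr ⟨n, Or.inl hv⟩)

theorem sat_out {Z : Set V} {v : V} (hv : v ∉ Z) (hn : v ∉ Nb G Z) : Sat G (HE G Z) {v} := by
  intro e he h
  obtain ⟨w, j, n⟩ := mem_cut1.mp he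
  rcases ((mem_HE j).mp h).2 with h | h
  · exact hv h
  · exact hn ⟨hv, w, h, n.symm, e, j.symm⟩

theorem sep_HE {Z S : Set V} (h : ∀ v ∈ Nb G Z, v ∈ S) : Sep G (HE G Z) S := by
  intro v hv
  by_cases hz : v ∈ Z
  · exact Or.inl (sat_in hz)
  · exact Or.inr (sat_out hz fun h' => hv (h v h'))

theorem Sep.compl {H : Set E} {S : Set V} (h : Sep G H S) : Sep G Hᶜ S := by
  intro v hv
  rw [compl_compl]
  exact (h v hv).symm

theorem d_eq_nb (hp : G.NoPar) (y : V) : G.d {y} = (Nb G {y}).ncard := by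
  choose f hf using fun e (he : e ∈ G.cut {y}) => mem_cut1.mp he
  rw [MG.d, ← Set.ncard_coe_finset]
  refine Set.ncard_congr (fun e he => f e he) ?_ ?_ ?_
  · intro e he
    exact ⟨(hf e he).2.symm, y, rfl, (hf e he).2, e, (hf e he).1⟩
  · intro a b ha hb h
    by_contra n
    exact hp a b y _ n (hf a ha).2 (hf a ha).1 (h ▸ (hf b hb).1)
  · rintro w ⟨-, u, rfl, n, e, j⟩
    have he : e ∈ G.cut {u} := mem_cut1.mpr ⟨w, j, n⟩
    exact ⟨e, he, (hf e he).1.unique j⟩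

/-! ### Minimal counterexamples -/

theorem Crit.con (hG : Crit G) {A : Set E} (h : ∃ e, G.s e ≠ G.t e ∧ e ∈ A) :
    ∃ φ : E → K, (∀ e, φ e ≠ 0) ∧ ∀ Y, Sat G A Y → ∑ e ∈ G.cut Y, φ e = 0 := by
  obtain ⟨e, h1, h2⟩ := h
  have := hG.red A ∅ ⟨e, h1, Or.inl h2⟩ (by
    intro Y _
    rw [Set.compl_empty, cutn_univ]
    exact hG.bl Y)
  simpa only [Set.compl_empty, cutn_univ] using this

theorem Crit.col_con (hG : Crit G) {X : Set V} (hX : Con G X) {a b : V} (ha : a ∈ X) (hb : b ∈ X)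
    (h : Ad G a b) : (G.map (MG.con X)).Col := by
  obtain ⟨n, e, j⟩ := h
  obtain ⟨φ, h1, h2⟩ := hG.con (A := {e | G.s e ∈ X ∧ G.t e ∈ X}) ⟨e, j.ne n, by
    rcases j with ⟨j1, j2⟩ | ⟨j1, j2⟩ <;> simp [j1, j2, ha, hb]⟩
  refine ⟨φ, h1, fun v _ => h2 (MG.con X ⁻¹' {v}) fun f hf hA => ?_⟩
  apply MG.mem_cut.mp hf
  simp only [Set.mem_preimage, Set.mem_singleton_iff, MG.con, if_pos hA.1, if_pos hA.2]

theorem con_pair {a b : V} (h : Ad G a b) : Con G {a, b} := by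
  have h1 : Cn G {a, b} a b := Cn.single (by simp) (by simp) h
  rintro u (rfl | rfl) w (rfl | rfl)
  exacts [Cn.refl _ _, h1, h1.symm, Cn.refl _ _]

theorem Con.ins {A : Set V} (hA : Con G A) {a b : V} (h : Ad G a b) (hb : b ∈ A) :
    Con G (insert a A) := by
  have k : ∀ u ∈ insert a A, Cn G (insert a A) b u := by
    rintro u (rfl | hu)
    · exact Cn.single (Or.inr hb) (Or.inl rfl) h.symm
    · exact (hA b hb u hu).mono (Set.subset_insert _ _)
  exact fun u hu w hw => (k u hu).symm.trans (k w hw)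

theorem Crit.par (hG : Crit G) : G.NoPar := fun e f a b hef hab he hf =>
  hG.nc (MG.col_of_par hef hab he hf
    (hG.col_con (con_pair ⟨hab, e, he⟩) (by simp) (by simp) ⟨hab, e, he⟩))

theorem Crit.no3 (hG : Crit G) {a b c : V} (h1 : Ad G a b) (h2 : Ad G b c) (h3 : Ad G c a) :
    False := by
  obtain ⟨e, j1⟩ := h1.2
  obtain ⟨f, j2⟩ := h2.2
  obtain ⟨g, j3⟩ := h3.2
  exact hG.nc (MG.col_of_tri h1.1 h2.1 h3.1.symm j1 j2 j3
    (hG.col_con ((con_pair h2).ins h1 (by simp)) (by simp) (by simp) h1))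

theorem Crit.no4 (hG : Crit G) {a b c d : V} (h1 : Ad G a b) (h2 : Ad G b c) (h3 : Ad G c d)
    (h4 : Ad G d a) (hac : a ≠ c) (hbd : b ≠ d) : False := by
  obtain ⟨e, j1⟩ := h1.2
  obtain ⟨f, j2⟩ := h2.2
  obtain ⟨g, j3⟩ := h3.2
  obtain ⟨h, j4⟩ := h4.2
  exact hG.nc (MG.col_of_quad h1.1 hac h4.1.symm h2.1 hbd h3.1 j1 j2 j3 j4
    (hG.col_con (((con_pair h3).ins h2 (by simp)).ins h1 (by simp)) (by simp) (by simp) h1))

theorem Crit.d2 (hG : Crit G) (X : Set V) : G.d X ≠ 2 := by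
  intro h
  obtain ⟨e, f, hef, hX⟩ := card_eq_two.mp h
  obtain ⟨a, b, j, ha, hb⟩ := MG.exists_joins_of_mem_cut (G := G) (X := X) (e := e) (by simp [hX])
  have n : a ≠ b := fun h => hb (h ▸ ha)
  exact hG.nc (MG.col_of_two_cut hX hef j ha hb
    (hG.col_con (con_pair ⟨n, e, j⟩) (by simp) (by simp) ⟨n, e, j⟩))

theorem Crit.d3 (hG : Crit G) {v : V} (h : Ni G v) : 3 ≤ G.d {v} := by
  obtain ⟨w, n, e, j⟩ := h
  have h0 : 0 < G.d {v} := card_pos.mpr ⟨e, mem_cut1.mpr ⟨w, j, n⟩⟩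
  have := hG.bl {v}
  have := hG.d2 {v}
  omega

theorem Crit.ex (hG : Crit G) : ∃ e, G.s e ≠ G.t e := by
  by_contra h
  push Not at h
  refine hG.nc ⟨fun _ => .k1, fun _ => (by decide : K.k1 ≠ 0), fun v _ => sum_eq_zero fun e he => ?_⟩
  exact absurd (h e) (MG.mem_cut_single.mp he).1

/-! ### Boundary sets -/

theorem bf_col {H : Set E} {g : V → K} (h1 : g ∈ BF G H) (h2 : g ∈ BF G Hᶜ) : G.Col := by
  obtain ⟨φ, a1, a2⟩ := h1
  obtain ⟨ψ, b1, b2⟩ := h2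
  refine ⟨fun e => if e ∈ H then φ e else ψ e, fun e => ?_, fun v _ => ?_⟩
  · dsimp only
    split_ifs
    exacts [a1 e, b1 e]
  · unfold MG.df
    rw [sum_cut_split _ _ H, sum_congr rfl (fun e he => if_pos (mem_cutn.mp he).2),
      sum_congr (s₁ := cutn G {v} Hᶜ) rfl (fun e he => if_neg (c := e ∈ H) (mem_cutn.mp he).2),
      a2, b2, K.add_self]

theorem bf_add {A B : Set E} (h : Disjoint A B) {g g' : V → K} (h1 : g ∈ BF G A)
    (h2 : g' ∈ BF G B) : (fun v => g v + g' v) ∈ BF G (A ∪ B) := by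
  obtain ⟨φ, a1, a2⟩ := h1
  obtain ⟨ψ, b1, b2⟩ := h2
  refine ⟨fun e => if e ∈ A then φ e else ψ e, fun e => ?_, fun v => ?_⟩
  · dsimp only
    split_ifs
    exacts [a1 e, b1 e]
  · rw [sum_cutn_union _ _ h, sum_congr rfl (fun e he => if_pos (mem_cutn.mp he).2),
      sum_congr rfl (fun e he => if_neg (Set.disjoint_right.mp h (mem_cutn.mp he).2)), a2, b2]

theorem bf_aut {H : Set E} {g : V → K} (h : g ∈ BF G H) {α : K → K} (hα : GoodAut α) :
    (fun v => α (g v)) ∈ BF G H := by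
  obtain ⟨φ, a1, a2⟩ := h
  refine ⟨fun e => α (φ e), fun e => hα.2 _ (a1 e), fun v => ?_⟩
  beta_reduce
  rw [← a2]
  exact (map_sum (AddMonoidHom.mk' α hα.1) φ _).symm

theorem bf_zero {H : Set E} {g : V → K} (h : g ∈ BF G H) {v : V} (hv : Sat G H {v}) : g v = 0 := by
  obtain ⟨φ, -, a2⟩ := h
  rw [← a2, hv.cutn_eq, sum_empty]

theorem sum_cutn {M : Type} [AddCommGroup M] (h2 : ∀ x : M, x + x = 0) (φ : E → M) (Y : Set V)
    (H : Set E) : ∑ e ∈ cutn G Y H, φ e =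
      ∑ v ∈ univ.filter (fun v => v ∈ Y), ∑ e ∈ cutn G {v} H, φ e := by
  unfold cutn
  simp only [sum_filter (p := fun e => e ∈ H)]
  exact MG.sum_cut h2 _ Y

theorem bf_br {H : Set E} {g : V → K} (h : g ∈ BF G H) {Y : Set V} (hY : (cutn G Y H).card = 1) :
    ∑ v ∈ univ.filter (fun v => v ∈ Y), g v ≠ 0 := by
  obtain ⟨φ, a1, a2⟩ := h
  obtain ⟨e, he⟩ := card_eq_one.mp hY
  rw [← sum_congr rfl fun v _ => a2 v, ← sum_cutn K.add_self, he, sum_singleton]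
  exact a1 e

theorem bf_sat {H : Set E} {g : V → K} (h : g ∈ BF G H) {Y : Set V} (hY : Sat G H Y) :
    ∑ v ∈ univ.filter (fun v => v ∈ Y), g v = 0 := by
  obtain ⟨φ, a1, a2⟩ := h
  rw [← sum_congr rfl fun v _ => a2 v, ← sum_cutn K.add_self, hY.cutn_eq, sum_empty]

theorem bf_tot {H : Set E} {g : V → K} (h : g ∈ BF G H) : ∑ v, g v = 0 := by
  have := bf_sat h (Y := Set.univ) (fun e he => absurd (by simp) (MG.mem_cut.mp he))
  simpa using this

theorem bf_hd1 {H : Set E} {g : V → K} (h : g ∈ BF G H) {v : V} (hv : hd G H v = 1) : g v ≠ 0 := by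
  obtain ⟨φ, a1, a2⟩ := h
  obtain ⟨e, he⟩ := card_eq_one.mp hv
  rw [← a2, he, sum_singleton]
  exact a1 e

/-- contracting `H` gives a boundary of the rest -/
theorem Crit.bf_ne (hG : Crit G) {H : Set E} (h : ∃ e, G.s e ≠ G.t e ∧ e ∈ H) :
    ∃ g ∈ BF G Hᶜ, ∀ v, Sat G Hᶜ {v} ∨ Sat G H {v} → g v = 0 := by
  obtain ⟨φ, h1, h2⟩ := hG.con h
  refine ⟨_, ⟨φ, h1, fun v => rfl⟩, fun v hv => ?_⟩
  rcases hv with hv | hv
  · rw [hv.cutn_eq, sum_empty]
  · rw [hv.cutn_compl]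
    exact h2 _ hv

/-- a cut that does not separate `S` has not exactly one edge on one side -/
theorem Crit.no_br (hG : Crit G) {H : Set E} {S Y : Set V} (h : Sep G H S)
    (hY : ∀ v ∈ S, v ∉ Y) : (cutn G Y Hᶜ).card ≠ 1 := by
  have k : ∀ {e a b}, G.Joins e a b → a ≠ b → e ∉ H → (a ∈ Y ∧ Sat G H {a} ↔ a ∈ Y) :=
    fun j n he => ⟨fun h => h.1, fun ha => ⟨ha, (h _ fun hs => hY _ hs ha).resolve_left
      fun hs => hs _ (mem_cut1.mpr ⟨_, j, n⟩) he⟩⟩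
  rw [show cutn G Y Hᶜ = G.cut {v | v ∈ Y ∧ Sat G H {v}} from ?_]
  · exact hG.bl _
  · ext e
    have j := MG.joins_self (G := G) e
    simp only [mem_cutn, MG.mem_cut, Set.mem_ofPred_eq, Set.mem_compl_iff]
    by_cases n : G.s e = G.t e
    · simp [n]
    by_cases he : e ∈ H
    · have a : ¬ Sat G H {G.s e} := fun hs => hs e (mem_cut1.mpr ⟨_, j, n⟩) he
      have b : ¬ Sat G H {G.t e} := fun hs => hs e (mem_cut1.mpr ⟨_, j.symm, Ne.symm n⟩) he
      simp [a, b, he]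
    · rw [k j n he, k j.symm (Ne.symm n) he]
      simp [he]

theorem Full.edge {H : Set E} {S Z : Set V} (h : Full G H S Z) {e : E} {x y : V} (hx : x ∈ Z)
    (j : G.Joins e x y) (n : x ≠ y) : e ∈ H :=
  by_contra fun he => h.side x hx e (mem_cut1.mpr ⟨y, j, n⟩) he

theorem Full.hd_pos {H : Set E} {S Z : Set V} (h : Full G H S Z) {a : V} (ha : a ∈ S) :
    1 ≤ hd G H a := by
  obtain ⟨-, x, hx, n, e, j⟩ := h.all a ha
  exact Tw5.hd_pos j.symm n.symm (h.edge hx j n)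

/-- a cut that separates `S` has an edge on the side of a full set -/
theorem Full.cross {H : Set E} {S Z Y : Set V} (h : Full G H S Z) {a b : V} (ha : a ∈ S)
    (hb : b ∈ S) (haY : a ∈ Y) (hbY : b ∉ Y) : 1 ≤ (cutn G Y H).card := by
  by_contra hc
  have h0 : Sat G H Y := fun e h1 h2 => hc (card_pos.mpr ⟨e, mem_cutn.mpr ⟨h1, h2⟩⟩)
  obtain ⟨-, x, hx, n, e, j⟩ := h.all a ha
  obtain ⟨-, y, hy, n', f, j'⟩ := h.all b hb
  refine hbY ((h0.iff j' (h.edge hy j' n')).mp ((h.con x hx y hy).side ?_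
    ((h0.iff j (h.edge hx j n)).mpr haY)))
  rintro u w hu - ⟨n, g, j⟩
  exact (h0.iff j (h.edge hu j n)).mp

theorem full_HE {S Z : Set V} (hc : Con G Z) (h : Nb G Z = S) : Full G (HE G Z) S Z :=
  ⟨hc, fun v hv hs => (h ▸ hs : v ∈ Nb G Z).1 hv, fun _ hv => sat_in hv, fun _ hv => h ▸ hv,
    fun _ hv => h ▸ hv⟩

theorem full_HE' {S Z C : Set V} (hc : Con G Z) (h : Nb G Z = S) (hd : Disjoint Z C)
    (hC : Nb G C ⊆ S) : Full G (HE G C)ᶜ S Z :=
  have k : ∀ v ∈ Z, v ∉ S := fun v hv hs => (h ▸ hs : v ∈ Nb G Z).1 hv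
  ⟨hc, k, fun v hv => by
    rw [compl_compl]
    exact sat_out (Set.disjoint_left.mp hd hv) fun hn => k v hv (hC hn),
    fun _ hv => h ▸ hv, fun _ hv => h ▸ hv⟩

end

end Pool.Agent.Lib.Tw5
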