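import Pool.Agent.Lib.Tw5.Kit

set_option linter.unusedSectionVars false
set_option linter.unusedVariables false

namespace Pool.Agent.Lib.Tw5

open Finset Pool.Agent.Lib.MP_aa6b05_co C

theorem frc_eq {α : Type} (e : ℕ) (k : ℕ → α) : frc e k = k e := by cases e <;> rfl

theorem frz_eq (e : ℕ) (k : ℕ → ℕ) : frz e k = if e = 0 then 0 else k e := by cases e <;> rfl

theorem frz_ne {e : ℕ} {k : ℕ → ℕ} (h : frz e k ≠ 0) : e ≠ 0 ∧ k e ≠ 0 := by
  rw [frz_eq] at h
  split_ifs at h with h0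
  · exact absurd rfl h
  · exact ⟨h0, h⟩

theorem sel_eq {α : Type} (c : Bool) (t f : α) : sel c t f = if c = true then t else f := by
  cases c <;> rfl

@[simp] theorem sel_true {α : Type} (t f : α) : sel true t f = t := rfl

@[simp] theorem sel_false {α : Type} (t f : α) : sel false t f = f := rfl

theorem sel_and {c t : Bool} : sel c t false = true ↔ c = true ∧ t = true := by
  cases c <;> simp

theorem sel_or {c t : Bool} : sel c true t = true ↔ c = true ∨ t = true := by
  cases c <;> simp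

theorem sel_imp {c t : Bool} : sel c t true = true ↔ (c = true → t = true) := by
  cases c <;> simp

theorem sel_not {c t : Bool} : sel c false t = true ↔ ¬ c = true ∧ t = true := by
  cases c <;> simp

theorem sel_ne {c : Bool} {t : ℕ} (h : sel c t 0 ≠ 0) : c = true ∧ t ≠ 0 := by
  cases c
  · exact absurd rfl h
  · exact ⟨rfl, h⟩

theorem sel_beq {α : Type} (a b : ℕ) (t f : α) :
    sel (Nat.beq a b) t f = if a = b then t else f := by
  simp only [sel_eq, Nat.beq_eq]

theorem sel_ble {α : Type} (a b : ℕ) (t f : α) :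
    sel (Nat.ble a b) t f = if a ≤ b then t else f := by
  simp only [sel_eq, Nat.ble_eq]

theorem bit_eq (a : ℕ) : bit a = 2 ^ a := Nat.one_shiftLeft a

theorem fld_eq (w o s : ℕ) : fld w o s = w / 2 ^ o % s := by
  show w >>> o % s = _
  rw [Nat.shiftRight_eq_div_pow]

theorem tb_eq (X i : ℕ) : tb X i = X.testBit i := by
  rw [Nat.testBit_eq_decide_div_mod_eq, Bool.eq_iff_iff, decide_eq_true_iff]
  show Nat.beq (X >>> i % 2) 1 = true ↔ _
  rw [Nat.beq_eq, Nat.shiftRight_eq_div_pow]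

theorem tb_lor {a b i : ℕ} : tb (Nat.lor a b) i = true ↔ tb a i = true ∨ tb b i = true := by
  simp only [tb_eq]
  rw [Nat.lor_eq, Nat.testBit_or, Bool.or_eq_true]

theorem tb_land {a b i : ℕ} : tb (Nat.land a b) i = true ↔ tb a i = true ∧ tb b i = true := by
  simp only [tb_eq]
  rw [Nat.land_eq, Nat.testBit_and, Bool.and_eq_true]

theorem tb_xor {a b i : ℕ} :
    tb (Nat.xor a b) i = true ↔ ¬ (tb a i = true ↔ tb b i = true) := by
  simp only [tb_eq]
  rw [Nat.xor_eq, Nat.testBit_xor]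
  cases a.testBit i <;> cases b.testBit i <;> simp

theorem tb_bit {a i : ℕ} : tb (bit a) i = true ↔ a = i := by
  rw [tb_eq, bit_eq, Nat.testBit_two_pow]
  simp

theorem tb_zero (i : ℕ) : ¬ tb 0 i = true := by simp [tb_eq]

theorem tb_of_ne {a : ℕ} (h : a ≠ 0) : ∃ i, tb a i = true := by
  simpa only [tb_eq] using Nat.exists_testBit_of_ne_zero h

theorem eq_zero_of_tb {a : ℕ} (h : ∀ i, ¬ tb a i = true) : a = 0 := by
  by_contra h0
  obtain ⟨i, hi⟩ := tb_of_ne h0
  exact h i hi

theorem tb_of_land_eq {a b i : ℕ} (h : Nat.land a b = a) (ha : tb a i = true) : tb b i = true :=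
  (tb_land.mp (h.symm ▸ ha)).2

theorem tb_31 {i : ℕ} : tb 31 i = true ↔ i < 5 := by
  rw [tb_eq, show 31 = 2 ^ 5 - 1 from rfl, Nat.testBit_two_pow_sub_one, decide_eq_true_iff]

theorem tb_ONES {i : ℕ} : tb ONES i = true ↔ i < 4096 := by
  rw [tb_eq, show ONES = 2 ^ 4096 - 1 by decide +kernel, Nat.testBit_two_pow_sub_one,
    decide_eq_true_iff]

theorem tb_ON5 {i : ℕ} : tb ON5 i = true ↔ i < 1024 := by
  rw [tb_eq, show ON5 = 2 ^ 1024 - 1 by decide +kernel, Nat.testBit_two_pow_sub_one,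
    decide_eq_true_iff]

theorem lab_lt (μ a : ℕ) : lab μ a < 16 := Nat.mod_lt _ (by decide)

theorem dg_lt (μ a : ℕ) : dg μ a < 8 := Nat.mod_lt _ (by decide)

theorem allN_iff {f : ℕ → Bool} {n : ℕ} : allN f n = true ↔ ∀ i < n, f i = true := by
  induction n with
  | zero => simp [allN]
  | succ n ih =>
    rw [show allN f (n + 1) = sel (f n) (allN f n) false from rfl, sel_and, ih,
      Nat.forall_lt_succ_right, and_comm]

theorem allE_iff {f : ℕ × ℕ → Bool} {l : Es} : allE f l = true ↔ ∀ p ∈ l, f p = true := by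
  induction l with
  | nil => simp [allE]
  | cons a l ih =>
    rw [show allE f (a :: l) = sel (f a) (allE f l) false from rfl, sel_and, ih,
      List.forall_mem_cons]

theorem anyE_iff {f : ℕ × ℕ → Bool} {l : Es} : anyE f l = true ↔ ∃ p ∈ l, f p = true := by
  induction l with
  | nil => simp [anyE]
  | cons a l ih =>
    rw [show anyE f (a :: l) = sel (f a) true (anyE f l) from rfl, sel_or, ih,
      List.exists_mem_cons_iff]

theorem allL_iff {f : ℕ → Bool} {l : List ℕ} : allL f l = true ↔ ∀ p ∈ l, f p = true := by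
  induction l with
  | nil => simp [allL]
  | cons a l ih =>
    rw [show allL f (a :: l) = sel (f a) (allL f l) false from rfl, sel_and, ih,
      List.forall_mem_cons]

theorem anyL_iff {f : ℕ → Bool} {l : List ℕ} : anyL f l = true ↔ ∃ p ∈ l, f p = true := by
  induction l with
  | nil => simp [anyL]
  | cons a l ih =>
    rw [show anyL f (a :: l) = sel (f a) true (anyL f l) from rfl, sel_or, ih,
      List.exists_mem_cons_iff]

theorem jn_iff {p : ℕ × ℕ} {a b : ℕ} : jn p a b = true ↔ a ≠ b ∧ same p (a, b) := by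
  unfold jn same
  simp only [sel_beq]
  split_ifs <;> simp only [Nat.beq_eq, Bool.false_eq_true, false_iff] <;> omega

theorem mem2_iff {es : Es} {a b : ℕ} :
    mem2 es a b = true ↔ a ≠ b ∧ ∃ p ∈ es, same p (a, b) := by
  rw [show mem2 es a b = anyE (fun p => jn p a b) es from rfl, anyE_iff]
  simp only [jn_iff]
  tauto

theorem deg_eq (es : Es) (t : ℕ) :
    deg es t = es.countP (fun p => decide (p.1 = t ∨ p.2 = t)) := by
  induction es with
  | nil => rfl
  | cons a l ih =>
    rw [show deg (a :: l) t = sel (Nat.beq a.1 t) (deg l t + 1)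
      (sel (Nat.beq a.2 t) (deg l t + 1) (deg l t)) from rfl, List.countP_cons, ← ih]
    simp only [sel_beq]
    split_ifs <;> simp_all

theorem tch_of_deg {es : Es} {t : ℕ} (h : 1 ≤ deg es t) : tch es t := by
  rw [deg_eq] at h
  obtain ⟨p, h1, h2⟩ := List.countP_pos_iff.mp h
  exact ⟨p, h1, of_decide_eq_true h2⟩

theorem tb_plm {M pl k t : ℕ} :
    tb (plm M pl k) t = true ↔ ∃ j < k, tb M j = true ∧ dg pl j = t := by
  induction k with
  | zero => simpa [plm] using tb_zero t
  | succ k ih =>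
    rw [show plm M pl (k + 1) = sel (tb M k) (Nat.lor (plm M pl k) (bit (dg pl k))) (plm M pl k)
      from rfl, Nat.exists_lt_succ_right, ← ih, sel_eq]
    split_ifs with h
    · rw [tb_lor, tb_bit]
      simp [h]
    · simp [h]

/-- the facts checked by `tchk` -/
structure TOk (T : ℕ) : Prop where
  k5 : (tm T).1 ≤ 5
  k2 : 2 ≤ (tm T).1
  n7 : (tm T).2 ≤ 7
  pw : (tm T).3.Pairwise (fun p q => ¬ same p q)
  ne : ∀ p ∈ (tm T).3, p.1 ≠ p.2
  rng : ∀ a, tch (tm T).3 a → a < (tm T).1 ∨ (6 ≤ a ∧ a < 6 + (tm T).2)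
  d1 : ∀ j < (tm T).1, 1 ≤ deg (tm T).3 j
  d2 : ∀ j < (tm T).1, tb (tm T).5 j = true → 2 ≤ deg (tm T).3 j

theorem pwE_spec {es : Es} (h : pwE es = true) (hn : ∀ p ∈ es, p.1 ≠ p.2) :
    es.Pairwise (fun p q => ¬ same p q) := by
  induction es with
  | nil => exact List.Pairwise.nil
  | cons a l ih =>
    rw [show pwE (a :: l) = sel (mem2 l a.1 a.2) false (pwE l) from rfl, sel_not, mem2_iff] at h
    refine List.Pairwise.cons (fun q hq hs => h.1 ⟨hn a (by simp), q, hq, ?_⟩)
      (ih h.2 fun p hp => hn p (by simp [hp]))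
    unfold same at hs ⊢
    dsimp only
    omega

theorem tok_of {T : ℕ} (h : tchk T = true) : TOk T := by
  unfold tchk at h
  simp only [sel_and, allE_iff, allN_iff, Nat.ble_eq, sel_not, Nat.beq_eq] at h
  obtain ⟨h1, h2, h3, h4, h5, h6⟩ := h
  have k : ∀ a, sel (Nat.ble 6 a) (Nat.ble a (Nat.add 5 (tm T).2)) (Nat.ble a.succ (tm T).1) = true →
      a < (tm T).1 ∨ (6 ≤ a ∧ a < 6 + (tm T).2) := by
    intro a ha
    rw [sel_ble] at ha
    split_ifs at ha with h <;> simp only [Nat.ble_eq, Nat.add_eq] at ha <;> omega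
  refine ⟨h1, h5, h4, pwE_spec h2 fun p hp => (h3 p hp).2.2.1, fun p hp => (h3 p hp).2.2.1, ?_,
    fun j hj => ?_, fun j hj hb => ?_⟩
  · rintro a ⟨p, hp, rfl | rfl⟩
    exacts [k _ (h3 p hp).1, k _ (h3 p hp).2.1]
  · have := h6 j hj
    rw [sel_eq] at this
    split_ifs at this <;> omega
  · have := h6 j hj
    rwa [hb] at this

theorem tok {T : ℕ} (h : T < 15) : TOk T :=
  tok_of (allN_iff.mp (by decide +kernel : allN tchk 15 = true) T h)

/-! ### Codes -/

theorem kof_xor : ∀ a < 4, ∀ b < 4, kof (a ^^^ b) = kof a + kof b := by decide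

theorem dec_xor (a b t : ℕ) : dec (a ^^^ b) t = dec a t + dec b t := by
  unfold dec
  rw [show (4 : ℕ) ^ t = 2 ^ (2 * t) by rw [pow_mul]; rfl, Nat.xor_div_two_pow,
    show (4 : ℕ) = 2 ^ 2 from rfl, Nat.xor_mod_two_pow]
  exact kof_xor _ (Nat.mod_lt _ (by decide)) _ (Nat.mod_lt _ (by decide))

theorem dec_zero (t : ℕ) : dec 0 t = 0 := by simp [dec, kof]; rfl

theorem dec_of_lt {c k t : ℕ} (h : c < 4 ^ k) (ht : k ≤ t) : dec c t = 0 := by
  unfold dec
  rw [Nat.div_eq_of_lt (lt_of_lt_of_le h (Nat.pow_le_pow_right (by decide) ht))]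
  rfl

theorem dec_single {d : ℕ} (hd : d < 4) (t a : ℕ) :
    dec (d * 4 ^ t) a = if t = a then kof d else 0 := by
  split_ifs with h
  · subst h
    unfold dec
    rw [Nat.mul_div_cancel _ (by positivity), Nat.mod_eq_of_lt hd]
  · rcases Nat.lt_or_gt_of_ne h with h | h
    · refine dec_of_lt (k := t + 1) ?_ h
      rw [pow_succ, mul_comm]
      exact Nat.mul_lt_mul_of_pos_left hd (by positivity)
    · obtain ⟨r, rfl⟩ := Nat.exists_eq_add_of_lt h
      unfold dec
      rw [show d * 4 ^ (a + r + 1) = 4 ^ a * (4 * (d * 4 ^ r)) by ring,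
        Nat.mul_div_cancel_left _ (by positivity), Nat.mul_mod_right]
      rfl

theorem kof_eq_zero {a : ℕ} : kof a = 0 ↔ a = 0 := by
  unfold kof
  split_ifs with h <;> simp only [h, iff_false, iff_true] <;> first | decide | rfl

theorem lt_of_dec {c k : ℕ} (h : ∀ t, k ≤ t → dec c t = 0) : c < 4 ^ k := by
  by_contra hc
  have h0 : c ≠ 0 := fun h0 => hc (h0 ▸ by positivity)
  have h1 : k ≤ Nat.log 4 c := Nat.le_log_of_pow_le (by decide) (not_lt.mp hc)
  have h2 := kof_eq_zero.mp (h _ h1)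
  have h3 : c / 4 ^ Nat.log 4 c < 4 := by
    rw [Nat.div_lt_iff_lt_mul (by positivity), mul_comm, ← pow_succ]
    exact Nat.lt_pow_succ_log_self (by decide) c
  have h4 : 0 < c / 4 ^ Nat.log 4 c := Nat.div_pos (Nat.pow_log_le_self 4 h0) (by positivity)
  omega

theorem exists_kof (x : K) : ∃ d < 4, kof d = x := by revert x; decide

theorem exists_code (x : ℕ → K) (k : ℕ) : ∃ c < 4 ^ k, ∀ t < k, dec c t = x t := by
  induction k with
  | zero => exact ⟨0, by simp, by simp⟩
  | succ k ih =>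
    obtain ⟨c, h1, h2⟩ := ih
    obtain ⟨d, h3, h4⟩ := exists_kof (x k)
    refine ⟨c ^^^ d * 4 ^ k, lt_of_dec fun t ht => ?_, fun t ht => ?_⟩
    · rw [dec_xor, dec_single h3, if_neg (by omega), dec_of_lt h1 (by omega), add_zero]
    · rw [dec_xor, dec_single h3]
      split_ifs with h
      · rw [← h, dec_of_lt h1 le_rfl, zero_add, h4]
      · rw [add_zero, h2 t (by omega)]

theorem vec_apply {V : Type} {σ : ℕ → V} {k c t : ℕ} (hσ : ∀ a < k, ∀ b < k, σ a = σ b → a = b)
    (hk : k ≤ 6) (hc : c < 4 ^ k) (ht : t < k) : vec σ c (σ t) = dec c t := by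
  unfold vec
  rw [sum_eq_single t, if_pos rfl]
  · intro b _ hb
    split_ifs with h
    · by_cases hbk : b < k
      · exact absurd (hσ b hbk t ht h) hb
      · exact dec_of_lt hc (not_lt.mp hbk)
    · rfl
  · intro h
    exact absurd (mem_range.mpr (by omega)) h

theorem vec_out {V : Type} {σ : ℕ → V} {k c : ℕ} {v : V} (hc : c < 4 ^ k)
    (hv : ∀ t < k, σ t ≠ v) : vec σ c v = 0 := by
  refine sum_eq_zero fun b _ => ?_
  split_ifs with h
  · exact dec_of_lt hc (not_lt.mp fun hb => hv b hb h)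
  · rfl

/-- a boundary supported on the slots has a code -/
theorem exists_fs {V E : Type} [Fintype V] [Fintype E] {G : MG V E} {σ : ℕ → V} {k : ℕ}
    (hσ : ∀ a < k, ∀ b < k, σ a = σ b → a = b) (hk : k ≤ 6) {H : Set E} {g : V → K}
    (hg : g ∈ BF G H) (h0 : ∀ v, (∀ t < k, σ t ≠ v) → g v = 0) :
    ∃ c ∈ FS G σ k H, ∀ t < k, dec c t = g (σ t) := by
  obtain ⟨c, h1, h2⟩ := exists_code (fun t => g (σ t)) k
  refine ⟨c, ⟨h1, ?_⟩, h2⟩
  rw [show vec σ c = g from funext fun v => ?_]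
  · exact hg
  · by_cases h : ∃ t < k, σ t = v
    · obtain ⟨t, ht, rfl⟩ := h
      rw [vec_apply hσ hk h1 ht, h2 t ht]
    · push Not at h
      rw [vec_out h1 h, h0 v h]

end Pool.Agent.Lib.Tw5
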