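import Pool.Agent.Lib.Tw5.KitC

set_option linter.unusedSectionVars false
set_option linter.unusedVariables false

namespace Pool.Agent.Lib.Tw5

open Finset Pool.Agent.Lib.MP_aa6b05_co C

open scoped Classical

variable {V E : Type} [Fintype V] [Fintype E] {G : MG V E}

/-! ### Kempe changes -/

theorem df_ind {M : Type} [AddCommMonoid M] (f : E → M) (H : Set E) (v : V) :
    G.df (fun e => if e ∈ H then f e else 0) v = ∑ e ∈ cutn G {v} H, f e := by
  unfold cutn MG.df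
  rw [sum_filter]

theorem kr_add {H : Set E} {φ : E → K} {d : K} {z z' : V → ZMod 2} (h : z ∈ KR G H φ d)
    (h' : z' ∈ KR G H φ d) : (fun v => z v + z' v) ∈ KR G H φ d := by
  obtain ⟨J, a1, a2⟩ := h
  obtain ⟨J', b1, b2⟩ := h'
  refine ⟨fun e => J e + J' e, fun e he => ?_, fun v => by rw [MG.df_add, a2, b2]⟩
  by_cases h0 : J e = 0
  · exact b1 e (by simpa [h0] using he)
  · exact a1 e h0

theorem kr_zero (H : Set E) (φ : E → K) (d : K) : (fun _ => 0) ∈ KR G H φ d :=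
  ⟨fun _ => 0, by simp, fun v => by simp [MG.df]⟩

theorem kr_odd {H : Set E} {φ : E → K} {d : K} (hd : d ≠ 0) {g : V → K}
    (hg : ∀ v, ∑ e ∈ cutn G {v} H, φ e = g v) : (fun v => lam d (g v)) ∈ KR G H φ d := by
  refine ⟨fun e => if e ∈ H then lam d (φ e) else 0, fun e he => ?_, fun v => ?_⟩
  · by_cases h : e ∈ H
    · exact ⟨h, by simpa [h] using he⟩
    · simp [h] at he
  · beta_reduce
    rw [df_ind, ← hg]
    exact (map_sum (AddMonoidHom.mk' (lam d) (lam_add d hd)) φ _).symm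

theorem kr_split {H : Set E} {φ : E → K} {d : K} {z : V → ZMod 2} (h : z ∈ KR G H φ d) {u : V}
    (hu : z u ≠ 0) : ∃ w, w ≠ u ∧ z w ≠ 0 ∧
      (fun v => (if v = u then 1 else 0) + (if v = w then 1 else 0)) ∈ KR G H φ d := by
  obtain ⟨J, a1, a2⟩ := h
  obtain ⟨w, h1, h2, J', h3, h4⟩ := MG.tjoin (G := G) J u (by rwa [a2])
  exact ⟨w, h1, by rwa [← a2], J', fun e he => a1 e (h3 e he), h4⟩

theorem kr_edge {H : Set E} {φ : E → K} {d : K} {e : E} {a b : V} (j : G.Joins e a b)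
    (he : e ∈ H) (hl : lam d (φ e) ≠ 0) :
    (fun v => (if v = a then 1 else 0) + (if v = b then 1 else 0)) ∈ KR G H φ d := by
  refine ⟨fun f => if f = e then 1 else 0, fun f hf => ?_, MG.df_single zmod2_add_self j 1⟩
  by_cases h : f = e
  · exact h ▸ ⟨he, hl⟩
  · simp [h] at hf

theorem kr_bf {H : Set E} {φ : E → K} {d : K} (h0 : ∀ e, φ e ≠ 0) {g : V → K}
    (hg : ∀ v, ∑ e ∈ cutn G {v} H, φ e = g v) {z : V → ZMod 2} (h : z ∈ KR G H φ d) :
    (fun v => g v + sm (z v) d) ∈ BF G H := by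
  obtain ⟨J, a1, a2⟩ := h
  refine ⟨fun e => φ e + sm (J e) d, fun e => kempe_ne d _ _ (h0 e) fun h => (a1 e h).2,
    fun v => ?_⟩
  beta_reduce
  rw [sum_add_distrib, hg, ← a2, ← MG.df_hom (fun j => sm j d) (sm_add d), ← df_ind]
  congr 2
  funext e
  split_ifs with h
  · rfl
  · have : J e = 0 := by_contra fun h' => h (a1 e h').1
    simp [this, sm]

/-! ### Embedded graphs -/

theorem tch1 {es : Es} {p : ℕ × ℕ} (h : p ∈ es) : tch es p.1 := ⟨p, h, Or.inl rfl⟩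

theorem tch2 {es : Es} {p : ℕ × ℕ} (h : p ∈ es) : tch es p.2 := ⟨p, h, Or.inr rfl⟩

theorem same_symm {p q : ℕ × ℕ} (h : same p q) : same q p := by
  unfold same at h ⊢
  omega

theorem Emb.same_of {ι : ℕ → V} {es : Es} {H : Set E} (h : Emb G ι es H) {p q : ℕ × ℕ}
    (hp : p ∈ es) (hq : q ∈ es) {e : E} (j1 : G.Joins e (ι p.1) (ι p.2))
    (j2 : G.Joins e (ι q.1) (ι q.2)) : same p q := by
  rcases joins_cases j1 j2 with ⟨a, b⟩ | ⟨a, b⟩
  · exact Or.inl ⟨h.inj _ _ (tch1 hp) (tch1 hq) a, h.inj _ _ (tch2 hp) (tch2 hq) b⟩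
  · exact Or.inr ⟨h.inj _ _ (tch1 hp) (tch2 hq) a, h.inj _ _ (tch2 hp) (tch1 hq) b⟩

theorem Emb.eps (hG : Crit G) {ι : ℕ → V} {es : Es} {H : Set E} (h : Emb G ι es H) :
    ∃ ε : ℕ × ℕ → E, (∀ p ∈ es, G.Joins (ε p) (ι p.1) (ι p.2)) ∧
      H = {e | ∃ p ∈ es, ε p = e} ∧ (es.map ε).Nodup := by
  obtain ⟨e0, -⟩ := hG.ex
  have : ∀ p : ℕ × ℕ, ∃ e, p ∈ es → G.Joins e (ι p.1) (ι p.2) := fun p => by
    by_cases hp : p ∈ es
    · exact (h.adj p hp).2.imp fun _ j _ => j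
    · exact ⟨e0, fun h => absurd h hp⟩
  choose ε hε using this
  refine ⟨ε, hε, Set.ext fun e => (h.mem e).trans ⟨?_, ?_⟩, ?_⟩
  · rintro ⟨p, hp, j⟩
    exact ⟨p, hp, by_contra fun n => hG.par _ _ _ _ n (h.adj p hp).1 (hε p hp) j⟩
  · rintro ⟨p, hp, rfl⟩
    exact ⟨p, hp, hε p hp⟩
  · rw [List.Nodup, List.pairwise_map]
    exact h.pw.imp_of_mem fun hp hq n e => n (h.same_of hp hq (hε _ hp) (e ▸ hε _ hq))

theorem sum_list {M : Type} [AddCommMonoid M] {ι : ℕ → V} {ε : ℕ × ℕ → E} {l : Es}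
    (hn : (l.map ε).Nodup) (hj : ∀ p ∈ l, G.Joins (ε p) (ι p.1) (ι p.2)) (Y : Set V) (f : E → M) :
    ∑ e ∈ cutn G Y {e | ∃ p ∈ l, ε p = e}, f e =
      (l.map fun p => if ¬ (ι p.1 ∈ Y ↔ ι p.2 ∈ Y) then f (ε p) else 0).sum := by
  have : cutn G Y {e | ∃ p ∈ l, ε p = e} = (l.map ε).toFinset.filter (fun e => e ∈ G.cut Y) := by
    ext e
    simp only [mem_cutn, mem_filter, List.mem_toFinset, List.mem_map, Set.mem_ofPred_eq]
    exact and_comm
  rw [this, sum_filter, List.sum_toFinset _ hn, List.map_map]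
  congr 1
  refine List.map_congr_left fun p hp => ?_
  simp only [Function.comp, (hj p hp).mem_cut]

theorem Emb.hd_eq (hG : Crit G) {ι : ℕ → V} {es : Es} {H : Set E} (h : Emb G ι es H) {t : ℕ}
    (ht : ∀ a, tch es a → ι a = ι t → a = t) : hd G H (ι t) = deg es t := by
  obtain ⟨ε, h1, h2, h3⟩ := h.eps hG
  have k : ∀ l : Es, l.countP (fun p => decide (p.1 = t ∨ p.2 = t)) =
      (l.map fun p => if p.1 = t ∨ p.2 = t then 1 else 0).sum := by
    intro l
    induction l with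
    | nil => rfl
    | cons a l ih => simp [List.countP_cons, ← ih, add_comm]
  rw [hd, card_eq_sum_ones, h2, sum_list h3 h1, deg_eq, k]
  congr 1
  refine List.map_congr_left fun p hp => if_congr ?_ rfl rfl
  have n := (h.adj p hp).1
  simp only [Set.mem_singleton_iff]
  constructor
  · intro h'
    by_cases a : ι p.1 = ι t
    · exact Or.inl (ht _ (tch1 hp) a)
    · exact Or.inr (ht _ (tch2 hp) (by tauto))
  · rintro (rfl | rfl) h'
    · exact n (h'.mp rfl).symm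
    · exact n (h'.mpr rfl)

theorem Emb.perm {ι : ℕ → V} {es es' : Es} {H : Set E} (h : Emb G ι es H) (hp : es'.Perm es) :
    Emb G ι es' H := by
  have k : ∀ a, tch es' a → tch es a := fun a ⟨p, h1, h2⟩ => ⟨p, hp.subset h1, h2⟩
  refine ⟨fun a b ha hb => h.inj a b (k a ha) (k b hb), fun p hp' => h.adj p (hp.subset hp'),
    fun e => ?_, (hp.pairwise_iff fun h1 h2 => h1 (same_symm h2)).mpr h.pw,
    fun a ha => h.cl a (k a ha)⟩
  simp only [h.mem, hp.mem_iff]

theorem Emb.nodup {ι : ℕ → V} {es : Es} {H : Set E} (h : Emb G ι es H) : es.Nodup :=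
  h.pw.imp fun n e => n (Or.inl ⟨congrArg _ e, congrArg _ e⟩)

/-! ### Adding a piece -/

theorem addE_eq {α : Type} (pl o : ℕ) (k : Es → α) (l es : Es) :
    addE pl o k l es = k ((l.map fun p => (pv pl o p.1, pv pl o p.2)).reverse ++ es) := by
  induction l generalizing es with
  | nil => rfl
  | cons a l ih =>
    rw [show addE pl o k (a :: l) es = frc (pv pl o a.1) fun x => frc (pv pl o a.2) fun y =>
      addE pl o k l ((x, y) :: es) from rfl, frc_eq, frc_eq, ih]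
    simp

theorem addL_eq (st : St) (u : ℕ) : addL st u =
    ((tm (uT u)).3.map fun p => (pv (uP u) st.1 p.1, pv (uP u) st.1 p.2)).reverse ++ st.2 := by
  rw [addL, addU, frc_eq, addE_eq]
  rfl

theorem addU_eq {α : Type} (st : St) (u : ℕ) (k : Es → α) : addU st u k = k (addL st u) := by
  rw [addL_eq, addU, frc_eq, addE_eq]

theorem addS_eq (st : St) (u : ℕ) : addS st u =
    ⟨st.1 + (tm (uT u)).2, addL st u, Nat.lor st.3 (u1 u),
      Nat.lor (Nat.lor st.4 (u2 u)) (Nat.land st.3 (u1 u)), Nat.lor st.5 (uC u),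
      Nat.lor st.6 (Nat.lor (Nat.land st.5 (u1 u)) (Nat.land st.3 (uC u))), addF st u⟩ := by
  simp only [addS, add, addU_eq, frc_eq]
  rfl

theorem add_eq {α : Type} (st : St) (u : ℕ) (k : St → α) : add st u k = k (addS st u) := by
  simp only [addS_eq, add, addU_eq, frc_eq]
  rfl

theorem pv_eq (pl o a : ℕ) : pv pl o a = if 6 ≤ a then a + o else dg pl a := sel_ble _ _ _ _

theorem Cx.dj {md k : ℕ} {σ : ℕ → V} {C D : Set V} (h : Cx G md k σ C D) :
    Disjoint (HE G C) (HE G D) := by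
  rw [Set.disjoint_left]
  intro e h1 h2
  obtain ⟨a, b, j, n, ha⟩ := exists_of_HE h2
  by_cases h0 : md = 0
  · exact (h.mn h0).2.fd.side a ha e (mem_cut1.mpr ⟨b, j, n⟩) (by simpa using h1)
  · rw [(h.rt h0).2] at ha
    exact ha

end Pool.Agent.Lib.Tw5
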