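import Pool.Agent.Lib.MP_aa6b05_co.Split
import Pool.Agent.Lib.Tw5.Chk

set_option linter.unusedSectionVars false
set_option linter.unusedVariables false

/-! Semantic definitions for the tree-width 5 theorem. -/

namespace Pool.Agent.Lib.Tw5

open Finset Pool.Agent.Lib.MP_aa6b05_co C

open scoped Classical

noncomputable section

variable {V E : Type} [Fintype V] [Fintype E]

def Ad (G : MG V E) (a b : V) : Prop := a ≠ b ∧ ∃ e, G.Joins e a b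

/-- not isolated -/
def Ni (G : MG V E) (v : V) : Prop := ∃ w, Ad G v w

def Cn (G : MG V E) (A : Set V) (a b : V) : Prop :=
  Relation.ReflTransGen (fun x y => x ∈ A ∧ y ∈ A ∧ Ad G x y) a b

def Con (G : MG V E) (A : Set V) : Prop := ∀ u ∈ A, ∀ w ∈ A, Cn G A u w

def Nb (G : MG V E) (Z : Set V) : Set V := {w | w ∉ Z ∧ ∃ u ∈ Z, Ad G u w}

/-- the component of `u` in `G - X` -/
def cmp (G : MG V E) (X : Set V) (u : V) : Set V := {w | Cn G Xᶜ u w}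

/-- the non-loop edges with an end in `Z` -/
def HE (G : MG V E) (Z : Set V) : Set E := {e | G.s e ≠ G.t e ∧ (G.s e ∈ Z ∨ G.t e ∈ Z)}

/-- elimination order of width 5 -/
def EO (G : MG V E) : Prop :=
  ∃ ρ : V → ℕ, Function.Injective ρ ∧ ∀ v, (Nb G (cmp G {x | ρ v < ρ x} v)).ncard ≤ 5

def PEs : List (ℕ × ℕ) := [(0, 1), (1, 2), (2, 3), (3, 4), (4, 0), (5, 7), (7, 9), (9, 6), (6, 8),
  (8, 5), (0, 5), (1, 6), (2, 7), (3, 8), (4, 9)]

def HasP (G : MG V E) : Prop :=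
  ∃ B : ℕ → Set V, (∀ i < 10, Con G (B i)) ∧
    (∀ i < 10, ∀ j < 10, i ≠ j → Disjoint (B i) (B j)) ∧
    ∀ p ∈ PEs, ∃ u ∈ B p.1, ∃ w ∈ B p.2, Ad G u w

/-- `G'` is the minor of `G` with vertex map `π`; deleted edges become loops -/
def Mnr (G G' : MG V E) (π : V → V) : Prop :=
  (∀ u w, π u = π w → Cn G {x | π x = π u} u w) ∧
    ∀ e, G'.s e = G'.t e ∨ (G'.s e = π (G.s e) ∧ G'.t e = π (G.t e))

/-- the edges of `A` in the cut of `Y` -/
def cutn (G : MG V E) (Y : Set V) (A : Set E) : Finset E := (G.cut Y).filter (fun e => e ∈ A)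

/-- no edge of `A` leaves `Y` -/
def Sat (G : MG V E) (A : Set E) (Y : Set V) : Prop := ∀ e ∈ G.cut Y, e ∉ A

/-- a minor-minimal counterexample; `red A D` contracts `A` and deletes `D` -/
structure Crit (G : MG V E) : Prop where
  bl : G.Bl
  nc : ¬ G.Col
  np : ¬ HasP G
  eo : EO G
  red : ∀ A D : Set E, (∃ e, G.s e ≠ G.t e ∧ (e ∈ A ∨ e ∈ D)) →
    (∀ Y, Sat G A Y → (cutn G Y Dᶜ).card ≠ 1) →
    ∃ φ : E → K, (∀ e, φ e ≠ 0) ∧ ∀ Y, Sat G A Y → ∑ e ∈ cutn G Y Dᶜ, φ e = 0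

/-- boundaries of the nowhere-zero assignments on `H` -/
def BF (G : MG V E) (H : Set E) : Set (V → K) :=
  {g | ∃ φ : E → K, (∀ e, φ e ≠ 0) ∧ ∀ v, ∑ e ∈ cutn G {v} H, φ e = g v}

/-- number of non-loop edges of `H` at `v` -/
def hd (G : MG V E) (H : Set E) (v : V) : ℕ := (cutn G {v} H).card

/-- outside `S` every vertex lies on one side -/
def Sep (G : MG V E) (H : Set E) (S : Set V) : Prop :=
  ∀ v, v ∉ S → Sat G Hᶜ {v} ∨ Sat G H {v}

/-- `Z` is a connected set outside `S`, on the side `H`, adjacent to all of `S` -/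
structure Full (G : MG V E) (H : Set E) (S Z : Set V) : Prop where
  con : Con G Z
  out : ∀ v ∈ Z, v ∉ S
  side : ∀ v ∈ Z, Sat G Hᶜ {v}
  nb : ∀ v ∈ Nb G Z, v ∈ S
  all : ∀ v ∈ S, v ∈ Nb G Z

/-- a claw, a `K₁,₄` or two adjacent cubic vertices -/
def Small (G : MG V E) (Z : Set V) : Prop :=
  (∃ y, Z = {y} ∧ (G.d {y} = 3 ∨ G.d {y} = 4)) ∨
    ∃ y z, Z = {y, z} ∧ Ad G y z ∧ G.d {y} = 3 ∧ G.d {z} = 3

def kof (a : ℕ) : K := if a = 0 then .k0 else if a = 1 then .k1 else if a = 2 then .k2 else .k3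

def dec (c t : ℕ) : K := kof (c / 4 ^ t % 4)

def vec (σ : ℕ → V) (c : ℕ) : V → K := fun v => ∑ t ∈ range 6, if σ t = v then dec c t else 0

def FS (G : MG V E) (σ : ℕ → V) (k : ℕ) (H : Set E) : Set ℕ := {c | c < 4 ^ k ∧ vec σ c ∈ BF G H}

def tch (es : Es) (a : ℕ) : Prop := ∃ p ∈ es, p.1 = a ∨ p.2 = a

def same (p q : ℕ × ℕ) : Prop := (p.1 = q.1 ∧ p.2 = q.2) ∨ (p.1 = q.2 ∧ p.2 = q.1)

/-- the edge set `H` is the image of the graph `es`; the codes from `6` on have all their edges -/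
structure Emb (G : MG V E) (ι : ℕ → V) (es : Es) (H : Set E) : Prop where
  inj : ∀ a b, tch es a → tch es b → ι a = ι b → a = b
  adj : ∀ p ∈ es, Ad G (ι p.1) (ι p.2)
  mem : ∀ e, e ∈ H ↔ ∃ p ∈ es, G.Joins e (ι p.1) (ι p.2)
  pw : es.Pairwise (fun p q => ¬ same p q)
  cl : ∀ a, tch es a → 6 ≤ a → Sat G Hᶜ {ι a}

def TmE (G : MG V E) (τ : ℕ → V) (T : ℕ) (H : Set E) : Prop :=
  Emb G τ (tm T).3 H ∧ ∀ j < (tm T).1, tb (tm T).4 j = true → hd G Hᶜ (τ j) ≤ 1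

def StdT (G : MG V E) (T : ℕ) (Z : Set V) : Prop :=
  T < 15 ∧ ∃ τ, TmE G τ T (HE G Z) ∧ (∀ j < (tm T).1, τ j ∉ Z) ∧
    ∀ a, tch (tm T).3 a → 6 ≤ a → τ a ∈ Z

def Std (G : MG V E) (Z : Set V) : Prop := ∃ T, StdT G T Z

/-- a piece of type `T` with terminals in `Ω` and inner vertices outside -/
def PcT (G : MG V E) (Ω W : Set V) (T : ℕ) (H : Set E) : Prop :=
  T < 15 ∧ ∃ τ, TmE G τ T H ∧ (∀ j < (tm T).1, τ j ∈ Ω) ∧ (∃ j < (tm T).1, τ j ∈ W) ∧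
    ∀ a, tch (tm T).3 a → 6 ≤ a → τ a ∉ Ω

/-- the placed piece `u` -/
def Pc (G : MG V E) (σ : ℕ → V) (k u : ℕ) (H : Set E) : Prop :=
  okU u = true ∧ uT u < 15 ∧ ∃ τ, TmE G τ (uT u) H ∧
    (∀ j < (tm (uT u)).1, dg (uP u) j < k ∧ τ j = σ (dg (uP u) j)) ∧
    ∀ a, tch (tm (uT u)).3 a → 6 ≤ a → ∀ t < k, τ a ≠ σ t

structure Mn (G : MG V E) (σ : ℕ → V) (C D : Set V) : Prop where
  fc : Full G (HE G C) (σ '' {t | t < 5}) C
  fd : Full G (HE G C)ᶜ (σ '' {t | t < 5}) D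
  v : σ 5 ∈ C

structure Cx (G : MG V E) (md k : ℕ) (σ : ℕ → V) (C D : Set V) : Prop where
  cr : Crit G
  inj : ∀ a < k, ∀ b < k, σ a = σ b → a = b
  le : k ≤ 6
  m1 : md = 1 → k ≤ 5
  rt : md ≠ 0 → C = Set.univ ∧ D = ∅
  mn : md = 0 → k = 6 ∧ Mn G σ C D

structure InvI (G : MG V E) (k : ℕ) (σ : ℕ → V) (C D : Set V) (st : St) (H : Set E)
    (ι : ℕ → V) : Prop where
  emb : Emb G ι st.2 H
  slot : ∀ t < 6, ι t = σ t
  rng : ∀ a, tch st.2 a → a < k ∨ (6 ≤ a ∧ a < 6 + st.1 ∧ ∀ t < k, ι a ≠ σ t)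
  sub : H ⊆ HE G C
  t1 : ∀ t < k, tb st.3 t = true → 1 ≤ hd G (H ∪ HE G D) (σ t)
  t2 : ∀ t < k, tb st.4 t = true → 2 ≤ hd G (H ∪ HE G D) (σ t)
  c : ∀ t < k, tb st.5 t = true → hd G Hᶜ (σ t) ≤ 1
  s : ∀ t < k, tb st.6 t = true → hd G (H ∪ HE G D)ᶜ (σ t) = 0
  F : ∀ c, tb st.7 c = true → c ∈ FS G σ k H

def Inv (G : MG V E) (k : ℕ) (σ : ℕ → V) (C D : Set V) (st : St) (H : Set E) : Prop :=
  ∃ ι, InvI G k σ C D st H ι

structure Rest (G : MG V E) (k : ℕ) (σ : ℕ → V) (C : Set V) (cand : List ℕ) (H : Set E)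
    (P : Set (Set E)) : Prop where
  pc : ∀ A ∈ P, ∃ u ∈ cand, Pc G σ k u A
  sub : ∀ A ∈ P, A ⊆ HE G C
  dj : ∀ A ∈ P, Disjoint A H
  pw : ∀ A ∈ P, ∀ B ∈ P, A ≠ B → Disjoint A B
  cov : ∀ e ∈ HE G C, e ∈ H ∨ ∃ A ∈ P, e ∈ A

def Goal (G : MG V E) (md : ℕ) (C : Set V) : Prop := md = 0 ∧ Std G C

def Ok (G : MG V E) (md k : ℕ) (σ : ℕ → V) (C D : Set V) (st : St) (cand : List ℕ) : Prop :=
  ∀ H P, Inv G k σ C D st H → Rest G k σ C cand H P → Goal G md C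

/-- the state after adding a piece -/
def addS (st : St) (u : ℕ) : St := add st u id

/-- the edge list after adding a piece -/
def addL (st : St) (u : ℕ) : Es := addU st u id

/-- a model of the graph `es` -/
structure Model (G : MG V E) (B : ℕ → Set V) (es : Es) : Prop where
  con : ∀ a, tch es a → Con G (B a)
  dj : ∀ a b, tch es a → tch es b → a ≠ b → Disjoint (B a) (B b)
  adj : ∀ p ∈ es, ∃ u ∈ B p.1, ∃ w ∈ B p.2, Ad G u w

/-- boundary of an assignment of values to the edges of a list -/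
def bdl (f : ℕ → ℕ) (es : Es) (ψ : ℕ × ℕ → K) (a : ℕ) : K :=
  (es.map fun p => (if f p.1 = a then ψ p else 0) + (if f p.2 = a then ψ p else 0)).sum

/-- boundaries of the edge sets inside the Kempe subgraph -/
def KR (G : MG V E) (H : Set E) (φ : E → K) (d : K) : Set (V → ZMod 2) :=
  {z | ∃ J : E → ZMod 2, (∀ e, J e ≠ 0 → e ∈ H ∧ lam d (φ e) ≠ 0) ∧ ∀ v, G.df J v = z v}

/-- the statement checked for one first piece -/
def Lead (md r : ℕ) (cand : List ℕ) : Prop :=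
  ∀ {V E : Type} [Fintype V] [Fintype E] (G : MG V E) (k : ℕ) (σ : ℕ → V) (C D : Set V),
    Cx G md k σ C D → Ok G md k σ C D (addS (init md) r) cand

def SubOk (md r : ℕ) (al : List ℕ) (i : ℕ) : Prop :=
  ∀ {V E : Type} [Fintype V] [Fintype E] (G : MG V E) (k : ℕ) (σ : ℕ → V) (C D : Set V),
    Cx G md k σ C D → ∀ x tl, drp al i = x :: tl →
      Ok G md k σ C D (addS (addS (init md) r) x) (x :: tl)

end

end Pool.Agent.Lib.Tw5
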